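import Pool.Agent.T2h52.SP.Stm
import Pool.Agent.H888R2.KT.N0

/-!
# SUD: dual Sudakov for the gauge and balls of radius `ρ`
-/

set_option autoImplicit false
set_option linter.all false

namespace Pool.Agent.T2h52.SP

open MeasureTheory Set Filter Topology
open scoped ENNReal InnerProductSpace Pointwise
open Pool.Agent.H888R2.KT (gs gc gc_pos)

namespace Sud

variable {d : ℕ}

/-- the weight -/
noncomputable def W (y : E d) : ℝ := Real.exp (-(‖y‖ ^ 2 / 2))

lemma W_pos (y : E d) : 0 < W y := Real.exp_pos _

lemma W_cont : Continuous (W : E d → ℝ) := by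
  unfold W
  fun_prop

lemma W_int : Integrable (W : E d → ℝ) := by
  have h := (gc_pos (κ := Fin d) 1 one_pos).2.2.1 0
  refine h.congr (Eventually.of_forall fun y => ?_)
  simp [W]

lemma W_int1 : Integrable fun y : E d => ‖y‖ * W y := by
  have h := (gc_pos (κ := Fin d) 1 one_pos).2.2.2 0
  refine h.congr (Eventually.of_forall fun y => ?_)
  simp [W]

lemma W_neg (y : E d) : W (-y) = W y := by
  unfold W
  rw [norm_neg]

lemma W_shift (u v : E d) : 2 * (Real.exp (-(‖v‖ ^ 2 / 2)) * W u) ≤ W (u + v) + W (u - v) := by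
  have h1 : W (u + v) = Real.exp (-(‖v‖ ^ 2 / 2)) * W u * Real.exp (-⟪u, v⟫_ℝ) := by
    unfold W
    rw [← Real.exp_add, ← Real.exp_add, norm_add_sq_real]
    congr 1
    ring
  have h2 : W (u - v) = Real.exp (-(‖v‖ ^ 2 / 2)) * W u * Real.exp ⟪u, v⟫_ℝ := by
    unfold W
    rw [← Real.exp_add, ← Real.exp_add, norm_sub_sq_real]
    congr 1
    ring
  rw [h1, h2]
  have h3 : 2 ≤ Real.exp (-⟪u, v⟫_ℝ) + Real.exp ⟪u, v⟫_ℝ := by
    have := Real.one_le_cosh ⟪u, v⟫_ℝ
    rw [Real.cosh_eq] at this
    linarith
  have h4 : 0 < Real.exp (-(‖v‖ ^ 2 / 2)) * W u := mul_pos (Real.exp_pos _) (W_pos u)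
  nlinarith

/-- weight of a translate -/
noncomputable def F (A : Set (E d)) (v : E d) : ℝ :=
  ∫ y : E d, A.indicator (fun _ => (1 : ℝ)) (y - v) * W y

lemma F_int {A : Set (E d)} (hA : MeasurableSet A) (v : E d) :
    Integrable fun y : E d => A.indicator (fun _ => (1 : ℝ)) (y - v) * W y := by
  refine W_int.bdd_mul (c := 1) ?_ (Eventually.of_forall fun y => ?_)
  · exact ((measurable_const.indicator hA).comp (measurable_id.sub_const v)).aestronglyMeasurable
  · by_cases h : y - v ∈ A
    · rw [indicator_of_mem h, norm_one]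
    · rw [indicator_of_notMem h, norm_zero]
      exact zero_le_one

lemma F_shift {A : Set (E d)} (hA : MeasurableSet A) (hs : ∀ u ∈ A, -u ∈ A) (v : E d) :
    Real.exp (-(‖v‖ ^ 2 / 2)) * F A 0 ≤ F A v := by
  have hs' : ∀ u : E d, A.indicator (fun _ => (1 : ℝ)) (-u) = A.indicator (fun _ => (1 : ℝ)) u := by
    intro u
    by_cases h : u ∈ A
    · rw [indicator_of_mem h, indicator_of_mem (hs u h)]
    · rw [indicator_of_notMem h, indicator_of_notMem]
      intro h'
      apply h
      have := hs _ h'
      rwa [neg_neg] at this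
  have e1 : F A v = ∫ u : E d, A.indicator (fun _ => (1 : ℝ)) u * W (u + v) := by
    unfold F
    rw [← integral_add_right_eq_self _ v]
    refine integral_congr_ae (Eventually.of_forall fun u => ?_)
    simp only
    rw [add_sub_cancel_right]
  have e2 : F A v = ∫ u : E d, A.indicator (fun _ => (1 : ℝ)) u * W (u - v) := by
    rw [e1, ← integral_neg_eq_self]
    refine integral_congr_ae (Eventually.of_forall fun u => ?_)
    simp only
    rw [hs' u, ← W_neg (-u + v)]
    congr 2
    abel
  have i1 : Integrable fun u : E d => A.indicator (fun _ => (1 : ℝ)) u * W (u + v) := by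
    have h := (F_int hA v).comp_add_right v
    refine h.congr (Eventually.of_forall fun u => ?_)
    simp only
    rw [add_sub_cancel_right]
  have i2 : Integrable fun u : E d => A.indicator (fun _ => (1 : ℝ)) u * W (u - v) := by
    have h := (F_int hA (-v)).comp_add_right (-v)
    refine h.congr (Eventually.of_forall fun u => ?_)
    simp only
    rw [sub_neg_eq_add, neg_add_cancel_right, sub_eq_add_neg]
  have i0 : Integrable fun u : E d => A.indicator (fun _ => (1 : ℝ)) u * W u := by
    have h := F_int hA (0 : E d)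
    refine h.congr (Eventually.of_forall fun u => ?_)
    simp only
    rw [sub_zero]
  have e0 : F A 0 = ∫ u : E d, A.indicator (fun _ => (1 : ℝ)) u * W u := by
    unfold F
    simp only [sub_zero]
  have e3 : 2 * F A v = ∫ u : E d, (A.indicator (fun _ => (1 : ℝ)) u * W (u + v) +
      A.indicator (fun _ => (1 : ℝ)) u * W (u - v)) := by
    rw [integral_add i1 i2, ← e1, ← e2]
    ring
  have e4 : 2 * (Real.exp (-(‖v‖ ^ 2 / 2)) * F A 0) = ∫ u : E d,
      (2 * Real.exp (-(‖v‖ ^ 2 / 2))) * (A.indicator (fun _ => (1 : ℝ)) u * W u) := by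
    rw [integral_const_mul, e0]
    ring
  have h5 : 2 * (Real.exp (-(‖v‖ ^ 2 / 2)) * F A 0) ≤ 2 * F A v := by
    rw [e3, e4]
    refine integral_mono (i0.const_mul _) (i1.add i2) fun u => ?_
    simp only
    rw [← mul_add]
    have h6 := W_shift u v
    by_cases h : u ∈ A
    · rw [indicator_of_mem h]
      linarith
    · rw [indicator_of_notMem h]
      simp
  linarith

end Sud

open Sud in
theorem sud : T_SUD := by
  classical
  intro d P hd hP l hl hgm ρ ε hρ hε
  have hP0 : P ∈ 𝓝 (0 : E d) := mem_interior_iff_mem_nhds.1 hP.int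
  have habs : Absorbent ℝ P := absorbent_nhds_zero hP0
  have hcont : Continuous (gauge P) := continuous_gauge hP.conv hP0
  have hneg : ∀ x, gauge P (-x) = gauge P x := gauge_neg hP.sym
  have hadd : ∀ x y, gauge P (x + y) ≤ gauge P x + gauge P y := gauge_add_le hP.conv habs
  -- the set
  set A : Set (E d) := {y | gauge P y ≤ 2 * l} with hAdef
  have hA : MeasurableSet A := (isClosed_le hcont continuous_const).measurableSet
  have hAs : ∀ u ∈ A, -u ∈ A := fun u hu => by
    change gauge P (-u) ≤ 2 * l
    rw [hneg]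
    exact hu
  -- the total weight
  set Z : ℝ := ∫ y : E d, W y with hZ
  have hZpos : 0 < Z := integral_exp_pos W_int
  have hgm' : ∫ y : E d, gauge P y * W y ≤ l * Z := by
    unfold gm at hgm
    change Z⁻¹ * (∫ y : E d, gauge P y * W y) ≤ l at hgm
    rwa [inv_mul_le_iff₀ hZpos, mul_comm Z l] at hgm
  have hgint : Integrable fun y : E d => gauge P y * W y := by
    obtain ⟨r, hr, hball⟩ := Metric.mem_nhds_iff.1 hP0
    refine (W_int1.const_mul r⁻¹).mono' (by have := W_cont (d := d); fun_prop)
      (Eventually.of_forall fun y => ?_)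
    have h1 := mul_gauge_le_norm (x := y) hball
    rw [norm_mul, Real.norm_eq_abs, Real.norm_eq_abs, abs_of_nonneg (gauge_nonneg y),
      abs_of_pos (W_pos y), ← mul_assoc]
    refine mul_le_mul_of_nonneg_right ?_ (W_pos y).le
    rw [← div_eq_inv_mul, le_div_iff₀ hr, mul_comm]
    exact h1
  -- Markov
  have hF0 : Z / 2 ≤ F A 0 := by
    have i0 : Integrable fun u : E d => A.indicator (fun _ => (1 : ℝ)) u * W u := by
      have h := F_int hA (0 : E d)
      refine h.congr (Eventually.of_forall fun u => ?_)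
      simp only
      rw [sub_zero]
    have e0 : F A 0 = ∫ u : E d, A.indicator (fun _ => (1 : ℝ)) u * W u := by
      unfold F
      simp only [sub_zero]
    have h1 : Z ≤ F A 0 + (2 * l)⁻¹ * ∫ y : E d, gauge P y * W y := by
      rw [e0, ← integral_const_mul, ← integral_add i0 (hgint.const_mul _)]
      refine integral_mono W_int (i0.add (hgint.const_mul _)) fun y => ?_
      simp only
      by_cases h : y ∈ A
      · rw [indicator_of_mem h, one_mul]
        have : 0 ≤ (2 * l)⁻¹ * (gauge P y * W y) :=
          mul_nonneg (by positivity) (mul_nonneg (gauge_nonneg y) (W_pos y).le)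
        linarith
      · rw [indicator_of_notMem h, zero_mul, zero_add, ← mul_assoc]
        have h2 : 2 * l < gauge P y := not_le.1 h
        have h3 : 1 ≤ (2 * l)⁻¹ * gauge P y := by
          rw [← div_eq_inv_mul, le_div_iff₀ (by positivity), one_mul]
          exact h2.le
        exact le_mul_of_one_le_left (W_pos y).le h3
    have h2 : (2 * l)⁻¹ * ∫ y : E d, gauge P y * W y ≤ Z / 2 := by
      rw [← div_eq_inv_mul, div_le_iff₀ (by positivity)]
      linarith
    linarith
  -- packings
  set lam : ℝ := 4 * l / ε with hlam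
  have hlam0 : 0 < lam := by positivity
  let pack : Finset (E d) → Prop := fun S => (∀ s ∈ S, ‖s‖ ≤ ρ) ∧
    (∀ s ∈ S, ∀ s' ∈ S, s ≠ s' → ε < gauge P (s - s'))
  have hcard : ∀ S, pack S → (S.card : ℝ) ≤ 2 * Real.exp (8 * l ^ 2 * ρ ^ 2 / ε ^ 2) := by
    intro S hS
    have hlow : ∀ s ∈ S, Real.exp (-(8 * l ^ 2 * ρ ^ 2 / ε ^ 2)) * (Z / 2) ≤ F A (lam • s) := by
      intro s hs
      refine le_trans ?_ (F_shift hA hAs (lam • s))
      refine mul_le_mul (Real.exp_le_exp.2 ?_) hF0 (by positivity) (Real.exp_pos _).le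
      have h1 := hS.1 s hs
      rw [norm_smul, Real.norm_eq_abs, abs_of_pos hlam0, mul_pow]
      have h2 : ‖s‖ ^ 2 ≤ ρ ^ 2 := pow_le_pow_left₀ (norm_nonneg _) h1 2
      have h3 : 8 * l ^ 2 * ρ ^ 2 / ε ^ 2 = lam ^ 2 * ρ ^ 2 / 2 := by
        rw [hlam]
        field_simp
        ring
      rw [h3]
      have h4 : 0 ≤ lam ^ 2 := sq_nonneg _
      nlinarith
    have hsum : ∑ s ∈ S, F A (lam • s) ≤ Z := by
      unfold F
      rw [← integral_finset_sum _ fun s _ => F_int hA (lam • s)]
      refine integral_mono (integrable_finset_sum _ fun s _ => F_int hA (lam • s)) W_int fun y => ?_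
      simp only
      rw [← Finset.sum_mul]
      refine mul_le_of_le_one_left (W_pos y).le ?_
      by_cases hex : ∃ s ∈ S, y - lam • s ∈ A
      · obtain ⟨s, hs, hsA⟩ := hex
        rw [Finset.sum_eq_single_of_mem s hs, indicator_of_mem hsA]
        intro s' hs' hne
        rw [indicator_of_notMem]
        intro hs'A
        have h1 := hS.2 s' hs' s hs hne
        have h2 : gauge P (lam • (s' - s)) ≤ 4 * l := by
          have e : lam • (s' - s) = (y - lam • s) + -(y - lam • s') := by
            rw [smul_sub]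
            abel
          rw [e]
          refine (hadd _ _).trans ?_
          rw [hneg]
          have a1 : gauge P (y - lam • s) ≤ 2 * l := hsA
          have a2 : gauge P (y - lam • s') ≤ 2 * l := hs'A
          linarith
        rw [gauge_smul_of_nonneg hlam0.le, smul_eq_mul] at h2
        have h3 : 4 * l < lam * gauge P (s' - s) := by
          have : lam * ε = 4 * l := by
            rw [hlam]
            field_simp
          rw [← this]
          exact mul_lt_mul_of_pos_left h1 hlam0
        linarith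
      · push Not at hex
        rw [Finset.sum_eq_zero]
        · exact zero_le_one
        · intro s hs
          exact indicator_of_notMem (hex s hs) _
    have h1 : (S.card : ℝ) * (Real.exp (-(8 * l ^ 2 * ρ ^ 2 / ε ^ 2)) * (Z / 2)) ≤ Z := by
      refine le_trans ?_ hsum
      rw [← nsmul_eq_mul, ← Finset.sum_const]
      exact Finset.sum_le_sum hlow
    have hE := Real.exp_pos (8 * l ^ 2 * ρ ^ 2 / ε ^ 2)
    rw [Real.exp_neg] at h1
    have h2 : (S.card : ℝ) * ((Real.exp (8 * l ^ 2 * ρ ^ 2 / ε ^ 2))⁻¹ * (Z / 2)) =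
        (S.card : ℝ) / (2 * Real.exp (8 * l ^ 2 * ρ ^ 2 / ε ^ 2)) * Z := by
      field_simp
    rw [h2] at h1
    have h3 : (S.card : ℝ) / (2 * Real.exp (8 * l ^ 2 * ρ ^ 2 / ε ^ 2)) ≤ 1 := by
      by_contra hcon
      push Not at hcon
      nlinarith
    rwa [div_le_one (by positivity)] at h3
  let Q : Set ℕ := {n | ∃ S, pack S ∧ S.card = n}
  have hQne : Q.Nonempty := ⟨0, ∅, ⟨fun s hs => absurd hs (Finset.notMem_empty s),
    fun s hs => absurd hs (Finset.notMem_empty s)⟩, rfl⟩
  have hQb : BddAbove Q := by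
    refine ⟨⌈2 * Real.exp (8 * l ^ 2 * ρ ^ 2 / ε ^ 2)⌉₊, ?_⟩
    rintro n ⟨S, hS, rfl⟩
    have := (hcard S hS).trans (Nat.le_ceil _)
    exact_mod_cast this
  obtain ⟨S, hS, hSc⟩ := Nat.sSup_mem hQne hQb
  refine ⟨S, hcard S hS, fun a ha => ?_⟩
  by_contra hcon
  push Not at hcon
  have haS : a ∉ S := by
    intro h
    have := hcon a h
    rw [sub_self, gauge_zero] at this
    linarith
  have hins : pack (insert a S) := by
    constructor
    · intro s hs
      rcases Finset.mem_insert.mp hs with rfl | hs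
      · exact ha
      · exact hS.1 s hs
    · intro s hs s' hs' hne
      rcases Finset.mem_insert.mp hs with e | hs1
      · rcases Finset.mem_insert.mp hs' with e' | hs1'
        · exact absurd (e.trans e'.symm) hne
        · rw [e]; exact hcon s' hs1'
      · rcases Finset.mem_insert.mp hs' with e' | hs1'
        · rw [e', ← neg_sub, hneg]; exact hcon s hs1
        · exact hS.2 s hs1 s' hs1' hne
  have h13 : (insert a S).card ≤ sSup Q := le_csSup hQb ⟨_, hins, rfl⟩
  rw [Finset.card_insert_of_notMem haS, hSc] at h13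
  omega

end Pool.Agent.T2h52.SP
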