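import Pool.Agent.T2h52.SP.Stm
import Pool.Agent.TH591.Ns.Cover

/-! The spread inequality: the top eigenvector. -/

set_option autoImplicit false

open MeasureTheory Set Filter Topology
open scoped ENNReal InnerProductSpace Pointwise
open Pool.Agent.N555.RZ (mP mP_prob)

namespace Pool.Agent.T2h52.SP

/-- the top eigenvector of the form `∫ (F z w)²` for a bounded family of linear forms -/
theorem eig_aux {d : ℕ} (hd : 1 ≤ d) (μ : Measure (E d)) [IsFiniteMeasure μ] (F : E d → E d →L[ℝ] ℝ)
    (hm : ∀ w, Measurable fun z => F z w) (C : ℝ) (hC : ∀ z w, |F z w| ≤ C * ‖w‖) :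
    ∃ (e : E d) (lam : ℝ), ‖e‖ = 1 ∧ 0 ≤ lam ∧ (∀ w : E d, ∫ z, (F z w) ^ 2 ∂μ ≤ lam * ‖w‖ ^ 2) ∧
      ∀ w : E d, lam * ⟪w, e⟫_ℝ ^ 2 ≤ ∫ z, (F z w) ^ 2 ∂μ := by
  have hI : ∀ w w' : E d, Integrable (fun z => F z w * F z w') μ := by
    intro w w'
    refine Integrable.of_bound ((hm w).mul (hm w')).aestronglyMeasurable (C * ‖w‖ * (C * ‖w'‖))
      (Eventually.of_forall fun z => ?_)
    rw [norm_mul, Real.norm_eq_abs, Real.norm_eq_abs]
    exact mul_le_mul (hC z w) (hC z w') (abs_nonneg _) ((abs_nonneg _).trans (hC z w))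
  let B : E d →ₗ[ℝ] E d →ₗ[ℝ] ℝ := LinearMap.mk₂ ℝ (fun w w' => ∫ z, F z w * F z w' ∂μ)
    (by
      intro w1 w2 w'
      rw [← integral_add (hI w1 w') (hI w2 w')]
      congr 1
      funext z
      rw [map_add]
      ring)
    (by
      intro c w w'
      rw [smul_eq_mul, ← integral_const_mul]
      congr 1
      funext z
      rw [map_smul, smul_eq_mul]
      ring)
    (by
      intro w w1 w2
      rw [← integral_add (hI w w1) (hI w w2)]
      congr 1
      funext z
      rw [map_add]
      ring)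
    (by
      intro c w w'
      rw [smul_eq_mul, ← integral_const_mul]
      congr 1
      funext z
      rw [map_smul, smul_eq_mul]
      ring)
  have hB : ∀ w w', B w w' = ∫ z, F z w * F z w' ∂μ := fun w w' => rfl
  have hsym : ∀ w w', B w w' = B w' w := by
    intro w w'
    rw [hB, hB]
    congr 1
    funext z
    ring
  have hq : ∀ w, ∫ z, (F z w) ^ 2 ∂μ = B w w := by
    intro w
    rw [hB]
    congr 1
    funext z
    ring
  have hq0 : ∀ w, 0 ≤ B w w := by
    intro w
    rw [← hq]
    exact integral_nonneg fun z => sq_nonneg _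
  have hcont : Continuous fun w : E d => B w w := by
    have h1 : (fun w : E d => B w w) = fun w => ∑ i, w i * B (EuclideanSpace.basisFun (Fin d) ℝ i) w := by
      funext w
      have h0 : w = ∑ i, (EuclideanSpace.basisFun (Fin d) ℝ).repr w i •
          EuclideanSpace.basisFun (Fin d) ℝ i := ((EuclideanSpace.basisFun (Fin d) ℝ).sum_repr w).symm
      have h1 : B w = ∑ i, (EuclideanSpace.basisFun (Fin d) ℝ).repr w i •
          B (EuclideanSpace.basisFun (Fin d) ℝ i) := by
        conv_lhs => rw [h0]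
        rw [map_sum]
        exact Finset.sum_congr rfl fun i _ => map_smul B _ _
      rw [h1, LinearMap.sum_apply]
      rfl
    rw [h1]
    refine continuous_finsetSum _ fun i _ => ?_
    exact (by fun_prop : Continuous fun w : E d => w i).mul
      (LinearMap.continuous_of_finiteDimensional (B (EuclideanSpace.basisFun (Fin d) ℝ i)))
  have : Nonempty (Fin d) := ⟨⟨0, hd⟩⟩
  have hne : (Metric.sphere (0 : E d) 1).Nonempty := by
    refine ⟨EuclideanSpace.basisFun (Fin d) ℝ ⟨0, hd⟩, ?_⟩
    rw [mem_sphere_zero_iff_norm]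
    exact (EuclideanSpace.basisFun (Fin d) ℝ).norm_eq_one _
  obtain ⟨e, he, hmax⟩ := (isCompact_sphere (0 : E d) 1).exists_isMaxOn hne hcont.continuousOn
  rw [mem_sphere_zero_iff_norm] at he
  have hle : ∀ w : E d, B w w ≤ B e e * ‖w‖ ^ 2 := by
    intro w
    rcases eq_or_ne w 0 with rfl | hw
    · simp
    · have hn : ‖w‖ ≠ 0 := norm_ne_zero_iff.2 hw
      have h1 : ‖w‖⁻¹ • w ∈ Metric.sphere (0 : E d) 1 := by
        rw [mem_sphere_zero_iff_norm, norm_smul, norm_inv, norm_norm, inv_mul_cancel₀ hn]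
      have h2 : B (‖w‖⁻¹ • w) (‖w‖⁻¹ • w) ≤ B e e := hmax h1
      simp only [map_smul, LinearMap.smul_apply, smul_eq_mul] at h2
      have h3 : B w w = (‖w‖⁻¹ * (‖w‖⁻¹ * B w w)) * ‖w‖ ^ 2 := by
        field_simp
      rw [h3]
      exact mul_le_mul_of_nonneg_right h2 (sq_nonneg _)
  have horth : ∀ w : E d, ⟪w, e⟫_ℝ = 0 → B e w = 0 := by
    intro w hw
    have h1 : ∀ s : ℝ, 0 ≤ (B e e * ‖w‖ ^ 2 - B w w) * (s * s) + (-2 * B e w) * s + 0 := by
      intro s
      have h2 := hle (e + s • w)
      have h3 : ‖e + s • w‖ ^ 2 = 1 + s ^ 2 * ‖w‖ ^ 2 := by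
        rw [norm_add_sq_real, he, norm_smul, real_inner_smul_right, real_inner_comm, hw, Real.norm_eq_abs, mul_pow,
          sq_abs]
        ring
      have h4 : B (e + s • w) (e + s • w) = B e e + 2 * s * B e w + s ^ 2 * B w w := by
        simp only [map_add, map_smul, LinearMap.add_apply, LinearMap.smul_apply, smul_eq_mul]
        rw [hsym w e]
        ring
      rw [h3, h4] at h2
      linarith
    have h5 := discrim_le_zero h1
    unfold discrim at h5
    have h6 : (B e w) ^ 2 ≤ 0 := by linarith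
    exact pow_eq_zero_iff (two_ne_zero) |>.1 (le_antisymm h6 (sq_nonneg _))
  refine ⟨e, B e e, he, hq0 e, fun w => ?_, fun w => ?_⟩
  · rw [hq]
    exact hle w
  · rw [hq]
    set c : ℝ := ⟪w, e⟫_ℝ with hc
    have h1 : ⟪w - c • e, e⟫_ℝ = 0 := by
      rw [inner_sub_left, real_inner_smul_left, real_inner_self_eq_norm_sq, he]
      simp [hc]
    have h2 : w = c • e + (w - c • e) := by abel
    have h3 : B w w = c ^ 2 * B e e + 2 * c * B e (w - c • e) + B (w - c • e) (w - c • e) := by
      conv_lhs => rw [h2]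
      generalize w - c • e = w'
      simp only [map_add, map_smul, LinearMap.add_apply, LinearMap.smul_apply, smul_eq_mul]
      rw [hsym w' e]
      ring
    rw [h3, horth _ h1]
    have := hq0 (w - c • e)
    linarith

theorem eig : T_EIG := by
  intro d P hd hP
  have hK0 : P ∈ 𝓝 (0 : E d) := mem_interior_iff_mem_nhds.1 hP.int
  have hG := Pool.Agent.TH591.Ns.isG_gauge hP.conv hK0
  have h0 : volume P ≠ 0 := (MeasureTheory.Measure.measure_pos_of_mem_nhds _ hK0).ne'
  have hfin : volume P ≠ ⊤ := hP.comp.measure_lt_top.ne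
  have := mP_prob h0 hfin
  -- the gauge is bounded by a multiple of the norm
  obtain ⟨r, hr, hball⟩ := Metric.mem_nhds_iff.1 hK0
  have hbd : ∀ w : E d, gauge P w ≤ (2 / r) * ‖w‖ := by
    intro w
    rcases eq_or_ne w 0 with rfl | hw
    · simp
    · have hn : 0 < ‖w‖ := norm_pos_iff.2 hw
      have h1 : gauge P ((r / 2 / ‖w‖) • w) ≤ 1 := by
        apply gauge_le_one_of_mem
        apply hball
        rw [mem_ball_zero_iff, norm_smul, Real.norm_eq_abs, abs_of_pos (by positivity)]
        have : r / 2 / ‖w‖ * ‖w‖ = r / 2 := by field_simp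
        rw [this]
        linarith
      rw [hG.smul _ (by positivity)] at h1
      have h2 : gauge P w = (2 / r * ‖w‖) * (r / 2 / ‖w‖ * gauge P w) := by
        field_simp
      rw [h2]
      calc _ ≤ (2 / r * ‖w‖) * 1 := mul_le_mul_of_nonneg_left h1 (by positivity)
        _ = _ := by ring
  refine eig_aux hd (mP P) (fun z => fderiv ℝ (gauge P) z) (fun w => ?_) (2 / r) fun z w => ?_
  · exact measurable_fderiv_apply_const ℝ (gauge P) w
  · rw [abs_le]
    constructor
    · have h1 := Pool.Agent.TH591.Ns.fderiv_le_g hG z (-w)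
      have h2 := hbd (-w)
      rw [norm_neg] at h2
      rw [map_neg] at h1
      linarith
    · exact (Pool.Agent.TH591.Ns.fderiv_le_g hG z w).trans (hbd w)

end Pool.Agent.T2h52.SP
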