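import Pool.Agent.T2h52.SP.Stm

/-!
# The spread inequality: the bound for the top eigenvalue
-/

set_option autoImplicit false

namespace Pool.Agent.T2h52.SP

open MeasureTheory Set Filter Topology
open scoped ENNReal InnerProductSpace Pointwise
open Pool.Agent.H888R2.KT (gs gc)
open Pool.Agent.R755.KF (zn aff sd PB PL3 PLH)
open Pool.Agent.N555.RZ (mP Spr)
open Pool.Agent.TH591.Ns (isG_gauge ball_eq)

namespace LAMaux

variable {d : ℕ} {P : Set (E d)} {e : E d}

theorem hb_sub : hb P e ⊆ P := fun _ hx => hx.1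

theorem hb_conv (hP : Bd P) : Convex ℝ (hb P e) := by
  have h1 : Convex ℝ {x : E d | 1 / 2 ≤ ⟪x, e⟫_ℝ} := by
    intro x hx y hy a b ha hb' hab
    simp only [mem_ofPred_eq, inner_add_left, real_inner_smul_left] at *
    nlinarith
  exact hP.conv.inter h1

theorem hb_comp (hP : Bd P) : IsCompact (hb P e) := by
  have h1 : IsClosed {x : E d | 1 / 2 ≤ ⟪x, e⟫_ℝ} :=
    isClosed_le continuous_const (by fun_prop)
  exact hP.comp.inter_right h1

theorem volP_pos (hP : Bd P) : volume P ≠ 0 :=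
  (Measure.measure_pos_of_mem_nhds volume (mem_interior_iff_mem_nhds.mp hP.int)).ne'

theorem bary (A : Set (E d)) (hA : IsCompact A) (h0 : volume A ≠ 0) (w : E d) :
    ⟪∫ x, x ∂(mP A), w⟫_ℝ = ∫ x, ⟪x, w⟫_ℝ ∂(mP A) := by
  have hI : Integrable (fun x : E d => x) (mP A) := by
    unfold mP
    refine Integrable.smul_measure ?_ (ENNReal.inv_ne_top.mpr h0)
    exact continuous_id.continuousOn.integrableOn_compact hA
  rw [real_inner_comm, ← integral_inner hI w]
  simp only [real_inner_comm]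

theorem exp26 : (16 : ℝ) * 10 ^ 10 ≤ Real.exp 26 := by
  have h1 : Real.exp 26 = Real.exp 1 ^ 26 := by
    rw [← Real.exp_nat_mul]; norm_num
  rw [h1]
  have h2 := Real.exp_one_gt_d9
  calc (16 : ℝ) * 10 ^ 10 ≤ 2.7182818283 ^ 26 := by norm_num
    _ ≤ _ := pow_le_pow_left₀ (by norm_num) h2.le 26

theorem log1010 : Real.log (10 ^ 10) + Real.log 4 ≤ 25 := by
  rw [← Real.log_mul (by norm_num) (by norm_num), Real.log_le_iff_le_exp (by norm_num)]
  have h1 : Real.exp 25 = Real.exp 1 ^ 25 := by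
    rw [← Real.exp_nat_mul]; norm_num
  rw [h1]
  have h2 := Real.exp_one_gt_d9
  calc (10 ^ 10 * 4 : ℝ) ≤ 2.7182818283 ^ 25 := by norm_num
    _ ≤ _ := pow_le_pow_left₀ (by norm_num) h2.le 25

end LAMaux

open LAMaux in
theorem lam (a1 : T_HALF) (a2 : T_HB) (a3 : T_EXPM) (a4 : T_PLB) (a5 : T_MON) (a6 : T_BIG)
    (a7 : T_OVL) (a8 : T_SUD) (a9 : T_BM) (a10 : T_WEAK) (a11 : T_SM) (a12 : T_EIG)
    (a13 : T_ENT) : T_LAM := by
  intro d P l h ε hd hP hI hl hgm hh hH hε hL w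
  obtain ⟨e, lm, he, hlm0, hup, hlo⟩ := a12 d P (by omega) hP
  have hd0 : (0 : ℝ) < d := by
    have : (7 : ℝ) ≤ d := by exact_mod_cast hd
    linarith
  have hK0 : P ∈ 𝓝 (0 : E d) := mem_interior_iff_mem_nhds.mp hP.int
  have hG := isG_gauge hP.conv hK0
  have hball := ball_eq hP.conv hP.comp hK0
  have hgP : ∀ x ∈ P, gauge P x ≤ 1 := fun x hx => by
    rw [← hball] at hx
    exact hx
  set A : Set (E d) := hb P e with hA
  have hAs : A ⊆ P := hb_sub
  have hAc : Convex ℝ A := hb_conv hP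
  have hAk : IsCompact A := hb_comp hP
  have hvP0 : volume P ≠ 0 := volP_pos hP
  have hvPt : volume P ≠ ⊤ := hP.comp.measure_lt_top.ne
  have hvAt : volume A ≠ ⊤ := hAk.measure_lt_top.ne
  have hhalf := a1 d P hP hI e he
  rw [← hA] at hhalf
  have hvA : 0 < volume A := lt_of_lt_of_le
    (ENNReal.mul_pos (by simp) hvP0) hhalf
  -- real volumes
  set vP : ℝ := (volume P).toReal with hvP
  set vA : ℝ := (volume A).toReal with hvA'
  have vP0 : 0 < vP := ENNReal.toReal_pos hvP0 hvPt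
  have vA0 : 0 < vA := ENNReal.toReal_pos hvA.ne' hvAt
  have vAP : vA ≤ vP := ENNReal.toReal_mono hvPt (measure_mono hAs)
  have vhalf : 1 / 10 ^ 10 * vP ≤ vA := by
    have := ENNReal.toReal_mono hvAt hhalf
    rwa [ENNReal.toReal_mul, ENNReal.toReal_ofReal (by norm_num)] at this
  -- the laws
  set β : E d := ∫ x, x ∂(mP A) with hβ
  have hbar : ∀ w : E d, ⟪β, w⟫_ℝ = ∫ x, ⟪x, w⟫_ℝ ∂(mP A) := bary A hAk hvA.ne'
  obtain ⟨⟨B, hB0, hBa, hBb⟩, hneg, hmean⟩ := a2 d P A hP hAs hAc hAk hvA β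
  have hmean' := hmean hbar
  set H : ℝ := 10 ^ 26 * Real.sqrt d with hH'
  have hHpos : 0 < H := by positivity
  have hbig : 1 / 4 ≤ aff H (la A β) (lb A β) := by
    rw [hneg]
    refine a6 d H (10 ^ 22) B (la A β) (by omega) (by norm_num) ?_ hB0 hBa hmean' ?_
    · rw [hH']
      have : (10 : ℝ) ^ 4 * 10 ^ 22 = 10 ^ 26 := by norm_num
      rw [this]
    · exact a3 d P A hP hI hAs hAk.measurableSet hhalf β hbar
  set η : ℝ := vP / vA - 1 with hη
  have hη0 : 0 ≤ η := by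
    rw [hη, sub_nonneg, one_le_div vA0]
    exact vAP
  have hPLH : ∀ h : ℝ, 0 < h → PLH h η (la A β) (lb A β) := fun h hh =>
    a4 d P A hP hAs hAc hAk hvA β h hh
  have hmon := a5 d B η (la A β) (lb A β) hB0 hη0 hBa hBb hPLH h H hh hH
  obtain ⟨haff0, haff1, -⟩ := a13 d h B η (la A β) (lb A β) hh hB0 hη0 hBa hBb (hPLH h hh)
  have hlogη : Real.log (1 + η) ≤ Real.log (10 ^ 10) := by
    refine Real.log_le_log (by linarith) ?_
    have : 1 + η = vP / vA := by rw [hη]; ring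
    rw [this, div_le_iff₀ vA0]
    have h1 : (10 : ℝ) ^ 10 * (1 / 10 ^ 10 * vP) = vP := by ring
    calc vP = 10 ^ 10 * (1 / 10 ^ 10 * vP) := h1.symm
      _ ≤ _ := by gcongr
  have hlogη0 : 0 ≤ Real.log (1 + η) := Real.log_nonneg (by linarith)
  have hlogH : -Real.log (aff H (la A β) (lb A β)) ≤ Real.log 4 := by
    have h1 : Real.log (1 / 4) ≤ Real.log (aff H (la A β) (lb A β)) :=
      Real.log_le_log (by norm_num) hbig
    rw [Real.log_div one_ne_zero (by norm_num), Real.log_one] at h1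
    linarith
  set L : ℝ := 25 * 10 ^ 26 * Real.sqrt d / h with hLd
  have hL0 : 0 ≤ L := by positivity
  have hhL : h * L = 25 * H := by
    rw [hLd, hH']
    field_simp
  have hlogh : -Real.log (aff h (la A β) (lb A β)) ≤ L := by
    have h1 : h * (Real.log (1 + η) - Real.log (aff h (la A β) (lb A β))) ≤ H * 25 := by
      refine hmon.trans ?_
      have := log1010
      have h2 : Real.log (1 + η) - Real.log (aff H (la A β) (lb A β)) ≤ 25 := by linarith
      exact mul_le_mul_of_nonneg_left h2 hHpos.le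
    have h2 : h * (Real.log (1 + η) - Real.log (aff h (la A β) (lb A β))) ≤ h * L := by
      rw [hhL]; linarith
    have h3 := le_of_mul_le_mul_left h2 hh
    linarith
  have hexpL : Real.exp (-L) ≤ aff h (la A β) (lb A β) := by
    rw [← Real.exp_log haff0]
    exact Real.exp_le_exp.mpr (by linarith)
  -- the covering
  have hρ : 0 < 2 * Real.sqrt (h * d) := by positivity
  obtain ⟨S, hScard, hScov⟩ := a8 d P (by omega) hP l hl hgm (2 * Real.sqrt (h * d)) ε hρ hε
  obtain ⟨x1, hx1, x2, hx2, hvol⟩ := a7 d P A hd hP hAs hAc hAk hvA β h L ε hh hL0 hL hε hexpL S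
    hScov
  set κ : ℝ := 32 * l ^ 2 * h * d / ε ^ 2 with hκ
  have hκ0 : 0 ≤ κ := by positivity
  have hρ2 : 8 * l ^ 2 * (2 * Real.sqrt (h * d)) ^ 2 / ε ^ 2 = κ := by
    rw [mul_pow, Real.sq_sqrt (by positivity), hκ]
    ring
  rw [hρ2] at hScard
  have hS1 : (1 : ℝ) ≤ S.card := by
    obtain ⟨t, ht, -⟩ := hScov 0 (by rw [norm_zero]; exact hρ.le)
    have : 0 < S.card := Finset.card_pos.mpr ⟨t, ht⟩
    exact_mod_cast this
  set γ : E d := x1 + x2 with hγ
  have hγe : 1 ≤ ⟪γ, e⟫_ℝ := by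
    have h1 := hx1.2
    have h2 := hx2.2
    rw [hγ, inner_add_left]
    linarith
  have hgγ : gauge P γ ≤ 2 := by
    have := hG.add x1 x2
    have h1 := hgP x1 hx1.1
    have h2 := hgP x2 hx2.1
    rw [hγ]
    linarith
  have hsub : {x | x ∈ A ∧ ∃ y ∈ A, gauge P (x + y - (x1 + x2)) ≤ 4 * ε} ⊆
      {x | x ∈ P ∧ gauge P (x - γ) ≤ 1 + 4 * ε} := by
    rintro x ⟨hx, y, hy, hxy⟩
    refine ⟨hAs hx, ?_⟩
    have e1 : x - γ = (x + y - (x1 + x2)) + (-y) := by rw [hγ]; abel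
    rw [e1]
    have h1 := hG.add (x + y - (x1 + x2)) (-y)
    have h2 := hgP (-y) (hP.sym y (hAs hy))
    linarith
  set r : ℝ := 26 + 2 * L + 2 * κ with hr
  have hr0 : 0 ≤ r := by positivity
  have hnum : Real.exp (-r) * vP ≤ Real.exp (-(2 * L)) / (4 * (S.card : ℝ) ^ 2) * vA := by
    have h1 : Real.exp (-r) = Real.exp (-26) * (Real.exp (-(2 * L)) * Real.exp (-(2 * κ))) := by
      rw [← Real.exp_add, ← Real.exp_add, hr]
      congr 1
      ring
    have h2 : Real.exp (-26) ≤ 1 / (16 * 10 ^ 10) := by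
      rw [Real.exp_neg, ← one_div]
      exact one_div_le_one_div_of_le (by norm_num) exp26
    have h3 : (S.card : ℝ) ^ 2 ≤ 4 * Real.exp (2 * κ) := by
      have : (S.card : ℝ) ^ 2 ≤ (2 * Real.exp κ) ^ 2 := by gcongr
      refine this.trans (le_of_eq ?_)
      rw [mul_pow, ← Real.exp_nat_mul]
      norm_num
    have h4 : Real.exp (-(2 * κ)) / 16 ≤ 1 / (4 * (S.card : ℝ) ^ 2) := by
      rw [Real.exp_neg, div_le_div_iff₀ (by norm_num) (by positivity)]
      have e0 := Real.exp_pos (2 * κ)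
      rw [inv_mul_le_iff₀ e0]
      linarith
    calc Real.exp (-r) * vP
        ≤ 1 / (16 * 10 ^ 10) * (Real.exp (-(2 * L)) * Real.exp (-(2 * κ))) * vP := by
          rw [h1]
          gcongr
      _ = Real.exp (-(2 * L)) * (Real.exp (-(2 * κ)) / 16) * (1 / 10 ^ 10 * vP) := by ring
      _ ≤ Real.exp (-(2 * L)) * (1 / (4 * (S.card : ℝ) ^ 2)) * vA := by gcongr
      _ = _ := by ring
  have hhyp : ENNReal.ofReal (Real.exp (-r)) * volume P ≤
      volume {x | x ∈ P ∧ gauge P (x - γ) ≤ 1 + 4 * ε} := by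
    refine le_trans ?_ (hvol.trans (measure_mono hsub))
    have e1 : volume P = ENNReal.ofReal vP := (ENNReal.ofReal_toReal hvPt).symm
    have e2 : volume A = ENNReal.ofReal vA := (ENNReal.ofReal_toReal hvAt).symm
    have hq : 0 ≤ Real.exp (-(2 * L)) / (4 * (S.card : ℝ) ^ 2) :=
      div_nonneg (Real.exp_pos _).le (mul_nonneg (by norm_num) (sq_nonneg _))
    rw [e1, e2, ← ENNReal.ofReal_mul (Real.exp_pos _).le, ← ENNReal.ofReal_mul hq]
    exact ENNReal.ofReal_le_ofReal hnum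
  have hbm := a9 d P hP γ r (4 * ε) hr0 (by positivity) hhyp
  have hwk := a10 d P (by omega) hP γ r (4 * ε) hr0 (by positivity) hbm
  have hsm := a11 d P (by omega) hP γ r (4 * ε) hr0 (by positivity) hgγ hwk
  have hlam : lm ≤ 2 * (4 * ε) ^ 2 + 128 / 5 * (r + 1) / d := by
    refine le_trans ?_ ((hlo γ).trans hsm)
    exact le_mul_of_one_le_right hlm0 (one_le_pow₀ hγe)
  refine (hup w).trans ?_
  refine mul_le_mul_of_nonneg_right (hlam.trans (le_of_eq ?_)) (sq_nonneg _)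
  clear_value L
  rw [hr, hκ]
  ring

end Pool.Agent.T2h52.SP
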