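import Pool.Agent.T2h52.SP.Stm3
import Pool.Agent.N555.RZ.Trans

/-!
# The spread inequality: the final assembly
-/

set_option autoImplicit false

namespace Pool.Agent.T2h52.SP

open MeasureTheory Set Filter Topology
open scoped ENNReal InnerProductSpace Pointwise
open Pool.Agent.N555.RZ (mP Spr)
open Pool.Agent.TH591.Lie (polarAt)

/-- coverings from isotropic images -/
theorem cov_gen (h2 : T_CRT) (h3 : T_NUM) {d : ℕ} {P : Set (E d)} (hP : Bd P) (q B : ℝ)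
    (hd : 2 ≤ d) (hq : 2 ≤ q) (hB : 1 ≤ B)
    (hgm : ∀ A : E d ≃ₗ[ℝ] E d, Iso (A '' P) → gm (gauge (A '' P)) ≤ 2 * 10 ^ 5 * q * B)
    (hco : ∀ (m : ℕ) (x : Fin m → E d), (∑ i, gauge P (x i) ^ q) ^ (1 / q) ≤
      2 * B * Real.sqrt (sm (gauge P) x))
    (hnum : (10 ^ 8 * B * Real.log (d + 1)) ^ (120 * q) ≤ d) :
    ∃ T : Finset (E d), P ⊆ ⋃ t ∈ T, (fun x => t + x) '' interior P ∧ T.card < 2 ^ d := by
  obtain ⟨A, hA⟩ := Pool.Agent.N555.RZ.exists_iso hP.comp (mem_interior_iff_mem_nhds.mp hP.int)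
  obtain ⟨n1, n2⟩ := h3 d q B hd hq hB hnum
  exact h2 d P A (2 * 10 ^ 5 * q * B) q (2 * B) hP hA (hgm A hA) (by nlinarith) n1 hq
    (by linarith) hco n2

theorem log_one {d : ℕ} (hd : 2 ≤ d) : 1 ≤ Real.log ((d : ℝ) + 1) := by
  have hd' : (2 : ℝ) ≤ d := by exact_mod_cast hd
  rw [Real.le_log_iff_exp_le (by positivity)]
  have := Real.exp_one_lt_d9
  linarith

/-- small dimensions do not satisfy the numerical hypothesis -/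
theorem two_le_of_num {d : ℕ} {q B : ℝ} (hq : 2 ≤ q) (hB : 1 ≤ B)
    (hd0 : 1 ≤ d)
    (hnum : (10 ^ 8 * B * Real.log (d + 1)) ^ (120 * q) ≤ d) : 2 ≤ d := by
  by_contra hlt
  have hd1 : d = 1 := by omega
  subst hd1
  have hl : (1 / 2 : ℝ) ≤ Real.log ((1 : ℕ) + 1) := by
    have := Real.log_two_gt_d9
    push_cast
    norm_num
    linarith
  have h1 : (2 : ℝ) ≤ 10 ^ 8 * B * Real.log ((1 : ℕ) + 1) := by
    calc (2 : ℝ) ≤ 10 ^ 8 * 1 * (1 / 2) := by norm_num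
      _ ≤ 10 ^ 8 * B * Real.log ((1 : ℕ) + 1) := by gcongr
  have h2 : (2 : ℝ) ^ (120 * q) ≤ (10 ^ 8 * B * Real.log ((1 : ℕ) + 1)) ^ (120 * q) :=
    Real.rpow_le_rpow (by norm_num) h1 (by positivity)
  have h3 : (1 : ℝ) < (2 : ℝ) ^ (120 * q) := Real.one_lt_rpow (by norm_num) (by positivity)
  have h4 := h3.trans_le (h2.trans hnum)
  norm_num at h4

/-- near zonoids -/
theorem zon (h2 : T_CRT) (h3 : T_NUM) (h7 : T_ZGM) (h8 : T_ZCO) (h9 : T_ZIM) (h10 : T_LPO)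
    {d : ℕ} {K : Set (E d)} {o : E d} {C : ℝ} {n : E d → ℝ} (hd : 2 ≤ d) (hC : 1 ≤ C)
    (hKc : IsCompact K) (hK : Convex ℝ K) (ho : o ∈ interior K) (hs : ∀ x ∈ K, o + (o - x) ∈ K)
    (hn : ZN n) (hn1 : ∀ u : E d, ∃ y ∈ K, n u ≤ ⟪u, y - o⟫_ℝ)
    (hn2 : ∀ u : E d, ∀ y ∈ K, ⟪u, y - o⟫_ℝ ≤ C * n u)
    (hnum : (10 ^ 8 * C * Real.log (d + 1)) ^ (120 * (2 : ℝ)) ≤ d) :
    ∃ T : Finset (E d), polarAt K o ⊆ ⋃ t ∈ T, (fun x => t + x) '' interior (polarAt K o) ∧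
      T.card < 2 ^ d := by
  obtain ⟨hP, hg⟩ := h10 d C K o n hKc hK ho hs hn1 hn2
  have hz : ZC C (gauge (polarAt K o)) := ⟨n, hn, hg⟩
  refine cov_gen h2 h3 hP 2 C hd le_rfl hC (fun A hA => ?_) ?_ hnum
  · obtain ⟨a1, a2⟩ := h9 d C (polarAt K o) A hP hz
    have := h7 d C _ hC a1 hA a2
    linarith
  · intro m x
    have h := h8 d C _ hC hz m x
    have e1 : (∑ i, gauge (polarAt K o) (x i) ^ (2 : ℝ)) ^ (1 / (2 : ℝ)) =
        Real.sqrt (∑ i, gauge (polarAt K o) (x i) ^ 2) := by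
      rw [Real.sqrt_eq_rpow]
      congr 1
      refine Finset.sum_congr rfl fun i _ => ?_
      exact_mod_cast Real.rpow_natCast _ 2
    rw [e1]
    have e2 : 2 * C * Real.sqrt (sm (gauge (polarAt K o)) x) =
        Real.sqrt ((2 * C) ^ 2 * sm (gauge (polarAt K o)) x) := by
      rw [Real.sqrt_mul (by positivity), Real.sqrt_sq (by positivity)]
    rw [e2]
    exact Real.sqrt_le_sqrt h

/-- near images of `q`-concave lattices -/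
theorem lat (h2 : T_CRT) (h3 : T_NUM) (h4 : T_LGM) (h5 : T_LCO) (h6 : T_LIA) (h10 : T_LPO)
    {d : ℕ} {K : Set (E d)} {o : E d} {q M C : ℝ} {N : ℕ} {G : (Fin N → ℝ) → ℝ}
    {x : Fin N → E d} (hd : 2 ≤ d) (hq : 2 ≤ q) (hM : 1 ≤ M) (hC : 1 ≤ C)
    (hKc : IsCompact K) (hK : Convex ℝ K) (ho : o ∈ interior K) (hs : ∀ x ∈ K, o + (o - x) ∈ K)
    (hG : LN N q M G) (hn1 : ∀ u : E d, ∃ y ∈ K, G (fun j => ⟪u, x j⟫_ℝ) ≤ ⟪u, y - o⟫_ℝ)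
    (hn2 : ∀ u : E d, ∀ y ∈ K, ⟪u, y - o⟫_ℝ ≤ C * G (fun j => ⟪u, x j⟫_ℝ))
    (hnum : (10 ^ 8 * (M * C) * Real.log (d + 1)) ^ (120 * q) ≤ d) :
    ∃ T : Finset (E d), polarAt K o ⊆ ⋃ t ∈ T, (fun x => t + x) '' interior (polarAt K o) ∧
      T.card < 2 ^ d := by
  obtain ⟨hP, hg⟩ := h10 d C K o (fun u => G (fun j => ⟪u, x j⟫_ℝ)) hKc hK ho hs hn1 hn2
  have hz : LC q M C (gauge (polarAt K o)) := ⟨N, G, x, hG, hg⟩
  refine cov_gen h2 h3 hP q (M * C) hd hq (by nlinarith) (fun A hA => ?_) ?_ hnum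
  · obtain ⟨a1, a2⟩ := h6 d q M C (polarAt K o) A hP hz
    have := h4 d q M C _ hq hM hC a1 hA a2
    linarith
  · intro m y
    have h := h5 d q M C _ hq hM hC hz m y
    linarith

/-- type and cotype -/
theorem typ (h2 : T_CRT) (h3 : T_TNU) (h4 : T_TGM) (h6 : T_TYI)
    {d : ℕ} {P : Set (E d)} {p q T B : ℝ} (hP : Bd P) (hd : 2 ≤ d) (hp : 4 / 3 < p) (hp2 : p ≤ 2)
    (hq : 2 ≤ q) (hT : 1 ≤ T) (hB : 1 ≤ B) (hty : TY p T (gauge P))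
    (hco : ∀ (m : ℕ) (x : Fin m → E d), (∑ i, gauge P (x i) ^ q) ^ (1 / q) ≤
      B * Real.sqrt (sm (gauge P) x))
    (hnum : (10 ^ 8 * T * B * Real.log (d + 1)) ^ (120 * q) ≤ (d : ℝ) ^ (3 - 4 / p)) :
    ∃ T : Finset (E d), P ⊆ ⋃ t ∈ T, (fun x => t + x) '' interior P ∧ T.card < 2 ^ d := by
  obtain ⟨A, hA⟩ := Pool.Agent.N555.RZ.exists_iso hP.comp (mem_interior_iff_mem_nhds.mp hP.int)
  obtain ⟨n0, n1, n2⟩ := h3 d p q T B hd hp hp2 hq hT hB hnum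
  obtain ⟨a1, a2⟩ := h6 d P A p T hP hty
  exact h2 d P A _ q B hP hA (h4 d (A '' P) p T hd a1 hA hp.le hp2 hT a2) n0 n1 hq hB hco n2

/-- the spread inequality without the functional `ψ` -/
theorem spr_ineq (h1 : T_SPR) {d : ℕ} {P : Set (E d)} {l : ℝ} (hP : Bd P) (hI : Iso P)
    (hl : 1 ≤ l) (hg : gm (gauge P) ≤ l) (hd : 10 ^ 180 * l ^ 4 ≤ (d : ℝ)) (w : E d) :
    ∫ z, (fderiv ℝ (gauge P) z w) ^ 2 ∂(mP P) ≤
      10 ^ 30 * l ^ ((2 : ℝ) / 3) / (d : ℝ) ^ ((1 : ℝ) / 6) * ‖w‖ ^ 2 := by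
  have h := Pool.Agent.N555.RZ.iso_of_spr hI _ (h1 d P l hP hI hl hg hd) w
  have hl0 : 0 < l := by linarith
  have hd0 : (0 : ℝ) < d := lt_of_lt_of_le (by positivity) hd
  have e1 : 0 < (d : ℝ) ^ ((1 : ℝ) / 6) := Real.rpow_pos_of_pos hd0 _
  have e2 : 0 < 10 ^ 30 * l ^ ((2 : ℝ) / 3) := by
    have := Real.rpow_pos_of_pos hl0 ((2 : ℝ) / 3)
    positivity
  rw [div_mul_eq_mul_div, div_le_iff₀ e2] at h
  rw [div_mul_eq_mul_div, le_div_iff₀ e1]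
  linarith

/-- the polar body of a symmetric body -/
theorem bd_polar (h10 : T_LPO) {d : ℕ} {K : Set (E d)} {o : E d} (hKc : IsCompact K)
    (hK : Convex ℝ K) (ho : o ∈ interior K) (hs : ∀ x ∈ K, o + (o - x) ∈ K) :
    Bd (polarAt K o) := by
  have hne : K.Nonempty := ⟨o, interior_subset ho⟩
  have hmax : ∀ u : E d, ∃ y ∈ K, ∀ z ∈ K, ⟪u, z - o⟫_ℝ ≤ ⟪u, y - o⟫_ℝ := by
    intro u
    obtain ⟨y, hy, h⟩ := hKc.exists_isMaxOn hne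
      (f := fun z => ⟪u, z - o⟫_ℝ) (by fun_prop)
    exact ⟨y, hy, fun z hz => h hz⟩
  choose y hy hmx using hmax
  refine (h10 d 1 K o (fun u => ⟪u, y u - o⟫_ℝ) hKc hK ho hs (fun u => ⟨y u, hy u, le_rfl⟩)
    (fun u z hz => ?_)).1
  rw [one_mul]
  exact hmx u z hz

/-- the dichotomy -/
theorem dich (h1 : T_SPR) {d : ℕ} {P : Set (E d)} {l : ℝ} (n : ℕ) (hP : Bd P) (hI : Iso P)
    (hd2 : 2 ≤ d) (hn : 1 ≤ n)
    (hl : 1 ≤ l) (hg : gm (gauge P) ≤ l) (hd : 10 ^ 180 * l ^ 4 ≤ (d : ℝ))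
    (hnum : 10 ^ 94 * (n : ℝ) ^ 4 * l ^ ((2 : ℝ) / 3) * Real.log (d + 1) ^ 10 ≤
      (d : ℝ) ^ ((1 : ℝ) / 6)) :
    (∃ T : Finset (E d), P ⊆ ⋃ t ∈ T, (fun x => t + x) '' interior P ∧ T.card < 2 ^ d) ∨
    ∃ p : E d →L[ℝ] E n,
      (∀ y : E n, (∀ i, |y i| ≤ 1 / (10 ^ 10 * Real.log (d + 1) ^ 2)) → y ∈ p '' P) ∧
      ∀ x ∈ P, ∀ i, |p x i| ≤ 1 := by
  have h := h1 d P l hP hI hl hg hd
  have hl0 : 0 < l := by linarith
  have e2 : 0 < 10 ^ 30 * l ^ ((2 : ℝ) / 3) := by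
    have := Real.rpow_pos_of_pos hl0 ((2 : ℝ) / 3)
    positivity
  have hsym : -P ⊆ (1 : ℝ) • P := by
    intro x hx
    rw [one_smul]
    have := hP.sym _ hx
    rwa [neg_neg] at this
  rcases Pool.Agent.N555.RZ.mainA n _ hd2 hn hP.conv hP.comp hP.int 1 le_rfl hsym h (by
    rw [one_pow, mul_one, le_div_iff₀ e2]
    refine le_trans (le_of_eq ?_) hnum
    ring) with h | ⟨φ, h1, h2⟩
  · exact Or.inl h
  · right
    obtain ⟨p, hp1, hp2⟩ := Pool.Agent.N555.RZ.cube_of_signs n hP.conv hP.comp 1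
      (1 / (10 ^ 10 * 1 * Real.log (d + 1) ^ 2)) one_pos hsym φ h1 h2
    refine ⟨p, ?_, fun x hx i => ?_⟩
    · rw [mul_one] at hp1
      exact hp1
    · rw [abs_le]
      exact hp2 x hx i

/-- dimension at least 2 -/
theorem two_le_of_num' {d : ℕ} {p q T B : ℝ} (hd0 : 1 ≤ d) (hq : 2 ≤ q) (hT : 1 ≤ T) (hB : 1 ≤ B)
    (hnum : (10 ^ 8 * T * B * Real.log (d + 1)) ^ (120 * q) ≤ (d : ℝ) ^ (3 - 4 / p)) : 2 ≤ d := by
  by_contra hlt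
  have hd1 : d = 1 := by omega
  subst hd1
  have hl : (1 / 2 : ℝ) ≤ Real.log ((1 : ℕ) + 1) := by
    have := Real.log_two_gt_d9
    push_cast
    norm_num
    linarith
  have h1 : (2 : ℝ) ≤ 10 ^ 8 * T * B * Real.log ((1 : ℕ) + 1) := by
    calc (2 : ℝ) ≤ 10 ^ 8 * 1 * 1 * (1 / 2) := by norm_num
      _ ≤ 10 ^ 8 * T * B * Real.log ((1 : ℕ) + 1) := by gcongr
  have h2 : (2 : ℝ) ^ (120 * q) ≤ (10 ^ 8 * T * B * Real.log ((1 : ℕ) + 1)) ^ (120 * q) :=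
    Real.rpow_le_rpow (by norm_num) h1 (by positivity)
  have h3 : (1 : ℝ) < (2 : ℝ) ^ (120 * q) := Real.one_lt_rpow (by norm_num) (by positivity)
  have h4 := h3.trans_le (h2.trans hnum)
  rw [Nat.cast_one, Real.one_rpow] at h4
  exact lt_irrefl _ h4

end Pool.Agent.T2h52.SP
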