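import Pool.Agent.T2h52.SP.Stm
import Pool.Agent.R755.KF.P2

/-!
# BIG: the affinity of a measure and its reflection at large times
-/

set_option autoImplicit false
set_option linter.all false

namespace Pool.Agent.T2h52.SP

open MeasureTheory Set Filter Topology
open scoped ENNReal InnerProductSpace Pointwise
open Pool.Agent.H888R2.KT (gs gc gc_pos)
open Pool.Agent.R755.KF (zn aff sd PB PL3 PLH zn_ok)

namespace Big

variable {d : ℕ}

/-- smoothing of a finite measure, centred at `s x` -/
lemma smooth {H : ℝ} (hH : 0 < H) (m : Measure (E d)) [IsFiniteMeasure m] (s : ℝ) :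
    Integrable (fun y : E d => ∫ x, Real.exp (-(‖s • x - y‖ ^ 2 / (2 * H))) ∂m) ∧
    ∫ y : E d, ∫ x, Real.exp (-(‖s • x - y‖ ^ 2 / (2 * H))) ∂m = gc (Fin d) H * (m univ).toReal := by
  obtain ⟨-, g1, g2, -⟩ := gc_pos (κ := Fin d) H hH
  have hint : Integrable (fun z : E d × E d => Real.exp (-(‖s • z.2 - z.1‖ ^ 2 / (2 * H))))
      ((volume : Measure (E d)).prod m) := by
    have hm : AEStronglyMeasurable (fun z : E d × E d => Real.exp (-(‖s • z.2 - z.1‖ ^ 2 / (2 * H))))
        ((volume : Measure (E d)).prod m) := by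
      refine Continuous.aestronglyMeasurable ?_
      fun_prop
    rw [integrable_prod_iff' hm]
    refine ⟨Eventually.of_forall fun x => g2 (s • x), ?_⟩
    have : (fun x : E d => ∫ y : E d, ‖Real.exp (-(‖s • x - y‖ ^ 2 / (2 * H)))‖) =
        fun _ => gc (Fin d) H := by
      funext x
      rw [← g1 (s • x)]
      refine integral_congr_ae (Eventually.of_forall fun y => ?_)
      simp only
      rw [Real.norm_eq_abs, abs_of_pos (Real.exp_pos _)]
    rw [this]
    exact integrable_const _
  refine ⟨hint.integral_prod_left, ?_⟩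
  rw [integral_integral_swap hint]
  have : (fun x : E d => ∫ y : E d, Real.exp (-(‖s • x - y‖ ^ 2 / (2 * H)))) =
      fun _ => gc (Fin d) H := funext fun x => g1 (s • x)
  rw [this, integral_const, smul_eq_mul, mul_comm]
  rfl

end Big

open Big in
theorem big (hS : T_SNH) (hC : T_CHI) : T_BIG := by
  intro d H M B ν hd hM hH hB hν hmean hexp
  have hHpos : 0 < H := by
    have h1 : 0 < Real.sqrt d := by
      apply Real.sqrt_pos.2
      have : 0 < d := by omega
      exact_mod_cast this
    have h2 : 0 < (10 : ℝ) ^ 4 * M := by positivity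
    exact lt_of_lt_of_le (mul_pos h2 h1) hH
  haveI := hν.prob
  obtain ⟨A, hA, hA2, hA3⟩ := hS d H M B ν hd hM hH hν hmean hexp
  obtain ⟨gp, -, -, -⟩ := gc_pos (κ := Fin d) H hHpos
  set m := ν.restrict A with hm
  have hbd : ∀ᵐ x ∂m, ‖x‖ ≤ B := ae_restrict_of_ae hν.bdd
  obtain ⟨hi, hsq⟩ := hC d H B m hHpos inferInstance hbd
  set F : E d → ℝ := fun y => ∫ x, Real.exp (-(‖x - y‖ ^ 2 / (2 * H))) ∂m with hF
  set F' : E d → ℝ := fun y => ∫ x, Real.exp (-(‖x + y‖ ^ 2 / (2 * H))) ∂m with hF'
  have hmu : (m univ).toReal = (ν A).toReal := by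
    rw [hm, Measure.restrict_apply MeasurableSet.univ, univ_inter]
  have eF : F = fun y : E d => ∫ x, Real.exp (-(‖(1 : ℝ) • x - y‖ ^ 2 / (2 * H))) ∂m := by
    funext y
    simp only [hF, one_smul]
  have eF' : F' = fun y : E d => ∫ x, Real.exp (-(‖(-1 : ℝ) • x - y‖ ^ 2 / (2 * H))) ∂m := by
    funext y
    simp only [hF']
    congr 1
    funext x
    rw [show (-1 : ℝ) • x - y = -(x + y) by rw [neg_one_smul]; abel, norm_neg]
  obtain ⟨iF, jF⟩ := smooth hHpos m 1
  obtain ⟨iF', jF'⟩ := smooth hHpos m (-1)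
  rw [← eF] at iF
  rw [← eF'] at iF'
  have jF2 : ∫ y, F y = gc (Fin d) H * (ν A).toReal := by rw [← hmu, ← jF, eF]
  have jF'2 : ∫ y, F' y = gc (Fin d) H * (ν A).toReal := by rw [← hmu, ← jF', eF']
  have hdiff : ∫ y, |F y - F' y| ≤ gc (Fin d) H / 2 := by
    have h1 : (∫ y, |F y - F' y|) ^ 2 ≤ (gc (Fin d) H / 2) ^ 2 := by
      refine hsq.trans ?_
      have h2 : 0 ≤ gc (Fin d) H ^ 2 := sq_nonneg _
      nlinarith
    exact (abs_le_of_sq_le_sq' h1 (by positivity)).2
  have hmin : ∀ y, min (F y) (F' y) = (F y + F' y - |F y - F' y|) / 2 := by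
    intro y
    rcases le_total (F y) (F' y) with h | h
    · rw [min_eq_left h, abs_of_nonpos (by linarith)]
      ring
    · rw [min_eq_right h, abs_of_nonneg (by linarith)]
      ring
  have imin : Integrable fun y => min (F y) (F' y) := by
    have := ((iF.add iF').sub hi.abs).div_const 2
    refine this.congr (Eventually.of_forall fun y => ?_)
    simp only [Pi.add_apply, Pi.sub_apply]
    rw [hmin y]
  have jmin : gc (Fin d) H / 4 ≤ ∫ y, min (F y) (F' y) := by
    have e1 : ∫ y, min (F y) (F' y) = ((∫ y, F y) + (∫ y, F' y) - ∫ y, |F y - F' y|) / 2 := by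
      have a1 := integral_sub (μ := volume) (f := fun y => F y + F' y)
        (g := fun y => |F y - F' y|) (iF.add iF') hi.abs
      have a2 := integral_add (μ := volume) (f := F) (g := F') iF iF'
      rw [← a2, ← a1, ← integral_div]
      exact integral_congr_ae (Eventually.of_forall hmin)
    rw [e1, jF2, jF'2]
    nlinarith
  -- the reflected measure
  have hν' : PB B (ν.map fun x => -x) := by
    constructor
    · exact Measure.isProbabilityMeasure_map (by fun_prop)
    · rw [ae_map_iff (by fun_prop)]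
      · filter_upwards [hν.bdd] with x hx
        rwa [norm_neg]
      · exact measurableSet_le measurable_norm measurable_const
  obtain ⟨c1, p1, -, -, -, i1, -⟩ := zn_ok d H B ν hHpos hB hν
  obtain ⟨c2, p2, -, -, -, i2, -⟩ := zn_ok d H B _ hHpos hB hν'
  have hk : ∀ y : E d, ∀ s : ℝ, Integrable (fun x : E d => Real.exp (-(‖s • x - y‖ ^ 2 / (2 * H)))) ν := by
    intro y s
    refine (integrable_const (1 : ℝ)).mono' (Continuous.aestronglyMeasurable (by fun_prop))
      (Eventually.of_forall fun x => ?_)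
    rw [Real.norm_eq_abs, abs_of_pos (Real.exp_pos _), Real.exp_le_one_iff]
    have : 0 ≤ ‖s • x - y‖ ^ 2 / (2 * H) := by positivity
    linarith
  have l1 : ∀ y, F y ≤ zn H ν y := by
    intro y
    simp only [hF]
    unfold zn
    have h := hk y 1
    simp only [one_smul] at h
    exact setIntegral_le_integral h (Eventually.of_forall fun x => (Real.exp_pos _).le)
  have l2 : ∀ y, F' y ≤ zn H (ν.map fun x => -x) y := by
    intro y
    simp only [hF']
    unfold zn
    rw [integral_map (by fun_prop) (Continuous.aestronglyMeasurable (by fun_prop))]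
    have h := hk y (-1)
    have e : ∀ x : E d, Real.exp (-(‖-x - y‖ ^ 2 / (2 * H))) =
        Real.exp (-(‖x + y‖ ^ 2 / (2 * H))) := by
      intro x
      rw [show -x - y = -(x + y) by abel, norm_neg]
    simp_rw [e]
    have h' : Integrable (fun x : E d => Real.exp (-(‖x + y‖ ^ 2 / (2 * H)))) ν := by
      refine h.congr (Eventually.of_forall fun x => ?_)
      simp only
      rw [neg_one_smul, e]
    exact setIntegral_le_integral h' (Eventually.of_forall fun x => (Real.exp_pos _).le)
  have i3 : Integrable fun y => Real.sqrt (zn H ν y * zn H (ν.map fun x => -x) y) := by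
    refine ((i1.add i2).div_const 2).mono' ?_ (Eventually.of_forall fun y => ?_)
    · exact ((c1.continuous.mul c2.continuous).sqrt).aestronglyMeasurable
    · rw [Real.norm_eq_abs, abs_of_nonneg (Real.sqrt_nonneg _)]
      simp only [Pi.add_apply]
      rw [Real.sqrt_le_left (by linarith [p1 y, p2 y])]
      nlinarith [sq_nonneg (zn H ν y - zn H (ν.map fun x => -x) y)]
  have h5 : ∫ y, min (F y) (F' y) ≤ ∫ y, Real.sqrt (zn H ν y * zn H (ν.map fun x => -x) y) := by
    refine integral_mono imin i3 fun y => ?_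
    simp only
    have h6 : min (F y) (F' y) ≤ min (zn H ν y) (zn H (ν.map fun x => -x) y) :=
      min_le_min (l1 y) (l2 y)
    refine h6.trans ?_
    have h7 : 0 ≤ min (zn H ν y) (zn H (ν.map fun x => -x) y) := le_min (p1 y).le (p2 y).le
    apply Real.le_sqrt_of_sq_le
    rw [sq]
    exact mul_le_mul (min_le_left _ _) (min_le_right _ _) h7 (p1 y).le
  unfold aff
  rw [← div_eq_inv_mul, le_div_iff₀ gp]
  linarith

end Pool.Agent.T2h52.SP
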