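import Pool.Agent.T2h52.SP.Stm3

/-!
# Task BIN
-/

set_option autoImplicit false

namespace Pool.Agent.T2h52.SP

open MeasureTheory Set Filter Topology
open scoped ENNReal InnerProductSpace Pointwise

/-- Lower tail of the number of successes. -/
theorem bin : T_BIN := by
  classical
  intro d N μ A p₁ hμ hA hp0 hp
  set f : E d → ℝ := fun x => Real.exp (-(A.indicator (fun _ => (1 : ℝ)) x)) with hf
  have hfm : Measurable f := (measurable_const.indicator hA).neg.exp
  have hf1 : ∀ x, ‖f x‖ ≤ 1 := by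
    intro x
    rw [hf, Real.norm_eq_abs, abs_of_pos (Real.exp_pos _), Real.exp_le_one_iff]
    exact neg_nonpos.2 (indicator_nonneg (fun _ _ => zero_le_one) _)
  have hfi : Integrable f μ := Integrable.of_bound hfm.aestronglyMeasurable 1
    (Eventually.of_forall hf1)
  have he : (Real.exp 1)⁻¹ ≤ 3 / 8 := by
    have h1 := Real.exp_one_gt_d9
    rw [inv_le_comm₀ (Real.exp_pos 1) (by norm_num)]
    norm_num at h1 ⊢
    linarith
  have hint : ∫ x, f x ∂μ ≤ Real.exp (-((1 - (Real.exp 1)⁻¹) * p₁)) := by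
    have h1 : f = fun x => 1 - (1 - (Real.exp 1)⁻¹) * A.indicator (fun _ => (1 : ℝ)) x := by
      funext x
      by_cases hx : x ∈ A
      · rw [hf]
        simp only [indicator_of_mem hx, Real.exp_neg]
        ring
      · rw [hf]
        simp only [indicator_of_notMem hx]
        simp
    have h2 : Integrable (fun x => A.indicator (fun _ => (1 : ℝ)) x) μ :=
      (integrable_const (1 : ℝ)).indicator hA
    have h3 : ∫ x, f x ∂μ = 1 - (1 - (Real.exp 1)⁻¹) * (μ A).toReal := by
      rw [h1, integral_sub (integrable_const _) (h2.const_mul _), integral_const_mul,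
        integral_indicator_const _ hA, integral_const]
      simp [Measure.real]
    rw [h3]
    have h4 : (1 - (Real.exp 1)⁻¹) * p₁ ≤ (1 - (Real.exp 1)⁻¹) * (μ A).toReal :=
      mul_le_mul_of_nonneg_left hp (by linarith)
    have h5 := Real.add_one_le_exp (-((1 - (Real.exp 1)⁻¹) * p₁))
    linarith
  have hprod : ∀ X : Fin N → E d, Real.exp (-(∑ i, A.indicator (fun _ => (1 : ℝ)) (X i))) =
      ∏ i, f (X i) := by
    intro X
    rw [← Finset.sum_neg_distrib, Real.exp_sum]
  have hgm : Measurable fun X : Fin N → E d => ∏ i, f (X i) :=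
    Finset.measurable_fun_prod _ fun i _ => hfm.comp (measurable_pi_apply i)
  have hgi : Integrable (fun X : Fin N → E d => ∏ i, f (X i)) (Measure.pi fun _ => μ) := by
    refine Integrable.of_bound hgm.aestronglyMeasurable 1 (Eventually.of_forall fun X => ?_)
    rw [norm_prod]
    exact Finset.prod_le_one (fun _ _ => norm_nonneg _) fun i _ => hf1 _
  have hM : Real.exp (-(p₁ * N / 2)) * (Measure.pi fun _ : Fin N => μ).real
      {X | Real.exp (-(p₁ * N / 2)) ≤ ∏ i, f (X i)} ≤
      ∫ X, ∏ i, f (X i) ∂(Measure.pi fun _ : Fin N => μ) :=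
    mul_meas_ge_le_integral_of_nonneg
      (Eventually.of_forall fun X => Finset.prod_nonneg fun i _ => (Real.exp_pos _).le) hgi
      (Real.exp (-(p₁ * N / 2)))
  rw [integral_fintype_prod_eq_pow (ι := Fin N) f, Fintype.card_fin] at hM
  have hsub : {X : Fin N → E d | (∑ i, A.indicator (fun _ => (1 : ℝ)) (X i)) < p₁ * N / 2} ⊆
      {X | Real.exp (-(p₁ * N / 2)) ≤ ∏ i, f (X i)} := by
    intro X hX
    rw [Set.mem_ofPred_eq] at hX ⊢
    rw [← hprod, Real.exp_le_exp]
    linarith
  have h6 : ((Measure.pi fun _ : Fin N => μ)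
      {X | (∑ i, A.indicator (fun _ => (1 : ℝ)) (X i)) < p₁ * N / 2}).toReal ≤
      (Measure.pi fun _ : Fin N => μ).real {X | Real.exp (-(p₁ * N / 2)) ≤ ∏ i, f (X i)} :=
    measureReal_mono hsub
  refine h6.trans ?_
  have h7 : (∫ x, f x ∂μ) ^ N ≤ Real.exp (-((1 - (Real.exp 1)⁻¹) * p₁)) ^ N :=
    pow_le_pow_left₀ (integral_nonneg fun x => (Real.exp_pos _).le) hint N
  rw [← Real.exp_nat_mul] at h7
  have h8 : (Measure.pi fun _ : Fin N => μ).real {X | Real.exp (-(p₁ * N / 2)) ≤ ∏ i, f (X i)} ≤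
      Real.exp (p₁ * N / 2) * Real.exp (N * -((1 - (Real.exp 1)⁻¹) * p₁)) := by
    have h9 := mul_le_mul_of_nonneg_left (hM.trans h7) (Real.exp_pos (p₁ * N / 2)).le
    rw [← mul_assoc, ← Real.exp_add] at h9
    simpa using h9
  refine h8.trans ?_
  rw [← Real.exp_add, Real.exp_le_exp]
  have h10 : 0 ≤ p₁ * N := mul_nonneg hp0 (Nat.cast_nonneg _)
  nlinarith

end Pool.Agent.T2h52.SP
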