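import Pool.Agent.T2h52.SP.Stm

/-!
# Task CALC
-/

set_option autoImplicit false

namespace Pool.Agent.T2h52.SP

open Set Filter Topology

theorem calc_ : T_CALC := by
  intro J b hJc hJp hJ h H hh hH
  set G : ℝ → ℝ := fun x => x * (b - Real.log (J x)) with hG
  have hlogc : ContinuousOn (fun x => Real.log (J x)) (Ioi 0) :=
    hJc.log fun x hx => (hJp x hx).ne'
  have hGc : ContinuousOn G (Ioi 0) := continuousOn_id.mul (continuousOn_const.sub hlogc)
  have hsub : Icc h H ⊆ Ioi 0 := fun x hx => hh.trans_le hx.1
  have key : ∀ ε : ℝ, 0 < ε → -G H ≤ -G h + ε * (H - h) := by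
    intro ε hε
    have := image_le_of_liminf_slope_right_lt_deriv_boundary (f := fun x => -G x)
      (f' := fun _ => 0) (a := h) (b := H) (hGc.mono hsub).neg ?_
      (B := fun x => -G h + ε * (x - h)) (B' := fun _ => ε) (by simp) ?_ ?_
    · exact this (right_mem_Icc.2 hH)
    · intro x hx r hr
      have hx0 : 0 < x := hh.trans_le hx.1
      have hJx := hJp x hx0
      apply Filter.Eventually.frequently
      have hcont : Tendsto (fun z => Real.log (J z)) (𝓝[>] x) (𝓝 (Real.log (J x))) :=
        ((hlogc.continuousAt (Ioi_mem_nhds hx0)).tendsto).mono_left nhdsWithin_le_nhds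
      have hev1 : ∀ᶠ z in 𝓝[>] x, Real.log (J z) < Real.log (J x) + r / 3 :=
        hcont.eventually_lt_const (by linarith)
      obtain ⟨δ0, hδ0, hδ⟩ := hJ x hx0 (r * J x / (3 * x)) (by positivity)
      have hev2 : ∀ᶠ z in 𝓝[>] x, z < x + δ0 :=
        nhdsWithin_le_nhds (Iio_mem_nhds (by linarith))
      filter_upwards [hev1, hev2, self_mem_nhdsWithin] with z hz1 hz2 hz3
      have hz3' : x < z := hz3
      set δ := z - x with hδd
      have hδp : 0 < δ := sub_pos.2 hz3'
      have hzx : z = x + δ := by rw [hδd]; ring
      have h1 := hδ δ hδp (by linarith)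
      rw [← hzx] at h1
      have hJz : 0 < J z := hJp z (hx0.trans hz3')
      have h2 : Real.log (J z) - Real.log (J x) ≤ J z / J x - 1 := by
        rw [← Real.log_div hJz.ne' hJx.ne']
        exact Real.log_le_sub_one_of_pos (div_pos hJz hJx)
      have h3 : J z / J x - 1 ≤ δ * ((b - Real.log (J x)) / x + r / (3 * x)) := by
        have : J z / J x ≤ (J x + δ * (J x * (b - Real.log (J x)) / x + r * J x / (3 * x))) / J x :=
          div_le_div_of_nonneg_right h1 hJx.le
        have e : (J x + δ * (J x * (b - Real.log (J x)) / x + r * J x / (3 * x))) / J x - 1 =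
            δ * ((b - Real.log (J x)) / x + r / (3 * x)) := by
          field_simp
          ring
        linarith
      have h4 : x * (Real.log (J z) - Real.log (J x)) ≤
          δ * (b - Real.log (J x)) + δ * (r / 3) := by
        have := mul_le_mul_of_nonneg_left (h2.trans h3) hx0.le
        have e : x * (δ * ((b - Real.log (J x)) / x + r / (3 * x))) =
          δ * (b - Real.log (J x)) + δ * (r / 3) := by
          field_simp
        linarith
      rw [slope_def_field, div_lt_iff₀ hδp]
      have e2 : -G z - -G x = x * (Real.log (J z) - Real.log (J x)) - δ * (b - Real.log (J z)) := by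
        simp only [hG]
        rw [hδd]
        ring
      have h5 : δ * Real.log (J z) ≤ δ * (Real.log (J x) + r / 3) :=
        mul_le_mul_of_nonneg_left hz1.le hδp.le
      have h6 : 0 < δ * (r / 3) := by positivity
      have e3 : (fun x => -G x) z - (fun x => -G x) x = -G z - -G x := rfl
      have goal' : -G z - -G x < r * δ := by
        rw [e2]
        nlinarith [h4, h5, h6]
      exact goal'
    · intro x
      have := ((hasDerivAt_id x).sub_const h).const_mul ε
      simpa using this.const_add (-G h)
    · intro x _ _
      exact hε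
  have hlim : ∀ ε : ℝ, 0 < ε → G h ≤ G H + ε := by
    intro ε hε
    have h1 := key (ε / (H - h + 1)) (div_pos hε (by linarith))
    have h2 : ε / (H - h + 1) * (H - h) ≤ ε := by
      rw [div_mul_eq_mul_div, div_le_iff₀ (by linarith)]
      nlinarith
    linarith
  exact le_of_forall_pos_le_add hlim

end Pool.Agent.T2h52.SP
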