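import Pool.Agent.T2h52.SP.Stm
import Pool.Agent.H888R2.KT.N0

/-!
# CHI: the chi-square method
-/

set_option autoImplicit false

namespace Pool.Agent.T2h52.SP

open MeasureTheory Set Filter Topology
open scoped ENNReal InnerProductSpace Pointwise
open Pool.Agent.H888R2.KT (gs gc gc_pos)

namespace CHIx

variable {d : ℕ}

/-- the difference of the kernels -/
noncomputable def D (H : ℝ) (x y : E d) : ℝ :=
  Real.exp (-(‖x - y‖ ^ 2 / (2 * H))) - Real.exp (-(‖x + y‖ ^ 2 / (2 * H)))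

lemma cont_D {X : Type*} [TopologicalSpace X] (H : ℝ) {f g : X → E d} (hf : Continuous f)
    (hg : Continuous g) : Continuous fun z => D H (f z) (g z) := by
  unfold D
  fun_prop

lemma ker_bound {H R : ℝ} (hH : 0 < H) {x : E d} (hx : ‖x‖ ≤ R) (y : E d) :
    Real.exp (-(‖x - y‖ ^ 2 / (2 * H))) ≤
      Real.exp (2 * R ^ 2 / H) * Real.exp (-(3 / (8 * H) * ‖y‖ ^ 2)) := by
  rw [← Real.exp_add, Real.exp_le_exp]
  have h1 : ‖y‖ - ‖x‖ ≤ ‖x - y‖ := by
    rw [norm_sub_rev]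
    exact norm_sub_norm_le y x
  have hx0 := norm_nonneg x
  have hy0 := norm_nonneg y
  have hxy0 := norm_nonneg (x - y)
  have hR0 : 0 ≤ R := hx0.trans hx
  have h2 : ‖y‖ ^ 2 - 2 * R * ‖y‖ ≤ ‖x - y‖ ^ 2 := by
    rcases le_or_gt (‖y‖) R with h3 | h3
    · nlinarith
    · have h4 : ‖y‖ - R ≤ ‖x - y‖ := by linarith
      nlinarith
  have h3 : -(‖x - y‖ ^ 2 / (2 * H)) ≤ -((‖y‖ ^ 2 - 2 * R * ‖y‖) / (2 * H)) := by
    apply neg_le_neg
    exact div_le_div_of_nonneg_right h2 (by positivity)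
  refine h3.trans ?_
  have h4 : 2 * R ^ 2 / H + -(3 / (8 * H) * ‖y‖ ^ 2) - -((‖y‖ ^ 2 - 2 * R * ‖y‖) / (2 * H)) =
      (‖y‖ - 4 * R) ^ 2 / (8 * H) := by
    field_simp
    ring
  have h5 : 0 ≤ (‖y‖ - 4 * R) ^ 2 / (8 * H) := by positivity
  linarith

lemma D_bound {H R : ℝ} (hH : 0 < H) {x : E d} (hx : ‖x‖ ≤ R) (y : E d) :
    |D H x y| ≤ 2 * Real.exp (2 * R ^ 2 / H) * Real.exp (-(3 / (8 * H) * ‖y‖ ^ 2)) := by
  have h1 := ker_bound hH hx y
  have h2 := ker_bound hH (R := R) (x := -x) (by rwa [norm_neg]) y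
  have h3 : ‖-x - y‖ = ‖x + y‖ := by
    rw [← norm_neg]
    congr 1
    abel
  rw [h3] at h2
  have p1 := Real.exp_pos (-(‖x - y‖ ^ 2 / (2 * H)))
  have p2 := Real.exp_pos (-(‖x + y‖ ^ 2 / (2 * H)))
  unfold D
  rw [abs_le]
  constructor <;> linarith

/-- the product of two kernels and the weight -/
lemma prod_ker {H : ℝ} (hH : 0 < H) (x x' y : E d) :
    Real.exp (-(‖x - y‖ ^ 2 / (2 * H))) * Real.exp (-(‖x' - y‖ ^ 2 / (2 * H))) *
      Real.exp (‖y‖ ^ 2 / (2 * H)) =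
      Real.exp (⟪x, x'⟫_ℝ / H) * Real.exp (-(‖(x + x') - y‖ ^ 2 / (2 * H))) := by
  rw [← Real.exp_add, ← Real.exp_add, ← Real.exp_add]
  congr 1
  have e1 := norm_sub_sq_real x y
  have e2 := norm_sub_sq_real x' y
  have e3 := norm_sub_sq_real (x + x') y
  have e4 := norm_add_sq_real x x'
  have e5 := inner_add_left (𝕜 := ℝ) x x' y
  rw [e1, e2, e3, e4, e5]
  field_simp
  ring

lemma int_ker {H : ℝ} (hH : 0 < H) (x x' : E d) :
    Integrable (fun y : E d => Real.exp (-(‖x - y‖ ^ 2 / (2 * H))) *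
      Real.exp (-(‖x' - y‖ ^ 2 / (2 * H))) * Real.exp (‖y‖ ^ 2 / (2 * H))) ∧
    ∫ y : E d, Real.exp (-(‖x - y‖ ^ 2 / (2 * H))) * Real.exp (-(‖x' - y‖ ^ 2 / (2 * H))) *
      Real.exp (‖y‖ ^ 2 / (2 * H)) = Real.exp (⟪x, x'⟫_ℝ / H) * gc (Fin d) H := by
  obtain ⟨-, g1, g2, -⟩ := gc_pos (κ := Fin d) H hH
  simp only [prod_ker hH]
  refine ⟨(g2 (x + x')).const_mul _, ?_⟩
  rw [integral_const_mul, g1]

lemma int4 {f1 f2 f3 f4 : E d → ℝ} (i1 : Integrable f1) (i2 : Integrable f2)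
    (i3 : Integrable f3) (i4 : Integrable f4) : ∫ y, (f1 y - f2 y - f3 y + f4 y) =
      (∫ y, f1 y) - (∫ y, f2 y) - (∫ y, f3 y) + ∫ y, f4 y := by
  have i12 : Integrable (fun y => f1 y - f2 y) := i1.sub i2
  have i123 : Integrable (fun y => f1 y - f2 y - f3 y) := i12.sub i3
  rw [integral_add i123 i4, integral_sub i12 i3, integral_sub i1 i2]

lemma int_D {H : ℝ} (hH : 0 < H) (x x' : E d) :
    ∫ y : E d, D H x y * D H x' y * Real.exp (‖y‖ ^ 2 / (2 * H)) =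
      4 * gc (Fin d) H * Real.sinh (⟪x, x'⟫_ℝ / H) := by
  have hn : ∀ x y : E d, ‖x + y‖ = ‖-x - y‖ := by
    intro x y
    rw [← norm_neg]
    congr 1
    abel
  obtain ⟨i1, j1⟩ := int_ker hH x x'
  obtain ⟨i2, j2⟩ := int_ker hH (-x) x'
  obtain ⟨i3, j3⟩ := int_ker hH x (-x')
  obtain ⟨i4, j4⟩ := int_ker hH (-x) (-x')
  have h1 : (fun y : E d => D H x y * D H x' y * Real.exp (‖y‖ ^ 2 / (2 * H))) = fun y : E d =>
      ((Real.exp (-(‖x - y‖ ^ 2 / (2 * H))) * Real.exp (-(‖x' - y‖ ^ 2 / (2 * H))) *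
        Real.exp (‖y‖ ^ 2 / (2 * H)) -
      Real.exp (-(‖-x - y‖ ^ 2 / (2 * H))) * Real.exp (-(‖x' - y‖ ^ 2 / (2 * H))) *
        Real.exp (‖y‖ ^ 2 / (2 * H))) -
      Real.exp (-(‖x - y‖ ^ 2 / (2 * H))) * Real.exp (-(‖-x' - y‖ ^ 2 / (2 * H))) *
        Real.exp (‖y‖ ^ 2 / (2 * H))) +
      Real.exp (-(‖-x - y‖ ^ 2 / (2 * H))) * Real.exp (-(‖-x' - y‖ ^ 2 / (2 * H))) *
        Real.exp (‖y‖ ^ 2 / (2 * H)) := by
    funext y
    unfold D
    rw [hn x y, hn x' y]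
    ring
  rw [h1, int4 i1 i2 i3 i4, j1, j2, j3, j4, Real.sinh_eq]
  rw [inner_neg_left, inner_neg_right, inner_neg_left, inner_neg_right, neg_neg, neg_div]
  ring

end CHIx

open CHIx in
theorem chi : T_CHI := by
  intro d H R m hH hm hR
  have := hm
  obtain ⟨gp, g1, g2, -⟩ := gc_pos (κ := Fin d) H hH
  set C : ℝ := 2 * Real.exp (2 * R ^ 2 / H) with hC
  have hC0 : 0 < C := by positivity
  -- the function `G`
  have hk1 : ∀ y : E d, Integrable (fun x => Real.exp (-(‖x - y‖ ^ 2 / (2 * H)))) m := fun y =>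
    Integrable.of_bound (by fun_prop) 1 (Eventually.of_forall fun x => by
      rw [Real.norm_of_nonneg (Real.exp_pos _).le, Real.exp_le_one_iff]
      have : 0 ≤ ‖x - y‖ ^ 2 / (2 * H) := by positivity
      linarith)
  have hk2 : ∀ y : E d, Integrable (fun x => Real.exp (-(‖x + y‖ ^ 2 / (2 * H)))) m := fun y =>
    Integrable.of_bound (by fun_prop) 1 (Eventually.of_forall fun x => by
      rw [Real.norm_of_nonneg (Real.exp_pos _).le, Real.exp_le_one_iff]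
      have : 0 ≤ ‖x + y‖ ^ 2 / (2 * H) := by positivity
      linarith)
  set G : E d → ℝ := fun y => ∫ x, D H x y ∂m with hG
  have hGe : (fun y => (∫ x, Real.exp (-(‖x - y‖ ^ 2 / (2 * H))) ∂m) -
      ∫ x, Real.exp (-(‖x + y‖ ^ 2 / (2 * H))) ∂m) = G := by
    funext y
    rw [← integral_sub (hk1 y) (hk2 y)]
    rfl
  have hGe' : ∀ y, (∫ x, Real.exp (-(‖x - y‖ ^ 2 / (2 * H))) ∂m) -
      ∫ x, Real.exp (-(‖x + y‖ ^ 2 / (2 * H))) ∂m = G y := fun y => congrFun hGe y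
  simp only [hGe']
  have hGint : Integrable G := by
    have h1 : Integrable (fun z : E d × E d => D H z.2 z.1) (volume.prod m) := by
      have hb : Integrable (fun z : E d × E d => (C * Real.exp (-(3 / (8 * H)) * ‖z.1‖ ^ 2)) * 1)
          (volume.prod m) :=
        ((Pool.Agent.H888R2.KT.N0x.gauss_int (κ := Fin d) (3 / (8 * H))
          (by positivity)).const_mul C).mul_prod (integrable_const (1 : ℝ))
      refine hb.mono' (cont_D H continuous_snd continuous_fst).aestronglyMeasurable ?_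
      have h2 : ∀ᵐ z : E d × E d ∂(volume.prod m), ‖z.2‖ ≤ R :=
        Measure.quasiMeasurePreserving_snd.ae hR
      filter_upwards [h2] with z hz
      rw [Real.norm_eq_abs, mul_one, neg_mul]
      exact D_bound hH hz z.1
    exact h1.integral_prod_left
  refine ⟨hGint, ?_⟩
  -- the weighted square
  have hint : Integrable (fun z : (E d × E d) × E d => D H z.1.1 z.2 * D H z.1.2 z.2 *
      Real.exp (‖z.2‖ ^ 2 / (2 * H))) ((m.prod m).prod volume) := by
    have hb1 : Integrable (fun y : E d => C ^ 2 * Real.exp (-(1 / (4 * H)) * ‖y‖ ^ 2)) :=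
      (Pool.Agent.H888R2.KT.N0x.gauss_int (κ := Fin d) (1 / (4 * H))
          (by positivity)).const_mul (C ^ 2)
    have hb0 : Integrable (fun _ : E d × E d => (1 : ℝ)) (m.prod m) := integrable_const 1
    have hb : Integrable (fun z : (E d × E d) × E d => (1 : ℝ) *
        (C ^ 2 * Real.exp (-(1 / (4 * H)) * ‖z.2‖ ^ 2))) ((m.prod m).prod volume) :=
      hb0.mul_prod hb1
    have hc1 : Continuous fun z : (E d × E d) × E d => D H z.1.1 z.2 :=
      cont_D H (continuous_fst.comp continuous_fst) continuous_snd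
    have hc2 : Continuous fun z : (E d × E d) × E d => D H z.1.2 z.2 :=
      cont_D H (continuous_snd.comp continuous_fst) continuous_snd
    have hc3 : Continuous fun z : (E d × E d) × E d => Real.exp (‖z.2‖ ^ 2 / (2 * H)) := by
      fun_prop
    have hc : Continuous fun z : (E d × E d) × E d => D H z.1.1 z.2 * D H z.1.2 z.2 *
        Real.exp (‖z.2‖ ^ 2 / (2 * H)) := (hc1.mul hc2).mul hc3
    refine hb.mono' hc.aestronglyMeasurable ?_
    have h2 : ∀ᵐ p : E d × E d ∂(m.prod m), ‖p.1‖ ≤ R ∧ ‖p.2‖ ≤ R :=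
      (Measure.quasiMeasurePreserving_fst.ae hR).and (Measure.quasiMeasurePreserving_snd.ae hR)
    have h3 : ∀ᵐ z : (E d × E d) × E d ∂((m.prod m).prod volume), ‖z.1.1‖ ≤ R ∧ ‖z.1.2‖ ≤ R :=
      Measure.quasiMeasurePreserving_fst.ae h2
    filter_upwards [h3] with z hz
    rw [norm_mul, norm_mul, Real.norm_eq_abs, Real.norm_eq_abs,
      Real.norm_of_nonneg (Real.exp_pos _).le, one_mul]
    have b1 := D_bound hH hz.1 z.2
    have b2 := D_bound hH hz.2 z.2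
    have e1 : Real.exp (-(3 / (8 * H) * ‖z.2‖ ^ 2)) * Real.exp (-(3 / (8 * H) * ‖z.2‖ ^ 2)) *
        Real.exp (‖z.2‖ ^ 2 / (2 * H)) = Real.exp (-(1 / (4 * H)) * ‖z.2‖ ^ 2) := by
      rw [← Real.exp_add, ← Real.exp_add]
      congr 1
      field_simp
      ring
    calc |D H z.1.1 z.2| * |D H z.1.2 z.2| * Real.exp (‖z.2‖ ^ 2 / (2 * H))
        ≤ (C * Real.exp (-(3 / (8 * H) * ‖z.2‖ ^ 2))) *
          (C * Real.exp (-(3 / (8 * H) * ‖z.2‖ ^ 2))) * Real.exp (‖z.2‖ ^ 2 / (2 * H)) := by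
          gcongr
      _ = C ^ 2 * (Real.exp (-(3 / (8 * H) * ‖z.2‖ ^ 2)) *
          Real.exp (-(3 / (8 * H) * ‖z.2‖ ^ 2)) * Real.exp (‖z.2‖ ^ 2 / (2 * H))) := by ring
      _ = _ := by rw [e1]
  have hGsq : ∀ y : E d, ∫ p : E d × E d, D H p.1 y * D H p.2 y * Real.exp (‖y‖ ^ 2 / (2 * H))
      ∂(m.prod m) = G y ^ 2 * Real.exp (‖y‖ ^ 2 / (2 * H)) := by
    intro y
    rw [integral_mul_const, integral_prod_mul (fun x => D H x y) (fun x => D H x y),
      pow_two (G y)]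
  have hGi2 : Integrable fun y => G y ^ 2 * Real.exp (‖y‖ ^ 2 / (2 * H)) := by
    have h1 := hint.integral_prod_right
    refine h1.congr (Eventually.of_forall fun y => ?_)
    exact hGsq y
  have hA : ∫ y, G y ^ 2 * Real.exp (‖y‖ ^ 2 / (2 * H)) =
      4 * gc (Fin d) H * ∫ x, ∫ x', Real.sinh (⟪x, x'⟫_ℝ / H) ∂m ∂m := by
    have h1 : ∫ y, G y ^ 2 * Real.exp (‖y‖ ^ 2 / (2 * H)) =
        ∫ y : E d, ∫ p : E d × E d, D H p.1 y * D H p.2 y * Real.exp (‖y‖ ^ 2 / (2 * H))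
          ∂(m.prod m) := integral_congr_ae (Eventually.of_forall fun y => (hGsq y).symm)
    have h2 : ∫ p : E d × E d, (∫ y : E d, D H p.1 y * D H p.2 y *
        Real.exp (‖y‖ ^ 2 / (2 * H))) ∂(m.prod m) =
        ∫ y : E d, ∫ p : E d × E d, D H p.1 y * D H p.2 y * Real.exp (‖y‖ ^ 2 / (2 * H))
          ∂(m.prod m) :=
      integral_integral_swap (f := fun (p : E d × E d) (y : E d) => D H p.1 y * D H p.2 y *
        Real.exp (‖y‖ ^ 2 / (2 * H))) hint
    have h3 : Integrable (fun p : E d × E d => Real.sinh (⟪p.1, p.2⟫_ℝ / H)) (m.prod m) := by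
      have h4 := hint.integral_prod_left
      have h5 := h4.const_mul (4 * gc (Fin d) H)⁻¹
      refine h5.congr (Eventually.of_forall fun p => ?_)
      change (4 * gc (Fin d) H)⁻¹ * ∫ y : E d, D H p.1 y * D H p.2 y *
        Real.exp (‖y‖ ^ 2 / (2 * H)) = _
      rw [int_D hH, inv_mul_cancel_left₀ (by positivity)]
    rw [h1, ← h2]
    simp only [int_D hH]
    rw [integral_const_mul, integral_prod _ h3]
  -- Cauchy-Schwarz
  set a : ℝ := ∫ y, |G y| with ha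
  have hw : Integrable fun y : E d => Real.exp (-(‖y‖ ^ 2 / (2 * H))) :=
    Pool.Agent.H888R2.KT.N0x.gauss_int' H hH
  have hcs : ∀ s : ℝ, 0 ≤ s → 2 * s * a ≤
      (∫ y, G y ^ 2 * Real.exp (‖y‖ ^ 2 / (2 * H))) + s ^ 2 * gc (Fin d) H := by
    intro s hs
    have h1 : ∫ y, 2 * s * |G y| ≤ ∫ y, (G y ^ 2 * Real.exp (‖y‖ ^ 2 / (2 * H)) +
        s ^ 2 * Real.exp (-(‖y‖ ^ 2 / (2 * H)))) := by
      refine integral_mono (hGint.abs.const_mul _) (hGi2.add (hw.const_mul _)) fun y => ?_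
      change 2 * s * |G y| ≤ G y ^ 2 * Real.exp (‖y‖ ^ 2 / (2 * H)) +
        s ^ 2 * Real.exp (-(‖y‖ ^ 2 / (2 * H)))
      set u := Real.exp (‖y‖ ^ 2 / (4 * H)) with hu
      have hu0 : 0 < u := Real.exp_pos _
      have e1 : Real.exp (‖y‖ ^ 2 / (2 * H)) = u ^ 2 := by
        rw [hu, ← Real.exp_nat_mul]
        congr 1
        push_cast
        field_simp
        ring
      have e2 : Real.exp (-(‖y‖ ^ 2 / (2 * H))) = (u⁻¹) ^ 2 := by
        rw [Real.exp_neg, e1, inv_pow]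
      rw [e1, e2]
      have e3 := two_mul_le_add_sq (|G y| * u) (s * u⁻¹)
      have e4 : 2 * (|G y| * u) * (s * u⁻¹) = 2 * s * |G y| := by
        field_simp
      rw [e4, mul_pow, mul_pow, sq_abs] at e3
      exact e3
    rw [integral_const_mul, integral_add hGi2 (hw.const_mul _), integral_const_mul] at h1
    exact h1
  have ha0 : 0 ≤ a := integral_nonneg fun y => abs_nonneg _
  have h1 := hcs (a / gc (Fin d) H) (div_nonneg ha0 gp.le)
  rw [hA] at h1
  set c := gc (Fin d) H with hc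
  have h2 : 2 * (a / c) * a = 2 * (a ^ 2 / c) := by
    field_simp
  have h3 : (a / c) ^ 2 * c = a ^ 2 / c := by
    field_simp
  rw [h2, h3] at h1
  have h4 : a ^ 2 / c ≤ 4 * c * ∫ x, ∫ x', Real.sinh (⟪x, x'⟫_ℝ / H) ∂m ∂m := by linarith
  rw [div_le_iff₀ gp] at h4
  calc a ^ 2 ≤ _ := h4
    _ = _ := by ring

end Pool.Agent.T2h52.SP
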