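import Pool.Agent.T2h52.SP.Stm2
import Pool.Agent.N555.RZ.MainB

/-!
# CRT: the criterion
-/

set_option autoImplicit false
set_option linter.all false

namespace Pool.Agent.T2h52.SP

open MeasureTheory Set Filter Topology
open scoped ENNReal InnerProductSpace Pointwise
open Pool.Agent.N555.RZ (mP Spr)

theorem crt (hS : T_SPR) : T_CRT := by
  intro d P A l q B hP hiso hgm hl hd hq hB hcot hnum
  have hl4 : (1 : ℝ) ≤ l ^ 4 := one_le_pow₀ hl
  have hd2 : 2 ≤ d := by
    have h1 : (2 : ℝ) ≤ d := by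
      refine le_trans ?_ hd
      nlinarith
    exact_mod_cast h1
  have hdpos : (0 : ℝ) < d := by
    have : 0 < d := by omega
    exact_mod_cast this
  have hAc : Continuous A := A.toContinuousLinearEquiv.continuous
  have hPneg : -P ⊆ (1 : ℝ) • P := by
    rw [one_smul]
    intro x hx
    have := hP.sym _ hx
    rwa [neg_neg] at this
  obtain ⟨c1, c2, c3, c4⟩ := Pool.Agent.N555.RZ.img_facts A hP.conv hP.comp hP.int 1 hPneg
  have hAP : Bd (A '' P) := by
    refine ⟨c1, c2, c3, ?_⟩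
    rintro _ ⟨x, hx, rfl⟩
    exact ⟨-x, hP.sym x hx, map_neg A x⟩
  have hspr1 := hS d (A '' P) l hAP hiso hl hgm hd
  have hspr := Pool.Agent.N555.RZ.spr_of_img hP.comp A _ hspr1
  have hD : (10 ^ 7 * B * Real.log (d + 1)) ^ (17 * q) ≤
      (d : ℝ) ^ ((1 : ℝ) / 6) / (10 ^ 30 * l ^ ((2 : ℝ) / 3)) := by
    rw [le_div_iff₀ (by positivity)]
    exact hnum
  exact Pool.Agent.N555.RZ.mainC _ hd2 hP.conv hP.comp hP.int hP.sym hspr q B hq hB
    (fun m x => hcot m x) hD

end Pool.Agent.T2h52.SP
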