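import Pool.Agent.T2h52.SP.Stm

/-!
# ENT: the gradient estimate in its logarithmic form
-/

set_option autoImplicit false

namespace Pool.Agent.T2h52.SP

open MeasureTheory Set Filter Topology
open scoped ENNReal InnerProductSpace Pointwise
open Pool.Agent.H888R2.KT (gs gc)
open Pool.Agent.R755.KF (zn aff sd PB PL3 PLH S_ZN)

namespace ENTaux

variable {k : ℕ} {h B : ℝ} {νa νb : Measure (E k)}

theorem le_of_sq' {a b : ℝ} (h : a ^ 2 ≤ b ^ 2) (hb : 0 ≤ b) : a ≤ b :=
  (le_abs_self a).trans (abs_le_of_sq_le_sq h hb)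

/-- the pointwise consequence of the Prékopa–Leindler inequality -/
theorem pointwise (h2 : S_ZN) (hh : 0 < h) (hB : 0 ≤ B) (ha : PB B νa) (hb : PB B νb)
    (Zm : E k → ℝ) (hZ : ∀ y, 0 ≤ Zm y)
    (hPL : ∀ y v, zn h νa (y - v) * zn h νb (y + v) ≤ Zm y ^ 2) (y : E k) :
    Real.sqrt (zn h νa y * zn h νb y) * Real.exp (h / 2 * ‖sd h νa νb y‖ ^ 2) ≤ Zm y := by
  obtain ⟨_, pa, _, _, sa, _, _⟩ := h2 k h B νa hh hB ha
  obtain ⟨_, pb, _, _, sb, _, _⟩ := h2 k h B νb hh hB hb
  set w : E k := (InnerProductSpace.toDual ℝ (E k)).symm (sd h νa νb y) with hw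
  have hwn : ‖w‖ = ‖sd h νa νb y‖ := by rw [hw]; exact LinearIsometryEquiv.norm_map _ _
  have hww : sd h νa νb y w = ‖sd h νa νb y‖ ^ 2 := by
    rw [← hwn, ← real_inner_self_eq_norm_sq, hw, InnerProductSpace.toDual_symm_apply]
  set v : E k := h • w with hv
  have hvn : ‖v‖ ^ 2 = h ^ 2 * ‖sd h νa νb y‖ ^ 2 := by
    rw [hv, norm_smul, Real.norm_eq_abs, mul_pow, sq_abs, hwn]
  have hsv : sd h νa νb y v = h * ‖sd h νa νb y‖ ^ 2 := by
    rw [hv, map_smul, smul_eq_mul, hww]
  have hsd : sd h νa νb y v = 1 / 2 * ((fderiv ℝ (zn h νb) y v) / zn h νb y -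
      (fderiv ℝ (zn h νa) y v) / zn h νa y) := by
    simp only [sd, smul_apply, sub_apply, smul_eq_mul]
    ring
  have a1 := sa y (-v)
  have b1 := sb y v
  rw [map_neg, norm_neg, ← sub_eq_add_neg] at a1
  have hm := mul_le_mul a1 b1 (mul_nonneg (pb y).le (Real.exp_pos _).le) (pa _).le
  have hprod : (zn h νa y * Real.exp (-(fderiv ℝ (zn h νa) y v) / zn h νa y -
      ‖v‖ ^ 2 / (2 * h))) * (zn h νb y * Real.exp (fderiv ℝ (zn h νb) y v / zn h νb y -
      ‖v‖ ^ 2 / (2 * h))) =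
      (Real.sqrt (zn h νa y * zn h νb y) * Real.exp (h / 2 * ‖sd h νa νb y‖ ^ 2)) ^ 2 := by
    have e1 : ∀ a b x z : ℝ, (a * Real.exp x) * (b * Real.exp z) = (a * b) * Real.exp (x + z) := by
      intro a b x z; rw [Real.exp_add]; ring
    rw [e1, mul_pow, Real.sq_sqrt (mul_pos (pa y) (pb y)).le, ← Real.exp_nat_mul]
    congr 2
    have e2 : -(fderiv ℝ (zn h νa) y v) / zn h νa y - ‖v‖ ^ 2 / (2 * h) +
        (fderiv ℝ (zn h νb) y v / zn h νb y - ‖v‖ ^ 2 / (2 * h)) =
        2 * (sd h νa νb y v) - ‖v‖ ^ 2 / h := by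
      rw [hsd]; field_simp; ring
    rw [e2, hsv, hvn]
    push_cast
    field_simp
    ring
  rw [hprod] at hm
  exact le_of_sq' (hm.trans (hPL y v)) (hZ y)

theorem sd_bd (h2 : S_ZN) (hh : 0 < h) (hB : 0 ≤ B) (ha : PB B νa) (hb : PB B νb) (y : E k) :
    ‖sd h νa νb y‖ ≤ B / h := by
  obtain ⟨_, pa, _, qa, _, _, _⟩ := h2 k h B νa hh hB ha
  obtain ⟨_, pb, _, qb, _, _, _⟩ := h2 k h B νb hh hB hb
  have key : ∀ ν : Measure (E k), (∀ y, 0 < zn h ν y) →
      (∀ y, ‖fderiv ℝ (zn h ν) y + ((1 / h) * zn h ν y) • innerSL ℝ y‖ ≤ B / h * zn h ν y) →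
      ‖(zn h ν y)⁻¹ • fderiv ℝ (zn h ν) y + (1 / h) • innerSL ℝ y‖ ≤ B / h := by
    intro ν p q
    have e : (zn h ν y)⁻¹ • fderiv ℝ (zn h ν) y + (1 / h) • innerSL ℝ y =
        (zn h ν y)⁻¹ • (fderiv ℝ (zn h ν) y + ((1 / h) * zn h ν y) • innerSL ℝ y) := by
      rw [smul_add, smul_smul]
      congr 2
      have := (p y).ne'
      field_simp
    rw [e, norm_smul, norm_inv, Real.norm_eq_abs, abs_of_pos (p y)]
    calc (zn h ν y)⁻¹ * ‖fderiv ℝ (zn h ν) y + ((1 / h) * zn h ν y) • innerSL ℝ y‖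
        ≤ (zn h ν y)⁻¹ * (B / h * zn h ν y) :=
          mul_le_mul_of_nonneg_left (q y) (inv_nonneg.2 (p y).le)
      _ = B / h := by
          have := (p y).ne'
          field_simp
  have k1 := key νa pa qa
  have k2 := key νb pb qb
  have e : sd h νa νb y = (1 / 2 : ℝ) • (((zn h νb y)⁻¹ • fderiv ℝ (zn h νb) y +
      (1 / h) • innerSL ℝ y) - ((zn h νa y)⁻¹ • fderiv ℝ (zn h νa) y +
      (1 / h) • innerSL ℝ y)) := by
    unfold sd
    congr 1
    abel
  rw [e, norm_smul]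
  have := norm_sub_le ((zn h νb y)⁻¹ • fderiv ℝ (zn h νb) y +
      (1 / h) • innerSL ℝ y) ((zn h νa y)⁻¹ • fderiv ℝ (zn h νa) y +
      (1 / h) • innerSL ℝ y)
  have h3 : ‖(1 / 2 : ℝ)‖ = 1 / 2 := by norm_num
  rw [h3]
  linarith

theorem sd_cont (h2 : S_ZN) (hh : 0 < h) (hB : 0 ≤ B) (ha : PB B νa) (hb : PB B νb) :
    Continuous (sd h νa νb) := by
  obtain ⟨ca, pa, _, _, _, _, _⟩ := h2 k h B νa hh hB ha
  obtain ⟨cb, pb, _, _, _, _, _⟩ := h2 k h B νb hh hB hb
  unfold sd
  have h3 := ca.continuous_fderiv one_ne_zero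
  have h4 := cb.continuous_fderiv one_ne_zero
  have h5 : Continuous fun y => (zn h νa y)⁻¹ := ca.continuous.inv₀ fun y => (pa y).ne'
  have h6 : Continuous fun y => (zn h νb y)⁻¹ := cb.continuous.inv₀ fun y => (pb y).ne'
  exact (continuous_const (y := (1 / 2 : ℝ))).smul ((h6.smul h4).sub (h5.smul h3))

end ENTaux

/-- ENT -/
theorem ent (h2 : S_ZN) : T_ENT := by
  intro d h B η νa νb hh hB hη ha hb hPL
  obtain ⟨ca, pa, _, _, _, ia, ea⟩ := h2 d h B νa hh hB ha
  obtain ⟨cb, pb, _, _, _, ib, eb⟩ := h2 d h B νb hh hB hb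
  obtain ⟨Zm, hZ0, hZi, hZ1, hZ2⟩ := hPL
  set S : E d → ℝ := fun y => Real.sqrt (zn h νa y * zn h νb y) with hS
  set F : E d → ℝ := fun y => h / 2 * ‖sd h νa νb y‖ ^ 2 with hF
  have hpt := ENTaux.pointwise h2 hh hB ha hb Zm hZ0 hZ2
  have hSpos : ∀ y, 0 < S y := fun y => Real.sqrt_pos.2 (mul_pos (pa y) (pb y))
  have hScont : Continuous S := (ca.continuous.mul cb.continuous).sqrt
  have hSle : ∀ y, S y ≤ (zn h νa y + zn h νb y) / 2 := by
    intro y
    have e := Real.sq_sqrt (mul_pos (pa y) (pb y)).le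
    refine ENTaux.le_of_sq' ?_ (by have := pa y; have := pb y; positivity)
    show Real.sqrt (zn h νa y * zn h νb y) ^ 2 ≤ _
    rw [e]
    nlinarith [sq_nonneg (zn h νa y - zn h νb y)]
  have hSint : Integrable S := by
    refine ((ia.add ib).div_const 2).mono' hScont.aestronglyMeasurable (ae_of_all _ fun y => ?_)
    rw [Real.norm_eq_abs, abs_of_pos (hSpos y)]
    exact hSle y
  have hg : 0 < gc (Fin d) h := by
    have : 0 < ∫ y, zn h νa y := by
      rw [integral_pos_iff_support_of_nonneg (fun y => (pa y).le) ia]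
      have : Function.support (zn h νa) = univ := by
        ext y; simp [(pa y).ne']
      rw [this]
      exact isOpen_univ.measure_pos _ univ_nonempty
    rwa [ea] at this
  set g : ℝ := gc (Fin d) h with hgdef
  have hSI : 0 < ∫ y, S y := by
    rw [integral_pos_iff_support_of_nonneg (fun y => (hSpos y).le) hSint]
    have : Function.support S = univ := by
      ext y; simp [(hSpos y).ne']
    rw [this]
    exact isOpen_univ.measure_pos _ univ_nonempty
  have haff : aff h νa νb = g⁻¹ * ∫ y, S y := rfl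
  have haffpos : 0 < aff h νa νb := by rw [haff]; exact mul_pos (inv_pos.2 hg) hSI
  have hSI' : ∫ y, S y = g * aff h νa νb := by
    rw [haff]; field_simp
  have haff1 : aff h νa νb ≤ 1 := by
    have h3 : ∫ y, S y ≤ ∫ y, (zn h νa y + zn h νb y) / 2 :=
      integral_mono hSint ((ia.add ib).div_const 2) hSle
    rw [integral_div, integral_add ia ib, ea, eb] at h3
    rw [haff]
    calc g⁻¹ * ∫ y, S y ≤ g⁻¹ * g :=
          mul_le_mul_of_nonneg_left (by linarith) (inv_nonneg.2 hg.le)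
      _ = 1 := inv_mul_cancel₀ hg.ne'
  refine ⟨haffpos, haff1, ?_⟩
  -- integrability
  have hsdc := ENTaux.sd_cont h2 hh hB ha hb
  have hFc : Continuous F := by
    have := hsdc.norm
    exact continuous_const.mul (this.pow 2)
  have hFb : ∀ y, ‖F y‖ ≤ h / 2 * (B / h) ^ 2 := by
    intro y
    rw [Real.norm_eq_abs, abs_of_nonneg (by positivity)]
    have := ENTaux.sd_bd h2 hh hB ha hb y
    have h5 := pow_le_pow_left₀ (norm_nonneg _) this 2
    exact mul_le_mul_of_nonneg_left h5 (by positivity)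
  have hSF : Integrable (fun y => S y * F y) := by
    refine (hSint.mul_const (h / 2 * (B / h) ^ 2)).mono' (hScont.mul hFc).aestronglyMeasurable
      (ae_of_all _ fun y => ?_)
    rw [norm_mul, Real.norm_eq_abs (S y), abs_of_pos (hSpos y)]
    exact mul_le_mul_of_nonneg_left (hFb y) (hSpos y).le
  have hSE : Integrable (fun y => S y * Real.exp (F y)) := by
    refine hZi.mono' (hScont.mul hFc.rexp).aestronglyMeasurable (ae_of_all _ fun y => ?_)
    rw [Real.norm_eq_abs, abs_of_pos (mul_pos (hSpos y) (Real.exp_pos _))]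
    exact hpt y
  have hI1 : ∫ y, S y * Real.exp (F y) ≤ (1 + η) * g :=
    (integral_mono hSE hZi hpt).trans hZ1
  -- Jensen
  set a : ℝ := (∫ y, S y * F y) / ∫ y, S y with haa
  have haI : ∫ y, S y * F y = a * ∫ y, S y := by
    rw [haa]; field_simp
  have hJ : Real.exp a * ∫ y, S y ≤ ∫ y, S y * Real.exp (F y) := by
    have h6 : ∫ y, Real.exp a * ((1 - a) * S y + S y * F y) ≤ ∫ y, S y * Real.exp (F y) := by
      refine integral_mono (((hSint.const_mul _).add hSF).const_mul _) hSE fun y => ?_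
      have h7 := Real.add_one_le_exp (F y - a)
      have h8 : Real.exp (F y) = Real.exp a * Real.exp (F y - a) := by
        rw [← Real.exp_add]; congr 1; ring
      show Real.exp a * ((1 - a) * S y + S y * F y) ≤ S y * Real.exp (F y)
      rw [h8]
      have h9 : Real.exp a * ((1 - a) * S y + S y * F y) = (S y * Real.exp a) * (F y - a + 1) := by
        ring
      rw [h9]
      have h10 : S y * (Real.exp a * Real.exp (F y - a)) =
        (S y * Real.exp a) * Real.exp (F y - a) := by ring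
      rw [h10]
      exact mul_le_mul_of_nonneg_left h7 (mul_pos (hSpos y) (Real.exp_pos _)).le
    rw [integral_const_mul, integral_add (hSint.const_mul _) hSF, integral_const_mul, haI] at h6
    have h11 : Real.exp a * ((1 - a) * (∫ y, S y) + a * ∫ y, S y) = Real.exp a * ∫ y, S y := by
      ring
    rwa [h11] at h6
  have hfin : Real.exp a * aff h νa νb ≤ 1 + η := by
    have h12 := hJ.trans hI1
    rw [hSI'] at h12
    have : g * (Real.exp a * aff h νa νb) ≤ g * (1 + η) := by linarith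
    exact le_of_mul_le_mul_left this hg
  have hlog : a ≤ Real.log (1 + η) - Real.log (aff h νa νb) := by
    have h13 : Real.log (Real.exp a * aff h νa νb) ≤ Real.log (1 + η) :=
      Real.log_le_log (mul_pos (Real.exp_pos _) haffpos) hfin
    rw [Real.log_mul (Real.exp_pos _).ne' haffpos.ne', Real.log_exp] at h13
    linarith
  have hfi : h / 2 * fi h νa νb = aff h νa νb * a := by
    have h14 : ∫ y, S y * F y = h / 2 * ∫ y, S y * ‖sd h νa νb y‖ ^ 2 := by
      rw [← integral_const_mul]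
      refine integral_congr_ae (ae_of_all _ fun y => ?_)
      show S y * (h / 2 * ‖sd h νa νb y‖ ^ 2) = h / 2 * (S y * ‖sd h νa νb y‖ ^ 2)
      ring
    have h15 : fi h νa νb = g⁻¹ * ∫ y, S y * ‖sd h νa νb y‖ ^ 2 := rfl
    rw [h15]
    calc h / 2 * (g⁻¹ * ∫ y, S y * ‖sd h νa νb y‖ ^ 2)
        = g⁻¹ * (h / 2 * ∫ y, S y * ‖sd h νa νb y‖ ^ 2) := by ring
      _ = g⁻¹ * (a * ∫ y, S y) := by rw [← h14, haI]
      _ = aff h νa νb * a := by rw [haff]; ring
  rw [hfi]
  exact mul_le_mul_of_nonneg_left hlog haffpos.le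

end Pool.Agent.T2h52.SP
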