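import Pool.Agent.T2h52.SP.Stm
import Pool.Agent.N555.RZ.Mom
import Pool.Agent.N555.RZ.Iso
import Pool.Agent.TH591.Ns.Cover

set_option autoImplicit false

/-!
# EXPM: exponential moments of linear functionals of the centred half body
-/

namespace Pool.Agent.T2h52.SP.EXPMaux

open MeasureTheory Set Filter Topology
open scoped ENNReal InnerProductSpace Pointwise
open Pool.Agent.N555.RZ Pool.Agent.TH591.Ns

variable {d : ℕ} {P A : Set (E d)}

theorem abs_mean (hP : Bd P) (hI : Iso P) (w : E d) (hw : ‖w‖ ≤ 1) :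
    ∫ z, |⟪w, z⟫_ℝ| ∂(mP P) ≤ 1 := by
  have hP0 : P ∈ 𝓝 (0 : E d) := mem_interior_iff_mem_nhds.1 hP.int
  have h0 : volume P ≠ 0 := (Measure.measure_pos_of_mem_nhds volume hP0).ne'
  have hfin : volume P ≠ ⊤ := hP.comp.measure_lt_top.ne
  have := mP_prob h0 hfin
  have hc1 : Integrable (fun z : E d => |⟪w, z⟫_ℝ|) (mP P) := int_K hP.comp h0 (by fun_prop)
  have hc2 : Integrable (fun z : E d => ⟪z, w⟫_ℝ ^ 2) (mP P) := int_K hP.comp h0 (by fun_prop)
  have h1 : ∫ z, |⟪w, z⟫_ℝ| ∂(mP P) ≤ ∫ z, (1 + ⟪z, w⟫_ℝ ^ 2) / 2 ∂(mP P) := by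
    refine integral_mono hc1 (((integrable_const (1 : ℝ)).add hc2).div_const 2) fun z => ?_
    show |⟪w, z⟫_ℝ| ≤ (1 + ⟪z, w⟫_ℝ ^ 2) / 2
    rw [real_inner_comm, ← sq_abs]
    nlinarith [sq_nonneg (|⟪z, w⟫_ℝ| - 1)]
  have h2 : ∫ z, (1 + ⟪z, w⟫_ℝ ^ 2) / 2 ∂(mP P) = (1 + ‖w‖ ^ 2) / 2 := by
    rw [integral_div, integral_add (integrable_const (1 : ℝ)) hc2, hI w]
    simp
  rw [h2] at h1
  nlinarith [norm_nonneg w]

theorem one_side (hP : Bd P) (hI : Iso P) (w : E d) (hw : ‖w‖ ≤ 1) :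
    ∫⁻ z in P, ENNReal.ofReal (Real.exp (⟪w, z⟫_ℝ / 20)) ≤ 2 * volume P := by
  have hP0 : P ∈ 𝓝 (0 : E d) := mem_interior_iff_mem_nhds.1 hP.int
  have h0 : volume P ≠ 0 := (Measure.measure_pos_of_mem_nhds volume hP0).ne'
  have hfin : volume P ≠ ⊤ := hP.comp.measure_lt_top.ne
  have := mP_prob h0 hfin
  have hg := isG_gauge hP.conv hP0
  have hb := ball_eq hP.conv hP.comp hP0
  have hlog := log_ge
  have hl0 : 0 < Real.log (3 / 2) := by linarith
  set c : ℝ := (20 * (Real.log (3 / 2) / 8))⁻¹ with hc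
  have hc0 : 0 < c := by rw [hc]; positivity
  have hc1 : c ≤ 1 := by
    rw [hc]
    apply inv_le_one_of_one_le₀
    linarith
  have hab := abs_mean hP hI w hw
  have hint : Integrable (fun z : E d => |⟪w, z⟫_ℝ|) (mP P) := int_K hP.comp h0 (by fun_prop)
  have key := exp_one_side hg (by rw [hb]; exact hfin) (c • innerSL ℝ w) 1 one_pos (by
    rw [hb]
    have e1 : ∀ z : E d, ENNReal.ofReal |(c • innerSL ℝ w) z| ≤ ENNReal.ofReal |⟪w, z⟫_ℝ| := by
      intro z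
      apply ENNReal.ofReal_le_ofReal
      rw [smul_apply, smul_eq_mul, innerSL_apply_apply, abs_mul, abs_of_pos hc0]
      exact mul_le_of_le_one_left (abs_nonneg _) hc1
    refine (lintegral_mono e1).trans ?_
    have e2 : ∫⁻ z, ENNReal.ofReal |⟪w, z⟫_ℝ| ∂(mP P) ≤ ENNReal.ofReal 1 := by
      rw [← ofReal_integral_eq_lintegral_ofReal hint (Eventually.of_forall fun z => abs_nonneg _)]
      exact ENNReal.ofReal_le_ofReal hab
    rw [mP, lintegral_smul_measure, smul_eq_mul] at e2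
    calc ∫⁻ z in P, ENNReal.ofReal |⟪w, z⟫_ℝ|
        = volume P * ((volume P)⁻¹ * ∫⁻ z in P, ENNReal.ofReal |⟪w, z⟫_ℝ|) := by
          rw [← mul_assoc, ENNReal.mul_inv_cancel h0 hfin, one_mul]
      _ ≤ volume P * ENNReal.ofReal 1 := by gcongr
      _ = ENNReal.ofReal 1 * volume P := mul_comm _ _)
  rw [hb] at key
  refine le_trans (le_of_eq ?_) key
  refine lintegral_congr fun z => ?_
  congr 2
  rw [smul_apply, smul_eq_mul, innerSL_apply_apply, hc]
  field_simp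

theorem both (hP : Bd P) (hI : Iso P) (w : E d) (hw : ‖w‖ ≤ 1) :
    ∫⁻ z in P, ENNReal.ofReal (Real.exp (|⟪z, w⟫_ℝ| / 20)) ≤ 4 * volume P := by
  have h1 := one_side hP hI w hw
  have h2 := one_side hP hI (-w) (by rwa [norm_neg])
  have h3 : ∀ z : E d, ENNReal.ofReal (Real.exp (|⟪z, w⟫_ℝ| / 20)) ≤
      ENNReal.ofReal (Real.exp (⟪w, z⟫_ℝ / 20)) + ENNReal.ofReal (Real.exp (⟪-w, z⟫_ℝ / 20)) := by
    intro z
    rw [← ENNReal.ofReal_add (Real.exp_pos _).le (Real.exp_pos _).le]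
    apply ENNReal.ofReal_le_ofReal
    rw [real_inner_comm, inner_neg_left]
    rcases abs_cases ⟪w, z⟫_ℝ with ⟨h, _⟩ | ⟨h, _⟩
    · rw [h]
      linarith [Real.exp_pos (-⟪w, z⟫_ℝ / 20)]
    · rw [h]
      linarith [Real.exp_pos (⟪w, z⟫_ℝ / 20)]
  refine (lintegral_mono h3).trans ?_
  rw [lintegral_add_left (by fun_prop)]
  calc _ ≤ 2 * volume P + 2 * volume P := add_le_add h1 h2
    _ = 4 * volume P := by ring

end EXPMaux

open MeasureTheory Set Filter Topology EXPMaux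
open scoped ENNReal InnerProductSpace Pointwise
open Pool.Agent.N555.RZ Pool.Agent.TH591.Ns

theorem expm : T_EXPM := by
  intro d P A hP hI hAP hA hvol β hβ w hw
  have hP0 : P ∈ 𝓝 (0 : E d) := mem_interior_iff_mem_nhds.1 hP.int
  have h0 : volume P ≠ 0 := (Measure.measure_pos_of_mem_nhds volume hP0).ne'
  have hfin : volume P ≠ ⊤ := hP.comp.measure_lt_top.ne
  have hc : ENNReal.ofReal (1 / 10 ^ 10) ≠ 0 := by
    rw [Ne, ENNReal.ofReal_eq_zero, not_le]; positivity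
  have hA0 : volume A ≠ 0 := by
    intro h
    rw [h, nonpos_iff_eq_zero, mul_eq_zero] at hvol
    rcases hvol with h | h
    · exact hc h
    · exact h0 h
  have hAfin : volume A ≠ ⊤ := ((measure_mono hAP).trans_lt hP.comp.measure_lt_top).ne
  have := mP_prob hA0 hAfin
  have hint : ∀ f : E d → ℝ, Continuous f → Integrable f (mP A) := by
    intro f hf
    unfold mP
    refine Integrable.smul_measure ?_ (ENNReal.inv_ne_top.mpr hA0)
    exact (hf.continuousOn.integrableOn_compact hP.comp).mono_set hAP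
  -- the exponential moment for the uniform measure of `A`
  have h1 : ∫⁻ z, ENNReal.ofReal (Real.exp (|⟪z, w⟫_ℝ| / 20)) ∂(mP A) ≤
      ENNReal.ofReal (4 * 10 ^ 10) := by
    rw [mP, lintegral_smul_measure, smul_eq_mul]
    have e1 : ∫⁻ z in A, ENNReal.ofReal (Real.exp (|⟪z, w⟫_ℝ| / 20)) ≤ 4 * volume P :=
      (lintegral_mono_set hAP).trans (both hP hI w hw)
    have e2 : volume P ≤ ENNReal.ofReal (10 ^ 10) * volume A := by
      calc volume P = ENNReal.ofReal (10 ^ 10) * (ENNReal.ofReal (1 / 10 ^ 10) * volume P) := by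
            rw [← mul_assoc, ← ENNReal.ofReal_mul (by positivity)]
            norm_num
        _ ≤ _ := by gcongr
    calc (volume A)⁻¹ * ∫⁻ z in A, ENNReal.ofReal (Real.exp (|⟪z, w⟫_ℝ| / 20))
        ≤ (volume A)⁻¹ * (4 * (ENNReal.ofReal (10 ^ 10) * volume A)) := by
          gcongr
          exact e1.trans (by gcongr)
      _ = 4 * ENNReal.ofReal (10 ^ 10) * ((volume A)⁻¹ * volume A) := by ring
      _ = ENNReal.ofReal (4 * 10 ^ 10) := by
          rw [ENNReal.inv_mul_cancel hA0 hAfin, mul_one, ENNReal.ofReal_mul (by norm_num)]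
          norm_num
  have i1 : Integrable (fun z : E d => Real.exp (|⟪z, w⟫_ℝ| / 20)) (mP A) :=
    hint _ (by fun_prop)
  have h2 : ∫ z, Real.exp (|⟪z, w⟫_ℝ| / 20) ∂(mP A) ≤ 4 * 10 ^ 10 := by
    rw [← ofReal_integral_eq_lintegral_ofReal i1
      (Eventually.of_forall fun z => (Real.exp_pos _).le)] at h1
    exact (ENNReal.ofReal_le_ofReal_iff (by positivity)).1 h1
  -- Jensen
  have i2 : Integrable (fun z : E d => |⟪z, w⟫_ℝ| / 20) (mP A) := hint _ (by fun_prop)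
  have h3 : Real.exp (|⟪β, w⟫_ℝ| / 20) ≤ 4 * 10 ^ 10 := by
    set a : ℝ := ∫ z, |⟪z, w⟫_ℝ| / 20 ∂(mP A) with ha
    have e1 : |⟪β, w⟫_ℝ| / 20 ≤ a := by
      rw [hβ w, ha, integral_div]
      have := abs_integral_le_integral_abs (f := fun z : E d => ⟪z, w⟫_ℝ) (μ := mP A)
      linarith
    have e2 : Real.exp a ≤ ∫ z, Real.exp (|⟪z, w⟫_ℝ| / 20) ∂(mP A) := by
      have e3 : ∫ z, (Real.exp a * (1 - a) + Real.exp a * (|⟪z, w⟫_ℝ| / 20)) ∂(mP A) =
          Real.exp a := by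
        have f1 := integral_add (μ := mP A) (integrable_const (Real.exp a * (1 - a)))
          (i2.const_mul (Real.exp a))
        have f2 := integral_const_mul (μ := mP A) (Real.exp a) (fun z : E d => |⟪z, w⟫_ℝ| / 20)
        have f3 : ∫ _z : E d, Real.exp a * (1 - a) ∂(mP A) = Real.exp a * (1 - a) := by simp
        rw [f1, f2, f3, ← ha]
        ring
      rw [← e3]
      refine integral_mono ((integrable_const _).add (i2.const_mul _)) i1 fun z => ?_
      show Real.exp a * (1 - a) + Real.exp a * (|⟪z, w⟫_ℝ| / 20) ≤ Real.exp (|⟪z, w⟫_ℝ| / 20)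
      have e4 := Real.add_one_le_exp (|⟪z, w⟫_ℝ| / 20 - a)
      calc Real.exp a * (1 - a) + Real.exp a * (|⟪z, w⟫_ℝ| / 20)
          = Real.exp a * (|⟪z, w⟫_ℝ| / 20 - a + 1) := by ring
        _ ≤ Real.exp a * Real.exp (|⟪z, w⟫_ℝ| / 20 - a) := by gcongr
        _ = Real.exp (|⟪z, w⟫_ℝ| / 20) := by rw [← Real.exp_add]; congr 1; ring
    exact ((Real.exp_le_exp.2 e1).trans e2).trans h2
  -- the law `la`
  have hmap : ∫ x, Real.exp (|⟪x, w⟫_ℝ| / 20) ∂(la A β) =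
      ∫ x, Real.exp (|⟪x - β, w⟫_ℝ| / 20) ∂(mP A) := by
    rw [la, integral_map (by fun_prop) (by fun_prop)]
  rw [hmap]
  have h4 : ∫ x, Real.exp (|⟪x - β, w⟫_ℝ| / 20) ∂(mP A) ≤
      ∫ x, Real.exp (|⟪β, w⟫_ℝ| / 20) * Real.exp (|⟪x, w⟫_ℝ| / 20) ∂(mP A) := by
    refine integral_mono (hint _ (by fun_prop)) (i1.const_mul _) fun x => ?_
    show Real.exp (|⟪x - β, w⟫_ℝ| / 20) ≤
      Real.exp (|⟪β, w⟫_ℝ| / 20) * Real.exp (|⟪x, w⟫_ℝ| / 20)
    rw [← Real.exp_add]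
    apply Real.exp_le_exp.2
    rw [inner_sub_left]
    have := abs_sub ⟪x, w⟫_ℝ ⟪β, w⟫_ℝ
    linarith
  rw [integral_const_mul] at h4
  have h5 : 0 < Real.exp (|⟪β, w⟫_ℝ| / 20) := Real.exp_pos _
  have h6 : 0 ≤ ∫ x, Real.exp (|⟪x, w⟫_ℝ| / 20) ∂(mP A) :=
    integral_nonneg fun _ => (Real.exp_pos _).le
  nlinarith

end Pool.Agent.T2h52.SP
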