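import Pool.Agent.T2h52.SP.Stm
import Pool.Agent.N555.RZ.MainA

/-!
Task HALF: the half body has at least the part `10^(-10)` of the volume.
-/

set_option autoImplicit false

namespace Pool.Agent.T2h52.SP

open MeasureTheory Set Filter Topology
open scoped ENNReal InnerProductSpace Pointwise
open Pool.Agent.N555.RZ (mP mP_prob mom_inner int_K)

theorem pz_point (s : ℝ) : s ^ 2 ≤ 1 / 4 + 3 / (8 * 160 ^ 4) * s ^ 4 +
    (2 / 3 * 160 ^ 4) * (if 1 / 2 ≤ |s| then (1 : ℝ) else 0) := by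
  split_ifs with h
  · have h1 : 0 ≤ (3 / (4 * 160 ^ 4 : ℝ) * s ^ 2 - 1) ^ 2 := sq_nonneg _
    have h2 : 3 / (8 * 160 ^ 4 : ℝ) * s ^ 4 + 2 / 3 * 160 ^ 4 - s ^ 2 =
        (2 / 3 * 160 ^ 4) * (3 / (4 * 160 ^ 4 : ℝ) * s ^ 2 - 1) ^ 2 := by
      ring
    nlinarith
  · rw [not_le] at h
    have h1 : s ^ 2 < 1 / 4 := by
      rw [← sq_abs]
      have h0 := abs_nonneg s
      nlinarith
    have h2 : 0 ≤ 3 / (8 * 160 ^ 4 : ℝ) * s ^ 4 := by positivity
    linarith

theorem half : T_HALF := by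
  intro d P hP hiso e he
  have hK0 : P ∈ 𝓝 0 := mem_interior_iff_mem_nhds.1 hP.int
  have hPm : MeasurableSet P := hP.comp.isClosed.measurableSet
  have hfin : volume P ≠ ⊤ := hP.comp.measure_lt_top.ne
  have h0 : volume P ≠ 0 := (Measure.measure_pos_of_mem_nhds volume hK0).ne'
  have hprob := mP_prob h0 hfin
  set T : Set (E d) := {x | 1 / 2 ≤ |⟪x, e⟫_ℝ|} with hT
  have hTm : MeasurableSet T :=
    (isClosed_le continuous_const (by fun_prop : Continuous fun x : E d => |⟪x, e⟫_ℝ|)).measurableSet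
  -- moments
  have i2 : Integrable (fun x : E d => ⟪x, e⟫_ℝ ^ 2) (mP P) := int_K hP.comp h0 (by fun_prop)
  have i4 : Integrable (fun x : E d => ⟪x, e⟫_ℝ ^ 4) (mP P) := int_K hP.comp h0 (by fun_prop)
  have m2 : ∫ x, ⟪x, e⟫_ℝ ^ 2 ∂(mP P) = 1 := by
    rw [hiso e, he, one_pow]
  have m4 : ∫ x, ⟪x, e⟫_ℝ ^ 4 ∂(mP P) ≤ 160 ^ 4 := by
    have h1 := mom_inner hP.conv hP.comp hK0 hiso e 2 (by norm_num)
    rw [integral_eq_lintegral_of_nonneg_ae (Eventually.of_forall fun x => by positivity)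
      i4.aestronglyMeasurable]
    refine ENNReal.toReal_le_of_le_ofReal (by positivity) (le_trans (le_of_eq ?_) (h1.trans ?_))
    · refine lintegral_congr fun x => ?_
      rw [real_inner_comm]
      congr 1
      rw [show 2 * 2 = 4 by norm_num, pow_abs, abs_of_nonneg (by positivity)]
    · refine ENNReal.ofReal_le_ofReal ?_
      rw [he]
      norm_num
  have hle : ∫ x, ⟪x, e⟫_ℝ ^ 2 ∂(mP P) ≤ ∫ x, (1 / 4 + 3 / (8 * 160 ^ 4) * ⟪x, e⟫_ℝ ^ 4 +
      (2 / 3 * 160 ^ 4) * T.indicator (fun _ => (1 : ℝ)) x) ∂(mP P) := by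
    refine integral_mono i2 ?_ fun x => ?_
    · refine ((integrable_const _).add (i4.const_mul _)).add (Integrable.const_mul ?_ _)
      exact (integrable_const _).indicator hTm
    · have h1 := pz_point (⟪x, e⟫_ℝ)
      have h2 : T.indicator (fun _ => (1 : ℝ)) x = if 1 / 2 ≤ |⟪x, e⟫_ℝ| then (1 : ℝ) else 0 := by
        by_cases hx : 1 / 2 ≤ |⟪x, e⟫_ℝ|
        · rw [if_pos hx, indicator_of_mem (show x ∈ T from hx)]
        · rw [if_neg hx, indicator_of_notMem (show x ∉ T from hx)]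
      show ⟪x, e⟫_ℝ ^ 2 ≤ _
      rw [h2]
      exact h1
  have iA : Integrable (fun x : E d => (1 / 4 : ℝ) + 3 / (8 * 160 ^ 4) * ⟪x, e⟫_ℝ ^ 4) (mP P) :=
    (integrable_const _).add (i4.const_mul _)
  have iB : Integrable (fun x : E d => (2 / 3 * 160 ^ 4 : ℝ) * T.indicator (fun _ => (1 : ℝ)) x)
      (mP P) := Integrable.const_mul ((integrable_const (1 : ℝ)).indicator hTm) _
  have iC : Integrable (fun _ : E d => (1 / 4 : ℝ)) (mP P) := integrable_const _
  have iD : Integrable (fun x : E d => (3 / (8 * 160 ^ 4) : ℝ) * ⟪x, e⟫_ℝ ^ 4) (mP P) :=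
    i4.const_mul _
  rw [integral_add iA iB, integral_add iC iD, integral_const_mul, integral_const_mul,
    integral_indicator hTm, integral_const, integral_const, m2] at hle
  simp only [probReal_univ, smul_eq_mul, one_mul, mul_one] at hle
  have hTp : 9 / (16 * 160 ^ 4) ≤ (mP P).real T := by
    have h1 : ((mP P).restrict T).real univ = (mP P).real T := by
      rw [measureReal_restrict_apply_univ]
    rw [h1] at hle
    have h2 : 3 / (8 * 160 ^ 4) * ∫ x, ⟪x, e⟫_ℝ ^ 4 ∂(mP P) ≤ 3 / 8 := by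
      have := mul_le_mul_of_nonneg_left m4 (by positivity : (0 : ℝ) ≤ 3 / (8 * 160 ^ 4))
      refine this.trans (le_of_eq ?_)
      norm_num
    have h3 : (3 : ℝ) / 8 ≤ 2 / 3 * 160 ^ 4 * (mP P).real T := by linarith
    rw [div_le_iff₀ (by positivity)]
    linarith
  -- volumes
  have hvT : (mP P).real T = (volume P).toReal⁻¹ * (volume (T ∩ P)).toReal := by
    rw [Measure.real, mP, Measure.smul_apply, Measure.restrict_apply hTm, smul_eq_mul,
      ENNReal.toReal_mul, ENNReal.toReal_inv]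
  have hhb : hb P e ⊆ P := fun x hx => hx.1
  have hhfin : volume (hb P e) ≠ ⊤ := measure_ne_top_of_subset hhb hfin
  have hsub : T ∩ P ⊆ hb P e ∪ -(hb P e) := by
    rintro x ⟨hxT, hxP⟩
    have hx : 1 / 2 ≤ |⟪x, e⟫_ℝ| := hxT
    rcases le_abs.1 hx with h | h
    · exact Or.inl ⟨hxP, h⟩
    · refine Or.inr ?_
      rw [Set.mem_neg]
      refine ⟨hP.sym x hxP, ?_⟩
      rw [inner_neg_left]
      exact h
  have hv2 : (volume (T ∩ P)).toReal ≤ 2 * (volume (hb P e)).toReal := by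
    have h1 : volume (T ∩ P) ≤ 2 * volume (hb P e) := by
      refine (measure_mono hsub).trans ((measure_union_le _ _).trans (le_of_eq ?_))
      rw [Measure.measure_neg, two_mul]
    have h2 := ENNReal.toReal_mono (ENNReal.mul_ne_top (by norm_num) hhfin) h1
    rw [ENNReal.toReal_mul] at h2
    simpa using h2
  have hV : 0 < (volume P).toReal := ENNReal.toReal_pos h0 hfin
  rw [← ENNReal.ofReal_toReal hfin, ← ENNReal.ofReal_toReal hhfin,
    ← ENNReal.ofReal_mul (by norm_num)]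
  refine ENNReal.ofReal_le_ofReal ?_
  rw [hvT, inv_mul_eq_div, le_div_iff₀ hV] at hTp
  have h9 : (1 : ℝ) / 10 ^ 10 * (volume P).toReal ≤ 9 / (16 * 160 ^ 4) * (volume P).toReal / 2 := by
    have : (1 : ℝ) / 10 ^ 10 ≤ 9 / (16 * 160 ^ 4) / 2 := by norm_num
    nlinarith
  linarith

end Pool.Agent.T2h52.SP
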