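import Pool.Agent.T2h52.SP.Stm

/-!
# Task HB
-/

set_option autoImplicit false

namespace Pool.Agent.T2h52.SP

open MeasureTheory Set Filter Topology
open scoped ENNReal InnerProductSpace Pointwise
open Pool.Agent.R755.KF (PB)
open Pool.Agent.N555.RZ (mP mP_prob mP_ae)

theorem hb_pb {d : ℕ} {A : Set (E d)} (hA : IsCompact A) (hv : 0 < volume A)
    (f : E d → E d) (hf : Continuous f) : ∃ B : ℝ, 0 ≤ B ∧ PB B ((mP A).map f) := by
  have hpr := mP_prob hv.ne' hA.measure_lt_top.ne
  obtain ⟨B, hB⟩ := (hA.image hf).isBounded.exists_norm_le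
  refine ⟨max B 0, le_max_right _ _, ⟨Measure.isProbabilityMeasure_map hf.aemeasurable, ?_⟩⟩
  have hm : MeasurableSet {x : E d | ‖x‖ ≤ max B 0} :=
    (isClosed_le continuous_norm continuous_const).measurableSet
  rw [ae_map_iff hf.aemeasurable hm]
  filter_upwards [mP_ae hA.isClosed.measurableSet] with x hx
  exact (hB _ (mem_image_of_mem f hx)).trans (le_max_left _ _)

theorem hb_mono {d : ℕ} {B B' : ℝ} {ν : Measure (E d)} (h : PB B ν) (hB : B ≤ B') : PB B' ν :=
  ⟨h.prob, by filter_upwards [h.bdd] with x hx using hx.trans hB⟩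

theorem hb_ : T_HB := by
  intro d P A _ _ _ hA hv β
  have h1 : Continuous fun x : E d => x - β := by fun_prop
  have h2 : Continuous fun x : E d => β - x := by fun_prop
  refine ⟨?_, ?_, ?_⟩
  · obtain ⟨B1, b1, p1⟩ := hb_pb hA hv _ h1
    obtain ⟨B2, b2, p2⟩ := hb_pb hA hv _ h2
    exact ⟨max B1 B2, le_max_of_le_left b1, hb_mono p1 (le_max_left _ _),
      hb_mono p2 (le_max_right _ _)⟩
  · unfold la lb
    rw [Measure.map_map measurable_neg h1.measurable]
    congr 1
    funext x
    simp
  · intro hβ w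
    have hpr := mP_prob hv.ne' hA.measure_lt_top.ne
    unfold la
    rw [integral_map h1.aemeasurable (by
      have : Continuous fun x : E d => ⟪x, w⟫_ℝ := by fun_prop
      exact this.aestronglyMeasurable)]
    have hI : Integrable (fun x : E d => ⟪x, w⟫_ℝ) (mP A) :=
      Pool.Agent.N555.RZ.int_K hA hv.ne' (by fun_prop)
    simp only [inner_sub_left]
    rw [integral_sub hI (integrable_const _), hβ w]
    simp

end Pool.Agent.T2h52.SP
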