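import Pool.Agent.T2h52.SP.Stm
import Pool.Agent.H888R2.KT.N0

/-!
# Tasks HEA and HEAT: the affinity at the time `h + δ`
-/

set_option autoImplicit false

namespace Pool.Agent.T2h52.SP

open MeasureTheory Set Filter Topology
open scoped ENNReal InnerProductSpace
open Pool.Agent.H888R2.KT (gs gc gc_pos)
open Pool.Agent.R755.KF (zn aff sd PB PL3 PLH S_ZN)

namespace HEAaux

theorem cosh_le (t : ℝ) : Real.cosh t ≤ Real.exp |t| := by
  rw [← Real.cosh_abs, Real.cosh_eq]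
  have : Real.exp (-|t|) ≤ Real.exp |t| := Real.exp_le_exp.2 (by linarith [abs_nonneg t])
  linarith

theorem maj (c δ : ℝ) (hδ : 0 < δ) (t : ℝ) :
    Real.exp (c * t) * Real.exp (-(t ^ 2 / (2 * δ))) ≤
      Real.exp (c ^ 2 * δ) * Real.exp (-(t ^ 2 / (2 * (2 * δ)))) := by
  rw [← Real.exp_add, ← Real.exp_add, Real.exp_le_exp]
  have h1 : 0 ≤ (2 * δ * c - t) ^ 2 / (4 * δ) := by positivity
  have e : (c ^ 2 * δ + -(t ^ 2 / (2 * (2 * δ)))) - (c * t + -(t ^ 2 / (2 * δ))) =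
      (2 * δ * c - t) ^ 2 / (4 * δ) := by
    field_simp
    ring
  linarith

/-- the kernel -/
noncomputable def ff {d : ℕ} (S σ : E d → ℝ) (δ : ℝ) (z y : E d) : ℝ :=
  S z * (Real.cosh (σ z - σ y) * Real.exp (-(‖y - z‖ ^ 2 / (2 * δ))))

theorem ff_cont {d : ℕ} (S σ : E d → ℝ) (δ : ℝ) (hS : Continuous S) (hσ : Continuous σ) :
    Continuous (Function.uncurry (ff S σ δ)) := by
  have h1 : Continuous fun p : E d × E d => S p.1 := hS.comp continuous_fst
  have h2 : Continuous fun p : E d × E d => Real.cosh (σ p.1 - σ p.2) :=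
    Real.continuous_cosh.comp ((hσ.comp continuous_fst).sub (hσ.comp continuous_snd))
  have h3 : Continuous fun p : E d × E d => Real.exp (-(‖p.2 - p.1‖ ^ 2 / (2 * δ))) := by
    fun_prop
  exact h1.mul (h2.mul h3)

theorem ff_bound {d : ℕ} (S σ : E d → ℝ) (c δ : ℝ) (hδ : 0 < δ) (hS0 : ∀ y, 0 ≤ S y)
    (hL : ∀ y z, |σ z - σ y| ≤ c * ‖y - z‖) (z y : E d) :
    ‖ff S σ δ z y‖ ≤ S z * Real.exp (c ^ 2 * δ) *
      Real.exp (-(‖z - y‖ ^ 2 / (2 * (2 * δ)))) := by
  have h1 : Real.cosh (σ z - σ y) ≤ Real.exp (c * ‖y - z‖) :=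
    (cosh_le _).trans (Real.exp_le_exp.2 (hL y z))
  have h2 : 0 ≤ ff S σ δ z y :=
    mul_nonneg (hS0 z) (mul_nonneg (Real.cosh_pos _).le (Real.exp_pos _).le)
  rw [Real.norm_of_nonneg h2, mul_assoc, norm_sub_rev z y]
  refine mul_le_mul_of_nonneg_left ?_ (hS0 z)
  exact (mul_le_mul_of_nonneg_right h1 (Real.exp_pos _).le).trans (maj c δ hδ ‖y - z‖)

theorem ff_int {d : ℕ} (S σ : E d → ℝ) (c δ : ℝ) (hδ : 0 < δ) (hS : Continuous S)
    (hS0 : ∀ y, 0 ≤ S y) (hSi : Integrable S) (hσ : Continuous σ)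
    (hL : ∀ y z, |σ z - σ y| ≤ c * ‖y - z‖) :
    Integrable (Function.uncurry (ff S σ δ)) (volume.prod volume) := by
  obtain ⟨gp, g1, g2, -⟩ := gc_pos (κ := Fin d) (2 * δ) (by positivity)
  have hcont := ff_cont S σ δ hS hσ
  have hb := ff_bound S σ c δ hδ hS0 hL
  rw [integrable_prod_iff hcont.aestronglyMeasurable]
  have iz : ∀ z : E d, Integrable fun y => ff S σ δ z y := by
    intro z
    have hc : Continuous fun y => ff S σ δ z y := hcont.comp (Continuous.prodMk_right z)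
    exact ((g2 z).const_mul (S z * Real.exp (c ^ 2 * δ))).mono' hc.aestronglyMeasurable
      (Filter.Eventually.of_forall fun y => hb z y)
  refine ⟨Filter.Eventually.of_forall fun z => iz z, ?_⟩
  refine (hSi.mul_const (Real.exp (c ^ 2 * δ) * gc (Fin d) (2 * δ))).mono'
    (hcont.norm.aestronglyMeasurable.integral_prod_right')
    (Filter.Eventually.of_forall fun z => ?_)
  rw [Real.norm_of_nonneg (integral_nonneg fun y => norm_nonneg _)]
  calc ∫ y, ‖ff S σ δ z y‖ ≤ ∫ y, S z * Real.exp (c ^ 2 * δ) *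
      Real.exp (-(‖z - y‖ ^ 2 / (2 * (2 * δ)))) :=
        integral_mono (iz z).norm ((g2 z).const_mul _) fun y => hb z y
    _ = S z * (Real.exp (c ^ 2 * δ) * gc (Fin d) (2 * δ)) := by
        rw [integral_const_mul, g1 z]
        ring

theorem amgm (u v : ℝ) (hu : 0 ≤ u) (hv : 0 ≤ v) : Real.sqrt (u * v) ≤ (u + v) / 2 := by
  rw [Real.sqrt_le_iff]
  constructor
  · positivity
  · nlinarith [sq_nonneg (u - v)]

theorem kint {d : ℕ} (z0 : E d → ℝ) (δ : ℝ) (hδ : 0 < δ) (hc : Continuous z0)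
    (h0 : ∀ y, 0 ≤ z0 y) (h1 : ∀ y, z0 y ≤ 1) (y : E d) :
    Integrable fun z => z0 z * Real.exp (-(‖y - z‖ ^ 2 / (2 * δ))) := by
  obtain ⟨gp, g1, g2, -⟩ := gc_pos (κ := Fin d) δ hδ
  refine (g2 y).mono' ?_ (Filter.Eventually.of_forall fun z => ?_)
  · have : Continuous fun z => z0 z * Real.exp (-(‖y - z‖ ^ 2 / (2 * δ))) := by fun_prop
    exact this.aestronglyMeasurable
  · rw [Real.norm_of_nonneg (mul_nonneg (h0 z) (Real.exp_pos _).le)]
    exact mul_le_of_le_one_left (Real.exp_pos _).le (h1 z)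

theorem point {d : ℕ} (za zb S σ : E d → ℝ) (δ : ℝ) (hδ : 0 < δ)
    (ca : Continuous za) (cb : Continuous zb) (pa : ∀ y, 0 ≤ za y) (pb : ∀ y, 0 ≤ zb y)
    (la : ∀ y, za y ≤ 1) (lb : ∀ y, zb y ≤ 1)
    (ea : ∀ y, za y = S y * Real.exp (-σ y)) (eb : ∀ y, zb y = S y * Real.exp (σ y)) (y : E d) :
    Real.sqrt (gs δ za y * gs δ zb y) ≤ (∫ z, ff S σ δ z y) / gc (Fin d) δ := by
  obtain ⟨gp, g1, g2, -⟩ := gc_pos (κ := Fin d) δ hδ
  have hA : 0 ≤ gs δ za y :=
    div_nonneg (integral_nonneg fun z => mul_nonneg (pa z) (Real.exp_pos _).le) gp.le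
  have hB : 0 ≤ gs δ zb y :=
    div_nonneg (integral_nonneg fun z => mul_nonneg (pb z) (Real.exp_pos _).le) gp.le
  have e1 : gs δ za y * gs δ zb y =
      (Real.exp (σ y) * gs δ za y) * (Real.exp (-σ y) * gs δ zb y) := by
    have : Real.exp (σ y) * Real.exp (-σ y) = 1 := by rw [← Real.exp_add]; simp
    linear_combination (-(gs δ za y * gs δ zb y)) * this
  rw [e1]
  refine (amgm _ _ (mul_nonneg (Real.exp_pos _).le hA) (mul_nonneg (Real.exp_pos _).le hB)).trans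
    (le_of_eq ?_)
  have e2 : ∫ z, ff S σ δ z y =
      (Real.exp (σ y) / 2) * (∫ z, za z * Real.exp (-(‖y - z‖ ^ 2 / (2 * δ)))) +
      (Real.exp (-σ y) / 2) * ∫ z, zb z * Real.exp (-(‖y - z‖ ^ 2 / (2 * δ))) := by
    rw [← integral_const_mul, ← integral_const_mul,
      ← integral_add ((kint za δ hδ ca pa la y).const_mul _)
        ((kint zb δ hδ cb pb lb y).const_mul _)]
    refine integral_congr_ae (Filter.Eventually.of_forall fun z => ?_)
    simp only [ff]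
    rw [ea z, eb z, Real.cosh_eq, sub_eq_add_neg (σ z), Real.exp_add,
      show -(σ z + -σ y) = σ y + -σ z by ring, Real.exp_add]
    ring
  rw [e2]
  unfold gs
  ring

theorem core {d : ℕ} (za zb S σ : E d → ℝ) (c δ : ℝ) (hδ : 0 < δ)
    (ca : Continuous za) (cb : Continuous zb) (pa : ∀ y, 0 ≤ za y) (pb : ∀ y, 0 ≤ zb y)
    (la : ∀ y, za y ≤ 1) (lb : ∀ y, zb y ≤ 1)
    (ea : ∀ y, za y = S y * Real.exp (-σ y)) (eb : ∀ y, zb y = S y * Real.exp (σ y))
    (hS : Continuous S) (hS0 : ∀ y, 0 ≤ S y) (hSi : Integrable S) (hσ : Continuous σ)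
    (hL : ∀ y z, |σ z - σ y| ≤ c * ‖y - z‖) :
    ∫ y, Real.sqrt (gs δ za y * gs δ zb y) ≤
      ∫ y, S y * gs δ (fun z => Real.cosh (σ z - σ y)) y := by
  have hF := ff_int S σ c δ hδ hS hS0 hSi hσ hL
  have h1 : ∫ y, Real.sqrt (gs δ za y * gs δ zb y) ≤
      ∫ y, (∫ z, ff S σ δ z y) / gc (Fin d) δ := by
    refine integral_mono_of_nonneg (Filter.Eventually.of_forall fun y => Real.sqrt_nonneg _)
      (hF.integral_prod_right.div_const _) (Filter.Eventually.of_forall fun y => ?_)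
    exact point za zb S σ δ hδ ca cb pa pb la lb ea eb y
  refine h1.trans (le_of_eq ?_)
  rw [integral_div, ← integral_integral_swap hF, ← integral_div]
  refine integral_congr_ae (Filter.Eventually.of_forall fun z => ?_)
  simp only [ff, gs]
  rw [integral_const_mul, mul_div_assoc]
  congr 2
  refine integral_congr_ae (Filter.Eventually.of_forall fun y => ?_)
  simp only
  rw [norm_sub_rev z y, ← Real.cosh_neg, neg_sub]

end HEAaux

open HEAaux

theorem hea_S {d : ℕ} (hz : S_ZN) (h B : ℝ) (νa νb : Measure (E d)) (hh : 0 < h) (hB : 0 ≤ B)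
    (ha : PB B νa) (hb : PB B νb) :
    (Continuous fun y => Real.sqrt (zn h νa y * zn h νb y)) ∧
    Integrable fun y => Real.sqrt (zn h νa y * zn h νb y) := by
  obtain ⟨ca, pa, la, -, -, ia, -⟩ := hz d h B νa hh hB ha
  obtain ⟨cb, pb, lb, -, -, ib, -⟩ := hz d h B νb hh hB hb
  have hc : Continuous fun y => Real.sqrt (zn h νa y * zn h νb y) :=
    Real.continuous_sqrt.comp (ca.continuous.mul cb.continuous)
  refine ⟨hc, ((ia.add ib).div_const 2).mono' hc.aestronglyMeasurable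
    (Filter.Eventually.of_forall fun y => ?_)⟩
  rw [Real.norm_of_nonneg (Real.sqrt_nonneg _)]
  exact amgm _ _ (pa y).le (pb y).le

theorem hea_lip {d : ℕ} (hsig : T_SIG) (h B : ℝ) (νa νb : Measure (E d)) (hh : 0 < h)
    (hB : 0 ≤ B) (ha : PB B νa) (hb : PB B νb) (y z : E d) :
    |sg h νa νb z - sg h νa νb y| ≤ B / h * ‖y - z‖ := by
  obtain ⟨cs, fs, ns, es⟩ := hsig d h B νa νb hh hB ha hb
  have h1 := (convex_univ (𝕜 := ℝ) (E := E d)).norm_image_sub_le_of_norm_fderiv_le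
    (f := sg h νa νb) (C := B / h) (x := y) (y := z)
    (fun x _ => cs.differentiable one_ne_zero x) (fun x _ => by rw [fs x]; exact ns x)
    (mem_univ _) (mem_univ _)
  rw [Real.norm_eq_abs, norm_sub_rev z y] at h1
  exact h1

theorem hea (hz : S_ZN) (hsemi : T_SEMI) (hsig : T_SIG) : T_HEA := by
  intro d h B νa νb hh hB ha hb δ hδ
  obtain ⟨cs, fs, ns, es⟩ := hsig d h B νa νb hh hB ha hb
  obtain ⟨ca, pa, la, -, -, ia, -⟩ := hz d h B νa hh hB ha
  obtain ⟨cb, pb, lb, -, -, ib, -⟩ := hz d h B νb hh hB hb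
  obtain ⟨gps, -, -, -⟩ := gc_pos (κ := Fin d) (h + δ) (by positivity)
  obtain ⟨gph, -, -, -⟩ := gc_pos (κ := Fin d) h hh
  obtain ⟨hSc, hSi⟩ := hea_S hz h B νa νb hh hB ha hb
  have h1 := core (zn h νa) (zn h νb) (fun y => Real.sqrt (zn h νa y * zn h νb y))
    (sg h νa νb) (B / h) δ hδ ca.continuous cb.continuous (fun y => (pa y).le)
    (fun y => (pb y).le) la lb (fun y => (es y).1) (fun y => (es y).2) hSc
    (fun y => Real.sqrt_nonneg _) hSi cs.continuous (hea_lip hsig h B νa νb hh hB ha hb)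
  have e1 : aff (h + δ) νa νb = (gc (Fin d) h)⁻¹ *
      ∫ y, Real.sqrt (gs δ (zn h νa) y * gs δ (zn h νb) y) := by
    unfold aff
    rw [← integral_const_mul, ← integral_const_mul]
    refine integral_congr_ae (Filter.Eventually.of_forall fun y => ?_)
    have ea := hsemi d h δ B νa hh hδ ha y
    have eb := hsemi d h δ B νb hh hδ hb y
    have key : ∀ g u v : ℝ, 0 < g → g⁻¹ * Real.sqrt (u * v) =
        Real.sqrt ((g⁻¹ * u) * (g⁻¹ * v)) := by
      intro g u v hg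
      rw [show (g⁻¹ * u) * (g⁻¹ * v) = (g⁻¹) ^ 2 * (u * v) by ring,
        Real.sqrt_mul (sq_nonneg g⁻¹) (u * v), Real.sqrt_sq (inv_nonneg.2 hg.le)]
    simp only
    rw [key _ _ _ gps, key _ _ _ gph, ea, eb]
  rw [e1]
  exact mul_le_mul_of_nonneg_left h1 (inv_nonneg.2 gph.le)

theorem heat (hz : S_ZN) (hhea : T_HEA) (hlim : T_LIM) (hsig : T_SIG) : T_HEAT := by
  intro d h B νa νb hh hB ha hb ε hε
  obtain ⟨cs, fs, ns, es⟩ := hsig d h B νa νb hh hB ha hb
  obtain ⟨gph, -, -, -⟩ := gc_pos (κ := Fin d) h hh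
  obtain ⟨hSc, hSi⟩ := hea_S hz h B νa νb hh hB ha hb
  obtain ⟨δ0, hδ0, H⟩ := hlim d (fun y => Real.sqrt (zn h νa y * zn h νb y)) (sg h νa νb)
    (B / h) (by positivity) hSc (fun y => Real.sqrt_nonneg _) hSi cs
    (fun y => by rw [fs y]; exact ns y) (ε * gc (Fin d) h) (by positivity)
  refine ⟨δ0, hδ0, fun δ hδ hlt => ?_⟩
  have h1 := hhea d h B νa νb hh hB ha hb δ hδ
  have h2 := H δ hδ hlt
  refine h1.trans ((mul_le_mul_of_nonneg_left h2 (inv_nonneg.2 gph.le)).trans (le_of_eq ?_))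
  unfold aff fi
  simp only [fs]
  field_simp

end Pool.Agent.T2h52.SP
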