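import Pool.Agent.T2h52.SP.Stm2

/-!
# Task LCO
-/

set_option autoImplicit false

namespace Pool.Agent.T2h52.SP

open MeasureTheory Set Filter Topology
open scoped ENNReal InnerProductSpace Pointwise

/-- the sign sum -/
noncomputable def ss {m : ℕ} (a : Fin m → ℝ) (δ : Fin m → Bool) : ℝ :=
  ∑ i, (if δ i then (1 : ℝ) else -1) * a i

lemma sum_cons {m : ℕ} (f : (Fin (m + 1) → Bool) → ℝ) :
    ∑ δ, f δ = ∑ δ' : Fin m → Bool, (f (Fin.cons true δ') + f (Fin.cons false δ')) := by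
  rw [← (Fin.consEquiv (fun _ : Fin (m + 1) => Bool)).sum_comp, Fintype.sum_prod_type,
    Finset.sum_comm]
  refine Finset.sum_congr rfl fun δ' _ => ?_
  rw [Fintype.sum_bool]
  rfl

lemma ss_cons {m : ℕ} (a : Fin (m + 1) → ℝ) (b : Bool) (δ' : Fin m → Bool) :
    ss a (Fin.cons b δ') = (if b then (1 : ℝ) else -1) * a 0 + ss (fun i => a i.succ) δ' := by
  unfold ss
  rw [Fin.sum_univ_succ]
  simp only [Fin.cons_zero, Fin.cons_succ]

lemma mom2 : ∀ (m : ℕ) (a : Fin m → ℝ), ∑ δ, ss a δ ^ 2 = 2 ^ m * ∑ i, a i ^ 2 := by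
  intro m
  induction m with
  | zero => intro a; simp [ss]
  | succ m ih =>
    intro a
    rw [sum_cons, Fin.sum_univ_succ]
    simp only [ss_cons, if_true, Bool.false_eq_true, if_false]
    have e : ∀ δ' : Fin m → Bool, ((1 * a 0 + ss (fun i => a i.succ) δ') ^ 2 +
        (-1 * a 0 + ss (fun i => a i.succ) δ') ^ 2) =
        2 * a 0 ^ 2 + 2 * ss (fun i => a i.succ) δ' ^ 2 := by
      intro δ'; ring
    simp only [e, Finset.sum_add_distrib, Finset.sum_const, ← Finset.mul_sum, ih]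
    simp only [Finset.card_univ, Fintype.card_pi, Fintype.card_bool, Finset.prod_const,
      Fintype.card_fin, nsmul_eq_mul]
    push_cast
    ring

lemma mom4 : ∀ (m : ℕ) (a : Fin m → ℝ), ∑ δ, ss a δ ^ 4 ≤ 3 * 2 ^ m * (∑ i, a i ^ 2) ^ 2 := by
  intro m
  induction m with
  | zero => intro a; simp [ss]
  | succ m ih =>
    intro a
    rw [sum_cons, Fin.sum_univ_succ]
    simp only [ss_cons, if_true, Bool.false_eq_true, if_false]
    have e : ∀ δ' : Fin m → Bool, ((1 * a 0 + ss (fun i => a i.succ) δ') ^ 4 +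
        (-1 * a 0 + ss (fun i => a i.succ) δ') ^ 4) =
        2 * a 0 ^ 4 + 12 * a 0 ^ 2 * ss (fun i => a i.succ) δ' ^ 2 +
          2 * ss (fun i => a i.succ) δ' ^ 4 := by
      intro δ'; ring
    simp only [e, Finset.sum_add_distrib, Finset.sum_const, ← Finset.mul_sum, mom2]
    have h1 := ih (fun i => a i.succ)
    simp only [Finset.card_univ, Fintype.card_pi, Fintype.card_bool, Finset.prod_const,
      Fintype.card_fin, nsmul_eq_mul]
    push_cast
    set v := ∑ i : Fin m, a i.succ ^ 2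
    have hp : (0 : ℝ) < 2 ^ m := by positivity
    have h2 : 2 ^ m * (2 * a 0 ^ 4) + 12 * a 0 ^ 2 * (2 ^ m * v) + 2 * (3 * 2 ^ m * v ^ 2) ≤
        3 * 2 ^ (m + 1) * (a 0 ^ 2 + v) ^ 2 := by
      have : 3 * 2 ^ (m + 1) * (a 0 ^ 2 + v) ^ 2 -
          (2 ^ m * (2 * a 0 ^ 4) + 12 * a 0 ^ 2 * (2 ^ m * v) + 2 * (3 * 2 ^ m * v ^ 2)) =
          2 ^ m * (4 * a 0 ^ 4) := by ring
      have h3 : (0 : ℝ) ≤ 2 ^ m * (4 * a 0 ^ 4) := by positivity
      linarith
    linarith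

lemma khin {m : ℕ} (a : Fin m → ℝ) :
    Real.sqrt (∑ i, a i ^ 2) ≤ Real.sqrt 3 * ((∑ δ, |ss a δ|) / 2 ^ m) := by
  set V := ∑ i, a i ^ 2 with hV
  have hV0 : 0 ≤ V := Finset.sum_nonneg fun i _ => sq_nonneg _
  have hR : 0 ≤ (∑ δ, |ss a δ|) / 2 ^ m := by positivity
  rcases hV0.eq_or_lt with h | h
  · rw [← h, Real.sqrt_zero]
    positivity
  set v := Real.sqrt V with hv
  have hvp : 0 < v := Real.sqrt_pos.2 h
  have hv2 : v ^ 2 = V := Real.sq_sqrt hV0
  set s := Real.sqrt 3 with hs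
  have hs0 : 0 < s := Real.sqrt_pos.2 (by norm_num)
  have hs2 : s ^ 2 = 3 := Real.sq_sqrt (by norm_num)
  set w := s * v with hw
  have hw0 : 0 < w := mul_pos hs0 hvp
  have hw2 : w ^ 2 = 3 * V := by rw [hw, mul_pow, hs2, hv2]
  have hpt : ∀ t : ℝ, 0 ≤ t → 3 / 2 * t ^ 2 * w ^ 2 - 1 / 2 * t ^ 4 ≤ t * w ^ 3 := by
    intro t ht
    have : t * w ^ 3 - (3 / 2 * t ^ 2 * w ^ 2 - 1 / 2 * t ^ 4) =
        1 / 2 * (t * ((t - w) ^ 2 * (t + 2 * w))) := by ring
    have h2 : 0 ≤ 1 / 2 * (t * ((t - w) ^ 2 * (t + 2 * w))) := by positivity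
    linarith
  have hsum : 3 / 2 * w ^ 2 * (2 ^ m * V) - 1 / 2 * (3 * 2 ^ m * V ^ 2) ≤
      (∑ δ, |ss a δ|) * w ^ 3 := by
    have h1 : ∑ δ, (3 / 2 * |ss a δ| ^ 2 * w ^ 2 - 1 / 2 * |ss a δ| ^ 4) ≤
        ∑ δ, |ss a δ| * w ^ 3 := Finset.sum_le_sum fun δ _ => hpt _ (abs_nonneg _)
    have h2 : ∑ δ, (3 / 2 * |ss a δ| ^ 2 * w ^ 2 - 1 / 2 * |ss a δ| ^ 4) =
        3 / 2 * w ^ 2 * (∑ δ, ss a δ ^ 2) - 1 / 2 * (∑ δ, ss a δ ^ 4) := by
      rw [Finset.sum_sub_distrib, Finset.mul_sum, Finset.mul_sum]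
      congr 1
      · refine Finset.sum_congr rfl fun δ _ => ?_
        rw [sq_abs]; ring
      · refine Finset.sum_congr rfl fun δ _ => ?_
        rw [show |ss a δ| ^ 4 = (|ss a δ| ^ 2) ^ 2 by ring, sq_abs]; ring
    rw [h2, mom2, ← Finset.sum_mul] at h1
    have h3 := mom4 m a
    have : 1 / 2 * (∑ δ, ss a δ ^ 4) ≤ 1 / 2 * (3 * 2 ^ m * V ^ 2) := by linarith
    linarith
  have hp : (0 : ℝ) < 2 ^ m := by positivity
  -- w * Σ ≥ 2^m V
  have h3 : 2 ^ m * V ≤ (∑ δ, |ss a δ|) * w := by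
    have e : w ^ 3 = w * (3 * V) := by rw [← hw2]; ring
    rw [e, hw2] at hsum
    have h4 : (2 ^ m * V) * (3 * V) ≤ ((∑ δ, |ss a δ|) * w) * (3 * V) := by
      nlinarith
    exact le_of_mul_le_mul_right h4 (by positivity)
  rw [mul_div_assoc', le_div_iff₀ hp]
  have h5 : v * (v * 2 ^ m) ≤ v * (s * ∑ δ, |ss a δ|) := by
    have : v * (v * 2 ^ m) = 2 ^ m * V := by rw [← hv2]; ring
    rw [this]
    calc 2 ^ m * V ≤ (∑ δ, |ss a δ|) * w := h3
      _ = v * (s * ∑ δ, |ss a δ|) := by rw [hw]; ring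
  exact le_of_mul_le_mul_left h5 hvp

lemma lq_le {m : ℕ} (a : Fin m → ℝ) (q : ℝ) (hq : 2 ≤ q) :
    (∑ i, |a i| ^ q) ^ (1 / q) ≤ Real.sqrt (∑ i, a i ^ 2) := by
  set V := ∑ i, a i ^ 2 with hV
  have hV0 : 0 ≤ V := Finset.sum_nonneg fun i _ => sq_nonneg _
  have hq0 : 0 < q := by linarith
  set v := Real.sqrt V with hv
  have hv0 : 0 ≤ v := Real.sqrt_nonneg _
  have hv2 : v ^ 2 = V := Real.sq_sqrt hV0
  have hle : ∀ i, |a i| ≤ v := by
    intro i
    apply Real.abs_le_sqrt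
    exact Finset.single_le_sum (f := fun i => a i ^ 2) (fun i _ => sq_nonneg _) (Finset.mem_univ i)
  have hsum : ∑ i, |a i| ^ q ≤ v ^ q := by
    calc ∑ i, |a i| ^ q ≤ ∑ i, a i ^ 2 * v ^ (q - 2) := by
          refine Finset.sum_le_sum fun i _ => ?_
          rcases (abs_nonneg (a i)).eq_or_lt with h | h
          · rw [← h, Real.zero_rpow hq0.ne']
            positivity
          · calc |a i| ^ q = |a i| ^ (2 : ℝ) * |a i| ^ (q - 2) := by
                  rw [← Real.rpow_add h]; congr 1; ring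
              _ = a i ^ 2 * |a i| ^ (q - 2) := by
                  rw [Real.rpow_two, sq_abs]
              _ ≤ a i ^ 2 * v ^ (q - 2) := by
                  exact mul_le_mul_of_nonneg_left
                    (Real.rpow_le_rpow (abs_nonneg _) (hle i) (by linarith)) (sq_nonneg _)
      _ = V * v ^ (q - 2) := by rw [← Finset.sum_mul]
      _ = v ^ q := by
          rcases hv0.eq_or_lt with h | h
          · rw [← hv2, ← h, Real.zero_rpow hq0.ne']
            simp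
          · rw [← hv2, ← Real.rpow_two, ← Real.rpow_add h]
            congr 1; ring
  calc (∑ i, |a i| ^ q) ^ (1 / q) ≤ (v ^ q) ^ (1 / q) :=
        Real.rpow_le_rpow (Finset.sum_nonneg fun i _ => Real.rpow_nonneg (abs_nonneg _) _) hsum
          (by positivity)
    _ = v := by
        rw [← Real.rpow_mul hv0, mul_one_div_cancel hq0.ne', Real.rpow_one]

lemma LN.zero {N : ℕ} {q M : ℝ} {G : (Fin N → ℝ) → ℝ} (hG : LN N q M G) : G 0 = 0 := by
  have := hG.smul 0 0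
  simpa using this

lemma LN.nonneg {N : ℕ} {q M : ℝ} {G : (Fin N → ℝ) → ℝ} (hG : LN N q M G) (a : Fin N → ℝ) :
    0 ≤ G a := by
  have h1 := hG.add a ((-1 : ℝ) • a)
  rw [hG.smul] at h1
  have h2 : a + (-1 : ℝ) • a = 0 := by simp
  rw [h2, hG.zero] at h1
  simp at h1
  linarith

theorem lco_ : T_LCO := by
  intro d q M C g hq hM hC hLC m u
  obtain ⟨N, G, x, hG, hx⟩ := hLC
  have hq0 : 0 < q := by linarith
  have hg0 : ∀ y, 0 ≤ g y := fun y => (hG.nonneg _).trans (hx y).1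
  set n : E d → ℝ := fun y => G (fun j => ⟪y, x j⟫_ℝ) with hn
  have hn0 : ∀ y, 0 ≤ n y := fun y => hG.nonneg _
  set S : (Fin m → Bool) → E d := fun δ => ∑ i, (if δ i then (1 : ℝ) else -1) • u i with hS
  have hSj : ∀ δ j, ⟪S δ, x j⟫_ℝ = ss (fun i => ⟪u i, x j⟫_ℝ) δ := by
    intro δ j
    simp only [hS, ss, sum_inner, real_inner_smul_left]
  have step1 : (∑ i, g (u i) ^ q) ^ (1 / q) ≤ C * (∑ i, n (u i) ^ q) ^ (1 / q) := by
    calc (∑ i, g (u i) ^ q) ^ (1 / q) ≤ (∑ i, (C * n (u i)) ^ q) ^ (1 / q) := by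
          refine Real.rpow_le_rpow (Finset.sum_nonneg fun i _ => Real.rpow_nonneg (hg0 _) _) ?_
            (by positivity)
          exact Finset.sum_le_sum fun i _ => Real.rpow_le_rpow (hg0 _) (hx _).2 hq0.le
      _ = (C ^ q * ∑ i, n (u i) ^ q) ^ (1 / q) := by
          congr 1
          rw [Finset.mul_sum]
          exact Finset.sum_congr rfl fun i _ => Real.mul_rpow (by linarith) (hn0 _)
      _ = C * (∑ i, n (u i) ^ q) ^ (1 / q) := by
          rw [Real.mul_rpow (by positivity)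
            (Finset.sum_nonneg fun i _ => Real.rpow_nonneg (hn0 _) _), ← Real.rpow_mul (by linarith),
            mul_one_div_cancel hq0.ne', Real.rpow_one]
  have step2 : (∑ i, n (u i) ^ q) ^ (1 / q) ≤
      M * G (fun j => (∑ i, |⟪u i, x j⟫_ℝ| ^ q) ^ (1 / q)) :=
    hG.conc m (fun i j => ⟪u i, x j⟫_ℝ)
  have step3 : G (fun j => (∑ i, |⟪u i, x j⟫_ℝ| ^ q) ^ (1 / q)) ≤
      Real.sqrt 3 * ((∑ δ, n (S δ)) / 2 ^ m) := by
    calc G (fun j => (∑ i, |⟪u i, x j⟫_ℝ| ^ q) ^ (1 / q))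
        ≤ G ((Real.sqrt 3 / 2 ^ m) • ∑ δ : Fin m → Bool, fun j => |⟪S δ, x j⟫_ℝ|) := by
          apply hG.mono
          intro j
          have h1 := (lq_le (fun i => ⟪u i, x j⟫_ℝ) q hq).trans (khin (fun i => ⟪u i, x j⟫_ℝ))
          rw [abs_of_nonneg (Real.rpow_nonneg
            (Finset.sum_nonneg fun i _ => Real.rpow_nonneg (abs_nonneg _) _) _)]
          refine h1.trans (le_trans (le_of_eq ?_) (le_abs_self _))
          simp only [Pi.smul_apply, Finset.sum_apply, smul_eq_mul, hSj]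
          ring
      _ = (Real.sqrt 3 / 2 ^ m) * G (∑ δ : Fin m → Bool, fun j => |⟪S δ, x j⟫_ℝ|) := by
          rw [hG.smul, abs_of_nonneg (by positivity)]
      _ ≤ (Real.sqrt 3 / 2 ^ m) * ∑ δ : Fin m → Bool, G (fun j => |⟪S δ, x j⟫_ℝ|) := by
          gcongr
          exact Finset.le_sum_of_subadditive G hG.zero.le hG.add _ _
      _ ≤ (Real.sqrt 3 / 2 ^ m) * ∑ δ : Fin m → Bool, n (S δ) := by
          gcongr with δ _
          apply hG.mono
          intro j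
          rw [abs_abs]
      _ = _ := by ring
  have step4 : (∑ δ, n (S δ)) / 2 ^ m ≤ Real.sqrt (sm g u) := by
    apply Real.le_sqrt_of_sq_le
    rw [div_pow]
    have h1 := sq_sum_le_card_mul_sum_sq (s := (Finset.univ : Finset (Fin m → Bool)))
      (f := fun δ => n (S δ))
    have hc : ((Finset.univ : Finset (Fin m → Bool)).card : ℝ) = 2 ^ m := by
      simp
    rw [hc] at h1
    have hp : (0 : ℝ) < 2 ^ m := by positivity
    calc (∑ δ, n (S δ)) ^ 2 / (2 ^ m) ^ 2 ≤ (2 ^ m * ∑ δ, n (S δ) ^ 2) / (2 ^ m) ^ 2 := by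
          gcongr
      _ = (∑ δ, n (S δ) ^ 2) / 2 ^ m := by
          field_simp
      _ ≤ sm g u := by
          unfold sm
          gcongr with δ _
          · exact hn0 _
          · exact (hx _).1
  have hs3 : Real.sqrt 3 ≤ 2 := by
    rw [Real.sqrt_le_left (by norm_num)]
    norm_num
  have hsm : 0 ≤ Real.sqrt (sm g u) := Real.sqrt_nonneg _
  have hnn : 0 ≤ (∑ δ, n (S δ)) / 2 ^ m :=
    div_nonneg (Finset.sum_nonneg fun δ _ => hn0 _) (by positivity)
  have hC0 : 0 ≤ C := by linarith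
  have hM0 : 0 ≤ M := by linarith
  calc (∑ i, g (u i) ^ q) ^ (1 / q) ≤ C * (∑ i, n (u i) ^ q) ^ (1 / q) := step1
    _ ≤ C * (M * G (fun j => (∑ i, |⟪u i, x j⟫_ℝ| ^ q) ^ (1 / q))) := by gcongr
    _ ≤ C * (M * (Real.sqrt 3 * ((∑ δ, n (S δ)) / 2 ^ m))) := by gcongr
    _ ≤ C * (M * (2 * Real.sqrt (sm g u))) := by gcongr
    _ = 2 * M * C * Real.sqrt (sm g u) := by ring

end Pool.Agent.T2h52.SP
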