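import Pool.Agent.T2h52.SP.Stm2
import Pool.Agent.T2h52.SP.SUD
import Pool.Agent.N555.RZ.MainA

/-!
# LGM: the Gaussian mean of the gauge of a subspace of a `q`-concave lattice
-/

set_option autoImplicit false
set_option linter.all false

namespace Pool.Agent.T2h52.SP

open MeasureTheory Set Filter Topology
open scoped ENNReal InnerProductSpace Pointwise
open Pool.Agent.H888R2.KT (gs gc gc_pos)
open Pool.Agent.N555.RZ (mP Spr)

namespace Lgm

open Sud (W W_pos W_cont W_int W_int1 W_neg)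

variable {d : ℕ}

/-- total weight -/
noncomputable def Z (d : ℕ) : ℝ := ∫ y : E d, W y

lemma Z_pos : 0 < Z d := integral_exp_pos W_int

/-- the standard Gaussian measure -/
noncomputable def ga (d : ℕ) : Measure (E d) :=
  (volume : Measure (E d)).withDensity fun y => ENNReal.ofReal ((Z d)⁻¹ * W y)

lemma dm : Measurable fun y : E d => ENNReal.ofReal ((Z d)⁻¹ * W y) :=
  (W_cont.measurable.const_mul _).ennreal_ofReal

lemma dpos (y : E d) : 0 ≤ (Z d)⁻¹ * W y := mul_nonneg (inv_nonneg.2 Z_pos.le) (W_pos y).le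

lemma ga_prob : IsProbabilityMeasure (ga d) := by
  constructor
  unfold ga
  rw [withDensity_apply _ MeasurableSet.univ, Measure.restrict_univ,
    ← ofReal_integral_eq_lintegral_ofReal (W_int.const_mul _) (Eventually.of_forall dpos),
    integral_const_mul]
  change ENNReal.ofReal ((Z d)⁻¹ * Z d) = 1
  rw [inv_mul_cancel₀ Z_pos.ne', ENNReal.ofReal_one]

lemma ga_int (g : E d → ℝ) : ∫ y, g y ∂(ga d) = (Z d)⁻¹ * ∫ y, g y * W y := by
  unfold ga
  rw [integral_withDensity_eq_integral_toReal_smul dm (Eventually.of_forall fun _ => ENNReal.ofReal_lt_top),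
    ← integral_const_mul]
  refine integral_congr_ae (Eventually.of_forall fun y => ?_)
  simp only
  rw [ENNReal.toReal_ofReal (dpos y), smul_eq_mul]
  ring

lemma ga_gm (g : E d → ℝ) : ∫ y, g y ∂(ga d) = gm g := ga_int g

lemma ga_integrable {g : E d → ℝ} (h : Integrable fun y => g y * W y) : Integrable g (ga d) := by
  unfold ga
  rw [integrable_withDensity_iff_integrable_smul' dm (Eventually.of_forall fun _ => ENNReal.ofReal_lt_top)]
  refine (h.const_mul (Z d)⁻¹).congr (Eventually.of_forall fun y => ?_)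
  simp only
  rw [ENNReal.toReal_ofReal (dpos y), smul_eq_mul]
  ring

lemma exp_int (u : E d) : Integrable (fun y : E d => Real.exp ⟪y, u⟫_ℝ * W y) ∧
    ∫ y : E d, Real.exp ⟪y, u⟫_ℝ * W y = Real.exp (‖u‖ ^ 2 / 2) * Z d := by
  obtain ⟨-, g1, g2, -⟩ := gc_pos (κ := Fin d) 1 one_pos
  have h : ∀ y : E d, Real.exp ⟪y, u⟫_ℝ * W y =
      Real.exp (‖u‖ ^ 2 / 2) * Real.exp (-(‖u - y‖ ^ 2 / (2 * 1))) := by
    intro y
    unfold W
    rw [← Real.exp_add, ← Real.exp_add, norm_sub_sq_real, real_inner_comm]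
    congr 1
    ring
  refine ⟨((g2 u).const_mul _).congr (Eventually.of_forall fun y => (h y).symm), ?_⟩
  rw [integral_congr_ae (Eventually.of_forall h), integral_const_mul, g1 u]
  congr 1
  unfold gc Z W
  refine integral_congr_ae (Eventually.of_forall fun y => ?_)
  simp

/-- moments -/
lemma momq {q : ℝ} (hq : 2 ≤ q) (x : E d) : Integrable (fun z => |⟪z, x⟫_ℝ| ^ q) (ga d) ∧
    ∫ z, |⟪z, x⟫_ℝ| ^ q ∂(ga d) ≤ (2 * q * ‖x‖) ^ q := by
  have hq0 : 0 < q := by linarith
  rcases eq_or_ne x 0 with rfl | hx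
  · have e : (fun z : E d => |⟪z, (0 : E d)⟫_ℝ| ^ q) = fun _ => (0 : ℝ) := by
      funext z
      rw [inner_zero_right, abs_zero, Real.zero_rpow hq0.ne']
    rw [e]
    refine ⟨integrable_zero _ _ _, ?_⟩
    rw [integral_zero, norm_zero, mul_zero, Real.zero_rpow hq0.ne']
  · have hr : 0 < ‖x‖ := norm_pos_iff.2 hx
    set u : E d := ‖x‖⁻¹ • x with hu
    have hun : ‖u‖ = 1 := by
      rw [hu, norm_smul, norm_inv, norm_norm, inv_mul_cancel₀ hr.ne']
    have hxu : x = ‖x‖ • u := by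
      rw [hu, smul_smul, mul_inv_cancel₀ hr.ne', one_smul]
    obtain ⟨i1, j1⟩ := exp_int u
    obtain ⟨i2, j2⟩ := exp_int (-u)
    rw [hun] at j1
    rw [norm_neg, hun] at j2
    have hpt : ∀ z : E d, |⟪z, x⟫_ℝ| ^ q ≤
        (q * ‖x‖) ^ q * (Real.exp ⟪z, u⟫_ℝ + Real.exp ⟪z, -u⟫_ℝ) := by
      intro z
      have e1 : |⟪z, x⟫_ℝ| = ‖x‖ * |⟪z, u⟫_ℝ| := by
        nth_rewrite 1 [hxu]
        rw [real_inner_smul_right, abs_mul, abs_of_pos hr]
      rw [e1]
      set t := |⟪z, u⟫_ℝ| with ht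
      have ht0 : 0 ≤ t := abs_nonneg _
      have h1 : t ≤ q * Real.exp (t / q) := by
        have h2 := Real.add_one_le_exp (t / q)
        have h3 : t / q ≤ Real.exp (t / q) := by linarith
        rwa [div_le_iff₀ hq0, mul_comm] at h3
      have h4 : (‖x‖ * t) ^ q ≤ (q * ‖x‖) ^ q * Real.exp t := by
        calc (‖x‖ * t) ^ q ≤ (q * ‖x‖ * Real.exp (t / q)) ^ q := by
              apply Real.rpow_le_rpow (by positivity) _ hq0.le
              calc ‖x‖ * t ≤ ‖x‖ * (q * Real.exp (t / q)) := mul_le_mul_of_nonneg_left h1 hr.le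
                _ = q * ‖x‖ * Real.exp (t / q) := by ring
          _ = (q * ‖x‖) ^ q * Real.exp t := by
              rw [Real.mul_rpow (by positivity) (Real.exp_pos _).le, ← Real.exp_mul,
                div_mul_cancel₀ _ hq0.ne']
      refine h4.trans (mul_le_mul_of_nonneg_left ?_ (by positivity))
      rw [inner_neg_right]
      rcases abs_choice ⟪z, u⟫_ℝ with h | h
      · rw [ht, h]
        linarith [Real.exp_pos (-⟪z, u⟫_ℝ)]
      · rw [ht, h]
        linarith [Real.exp_pos ⟪z, u⟫_ℝ]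
    have hgi : Integrable (fun z : E d => (q * ‖x‖) ^ q *
        (Real.exp ⟪z, u⟫_ℝ + Real.exp ⟪z, -u⟫_ℝ)) (ga d) :=
      ((ga_integrable i1).add (ga_integrable i2)).const_mul _
    have hfi : Integrable (fun z : E d => |⟪z, x⟫_ℝ| ^ q) (ga d) := by
      refine hgi.mono' ?_ (Eventually.of_forall fun z => ?_)
      · refine Continuous.aestronglyMeasurable ?_
        exact Continuous.rpow_const (by fun_prop) fun z => Or.inr hq0.le
      · rw [Real.norm_eq_abs, abs_of_nonneg (Real.rpow_nonneg (abs_nonneg _) _)]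
        exact hpt z
    refine ⟨hfi, (integral_mono hfi hgi hpt).trans ?_⟩
    rw [integral_const_mul, integral_add (ga_integrable i1) (ga_integrable i2), ga_int, ga_int, j1, j2]
    have hZ := Z_pos (d := d)
    have h5 : (Z d)⁻¹ * (Real.exp (1 ^ 2 / 2) * Z d) = Real.exp (1 / 2) := by
      rw [one_pow]
      field_simp
    rw [h5]
    have h6 : Real.exp (1 / 2) ≤ 2 := by
      have h7 : Real.exp (1 / 2) ^ 2 ≤ 2 ^ 2 := by
        rw [← Real.exp_nat_mul]
        norm_num
        linarith [Real.exp_one_lt_d9]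
      exact (abs_le_of_sq_le_sq' h7 (by norm_num)).2
    have h8 : (4 : ℝ) ≤ 2 ^ q := by
      calc (4 : ℝ) = 2 ^ (2 : ℝ) := by norm_num
        _ ≤ 2 ^ q := Real.rpow_le_rpow_of_exponent_le (by norm_num) hq
    have h9 : 0 ≤ (q * ‖x‖) ^ q := by positivity
    calc (q * ‖x‖) ^ q * (Real.exp (1 / 2) + Real.exp (1 / 2)) ≤ (q * ‖x‖) ^ q * 2 ^ q := by
          apply mul_le_mul_of_nonneg_left _ h9
          linarith
      _ = (2 * q * ‖x‖) ^ q := by
          rw [← Real.mul_rpow (by positivity) (by norm_num)]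
          congr 1
          ring

/-! ### the uniform measure -/

lemma vol_ne {P : Set (E d)} (hP : Bd P) : volume P ≠ 0 :=
  (Measure.measure_pos_of_mem_nhds volume (mem_interior_iff_mem_nhds.1 hP.int)).ne'

lemma mP_int {P : Set (E d)} (hP : Bd P) {f : E d → ℝ} (hf : Continuous f) : Integrable f (mP P) := by
  unfold mP
  exact (hf.continuousOn.integrableOn_compact hP.comp).smul_measure (ENNReal.inv_ne_top.2 (vol_ne hP))

lemma mP_ae {P : Set (E d)} (hP : Bd P) : ∀ᵐ x ∂(mP P), x ∈ P := by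
  unfold mP
  exact Measure.ae_smul_measure (ae_restrict_mem hP.comp.isClosed.measurableSet) _

lemma first_moment {P : Set (E d)} (hP : Bd P) (hI : Iso P) (x : E d) :
    10⁻¹ ^ 5 * ‖x‖ ≤ ∫ u, |⟪u, x⟫_ℝ| ∂(mP P) := by
  rcases eq_or_ne x 0 with rfl | hx
  · simp
  · have hr : 0 < ‖x‖ := norm_pos_iff.2 hx
    set r := ‖x‖ with hrd
    have hpt : ∀ y : ℝ, y ^ 2 / (50000 * r) - y ^ 4 / (50000 ^ 3 * r ^ 3) ≤ |y| := by
      intro y
      set τ := |y| / (50000 * r) with hτ
      have hτ0 : 0 ≤ τ := by positivity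
      have h1 : |y| = 50000 * r * τ := by
        rw [hτ]
        field_simp
      have h2 : y ^ 2 / (50000 * r) - y ^ 4 / (50000 ^ 3 * r ^ 3) = 50000 * r * (τ ^ 2 - τ ^ 4) := by
        have e2 : y ^ 2 = |y| ^ 2 := (sq_abs y).symm
        have e4 : y ^ 4 = |y| ^ 4 := by
          rw [show (4 : ℕ) = 2 * 2 by norm_num, pow_mul, pow_mul, sq_abs]
        rw [e2, e4, h1]
        field_simp
      rw [h2, h1]
      apply mul_le_mul_of_nonneg_left _ (by positivity)
      rcases le_total τ 1 with h | h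
      · nlinarith [pow_nonneg hτ0 4]
      · have : τ ^ 2 ≤ τ ^ 4 := pow_le_pow_right₀ h (by norm_num)
        linarith
    have hi2 : Integrable (fun u : E d => ⟪u, x⟫_ℝ ^ 2) (mP P) := mP_int hP (by fun_prop)
    have hi4 : Integrable (fun u : E d => ⟪u, x⟫_ℝ ^ 4) (mP P) := mP_int hP (by fun_prop)
    have hi1 : Integrable (fun u : E d => |⟪u, x⟫_ℝ|) (mP P) := mP_int hP (by fun_prop)
    have h4 : ∫ u, ⟪u, x⟫_ℝ ^ 4 ∂(mP P) ≤ (160 * r) ^ 4 := by
      have h5 := Pool.Agent.N555.RZ.mom_inner hP.conv hP.comp (mem_interior_iff_mem_nhds.1 hP.int)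
        hI x 2 (by norm_num)
      rw [integral_eq_lintegral_of_nonneg_ae (Eventually.of_forall fun u => by positivity)
        hi4.aestronglyMeasurable]
      refine ENNReal.toReal_le_of_le_ofReal (by positivity) ?_
      refine le_trans (le_of_eq ?_) (h5.trans (le_of_eq ?_))
      · refine lintegral_congr fun u => ?_
        rw [real_inner_comm]
        congr 1
        rw [show 2 * 2 = 4 by norm_num, show (4 : ℕ) = 2 * 2 by norm_num, pow_mul, pow_mul, sq_abs]
      · congr 1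
        norm_num
        ring
    have h2 : ∫ u, ⟪u, x⟫_ℝ ^ 2 ∂(mP P) = r ^ 2 := hI x
    have h6 : ∫ u, (⟪u, x⟫_ℝ ^ 2 / (50000 * r) - ⟪u, x⟫_ℝ ^ 4 / (50000 ^ 3 * r ^ 3)) ∂(mP P) ≤
        ∫ u, |⟪u, x⟫_ℝ| ∂(mP P) :=
      integral_mono ((hi2.div_const _).sub (hi4.div_const _)) hi1 fun u => hpt _
    refine le_trans ?_ h6
    rw [integral_sub (hi2.div_const _) (hi4.div_const _), integral_div, integral_div, h2]
    have h7 : (∫ u, ⟪u, x⟫_ℝ ^ 4 ∂(mP P)) / (50000 ^ 3 * r ^ 3) ≤ (160 * r) ^ 4 / (50000 ^ 3 * r ^ 3) :=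
      div_le_div_of_nonneg_right h4 (by positivity)
    have h8 : r ^ 2 / (50000 * r) - (160 * r) ^ 4 / (50000 ^ 3 * r ^ 3) =
        (1 / 50000 - 160 ^ 4 / 50000 ^ 3) * r := by
      field_simp
    have h9 : 10⁻¹ ^ 5 * r ≤ (1 / 50000 - 160 ^ 4 / 50000 ^ 3) * r := by
      apply mul_le_mul_of_nonneg_right _ hr.le
      norm_num
    linarith

end Lgm

open Lgm Sud in
theorem lgm (hL : T_LLN) : T_LGM := by
  classical
  intro d q M C P hq hM hC hP hI hLC
  obtain ⟨N, G, x, hG, hGP⟩ := hLC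
  have hq0 : 0 < q := by linarith
  have hM0 : 0 ≤ M := by linarith
  -- facts on `G`
  have hG0 : G 0 = 0 := by
    have := hG.smul 0 0
    simpa using this
  have hGnn : ∀ a, 0 ≤ G a := by
    intro a
    have h1 := hG.add a ((-1 : ℝ) • a)
    rw [hG.smul, neg_one_smul, add_neg_cancel, hG0] at h1
    simp only [abs_neg, abs_one, one_mul] at h1
    linarith
  have hconv : ConvexOn ℝ univ G := by
    refine ⟨convex_univ, fun a _ b _ s t hs ht _ => ?_⟩
    refine (hG.add _ _).trans ?_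
    rw [hG.smul, hG.smul, abs_of_nonneg hs, abs_of_nonneg ht, smul_eq_mul, smul_eq_mul]
  have hGc : Continuous G := by
    have := hconv.continuousOn_interior
    rw [interior_univ] at this
    exact continuousOn_univ.1 this
  set n : E d → ℝ := fun u => G fun j => ⟪u, x j⟫_ℝ with hn
  have hnc : Continuous n := by
    refine hGc.comp (continuous_pi fun j => ?_)
    fun_prop
  have hn0 : ∀ u, 0 ≤ n u := fun u => hGnn _
  have hnabs : ∀ u, n u = G fun j => |⟪u, x j⟫_ℝ| := by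
    intro u
    apply le_antisymm
    · exact hG.mono _ _ fun j => by rw [abs_abs]
    · exact hG.mono _ _ fun j => by rw [abs_abs]
  -- the gauge
  have hP0 : P ∈ 𝓝 (0 : E d) := mem_interior_iff_mem_nhds.1 hP.int
  have hcont : Continuous (gauge P) := continuous_gauge hP.conv hP0
  have hgint : Integrable fun y : E d => gauge P y * W y := by
    obtain ⟨r, hr, hball⟩ := Metric.mem_nhds_iff.1 hP0
    refine (W_int1.const_mul r⁻¹).mono' (by have := W_cont (d := d); fun_prop)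
      (Eventually.of_forall fun y => ?_)
    have h1 := mul_gauge_le_norm (x := y) hball
    rw [norm_mul, Real.norm_eq_abs, Real.norm_eq_abs, abs_of_nonneg (gauge_nonneg y),
      abs_of_pos (W_pos y), ← mul_assoc]
    refine mul_le_mul_of_nonneg_right ?_ (W_pos y).le
    rw [← div_eq_inv_mul, le_div_iff₀ hr, mul_comm]
    exact h1
  have hgi : Integrable (gauge P) (ga d) := ga_integrable hgint
  have hni : Integrable n (ga d) := by
    refine hgi.mono' hnc.aestronglyMeasurable (Eventually.of_forall fun u => ?_)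
    rw [Real.norm_eq_abs, abs_of_nonneg (hn0 u)]
    exact (hGP u).1
  haveI := ga_prob (d := d)
  obtain ⟨hnq, hLLN⟩ := hL N d q M G x (by linarith) hM0 hG (ga d) inferInstance
    (fun j => (momq hq (x j)).1)
  -- Jensen
  have hJ : (∫ z, n z ∂(ga d)) ^ q ≤ ∫ z, n z ^ q ∂(ga d) :=
    (convexOn_rpow (by linarith : 1 ≤ q)).map_integral_le
      (continuousOn_id.rpow_const fun _ _ => Or.inr hq0.le) isClosed_Ici
      (Eventually.of_forall hn0) hni hnq
  have hIn0 : 0 ≤ ∫ z, n z ∂(ga d) := integral_nonneg hn0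
  have hJ2 : ∫ z, n z ∂(ga d) ≤ (∫ z, n z ^ q ∂(ga d)) ^ (1 / q) := by
    have h1 := Real.rpow_le_rpow (Real.rpow_nonneg hIn0 _) hJ (by positivity : 0 ≤ 1 / q)
    rwa [← Real.rpow_mul hIn0, mul_one_div_cancel hq0.ne', Real.rpow_one] at h1
  set g0 : ℝ := G fun j => ‖x j‖ with hg0
  have hup : G (fun j => (∫ z, |⟪z, x j⟫_ℝ| ^ q ∂(ga d)) ^ (1 / q)) ≤ 2 * q * g0 := by
    have h1 : 2 * q * g0 = G ((2 * q) • fun j => ‖x j‖) := by
      rw [hG.smul, abs_of_nonneg (by positivity)]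
    rw [h1]
    refine hG.mono _ _ fun j => ?_
    have h2 : 0 ≤ ∫ z, |⟪z, x j⟫_ℝ| ^ q ∂(ga d) :=
      integral_nonneg fun z => Real.rpow_nonneg (abs_nonneg _) _
    rw [abs_of_nonneg (Real.rpow_nonneg h2 _), Pi.smul_apply, smul_eq_mul,
      abs_of_nonneg (by positivity)]
    have h3 := Real.rpow_le_rpow h2 (momq hq (x j)).2 (by positivity : 0 ≤ 1 / q)
    rwa [← Real.rpow_mul (by positivity), mul_one_div_cancel hq0.ne', Real.rpow_one] at h3
  have hgm : gm (gauge P) ≤ C * ∫ z, n z ∂(ga d) := by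
    rw [← ga_gm, ← integral_const_mul]
    exact integral_mono hgi (hni.const_mul C) fun u => (hGP u).2
  -- the lower bound
  have hlow : g0 ≤ 10 ^ 5 := by
    haveI : IsProbabilityMeasure (mP P) :=
      Pool.Agent.N555.RZ.mP_prob (vol_ne hP) hP.comp.measure_lt_top.ne
    have hVi : ∀ j, Integrable (fun u : E d => |⟪u, x j⟫_ℝ|) (mP P) := fun j =>
      mP_int hP (by fun_prop)
    have h1 : G (∫ u, (fun j => |⟪u, x j⟫_ℝ|) ∂(mP P)) ≤ ∫ u, G (fun j => |⟪u, x j⟫_ℝ|) ∂(mP P) := by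
      refine hconv.map_integral_le hGc.continuousOn isClosed_univ
        (Eventually.of_forall fun _ => mem_univ _) ?_ ?_
      · exact Integrable.of_eval hVi
      · refine mP_int hP ?_
        exact hGc.comp (continuous_pi fun j => by fun_prop)
    have h2 : ∫ u, G (fun j => |⟪u, x j⟫_ℝ|) ∂(mP P) ≤ 1 := by
      have h3 : ∫ u, G (fun j => |⟪u, x j⟫_ℝ|) ∂(mP P) ≤ ∫ u, (1 : ℝ) ∂(mP P) := by
        refine integral_mono_ae (mP_int hP (hGc.comp (continuous_pi fun j => by fun_prop)))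
          (integrable_const _) ?_
        filter_upwards [mP_ae hP] with u hu
        rw [← hnabs u]
        exact (hGP u).1.trans (gauge_le_one_of_mem hu)
      simpa using h3
    have h3 : 10⁻¹ ^ 5 * g0 ≤ G (∫ u, (fun j => |⟪u, x j⟫_ℝ|) ∂(mP P)) := by
      have h4 : 10⁻¹ ^ 5 * g0 = G (((10⁻¹ : ℝ) ^ 5) • fun j => ‖x j‖) := by
        rw [hG.smul, abs_of_nonneg (by positivity)]
      rw [h4]
      refine hG.mono _ _ fun j => ?_
      have h5 : (∫ u, (fun j => |⟪u, x j⟫_ℝ|) ∂(mP P)) j = ∫ u, |⟪u, x j⟫_ℝ| ∂(mP P) :=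
        eval_integral hVi j
      rw [h5, Pi.smul_apply, smul_eq_mul, abs_of_nonneg (by positivity),
        abs_of_nonneg (integral_nonneg fun u => abs_nonneg _)]
      exact first_moment hP hI (x j)
    have h4 : 10⁻¹ ^ 5 * g0 ≤ 1 := h3.trans (h1.trans h2)
    have h5 : g0 = 10 ^ 5 * (10⁻¹ ^ 5 * g0) := by
      rw [← mul_assoc, ← mul_pow]
      norm_num
    rw [h5]
    calc (10 : ℝ) ^ 5 * (10⁻¹ ^ 5 * g0) ≤ 10 ^ 5 * 1 := by gcongr
      _ = 10 ^ 5 := mul_one _
  calc gm (gauge P) ≤ C * ∫ z, n z ∂(ga d) := hgm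
    _ ≤ C * (M * (2 * q * g0)) := by
        apply mul_le_mul_of_nonneg_left _ (by linarith)
        exact hJ2.trans (hLLN.trans (mul_le_mul_of_nonneg_left hup hM0))
    _ ≤ C * (M * (2 * q * 10 ^ 5)) := by gcongr
    _ = 2 * 10 ^ 5 * q * M * C := by ring

end Pool.Agent.T2h52.SP
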