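import Pool.Agent.T2h52.SP.Stm2

/-!
# Task LIA
-/

set_option autoImplicit false

namespace Pool.Agent.T2h52.SP

open MeasureTheory Set Filter Topology
open scoped ENNReal InnerProductSpace Pointwise

theorem bd_img {d : ℕ} {P : Set (E d)} (A : E d ≃ₗ[ℝ] E d) (hP : Bd P) : Bd (A '' P) where
  conv := hP.conv.linear_image A.toLinearMap
  comp := hP.comp.image A.toContinuousLinearEquiv.continuous
  int := by
    have h := A.toContinuousLinearEquiv.toHomeomorph.image_interior P
    have h2 : (A.toContinuousLinearEquiv.toHomeomorph : E d → E d) '' P = A '' P := rfl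
    rw [h2] at h
    rw [← h]
    exact ⟨0, hP.int, map_zero A⟩
  sym := by
    rintro _ ⟨x, hx, rfl⟩
    exact ⟨-x, hP.sym x hx, map_neg A x⟩

theorem lia_ : T_LIA := by
  intro d q M C P A hP hLC
  refine ⟨bd_img A hP, ?_⟩
  obtain ⟨N, G, x, hG, hx⟩ := hLC
  refine ⟨N, G, fun j => (LinearMap.adjoint A.symm.toLinearMap) (x j), hG, ?_⟩
  intro u
  have h1 : gauge (A '' P) u = gauge P (A.symm u) := by
    have := Pool.Agent.N555.RZ.gauge_img (K := P) A (A.symm u)
    rw [LinearEquiv.apply_symm_apply] at this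
    exact this
  have h2 : (fun j => ⟪u, (LinearMap.adjoint A.symm.toLinearMap) (x j)⟫_ℝ) =
      fun j => ⟪A.symm u, x j⟫_ℝ := by
    funext j
    rw [LinearMap.adjoint_inner_right]
    rfl
  rw [h1, h2]
  exact hx (A.symm u)

end Pool.Agent.T2h52.SP
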