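import Pool.Agent.T2h52.SP.Stm
import Pool.Agent.H888R2.KT.N0
import Pool.Agent.H888R2.KT.N0b

/-!
# LIM: the limit of the Gaussian averages of `cosh`
-/

set_option autoImplicit false

namespace Pool.Agent.T2h52.SP

open MeasureTheory Set Filter Topology
open scoped ENNReal InnerProductSpace Pointwise
open Pool.Agent.H888R2.KT (gs gc gc_pos gauss2)

namespace LIMx

variable {d : ℕ}

/-- Gaussian averages by the standard Gaussian measure -/
lemma gs_scale {δ : ℝ} (hδ : 0 < δ) (φ : E d → ℝ) (y : E d) :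
    gs δ φ y = (∫ w : E d, φ (y + Real.sqrt δ • w) * Real.exp (-(‖w‖ ^ 2 / (2 * 1)))) /
      gc (Fin d) 1 := by
  have hs : 0 < Real.sqrt δ := Real.sqrt_pos.2 hδ
  have hs2 : Real.sqrt δ ^ 2 = δ := Real.sq_sqrt hδ.le
  have key : ∀ w : E d, Real.exp (-(‖Real.sqrt δ • w‖ ^ 2 / (2 * δ))) =
      Real.exp (-(‖w‖ ^ 2 / (2 * 1))) := by
    intro w
    rw [norm_smul, mul_pow, Real.norm_of_nonneg hs.le, hs2]
    congr 2
    field_simp
  have h1 : ∫ z : E d, φ z * Real.exp (-(‖y - z‖ ^ 2 / (2 * δ))) =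
      ∫ u : E d, φ (y + u) * Real.exp (-(‖u‖ ^ 2 / (2 * δ))) := by
    rw [← integral_add_left_eq_self (fun z : E d => φ z * Real.exp (-(‖y - z‖ ^ 2 / (2 * δ)))) y]
    refine integral_congr_ae (Eventually.of_forall fun u => ?_)
    change φ (y + u) * Real.exp (-(‖y - (y + u)‖ ^ 2 / (2 * δ))) = _
    rw [sub_add_cancel_left, norm_neg]
  have h2 := Measure.integral_comp_smul (volume : Measure (E d))
    (fun u : E d => φ (y + u) * Real.exp (-(‖u‖ ^ 2 / (2 * δ)))) (Real.sqrt δ)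
  have h3 := Measure.integral_comp_smul (volume : Measure (E d))
    (fun u : E d => Real.exp (-(‖u‖ ^ 2 / (2 * δ)))) (Real.sqrt δ)
  simp only [key] at h2 h3
  set c : ℝ := |(Real.sqrt δ ^ Module.finrank ℝ (E d))⁻¹| with hc
  have hc0 : 0 < c := by
    rw [hc, abs_pos]
    exact inv_ne_zero (pow_ne_zero _ hs.ne')
  have h4 : gc (Fin d) 1 = c * gc (Fin d) δ := by
    unfold gc
    exact h3
  obtain ⟨gp, -, -, -⟩ := gc_pos (κ := Fin d) δ hδ
  unfold gs
  rw [h1, h4, h2, smul_eq_mul, mul_div_mul_left _ _ hc0.ne']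

lemma cosh_sub_one (t : ℝ) : Real.cosh t - 1 = 2 * Real.sinh (t / 2) ^ 2 := by
  have h1 := Real.cosh_two_mul (t / 2)
  have h2 := Real.cosh_sq (t / 2)
  rw [show 2 * (t / 2) = t by ring] at h1
  linarith

lemma sinh_abs_le (x : ℝ) : |Real.sinh x| ≤ |x| * Real.exp |x| := by
  rw [Real.abs_sinh]
  have h1 : 1 - 2 * |x| ≤ Real.exp (-(2 * |x|)) := by
    have := Real.add_one_le_exp (-(2 * |x|))
    linarith
  have h2 : Real.sinh |x| = Real.exp |x| * (1 - Real.exp (-(2 * |x|))) / 2 := by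
    rw [Real.sinh_eq, mul_sub, mul_one, ← Real.exp_add]
    congr 3
    ring
  rw [h2]
  have h3 := Real.exp_pos |x|
  nlinarith

lemma cosh_bound (t : ℝ) : 0 ≤ Real.cosh t - 1 ∧
    Real.cosh t - 1 ≤ t ^ 2 / 2 * Real.exp |t| := by
  rw [cosh_sub_one]
  refine ⟨by positivity, ?_⟩
  have h1 := sinh_abs_le (t / 2)
  have h2 : |t / 2| = |t| / 2 := by rw [abs_div, abs_of_pos (by norm_num : (0 : ℝ) < 2)]
  rw [h2] at h1
  have h3 : Real.sinh (t / 2) ^ 2 ≤ (|t| / 2 * Real.exp (|t| / 2)) ^ 2 := by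
    rw [← sq_abs (Real.sinh (t / 2))]
    exact pow_le_pow_left₀ (abs_nonneg _) h1 2
  have h4 : Real.exp (|t| / 2) ^ 2 = Real.exp |t| := by
    rw [← Real.exp_nat_mul]
    congr 1
    push_cast
    ring
  rw [mul_pow, h4, div_pow, sq_abs] at h3
  linarith

/-- the quotient -/
noncomputable def q (σ : E d → ℝ) (δ : ℝ) (y w : E d) : ℝ :=
  (Real.cosh (σ (y + Real.sqrt δ • w) - σ y) - 1) / δ

variable {σ : E d → ℝ} {Λ : ℝ}

lemma q_bound (hσ : ContDiff ℝ 1 σ) (hΛ : 0 ≤ Λ) (hL : ∀ y, ‖fderiv ℝ σ y‖ ≤ Λ) {δ : ℝ}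
    (hδ : 0 < δ) (hδ1 : δ ≤ 1) (y w : E d) :
    0 ≤ q σ δ y w ∧ q σ δ y w * Real.exp (-(‖w‖ ^ 2 / (2 * 1))) ≤
      4 * Λ ^ 2 * Real.exp (2 * Λ ^ 2) * Real.exp (-(1 / 4) * ‖w‖ ^ 2) := by
  have hs : 0 < Real.sqrt δ := Real.sqrt_pos.2 hδ
  have hs2 : Real.sqrt δ ^ 2 = δ := Real.sq_sqrt hδ.le
  have hs1 : Real.sqrt δ ≤ 1 := Real.sqrt_le_one.2 hδ1
  set t := σ (y + Real.sqrt δ • w) - σ y with ht
  have hw := norm_nonneg w
  have h1 : |t| ≤ Λ * (Real.sqrt δ * ‖w‖) := by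
    have := convex_univ.norm_image_sub_le_of_norm_fderiv_le (𝕜 := ℝ) (f := σ)
      (x := y) (y := y + Real.sqrt δ • w) (C := Λ)
      (fun x _ => (hσ.differentiable one_ne_zero).differentiableAt) (fun x _ => hL x) (mem_univ _)
      (mem_univ _)
    rw [add_sub_cancel_left, norm_smul, Real.norm_of_nonneg hs.le, Real.norm_eq_abs] at this
    exact this
  obtain ⟨h2, h3⟩ := cosh_bound t
  refine ⟨div_nonneg h2 hδ.le, ?_⟩
  have h4 : |t| ≤ Λ * ‖w‖ := by
    refine h1.trans ?_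
    have : Real.sqrt δ * ‖w‖ ≤ 1 * ‖w‖ := mul_le_mul_of_nonneg_right hs1 hw
    rw [one_mul] at this
    exact mul_le_mul_of_nonneg_left this hΛ
  have h5 : t ^ 2 ≤ Λ ^ 2 * (δ * ‖w‖ ^ 2) := by
    rw [← sq_abs t]
    calc |t| ^ 2 ≤ (Λ * (Real.sqrt δ * ‖w‖)) ^ 2 := pow_le_pow_left₀ (abs_nonneg _) h1 2
      _ = Λ ^ 2 * (Real.sqrt δ ^ 2 * ‖w‖ ^ 2) := by ring
      _ = _ := by rw [hs2]
  have h6 : q σ δ y w ≤ Λ ^ 2 * ‖w‖ ^ 2 / 2 * Real.exp (Λ * ‖w‖) := by
    unfold q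
    rw [div_le_iff₀ hδ]
    calc Real.cosh t - 1 ≤ t ^ 2 / 2 * Real.exp |t| := h3
      _ ≤ (Λ ^ 2 * (δ * ‖w‖ ^ 2)) / 2 * Real.exp (Λ * ‖w‖) := by
        apply mul_le_mul (by linarith) (Real.exp_le_exp.2 h4) (Real.exp_pos _).le
        positivity
      _ = _ := by ring
  have h7 : ‖w‖ ^ 2 ≤ 8 * Real.exp (‖w‖ ^ 2 / 8) := by
    have := Real.add_one_le_exp (‖w‖ ^ 2 / 8)
    linarith
  have h8 : Real.exp (Λ * ‖w‖) ≤ Real.exp (2 * Λ ^ 2) * Real.exp (‖w‖ ^ 2 / 8) := by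
    rw [← Real.exp_add, Real.exp_le_exp]
    nlinarith [sq_nonneg (‖w‖ - 4 * Λ)]
  calc q σ δ y w * Real.exp (-(‖w‖ ^ 2 / (2 * 1)))
      ≤ (Λ ^ 2 * ‖w‖ ^ 2 / 2 * Real.exp (Λ * ‖w‖)) * Real.exp (-(‖w‖ ^ 2 / (2 * 1))) :=
        mul_le_mul_of_nonneg_right h6 (Real.exp_pos _).le
    _ ≤ (Λ ^ 2 * (8 * Real.exp (‖w‖ ^ 2 / 8)) / 2 *
        (Real.exp (2 * Λ ^ 2) * Real.exp (‖w‖ ^ 2 / 8))) * Real.exp (-(‖w‖ ^ 2 / (2 * 1))) := by
        gcongr
    _ = 4 * Λ ^ 2 * Real.exp (2 * Λ ^ 2) * (Real.exp (‖w‖ ^ 2 / 8) * Real.exp (‖w‖ ^ 2 / 8) *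
        Real.exp (-(‖w‖ ^ 2 / (2 * 1)))) := by ring
    _ = _ := by
        rw [← Real.exp_add, ← Real.exp_add]
        congr 2
        ring

lemma q_lim (hσ : ContDiff ℝ 1 σ) (y w : E d) :
    Tendsto (fun δ => q σ δ y w) (𝓝[>] 0) (𝓝 ((fderiv ℝ σ y w) ^ 2 / 2)) := by
  set a := fderiv ℝ σ y w with ha
  have h1 : HasDerivAt (fun s : ℝ => σ (y + s • w)) a 0 := by
    have h2 : HasFDerivAt σ (fderiv ℝ σ y) (y + (0 : ℝ) • w) := by
      rw [zero_smul, add_zero]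
      exact (hσ.differentiable one_ne_zero).differentiableAt.hasFDerivAt
    have h3 : HasDerivAt (fun s : ℝ => y + s • w) w 0 := by
      have := ((hasDerivAt_id (0 : ℝ)).smul_const w).const_add y
      simpa using this
    exact h2.comp_hasDerivAt 0 h3
  have h4 : HasDerivAt (fun s : ℝ => Real.sinh ((σ (y + s • w) - σ y) / 2)) (a / 2) 0 := by
    have h5 := ((h1.sub_const (σ y)).div_const 2).sinh
    simpa using h5
  have h6 := h4.tendsto_slope_zero_right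
  simp only [zero_add, zero_smul, add_zero, sub_self, zero_div, Real.sinh_zero, sub_zero,
    smul_eq_mul] at h6
  have h7 : Tendsto Real.sqrt (𝓝[>] 0) (𝓝[>] 0) := by
    rw [tendsto_nhdsWithin_iff]
    refine ⟨?_, ?_⟩
    · have := Real.continuous_sqrt.tendsto 0
      rw [Real.sqrt_zero] at this
      exact this.mono_left nhdsWithin_le_nhds
    · filter_upwards [self_mem_nhdsWithin] with x hx
      exact Real.sqrt_pos.2 hx
  have h8 := ((h6.comp h7).pow 2).const_mul 2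
  have h9 : 2 * (a / 2) ^ 2 = a ^ 2 / 2 := by ring
  rw [h9] at h8
  refine h8.congr' ?_
  filter_upwards [self_mem_nhdsWithin] with δ hδ
  have hδ0 : (0 : ℝ) < δ := hδ
  have hs2 : Real.sqrt δ ^ 2 = δ := Real.sq_sqrt hδ0.le
  change 2 * ((Real.sqrt δ)⁻¹ * Real.sinh ((σ (y + Real.sqrt δ • w) - σ y) / 2)) ^ 2 = _
  unfold q
  rw [cosh_sub_one, mul_pow, inv_pow, hs2]
  ring

end LIMx

open LIMx in
theorem lim : T_LIM := by
  intro d S σ Λ hΛ hSc hS0 hSi hσ hL ε hε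
  obtain ⟨gp, -, -, -⟩ := gc_pos (κ := Fin d) 1 one_pos
  set e : E d → ℝ := fun w => Real.exp (-(‖w‖ ^ 2 / (2 * 1))) with he
  set K : ℝ → E d × E d → ℝ := fun δ z => S z.1 * (q σ δ z.1 z.2 * e z.2) with hK
  set K0 : E d × E d → ℝ := fun z => S z.1 * ((fderiv ℝ σ z.1 z.2) ^ 2 / 2 * e z.2) with hK0
  set bd : E d × E d → ℝ := fun z => S z.1 * (4 * Λ ^ 2 * Real.exp (2 * Λ ^ 2) *
    Real.exp (-(1 / 4) * ‖z.2‖ ^ 2)) with hbd
  have hgi : Integrable fun w : E d => 4 * Λ ^ 2 * Real.exp (2 * Λ ^ 2) *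
      Real.exp (-(1 / 4) * ‖w‖ ^ 2) :=
    (Pool.Agent.H888R2.KT.N0x.gauss_int (κ := Fin d) (1 / 4) (by norm_num)).const_mul _
  have hbi : Integrable bd (volume.prod volume) := hSi.mul_prod hgi
  have hec : Continuous e := by
    rw [he]
    fun_prop
  have hσc : Continuous σ := hσ.continuous
  have hKc : ∀ δ, Continuous (K δ) := by
    intro δ
    have h1 : Continuous fun z : E d × E d => q σ δ z.1 z.2 := by
      unfold q
      have h2 : Continuous fun z : E d × E d => σ (z.1 + Real.sqrt δ • z.2) - σ z.1 := by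
        fun_prop
      exact ((Real.continuous_cosh.comp h2).sub continuous_const).div_const _
    exact (hSc.comp continuous_fst).mul (h1.mul (hec.comp continuous_snd))
  have hKb : ∀ δ, 0 < δ → δ ≤ 1 → ∀ z, ‖K δ z‖ ≤ bd z := by
    intro δ hδ hδ1 z
    obtain ⟨h1, h2⟩ := q_bound hσ hΛ hL hδ hδ1 z.1 z.2
    rw [Real.norm_of_nonneg (mul_nonneg (hS0 _) (mul_nonneg h1 (Real.exp_pos _).le))]
    exact mul_le_mul_of_nonneg_left h2 (hS0 _)
  have hKi : ∀ δ, 0 < δ → δ ≤ 1 → Integrable (K δ) (volume.prod volume) := fun δ hδ hδ1 =>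
    hbi.mono' (hKc δ).aestronglyMeasurable (Eventually.of_forall (hKb δ hδ hδ1))
  have hlim : Tendsto (fun δ => ∫ z, K δ z ∂(volume.prod volume)) (𝓝[>] 0)
      (𝓝 (∫ z, K0 z ∂(volume.prod volume))) := by
    refine tendsto_integral_filter_of_dominated_convergence bd ?_ ?_ hbi ?_
    · exact Eventually.of_forall fun δ => (hKc δ).aestronglyMeasurable
    · have h1 : ∀ᶠ δ : ℝ in 𝓝[>] 0, δ ≤ 1 :=
        nhdsWithin_le_nhds (eventually_le_nhds (by norm_num : (0 : ℝ) < 1))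
      filter_upwards [self_mem_nhdsWithin, h1] with δ hδ hδ1
      exact Eventually.of_forall (hKb δ hδ hδ1)
    · refine Eventually.of_forall fun z => ?_
      exact ((q_lim hσ z.1 z.2).mul_const _).const_mul _
  have hK0c : Continuous K0 := by
    have h1 : Continuous fun z : E d × E d => fderiv ℝ σ z.1 z.2 := by
      have h2 : Continuous (fderiv ℝ σ) := hσ.continuous_fderiv one_ne_zero
      exact (h2.comp continuous_fst).clm_apply continuous_snd
    exact (hSc.comp continuous_fst).mul (((h1.pow 2).div_const _).mul (hec.comp continuous_snd))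
  have hK0i : Integrable K0 (volume.prod volume) := by
    refine hbi.mono' hK0c.aestronglyMeasurable (Eventually.of_forall fun z => ?_)
    have h1 : Tendsto (fun δ => ‖K δ z‖) (𝓝[>] 0) (𝓝 ‖K0 z‖) :=
      (((q_lim hσ z.1 z.2).mul_const _).const_mul _).norm
    have h2 : ∀ᶠ δ : ℝ in 𝓝[>] 0, δ ≤ 1 :=
      nhdsWithin_le_nhds (eventually_le_nhds (by norm_num : (0 : ℝ) < 1))
    refine le_of_tendsto h1 ?_
    filter_upwards [self_mem_nhdsWithin, h2] with δ hδ hδ1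
    exact hKb δ hδ hδ1 z
  have hval : ∫ z, K0 z ∂(volume.prod volume) =
      gc (Fin d) 1 * (1 / 2 * ∫ y, S y * ‖fderiv ℝ σ y‖ ^ 2) := by
    rw [integral_prod _ hK0i]
    have h1 : ∀ y : E d, ∫ w : E d, K0 (y, w) =
        gc (Fin d) 1 * (1 / 2) * (S y * ‖fderiv ℝ σ y‖ ^ 2) := by
      intro y
      set v : E d := (InnerProductSpace.toDual ℝ (E d)).symm (fderiv ℝ σ y) with hv
      have h2 : ∀ w : E d, fderiv ℝ σ y w = ⟪w, v⟫_ℝ := by
        intro w
        rw [real_inner_comm, hv, InnerProductSpace.toDual_symm_apply]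
      have h3 : ‖v‖ = ‖fderiv ℝ σ y‖ := by
        rw [hv, LinearIsometryEquiv.norm_map]
      obtain ⟨-, h4, -⟩ := gauss2 (κ := Fin d) 1 one_pos v
      have h5 : (fun w : E d => K0 (y, w)) = fun w : E d =>
          (S y / 2) * (⟪w, v⟫_ℝ ^ 2 * Real.exp (-(‖w‖ ^ 2 / (2 * 1)))) := by
        funext w
        rw [hK0]
        change S y * ((fderiv ℝ σ y w) ^ 2 / 2 * Real.exp (-(‖w‖ ^ 2 / (2 * 1)))) = _
        rw [h2 w]
        ring
      rw [h5, integral_const_mul, h4, h3]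
      ring
    simp only [h1]
    rw [integral_const_mul]
    ring
  have hev : ∀ᶠ δ : ℝ in 𝓝[>] 0, ∫ z, K δ z ∂(volume.prod volume) <
      ∫ z, K0 z ∂(volume.prod volume) + ε * gc (Fin d) 1 :=
    hlim.eventually (gt_mem_nhds (by have := mul_pos hε gp; linarith))
  rw [eventually_nhdsWithin_iff, Metric.eventually_nhds_iff] at hev
  obtain ⟨δ1, hδ1, hev⟩ := hev
  refine ⟨min δ1 1, lt_min hδ1 one_pos, fun δ hδ hδ0 => ?_⟩
  have hδle : δ ≤ 1 := (hδ0.trans_le (min_le_right _ _)).le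
  have hlt := hev (y := δ) (by
    rw [Real.dist_eq, sub_zero, abs_of_pos hδ]
    exact hδ0.trans_le (min_le_left _ _)) hδ
  have hgs : ∀ y : E d, S y * gs δ (fun z => Real.cosh (σ z - σ y)) y =
      S y + δ / gc (Fin d) 1 * ∫ w : E d, K δ (y, w) := by
    intro y
    rw [gs_scale hδ]
    have hq : Integrable fun w : E d => q σ δ y w * e w := by
      refine hgi.mono' ?_ (Eventually.of_forall fun w => ?_)
      · have h2 : Continuous fun w : E d => σ (y + Real.sqrt δ • w) - σ y := by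
          fun_prop
        have h1 : Continuous fun w : E d => q σ δ y w := by
          unfold q
          exact ((Real.continuous_cosh.comp h2).sub continuous_const).div_const _
        exact (h1.mul hec).aestronglyMeasurable
      · obtain ⟨h1, h2⟩ := q_bound hσ hΛ hL hδ hδle y w
        rw [Real.norm_of_nonneg (mul_nonneg h1 (Real.exp_pos _).le)]
        exact h2
    have hei : Integrable e := Pool.Agent.H888R2.KT.N0x.gauss_int' 1 one_pos
    have h1 : ∫ w : E d, Real.cosh (σ (y + Real.sqrt δ • w) - σ y) *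
        Real.exp (-(‖w‖ ^ 2 / (2 * 1))) = gc (Fin d) 1 + δ * ∫ w : E d, q σ δ y w * e w := by
      have h2 : (fun w : E d => Real.cosh (σ (y + Real.sqrt δ • w) - σ y) *
          Real.exp (-(‖w‖ ^ 2 / (2 * 1)))) = fun w => e w + δ * (q σ δ y w * e w) := by
        funext w
        rw [he]
        unfold q
        field_simp
        ring
      rw [h2, integral_add hei (hq.const_mul _), integral_const_mul]
      rfl
    rw [h1]
    have h3 : ∫ w : E d, K δ (y, w) = S y * ∫ w : E d, q σ δ y w * e w := by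
      rw [← integral_const_mul]
    rw [h3]
    field_simp
  simp only [hgs]
  have hKd := hKi δ hδ hδle
  rw [integral_add hSi (hKd.integral_prod_left.const_mul _), integral_const_mul,
    ← integral_prod _ hKd]
  rw [hval] at hlt
  have h5 : δ / gc (Fin d) 1 * ∫ z, K δ z ∂(volume.prod volume) ≤
      δ / gc (Fin d) 1 * (gc (Fin d) 1 * (1 / 2 * ∫ y, S y * ‖fderiv ℝ σ y‖ ^ 2) +
        ε * gc (Fin d) 1) := mul_le_mul_of_nonneg_left hlt.le (by positivity)
  have h6 : δ / gc (Fin d) 1 * (gc (Fin d) 1 * (1 / 2 * ∫ y, S y * ‖fderiv ℝ σ y‖ ^ 2) +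
        ε * gc (Fin d) 1) = δ * (1 / 2 * (∫ y, S y * ‖fderiv ℝ σ y‖ ^ 2) + ε) := by
    field_simp
  rw [h6] at h5
  linarith

end Pool.Agent.T2h52.SP
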