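import Pool.Agent.T2h52.SP.Stm2
import Mathlib.Probability.HasLawExists

/-!
# Task LLN
-/

set_option autoImplicit false

namespace Pool.Agent.T2h52.SP

namespace LLNaux

open MeasureTheory Set Filter Topology ProbabilityTheory
open scoped ENNReal InnerProductSpace Pointwise

lemma zero {N : ℕ} {q M : ℝ} {G : (Fin N → ℝ) → ℝ} (hG : LN N q M G) : G 0 = 0 := by
  have := hG.smul 0 0
  simpa using this

lemma nonneg {N : ℕ} {q M : ℝ} {G : (Fin N → ℝ) → ℝ} (hG : LN N q M G) (a : Fin N → ℝ) :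
    0 ≤ G a := by
  have h1 := hG.add a ((-1 : ℝ) • a)
  rw [hG.smul] at h1
  have h2 : a + (-1 : ℝ) • a = 0 := by simp
  rw [h2, zero hG] at h1
  simp at h1
  linarith

lemma le_norm {N : ℕ} {q M : ℝ} {G : (Fin N → ℝ) → ℝ} (hG : LN N q M G) :
    ∃ K : ℝ, 0 ≤ K ∧ ∀ a, G a ≤ K * ‖a‖ := by
  refine ⟨∑ j, G (Pi.single j 1), Finset.sum_nonneg fun j _ => nonneg hG _, fun a => ?_⟩
  have h : a = ∑ j, a j • (Pi.single j (1 : ℝ) : Fin N → ℝ) := by
    ext k
    simp [Finset.sum_apply, Pi.single_apply]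
  calc G a = G (∑ j, a j • (Pi.single j (1 : ℝ) : Fin N → ℝ)) := by rw [← h]
    _ ≤ ∑ j, G (a j • (Pi.single j (1 : ℝ) : Fin N → ℝ)) :=
        Finset.le_sum_of_subadditive G (zero hG).le hG.add _ _
    _ ≤ ∑ j, ‖a‖ * G (Pi.single j 1) := by
        refine Finset.sum_le_sum fun j _ => ?_
        rw [hG.smul]
        exact mul_le_mul_of_nonneg_right (norm_le_pi_norm a j) (nonneg hG _)
    _ = _ := by rw [← Finset.mul_sum, mul_comm]

lemma cont {N : ℕ} {q M : ℝ} {G : (Fin N → ℝ) → ℝ} (hG : LN N q M G) : Continuous G := by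
  obtain ⟨K, hK, h⟩ := le_norm hG
  have : LipschitzWith ⟨K, hK⟩ G := by
    apply LipschitzWith.of_le_add_mul
    intro a b
    have h1 := hG.add b (a - b)
    rw [add_sub_cancel] at h1
    have h2 := h (a - b)
    rw [dist_eq_norm]
    have h3 : G b + G (a - b) ≤ G b + K * ‖a - b‖ := by linarith
    exact h1.trans h3
  exact this.continuous

lemma norm_rpow {N : ℕ} (q : ℝ) (hq : 1 ≤ q) (V : Fin N → ℝ) : ‖V‖ ^ q ≤ ∑ j, |V j| ^ q := by
  have hq0 : 0 < q := by linarith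
  have hS : 0 ≤ ∑ j, |V j| ^ q := Finset.sum_nonneg fun j _ => Real.rpow_nonneg (abs_nonneg _) _
  have h1 : ‖V‖ ≤ (∑ j, |V j| ^ q) ^ (1 / q) := by
    rw [pi_norm_le_iff_of_nonneg (Real.rpow_nonneg hS _)]
    intro j
    have h2 : |V j| ^ q ≤ ∑ j, |V j| ^ q :=
      Finset.single_le_sum (f := fun j => |V j| ^ q)
        (fun j _ => Real.rpow_nonneg (abs_nonneg _) _) (Finset.mem_univ j)
    calc ‖V j‖ = (|V j| ^ q) ^ (1 / q) := by
          rw [← Real.rpow_mul (abs_nonneg _), mul_one_div_cancel hq0.ne', Real.rpow_one,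
            Real.norm_eq_abs]
      _ ≤ _ := Real.rpow_le_rpow (Real.rpow_nonneg (abs_nonneg _) _) h2 (by positivity)
  calc ‖V‖ ^ q ≤ ((∑ j, |V j| ^ q) ^ (1 / q)) ^ q := Real.rpow_le_rpow (norm_nonneg _) h1 hq0.le
    _ = _ := by rw [← Real.rpow_mul hS, one_div_mul_cancel hq0.ne', Real.rpow_one]

lemma slln {d : ℕ} {Ω : Type} {mΩ : MeasurableSpace Ω} {P : Measure Ω} {μ : Measure (E d)}
    {X : ℕ → Ω → E d} (hXm : ∀ i, Measurable (X i)) (hlaw : ∀ i, HasLaw (X i) μ P)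
    (hind : iIndepFun X P) (f : E d → ℝ) (hf : Measurable f) (hi : Integrable f μ) :
    ∀ᵐ ω ∂P, Tendsto (fun n : ℕ => (∑ i ∈ Finset.range n, f (X i ω)) / n) atTop
      (𝓝 (∫ z, f z ∂μ)) := by
  have h := strong_law_ae_real (μ := P) (fun i ω => f (X i ω)) ?_ ?_ ?_
  · have e : ∫ ω, f (X 0 ω) ∂P = ∫ z, f z ∂μ := by
      rw [← (hlaw 0).map_eq, integral_map (hXm 0).aemeasurable hf.aestronglyMeasurable]
    rw [e] at h
    exact h
  · have h1 : Integrable f (Measure.map (X 0) P) := by rw [(hlaw 0).map_eq]; exact hi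
    exact h1.comp_measurable (hXm 0)
  · intro i j hij
    exact (hind.indepFun hij).comp hf hf
  · intro i
    have h1 : IdentDistrib (X i) (X 0) P P :=
      ⟨(hXm i).aemeasurable, (hXm 0).aemeasurable, by rw [(hlaw i).map_eq, (hlaw 0).map_eq]⟩
    exact h1.comp hf

end LLNaux

open MeasureTheory Set Filter Topology ProbabilityTheory
open scoped ENNReal InnerProductSpace Pointwise
open LLNaux

theorem lln_ : T_LLN := by
  intro N d q M G x hq hM hG μ hμ hint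
  have hq0 : 0 < q := by linarith
  have hc := LLNaux.cont hG
  set V : E d → Fin N → ℝ := fun z j => ⟪z, x j⟫_ℝ with hV
  have hVc : Continuous V := by
    refine continuous_pi fun j => ?_
    exact continuous_id.inner continuous_const
  have hGV : Continuous fun z => G (V z) ^ q :=
    (hc.comp hVc).rpow_const fun z => Or.inr hq0.le
  obtain ⟨K, hK, hGK⟩ := LLNaux.le_norm hG
  have hI : Integrable (fun z => G (V z) ^ q) μ := by
    have hsum : Integrable (fun z => K ^ q * ∑ j, |⟪z, x j⟫_ℝ| ^ q) μ :=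
      (integrable_finsetSum _ fun j _ => hint j).const_mul _
    refine hsum.mono' hGV.aestronglyMeasurable (Filter.Eventually.of_forall fun z => ?_)
    rw [Real.norm_of_nonneg (Real.rpow_nonneg (LLNaux.nonneg hG _) _)]
    calc G (V z) ^ q ≤ (K * ‖V z‖) ^ q :=
          Real.rpow_le_rpow (LLNaux.nonneg hG _) (hGK _) hq0.le
      _ = K ^ q * ‖V z‖ ^ q := Real.mul_rpow hK (norm_nonneg _)
      _ ≤ K ^ q * ∑ j, |V z j| ^ q :=
          mul_le_mul_of_nonneg_left (LLNaux.norm_rpow q hq _) (by positivity)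
  refine ⟨hI, ?_⟩
  obtain ⟨Ω, mΩ, P, X, hXm, hlaw, hind, hP⟩ := ProbabilityTheory.exists_iid ℕ μ
  have h1 := slln hXm hlaw hind (fun z => G (V z) ^ q) hGV.measurable hI
  have h2 : ∀ᵐ ω ∂P, ∀ j, Tendsto (fun n : ℕ => (∑ i ∈ Finset.range n, |⟪X i ω, x j⟫_ℝ| ^ q) / n)
      atTop (𝓝 (∫ z, |⟪z, x j⟫_ℝ| ^ q ∂μ)) := by
    rw [ae_all_iff]
    intro j
    refine slln hXm hlaw hind (fun z => |⟪z, x j⟫_ℝ| ^ q) ?_ (hint j)
    have : Continuous fun z : E d => |⟪z, x j⟫_ℝ| ^ q :=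
      ((continuous_id.inner continuous_const).abs).rpow_const fun z => Or.inr hq0.le
    exact this.measurable
  obtain ⟨ω, hω1, hω2⟩ := (h1.and h2).exists
  have hL : Tendsto (fun n : ℕ => ((∑ i ∈ Finset.range n, G (V (X i ω)) ^ q) / n) ^ (1 / q)) atTop
      (𝓝 ((∫ z, G (V z) ^ q ∂μ) ^ (1 / q))) :=
    hω1.rpow_const (Or.inr (by positivity))
  have hR : Tendsto (fun n : ℕ => M * G (fun j =>
      ((∑ i ∈ Finset.range n, |⟪X i ω, x j⟫_ℝ| ^ q) / n) ^ (1 / q))) atTop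
      (𝓝 (M * G (fun j => (∫ z, |⟪z, x j⟫_ℝ| ^ q ∂μ) ^ (1 / q)))) := by
    refine Tendsto.const_mul M ?_
    refine (hc.tendsto _).comp ?_
    rw [tendsto_pi_nhds]
    intro j
    exact (hω2 j).rpow_const (Or.inr (by positivity))
  refine le_of_tendsto_of_tendsto hL hR ?_
  filter_upwards [eventually_ge_atTop 1] with n hn
  have hn0 : (0 : ℝ) < n := by exact_mod_cast hn
  have hcc := hG.conc n (fun i : Fin n => V (X i ω))
  have e1 : (∑ i : Fin n, G (V (X i ω)) ^ q) = ∑ i ∈ Finset.range n, G (V (X i ω)) ^ q :=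
    (Finset.sum_range (fun i => G (V (X i ω)) ^ q)).symm
  have e2 : ∀ j, (∑ i : Fin n, |V (X i ω) j| ^ q) = ∑ i ∈ Finset.range n, |⟪X i ω, x j⟫_ℝ| ^ q :=
    fun j => (Finset.sum_range (fun i => |⟪X i ω, x j⟫_ℝ| ^ q)).symm
  simp only [e1, e2] at hcc
  set c : ℝ := ((n : ℝ) ^ (1 / q))⁻¹ with hcd
  have hc0 : 0 < c := by positivity
  have hdiv : ∀ s : ℝ, 0 ≤ s → (s / n) ^ (1 / q) = c * s ^ (1 / q) := by
    intro s hs
    rw [Real.div_rpow hs hn0.le, hcd]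
    ring
  have hnn1 : 0 ≤ ∑ i ∈ Finset.range n, G (V (X i ω)) ^ q :=
    Finset.sum_nonneg fun i _ => Real.rpow_nonneg (LLNaux.nonneg hG _) _
  have hnn2 : ∀ j, 0 ≤ ∑ i ∈ Finset.range n, |⟪X i ω, x j⟫_ℝ| ^ q := fun j =>
    Finset.sum_nonneg fun i _ => Real.rpow_nonneg (abs_nonneg _) _
  show ((∑ i ∈ Finset.range n, G (V (X i ω)) ^ q) / n) ^ (1 / q) ≤ M * G (fun j =>
      ((∑ i ∈ Finset.range n, |⟪X i ω, x j⟫_ℝ| ^ q) / n) ^ (1 / q))
  rw [hdiv _ hnn1]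
  have e3 : (fun j => ((∑ i ∈ Finset.range n, |⟪X i ω, x j⟫_ℝ| ^ q) / n) ^ (1 / q)) =
      c • fun j => (∑ i ∈ Finset.range n, |⟪X i ω, x j⟫_ℝ| ^ q) ^ (1 / q) := by
    funext j
    rw [hdiv _ (hnn2 j)]
    rfl
  rw [e3, hG.smul, abs_of_pos hc0]
  calc c * (∑ i ∈ Finset.range n, G (V (X i ω)) ^ q) ^ (1 / q)
      ≤ c * (M * G fun j => (∑ i ∈ Finset.range n, |⟪X i ω, x j⟫_ℝ| ^ q) ^ (1 / q)) :=
        mul_le_mul_of_nonneg_left hcc hc0.le
    _ = _ := by ring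

end Pool.Agent.T2h52.SP
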