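import Pool.Agent.T2h52.SP.Stm2

/-!
Task LPO: the polar body of a body the support function of which is between `n` and `C n`.
-/

set_option autoImplicit false

namespace Pool.Agent.T2h52.SP

open MeasureTheory Set Filter Topology
open scoped ENNReal InnerProductSpace Pointwise
open Pool.Agent.TH591.Lie (polarAt polarAt_convex polarAt_compact)

theorem lpo : T_LPO := by
  intro d C K o n hKc hK ho hsym hlo hup
  set P : Set (E d) := polarAt K o with hP
  have hint : (0 : E d) ∈ interior P := by
    obtain ⟨R, hR⟩ : ∃ R : ℝ, ∀ y ∈ K, ‖y - o‖ ≤ R := by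
      obtain ⟨R, hR⟩ := hKc.isBounded.subset_closedBall o
      exact ⟨R, fun y hy => by simpa [dist_eq_norm] using hR hy⟩
    have hR0 : 0 ≤ R := (norm_nonneg _).trans (hR o (interior_subset ho))
    rw [mem_interior]
    refine ⟨Metric.ball 0 (1 / (R + 1)), ?_, Metric.isOpen_ball, by simp; positivity⟩
    intro v hv y hy
    rw [mem_ball_zero_iff] at hv
    calc ⟪v, y - o⟫_ℝ ≤ ‖v‖ * ‖y - o‖ := real_inner_le_norm _ _
      _ ≤ 1 / (R + 1) * R := by
          gcongr
          exact hR y hy
      _ ≤ 1 := by
          rw [one_div, inv_mul_le_iff₀ (by positivity)]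
          linarith
  have hBd : Bd P :=
    { conv := polarAt_convex K o
      comp := polarAt_compact K o ho
      int := hint
      sym := by
        intro v hv y hy
        have h1 := hv _ (hsym y hy)
        rw [add_sub_cancel_left] at h1
        rw [inner_neg_left, ← inner_neg_right, neg_sub]
        exact h1 }
  refine ⟨hBd, fun u => ⟨?_, ?_⟩⟩
  · by_contra hlt
    rw [not_le] at hlt
    obtain ⟨b, hb0, hb, v, hv, hvu⟩ :=
      exists_lt_of_gauge_lt (absorbent_nhds_zero (mem_interior_iff_mem_nhds.1 hint)) hlt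
    obtain ⟨y, hy, hny⟩ := hlo u
    have hvu' : b • v = u := hvu
    have h1 := hv y hy
    have h2 : ⟪u, y - o⟫_ℝ = b * ⟪v, y - o⟫_ℝ := by rw [← hvu', real_inner_smul_left]
    rw [h2] at hny
    have h3 : b * ⟪v, y - o⟫_ℝ ≤ b * 1 := mul_le_mul_of_nonneg_left h1 hb0.le
    linarith
  · have hc : 0 ≤ C * n u := by
      have h1 := hup u o (interior_subset ho)
      rwa [sub_self, inner_zero_right] at h1
    refine le_of_forall_pos_le_add fun ε hε => ?_
    have hr : 0 < C * n u + ε := by linarith
    refine gauge_le_of_mem hr.le ?_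
    rw [Set.mem_smul_set_iff_inv_smul_mem₀ hr.ne']
    intro y hy
    rw [real_inner_smul_left, inv_mul_le_iff₀ hr, mul_one]
    have := hup u y hy
    linarith

end Pool.Agent.T2h52.SP
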