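import Pool.Agent.T2h52.SP.Stm

/-!
# Task MON
-/

set_option autoImplicit false

namespace Pool.Agent.T2h52.SP

open MeasureTheory Set Filter Topology
open Pool.Agent.R755.KF (zn aff sd PB PL3 PLH)

theorem mon_ (hCALC : T_CALC) (hHEAT : T_HEAT) (hENT : T_ENT) (hCT : Pool.Agent.R755.KF.S_CT) :
    T_MON := by
  intro d B η νa νb hB hη ha hb hPL h H hh hH
  refine hCALC (fun h => aff h νa νb) (Real.log (1 + η)) (hCT d B νa νb ha hb).1
    (fun h hh => (hENT d h B η νa νb hh hB hη ha hb (hPL h hh)).1) ?_ h H hh hH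
  intro h hh ε hε
  obtain ⟨δ0, hδ0, hδ⟩ := hHEAT d h B νa νb hh hB ha hb ε hε
  refine ⟨δ0, hδ0, fun δ h1 h2 => (hδ δ h1 h2).trans ?_⟩
  have h3 := (hENT d h B η νa νb hh hB hη ha hb (hPL h hh)).2.2
  have h4 : 1 / 2 * fi h νa νb ≤
      aff h νa νb * (Real.log (1 + η) - Real.log (aff h νa νb)) / h := by
    rw [le_div_iff₀ hh]
    linarith
  have h5 : δ * (1 / 2 * fi h νa νb + ε) ≤
      δ * (aff h νa νb * (Real.log (1 + η) - Real.log (aff h νa νb)) / h + ε) :=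
    mul_le_mul_of_nonneg_left (by linarith) h1.le
  show aff h νa νb + δ * (1 / 2 * fi h νa νb + ε) ≤ _
  linarith

end Pool.Agent.T2h52.SP
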