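import Pool.Agent.T2h52.SP.Stm3

/-!
# Task NET
-/

set_option autoImplicit false

namespace Pool.Agent.T2h52.SP

open MeasureTheory Set Filter Topology
open scoped ENNReal InnerProductSpace Pointwise

namespace NET

/-- separated sets of unit vectors -/
def Sep {d : ℕ} (δ : ℝ) (F : Finset (E d)) : Prop :=
  (∀ s ∈ F, ‖s‖ = 1) ∧ ∀ s ∈ F, ∀ t ∈ F, s ≠ t → δ ≤ ‖s - t‖

theorem card_le {d : ℕ} {δ : ℝ} (hδ : 0 < δ) (hδ1 : δ ≤ 1) {F : Finset (E d)} (hF : Sep δ F) :
    (F.card : ℝ) ≤ (3 / δ) ^ d := by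
  classical
  have hfr : Module.finrank ℝ (E d) = d := finrank_euclideanSpace_fin
  have hv0 : (volume : Measure (E d)) (Metric.ball 0 1) ≠ 0 :=
    (Metric.measure_ball_pos volume 0 one_pos).ne'
  have hvt : (volume : Measure (E d)) (Metric.ball 0 1) ≠ ⊤ := measure_ball_lt_top.ne
  have h1 : (volume : Measure (E d)) (⋃ s ∈ F, Metric.ball s (δ / 2)) =
      ∑ s ∈ F, volume (Metric.ball s (δ / 2)) := by
    refine measure_biUnion_finset ?_ fun s _ => measurableSet_ball
    intro s hs t ht hst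
    refine Metric.ball_disjoint_ball ?_
    rw [dist_eq_norm, add_halves]
    exact hF.2 s hs t ht hst
  have h2 : (⋃ s ∈ F, Metric.ball s (δ / 2)) ⊆ Metric.ball (0 : E d) (1 + δ / 2) := by
    intro x hx
    simp only [Set.mem_iUnion, Metric.mem_ball, exists_prop] at hx
    obtain ⟨s, hs, hx⟩ := hx
    rw [mem_ball_zero_iff]
    have h3 : ‖x‖ ≤ ‖x - s‖ + ‖s‖ := by
      simpa using norm_add_le (x - s) s
    rw [dist_eq_norm] at hx
    rw [hF.1 s hs] at h3
    linarith
  have h3 := measure_mono h2 (μ := (volume : Measure (E d)))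
  rw [h1] at h3
  have hb : ∀ (s : E d) (r : ℝ), 0 < r → (volume : Measure (E d)) (Metric.ball s r) =
      ENNReal.ofReal (r ^ d) * volume (Metric.ball (0 : E d) 1) := by
    intro s r hr
    rw [Measure.addHaar_ball_of_pos _ _ hr, hfr]
  rw [hb _ _ (show 0 < 1 + δ / 2 by linarith), Finset.sum_congr rfl fun s _ =>
    hb s _ (show 0 < δ / 2 by linarith), Finset.sum_const, nsmul_eq_mul, ← mul_assoc,
    ENNReal.mul_le_mul_iff_left hv0 hvt] at h3
  have h4 : ((F.card : ℝ≥0∞)) = ENNReal.ofReal (F.card : ℝ) := by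
    rw [ENNReal.ofReal_natCast]
  rw [h4, ← ENNReal.ofReal_mul (Nat.cast_nonneg _), ENNReal.ofReal_le_ofReal_iff (by positivity)] at h3
  have h5 : (F.card : ℝ) ≤ (1 + δ / 2) ^ d / (δ / 2) ^ d := by
    rw [le_div_iff₀ (by positivity)]
    exact h3
  refine h5.trans ?_
  rw [← div_pow]
  refine pow_le_pow_left₀ (by positivity) ?_ d
  rw [div_le_div_iff₀ (by positivity) hδ]
  nlinarith

end NET

/-- Nets of the unit sphere. -/
theorem net : T_NET := by
  classical
  intro d δ hd hδ hδ1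
  set A : Set ℕ := {n | ∃ F : Finset (E d), NET.Sep δ F ∧ F.card = n} with hA
  have hne : A.Nonempty := ⟨0, ∅, ⟨by simp, by simp⟩, rfl⟩
  have hbd : BddAbove A := by
    refine ⟨⌊(3 / δ) ^ d⌋₊, ?_⟩
    rintro _ ⟨F, hF, rfl⟩
    exact Nat.le_floor (NET.card_le hδ hδ1 hF)
  obtain ⟨F, hF, hFc⟩ := Nat.sSup_mem hne hbd
  refine ⟨F, hF.1, NET.card_le hδ hδ1 hF, fun w hw => ?_⟩
  by_contra hcon
  push Not at hcon
  have hwF : w ∉ F := by
    intro h
    have := hcon w h
    rw [sub_self, norm_zero] at this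
    linarith
  have h1 : NET.Sep δ (insert w F) := by
    refine ⟨?_, ?_⟩
    · intro s hs
      rcases Finset.mem_insert.1 hs with rfl | hs
      · exact hw
      · exact hF.1 s hs
    · intro s hs t ht hst
      rcases Finset.mem_insert.1 hs with h1 | h1 <;> rcases Finset.mem_insert.1 ht with h2 | h2
      · exact absurd (h1.trans h2.symm) hst
      · rw [h1]
        exact (hcon t h2).le
      · rw [h2, norm_sub_rev]
        exact (hcon s h1).le
      · exact hF.2 s h1 t h2 hst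
  have h2 : (insert w F).card ≤ sSup A := le_csSup hbd ⟨_, h1, rfl⟩
  rw [Finset.card_insert_of_notMem hwF, hFc] at h2
  omega

end Pool.Agent.T2h52.SP
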