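import Pool.Agent.T2h52.SP.Stm2

/-!
# Task NUM
-/

set_option autoImplicit false

namespace Pool.Agent.T2h52.SP

theorem num_ : T_NUM := by
  intro d q B hd hq hB hX
  have hd' : (2 : ℝ) ≤ d := by exact_mod_cast hd
  set L := Real.log (d + 1) with hL
  have hL1 : 1 ≤ L := by
    rw [hL, Real.le_log_iff_exp_le (by positivity)]
    have := Real.exp_one_lt_d9
    linarith
  set X : ℝ := 10 ^ 8 * B * L with hXd
  have hBL : 1 ≤ B * L := by nlinarith
  have hX8 : (10 : ℝ) ^ 8 ≤ X := by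
    rw [hXd, mul_assoc]
    nlinarith
  have hX1 : (1 : ℝ) ≤ X := le_trans (by norm_num) hX8
  have hX0 : (0 : ℝ) < X := by linarith
  have h30 : (10 : ℝ) ^ 30 ≤ X ^ (15 / 4 : ℝ) := by
    calc (10 : ℝ) ^ 30 = ((10 : ℝ) ^ 8) ^ (15 / 4 : ℝ) := by
          rw [← Real.rpow_natCast 10 8, ← Real.rpow_mul (by norm_num), ← Real.rpow_natCast 10 30]
          norm_num
      _ ≤ X ^ (15 / 4 : ℝ) := Real.rpow_le_rpow (by positivity) hX8 (by norm_num)
  have h180 : (10 : ℝ) ^ 180 ≤ X ^ (45 / 2 : ℝ) := by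
    calc (10 : ℝ) ^ 180 = ((10 : ℝ) ^ 8) ^ (45 / 2 : ℝ) := by
          rw [← Real.rpow_natCast 10 8, ← Real.rpow_mul (by norm_num), ← Real.rpow_natCast 10 180]
          norm_num
      _ ≤ X ^ (45 / 2 : ℝ) := Real.rpow_le_rpow (by positivity) hX8 (by norm_num)
  have hq2 : q ≤ (2 : ℝ) ^ q := by
    rw [Real.rpow_def_of_pos (by norm_num : (0 : ℝ) < 2)]
    have h1 := Real.log_two_gt_d9
    have h2 : 0 ≤ Real.log 2 * q := by positivity
    have h3 := Real.quadratic_le_exp_of_nonneg h2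
    have h4 : 0.69 * q ≤ Real.log 2 * q := by
      apply mul_le_mul_of_nonneg_right _ (by linarith)
      linarith
    have h5 : (0.69 * q) ^ 2 ≤ (Real.log 2 * q) ^ 2 := by
      apply pow_le_pow_left₀ (by positivity) h4
    nlinarith [sq_nonneg (q - 1)]
  have hqX : q ≤ X ^ (q / 26) := by
    refine hq2.trans ?_
    calc (2 : ℝ) ^ q = ((2 : ℝ) ^ (26 : ℕ)) ^ (q / 26) := by
          rw [← Real.rpow_natCast 2 26, ← Real.rpow_mul (by norm_num)]
          congr 1
          push_cast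
          ring
      _ ≤ X ^ (q / 26) := by
          apply Real.rpow_le_rpow (by positivity) _ (by positivity)
          refine le_trans ?_ hX8
          norm_num
  have hqB : 2 * 10 ^ 5 * q * B ≤ X ^ (1 + q / 26) := by
    rw [Real.rpow_add hX0, Real.rpow_one]
    have h1 : 2 * 10 ^ 5 * B ≤ X := by
      rw [hXd]
      nlinarith
    calc 2 * 10 ^ 5 * q * B = (2 * 10 ^ 5 * B) * q := by ring
      _ ≤ X * X ^ (q / 26) := mul_le_mul h1 hqX (by linarith) hX0.le
  have hq0 : 0 < q := by linarith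
  constructor
  · calc 10 ^ 180 * (2 * 10 ^ 5 * q * B) ^ 4 ≤ X ^ (45 / 2 : ℝ) * (X ^ (1 + q / 26)) ^ 4 := by
          gcongr
      _ = X ^ (45 / 2 + (1 + q / 26) * 4) := by
          rw [← Real.rpow_natCast (X ^ (1 + q / 26)) 4, ← Real.rpow_mul hX0.le,
            ← Real.rpow_add hX0]
          norm_num
      _ ≤ X ^ (120 * q) := Real.rpow_le_rpow_of_exponent_le hX1 (by linarith)
      _ ≤ d := hX
  · have h1 : (10 ^ 7 * (2 * B) * L) ^ (17 * q) ≤ X ^ (17 * q) := by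
      apply Real.rpow_le_rpow (by positivity) _ (by positivity)
      rw [hXd]
      nlinarith
    have h2 : (2 * 10 ^ 5 * q * B) ^ ((2 : ℝ) / 3) ≤ X ^ ((1 + q / 26) * (2 / 3)) := by
      rw [Real.rpow_mul hX0.le]
      exact Real.rpow_le_rpow (by positivity) hqB (by norm_num)
    calc (10 ^ 7 * (2 * B) * L) ^ (17 * q) * (10 ^ 30 * (2 * 10 ^ 5 * q * B) ^ ((2 : ℝ) / 3))
        ≤ X ^ (17 * q) * (X ^ (15 / 4 : ℝ) * X ^ ((1 + q / 26) * (2 / 3))) := by
          gcongr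
      _ = X ^ (17 * q + (15 / 4 + (1 + q / 26) * (2 / 3))) := by
          rw [Real.rpow_add hX0, Real.rpow_add hX0]
      _ ≤ X ^ ((120 * q) * (1 / 6)) :=
          Real.rpow_le_rpow_of_exponent_le hX1 (by linarith)
      _ = (X ^ (120 * q)) ^ ((1 : ℝ) / 6) := Real.rpow_mul hX0.le _ _
      _ ≤ (d : ℝ) ^ ((1 : ℝ) / 6) := Real.rpow_le_rpow (by positivity) hX (by norm_num)

end Pool.Agent.T2h52.SP
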