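import Pool.Agent.T2h52.SP.Stm

set_option autoImplicit false

namespace Pool.Agent.T2h52.SP.OVLx

open MeasureTheory Set Filter Topology
open scoped ENNReal InnerProductSpace Pointwise
open Pool.Agent.H888R2.KT (gs gc)
open Pool.Agent.R755.KF (zn aff sd PB PL3 PLH S_ZN)
open Pool.Agent.N555.RZ (mP Spr)
open Pool.Agent.T2h52.SP

variable {d : ℕ}

/-- the Gaussian kernel -/
noncomputable def kap (h : ℝ) (u : E d) : ℝ≥0∞ := ENNReal.ofReal (Real.exp (-(‖u‖ ^ 2 / (2 * h))))

lemma kap_meas (h : ℝ) : Measurable (kap (d := d) h) := by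
  unfold kap
  fun_prop

/-- Tonelli -/
lemma ton (m : Measure (E d)) [SFinite m] {F : E d → ℝ≥0∞} (hF : Measurable F) {s : E d → E d}
    (hs : Measurable s) {V : Set (E d)} (hV : MeasurableSet V) :
    ∫⁻ y, ∫⁻ x, V.indicator 1 x * F (s x - y) ∂m = m V * ∫⁻ u, F u := by
  rw [lintegral_lintegral_swap]
  · have h1 : ∀ x, ∫⁻ y, V.indicator 1 x * F (s x - y) = V.indicator 1 x * ∫⁻ u, F u := by
      intro x
      rw [lintegral_const_mul _ (by fun_prop), lintegral_sub_left_eq_self]
    simp only [h1]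
    rw [lintegral_mul_const _ (measurable_one.indicator hV), lintegral_indicator_one hV]
  · refine Measurable.aemeasurable ?_
    exact ((measurable_one.indicator hV).comp measurable_snd).mul
      (hF.comp ((hs.comp measurable_snd).sub measurable_fst))

/-- Tonelli for the whole space -/
lemma ton' (m : Measure (E d)) [IsProbabilityMeasure m] {F : E d → ℝ≥0∞} (hF : Measurable F)
    {s : E d → E d} (hs : Measurable s) : ∫⁻ y, ∫⁻ x, F (s x - y) ∂m = ∫⁻ u, F u := by
  have h := ton m hF hs MeasurableSet.univ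
  simpa using h

lemma min_add_le (a b c : ℝ≥0∞) : min a (b + c) ≤ min a b + min a c := by
  rcases le_total a b with h | h
  · calc min a (b + c) ≤ a := min_le_left _ _
      _ = min a b := (min_eq_left h).symm
      _ ≤ _ := le_self_add
  · rcases le_total a c with h' | h'
    · calc min a (b + c) ≤ a := min_le_left _ _
        _ = min a c := (min_eq_left h').symm
        _ ≤ _ := le_add_self
    · rw [min_eq_right h, min_eq_right h']
      exact min_le_right _ _

lemma min_sum_le {ι : Type} (s : Finset ι) (a : ℝ≥0∞) (b : ι → ℝ≥0∞) :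
    min a (∑ j ∈ s, b j) ≤ ∑ j ∈ s, min a (b j) := by
  classical
  induction s using Finset.induction_on with
  | empty => simp
  | insert i s hi ih =>
    rw [Finset.sum_insert hi, Finset.sum_insert hi]
    exact (min_add_le _ _ _).trans (add_le_add le_rfl ih)

lemma min_sum_sum {ι : Type} (s : Finset ι) (a b : ι → ℝ≥0∞) :
    min (∑ j ∈ s, a j) (∑ k ∈ s, b k) ≤ ∑ j ∈ s, ∑ k ∈ s, min (a j) (b k) := by
  calc min (∑ j ∈ s, a j) (∑ k ∈ s, b k) ≤ ∑ k ∈ s, min (∑ j ∈ s, a j) (b k) := min_sum_le _ _ _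
    _ ≤ ∑ k ∈ s, ∑ j ∈ s, min (a j) (b k) := Finset.sum_le_sum fun k _ => by
        rw [min_comm]
        refine (min_sum_le _ _ _).trans (Finset.sum_le_sum fun j _ => ?_)
        rw [min_comm]
    _ = _ := Finset.sum_comm

/-- the density as a lower integral -/
lemma zn_eq {h B : ℝ} (hh : 0 < h) {m : Measure (E d)} {s : E d → E d}
    (hs : Measurable s) (hB : PB B (m.map s)) (y : E d) :
    ENNReal.ofReal (zn h (m.map s) y) = ∫⁻ x, kap h (s x - y) ∂m := by
  have := hB.prob
  have hc : Continuous fun x : E d => Real.exp (-(‖x - y‖ ^ 2 / (2 * h))) := by fun_prop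
  have hi : Integrable (fun x : E d => Real.exp (-(‖x - y‖ ^ 2 / (2 * h)))) (m.map s) := by
    refine Integrable.of_bound hc.aestronglyMeasurable 1 (Eventually.of_forall fun x => ?_)
    rw [Real.norm_of_nonneg (Real.exp_pos _).le, Real.exp_le_one_iff, neg_nonpos]
    positivity
  unfold zn
  rw [ofReal_integral_eq_lintegral_ofReal hi (Eventually.of_forall fun x => (Real.exp_pos _).le),
    lintegral_map (by fun_prop) hs]
  rfl

/-- (1) the overlap -/
lemma overlap (hz : S_ZN) {h B L : ℝ} (hh : 0 < h) (hB0 : 0 ≤ B) {νa νb : Measure (E d)}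
    (ha : PB B νa) (hb : PB B νb) (haff : Real.exp (-L) ≤ aff h νa νb) :
    ENNReal.ofReal (gc (Fin d) h * (Real.exp (-(2 * L)) / 2)) ≤
      ∫⁻ y, min (ENNReal.ofReal (zn h νa y)) (ENNReal.ofReal (zn h νb y)) := by
  obtain ⟨a1, a2, -, -, -, a6, a7⟩ := hz d h B νa hh hB0 ha
  obtain ⟨b1, b2, -, -, -, b6, b7⟩ := hz d h B νb hh hB0 hb
  have hg : 0 < gc (Fin d) h := by
    rw [← a7]
    refine (integral_pos_iff_support_of_nonneg (fun y => (a2 y).le) a6).mpr ?_
    have : Function.support (zn h νa) = univ := by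
      ext y
      simp [(a2 y).ne']
    rw [this]
    exact isOpen_univ.measure_pos volume ⟨0, trivial⟩
  have hmc : Continuous fun y => min (zn h νa y) (zn h νb y) := a1.continuous.min b1.continuous
  have hm0 : ∀ y, 0 ≤ min (zn h νa y) (zn h νb y) := fun y => le_min (a2 y).le (b2 y).le
  have hmi : Integrable fun y => min (zn h νa y) (zn h νb y) := by
    refine a6.mono' hmc.aestronglyMeasurable (Eventually.of_forall fun y => ?_)
    rw [Real.norm_of_nonneg (hm0 y)]
    exact min_le_left _ _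
  set lam : ℝ := Real.exp (-L) / 2 with hlam
  have hl0 : 0 < lam := by positivity
  have i1 : Integrable fun y => lam / 2 * (zn h νa y + zn h νb y) := (a6.add b6).const_mul _
  have i2 : Integrable fun y => (2 * lam)⁻¹ * min (zn h νa y) (zn h νb y) := hmi.const_mul _
  have h1 : ∫ y, Real.sqrt (zn h νa y * zn h νb y) ≤
      ∫ y, (lam / 2 * (zn h νa y + zn h νb y) + (2 * lam)⁻¹ * min (zn h νa y) (zn h νb y)) := by
    refine integral_mono_of_nonneg (Eventually.of_forall fun y => Real.sqrt_nonneg _)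
      (i1.add i2) (Eventually.of_forall fun y => ?_)
    show Real.sqrt (zn h νa y * zn h νb y) ≤
      lam / 2 * (zn h νa y + zn h νb y) + (2 * lam)⁻¹ * min (zn h νa y) (zn h νb y)
    have ha0 := a2 y
    have hb0 := b2 y
    have key : ∀ a b : ℝ, 0 < a → 0 < b → a ≤ b →
        Real.sqrt (a * b) ≤ lam / 2 * (a + b) + (2 * lam)⁻¹ * a := by
      intro a b ha hb hab
      have e : lam / 2 * b + (2 * lam)⁻¹ * a - Real.sqrt (a * b) =
          (lam * Real.sqrt b - Real.sqrt a) ^ 2 / (2 * lam) := by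
        rw [Real.sqrt_mul ha.le]
        have s1 := Real.sq_sqrt ha.le
        have s2 := Real.sq_sqrt hb.le
        generalize Real.sqrt a = p at *
        generalize Real.sqrt b = q at *
        subst s1 s2
        field_simp
        ring
      have e2 : 0 ≤ (lam * Real.sqrt b - Real.sqrt a) ^ 2 / (2 * lam) := by positivity
      have e3 : 0 ≤ lam / 2 * a := by positivity
      nlinarith
    rcases le_total (zn h νa y) (zn h νb y) with hab | hab
    · rw [min_eq_left hab]
      exact key _ _ ha0 hb0 hab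
    · rw [min_eq_right hab, mul_comm (zn h νa y), add_comm (zn h νa y)]
      exact key _ _ hb0 ha0 hab
  rw [integral_add i1 i2, integral_const_mul,
    integral_const_mul, integral_add a6 b6, a7, b7] at h1
  set I : ℝ := ∫ y, min (zn h νa y) (zn h νb y) with hI
  have h2 : Real.exp (-L) * gc (Fin d) h ≤ ∫ y, Real.sqrt (zn h νa y * zn h νb y) := by
    unfold aff at haff
    rwa [inv_mul_eq_div, le_div_iff₀ hg] at haff
  have h3 : gc (Fin d) h * (Real.exp (-(2 * L)) / 2) ≤ I := by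
    have e1 : Real.exp (-(2 * L)) = Real.exp (-L) * Real.exp (-L) := by
      rw [← Real.exp_add]
      congr 1
      ring
    have e2 : Real.exp (-L) * gc (Fin d) h ≤ lam * gc (Fin d) h + (2 * lam)⁻¹ * I := by
      refine h2.trans (h1.trans (le_of_eq ?_))
      ring
    have e3 : Real.exp (-L) = 2 * lam := by rw [hlam]; ring
    rw [e1, e3]
    rw [e3] at e2
    have e4 : lam * gc (Fin d) h ≤ (2 * lam)⁻¹ * I := by linarith
    rw [inv_mul_eq_div, le_div_iff₀ (by positivity)] at e4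
    nlinarith
  calc ENNReal.ofReal (gc (Fin d) h * (Real.exp (-(2 * L)) / 2)) ≤ ENNReal.ofReal I :=
        ENNReal.ofReal_le_ofReal h3
    _ = ∫⁻ y, ENNReal.ofReal (min (zn h νa y) (zn h νb y)) :=
        ofReal_integral_eq_lintegral_ofReal hmi (Eventually.of_forall hm0)
    _ = _ := by
        refine lintegral_congr fun y => ?_
        exact (ENNReal.ofReal_mono.map_min)

/-- the pieces of the kernel -/
noncomputable def Dt (P : Set (E d)) (h ε : ℝ) (t : E d) : E d → ℝ≥0∞ :=
  {u : E d | gauge P (-u - t) ≤ ε}.indicator (kap h)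

/-- the outer part of the kernel -/
noncomputable def Ot (h ρ : ℝ) : E d → ℝ≥0∞ := {u : E d | ρ < ‖u‖}.indicator (kap h)

lemma Dt_meas {P : Set (E d)} (hP : Bd P) (h ε : ℝ) (t : E d) : Measurable (Dt P h ε t) := by
  have hgau : Continuous (gauge P) := continuous_gauge hP.conv (mem_interior_iff_mem_nhds.mp hP.int)
  refine (kap_meas h).indicator ?_
  have hc : Continuous fun u : E d => gauge P (-u - t) :=
    hgau.comp (continuous_neg.sub continuous_const)
  exact (isClosed_le hc continuous_const).measurableSet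

lemma Ot_meas (h ρ : ℝ) : Measurable (Ot (d := d) h ρ) := by
  refine (kap_meas h).indicator ?_
  exact (isOpen_lt continuous_const continuous_norm).measurableSet

lemma cover {P : Set (E d)} {h ε ρ : ℝ} {S : Finset (E d)}
    (hS : ∀ z : E d, ‖z‖ ≤ ρ → ∃ t ∈ S, gauge P (z - t) ≤ ε) (u : E d) :
    kap h u ≤ ∑ t ∈ S, Dt P h ε t u + Ot h ρ u := by
  by_cases hu : ρ < ‖u‖
  · have : Ot h ρ u = kap h u := Set.indicator_of_mem (s := {u : E d | ρ < ‖u‖}) hu _
    rw [this]
    exact le_add_self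
  · obtain ⟨t, ht, hgt⟩ := hS (-u) (by rw [norm_neg]; exact not_lt.mp hu)
    have h1 : Dt P h ε t u = kap h u :=
      Set.indicator_of_mem (s := {u : E d | gauge P (-u - t) ≤ ε}) hgt _
    rw [← h1]
    exact (Finset.single_le_sum (f := fun t => Dt P h ε t u) (fun _ _ => zero_le) ht).trans
      le_self_add

lemma zn_le {h B : ℝ} (hh : 0 < h) {m : Measure (E d)} {s : E d → E d}
    (hs : Measurable s) (hB : PB B (m.map s)) {P : Set (E d)} (hP : Bd P) {ε ρ : ℝ}
    {S : Finset (E d)}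
    (hS : ∀ z : E d, ‖z‖ ≤ ρ → ∃ t ∈ S, gauge P (z - t) ≤ ε) (y : E d) :
    ENNReal.ofReal (zn h (m.map s) y) ≤
      ∑ t ∈ S, (∫⁻ x, Dt P h ε t (s x - y) ∂m) + ∫⁻ x, Ot h ρ (s x - y) ∂m := by
  rw [zn_eq hh hs hB y]
  have hsy : Measurable fun x => s x - y := hs.sub_const y
  calc ∫⁻ x, kap h (s x - y) ∂m ≤
        ∫⁻ x, (∑ t ∈ S, Dt P h ε t (s x - y) + Ot h ρ (s x - y)) ∂m :=
        lintegral_mono fun x => cover hS _
    _ = (∫⁻ x, ∑ t ∈ S, Dt P h ε t (s x - y) ∂m) + ∫⁻ x, Ot h ρ (s x - y) ∂m :=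
        lintegral_add_right _ ((Ot_meas h ρ).comp hsy)
    _ = _ := by
        rw [lintegral_finsetSum (f := fun t x => Dt P h ε t (s x - y)) _
          fun t _ => (Dt_meas hP h ε t).comp hsy]

lemma min_out (a b o o' : ℝ≥0∞) : min (a + o) (b + o') ≤ min a b + (o + o') := by
  rcases le_total a b with h | h
  · rw [min_eq_left h]
    exact (min_le_left _ _).trans (add_le_add le_rfl le_self_add)
  · rw [min_eq_right h]
    exact (min_le_right _ _).trans (add_le_add le_rfl le_add_self)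

lemma piece {P : Set (E d)} (hP : Bd P) {A : Set (E d)} {m : Measure (E d)}
    [IsProbabilityMeasure m] (hmA : ∀ᵐ x ∂m, x ∈ A) {h ε : ℝ} (β t t' : E d) {V : Set (E d)}
    (hVm : MeasurableSet V)
    (hV : ∀ x ∈ A, ∀ x' ∈ A, gauge P (x + x' - (β + β + t' - t)) ≤ 2 * ε → x ∈ V) :
    ∫⁻ y, min (∫⁻ x, Dt P h ε t (x - β - y) ∂m) (∫⁻ x, Dt P h ε t' (β - x - y) ∂m) ≤
      m V * ∫⁻ u : E d, kap h u := by
  rw [← ton m (kap_meas h) (s := fun x => x - β) (measurable_id.sub_const β) hVm]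
  refine lintegral_mono fun y => ?_
  by_cases h0 : ∫⁻ x, Dt P h ε t' (β - x - y) ∂m = 0
  · rw [h0, min_eq_right zero_le]
    exact zero_le
  · obtain ⟨x', hx', hg'⟩ : ∃ x' ∈ A, gauge P (-(β - x' - y) - t') ≤ ε := by
      by_contra hcon
      push Not at hcon
      apply h0
      rw [← lintegral_zero (μ := m)]
      refine lintegral_congr_ae ?_
      filter_upwards [hmA] with x hx
      exact Set.indicator_of_notMem (s := {u : E d | gauge P (-u - t') ≤ ε})
        (not_le.mpr (hcon x hx)) _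
    refine (min_le_left _ _).trans (lintegral_mono_ae ?_)
    filter_upwards [hmA] with x hx
    by_cases hg : gauge P (-(x - β - y) - t) ≤ ε
    · have hxV : x ∈ V := by
        refine hV x hx x' hx' ?_
        have e : x + x' - (β + β + t' - t) = (-(β - x' - y) - t') + -(-(x - β - y) - t) := by
          abel
        rw [e]
        refine (gauge_add_le hP.conv (absorbent_nhds_zero
          (mem_interior_iff_mem_nhds.mp hP.int)) _ _).trans ?_
        rw [gauge_neg hP.sym]
        linarith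
      rw [Set.indicator_of_mem hxV]
      simp only [Pi.one_apply, one_mul]
      exact Set.indicator_le_self _ _ _
    · have h1 : Dt P h ε t (x - β - y) = 0 :=
        Set.indicator_of_notMem (s := {u : E d | gauge P (-u - t) ≤ ε}) hg _
      rw [h1]
      exact zero_le

lemma gc_pos (hz : S_ZN) {h B : ℝ} (hh : 0 < h) (hB0 : 0 ≤ B) {ν : Measure (E d)}
    (ha : PB B ν) : 0 < gc (Fin d) h := by
  obtain ⟨a1, a2, -, -, -, a6, a7⟩ := hz d h B ν hh hB0 ha
  rw [← a7]
  refine (integral_pos_iff_support_of_nonneg (fun y => (a2 y).le) a6).mpr ?_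
  have : Function.support (zn h ν) = univ := by
    ext y
    simp [(a2 y).ne']
  rw [this]
  exact isOpen_univ.measure_pos volume ⟨0, trivial⟩

lemma gauss_int {h : ℝ} (hg : 0 < gc (Fin d) h) :
    Integrable fun u : E d => Real.exp (-(‖u‖ ^ 2 / (2 * h))) :=
  Integrable.of_integral_ne_zero hg.ne'

lemma kap_int {h : ℝ} (hg : 0 < gc (Fin d) h) :
    ∫⁻ u : E d, kap h u = ENNReal.ofReal (gc (Fin d) h) :=
  (ofReal_integral_eq_lintegral_ofReal (gauss_int hg)
    (Eventually.of_forall fun _ => (Real.exp_pos _).le)).symm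

lemma out_int (hT : T_TAIL) {h : ℝ} (hh : 0 < h) (hg : 0 < gc (Fin d) h) :
    ∫⁻ u : E d, Ot h (2 * Real.sqrt (h * d)) u ≤
      ENNReal.ofReal (Real.exp (-(13 / 20 * d)) * gc (Fin d) h) := by
  have hm : MeasurableSet {u : E d | 2 * Real.sqrt (h * d) < ‖u‖} :=
    (isOpen_lt continuous_const continuous_norm).measurableSet
  have h1 : ∫⁻ u : E d, Ot h (2 * Real.sqrt (h * d)) u =
      ∫⁻ u in {u : E d | 2 * Real.sqrt (h * d) < ‖u‖}, kap h u := by
    unfold Ot
    rw [lintegral_indicator hm]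
  rw [h1]
  have h2 := ofReal_integral_eq_lintegral_ofReal
    (gauss_int hg).integrableOn.integrable (μ := volume.restrict
      {u : E d | 2 * Real.sqrt (h * d) < ‖u‖})
    (Eventually.of_forall fun u => (Real.exp_pos _).le)
  calc ∫⁻ u in {u : E d | 2 * Real.sqrt (h * d) < ‖u‖}, kap h u = _ := h2.symm
    _ ≤ _ := ENNReal.ofReal_le_ofReal (hT d h hh)

theorem ovl (hz : S_ZN) (hT : T_TAIL) (hB : T_HB) : T_OVL := by
  intro d P A hd hP hAP hAc hAk hA0 β h L ε hh hL hLd hε haff S hS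
  obtain ⟨⟨B, hB0, hBa, hBb⟩, -, -⟩ := hB d P A hP hAP hAc hAk hA0 β
  by_contra hcon
  push Not at hcon
  have hg : 0 < gc (Fin d) h := gc_pos hz hh hB0 hBa
  have hAfin : volume A ≠ ⊤ := hAk.measure_lt_top.ne
  have hprob : IsProbabilityMeasure (mP A) := Pool.Agent.N555.RZ.mP_prob hA0.ne' hAfin
  have hAm : MeasurableSet A := hAk.isClosed.measurableSet
  have hmA : ∀ᵐ x ∂(mP A), x ∈ A := by
    unfold mP
    exact Measure.ae_smul_measure (ae_restrict_mem hAm) _
  have hgau : Continuous (gauge P) := continuous_gauge hP.conv (mem_interior_iff_mem_nhds.mp hP.int)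
  have hab : Absorbent ℝ P := absorbent_nhds_zero (mem_interior_iff_mem_nhds.mp hP.int)
  have hsa : Measurable fun x : E d => x - β := measurable_id.sub_const β
  have hsb : Measurable fun x : E d => β - x := measurable_const.sub measurable_id
  obtain ⟨t₀, ht₀, -⟩ := hS 0 (by rw [norm_zero]; positivity)
  have hN : (1 : ℝ) ≤ S.card := by
    exact_mod_cast Finset.card_pos.mpr ⟨t₀, ht₀⟩
  set q : ℝ := Real.exp (-(2 * L)) / (4 * (S.card : ℝ) ^ 2) with hq
  have hq0 : 0 < q := by positivity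
  set ρ : ℝ := 2 * Real.sqrt (h * d) with hρ
  -- the pieces
  have h4 : ∀ t t' : E d, ∫⁻ y, min (∫⁻ x, Dt P h ε t (x - β - y) ∂(mP A))
      (∫⁻ x, Dt P h ε t' (β - x - y) ∂(mP A)) ≤ ENNReal.ofReal (q * gc (Fin d) h) := by
    intro t t'
    by_cases hex : ∃ x1 ∈ A, ∃ x2 ∈ A, gauge P (x1 + x2 - (β + β + t' - t)) ≤ 2 * ε
    · obtain ⟨x1, hx1, x2, hx2, hx⟩ := hex
      set V : Set (E d) := {x | x ∈ A ∧ ∃ y ∈ A, gauge P (x + y - (x1 + x2)) ≤ 4 * ε} with hV
      have hVc : IsCompact V := by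
        have h1 : V = Prod.fst '' ((A ×ˢ A) ∩
            {p : E d × E d | gauge P (p.1 + p.2 - (x1 + x2)) ≤ 4 * ε}) := by
          ext x
          constructor
          · rintro ⟨hx, y, hy, hxy⟩
            exact ⟨(x, y), ⟨⟨hx, hy⟩, hxy⟩, rfl⟩
          · rintro ⟨⟨x', y⟩, ⟨⟨hx, hy⟩, hxy⟩, rfl⟩
            exact ⟨hx, y, hy, hxy⟩
        rw [h1]
        refine ((hAk.prod hAk).inter_right ?_).image continuous_fst
        exact isClosed_le (hgau.comp ((continuous_fst.add continuous_snd).sub continuous_const))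
          continuous_const
      have hVm : MeasurableSet V := hVc.isClosed.measurableSet
      have hVA : V ⊆ A := fun x hx => hx.1
      refine (piece hP hmA β t t' hVm ?_).trans ?_
      · intro x hx' x' hx'' hgx
        refine ⟨hx', x', hx'', ?_⟩
        have e : x + x' - (x1 + x2) = (x + x' - (β + β + t' - t)) +
            -(x1 + x2 - (β + β + t' - t)) := by abel
        rw [e]
        refine (gauge_add_le hP.conv hab _ _).trans ?_
        rw [gauge_neg hP.sym]
        linarith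
      · rw [kap_int hg]
        have h1 : mP A V ≤ ENNReal.ofReal q := by
          unfold mP
          rw [Measure.smul_apply, Measure.restrict_apply hVm, Set.inter_eq_left.mpr hVA,
            smul_eq_mul]
          calc (volume A)⁻¹ * volume V ≤ (volume A)⁻¹ * (ENNReal.ofReal q * volume A) := by
                gcongr
                exact (hcon x1 hx1 x2 hx2).le
            _ = ENNReal.ofReal q := by
                rw [mul_comm (ENNReal.ofReal q), ← mul_assoc, ENNReal.inv_mul_cancel hA0.ne' hAfin,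
                  one_mul]
        rw [ENNReal.ofReal_mul hq0.le]
        gcongr
    · push Not at hex
      refine (piece hP hmA β t t' MeasurableSet.empty ?_).trans ?_
      · intro x hx x' hx' hle
        exact absurd hle (not_le.mpr (hex x hx x' hx'))
      · simp
  -- the sum
  have hA : ∀ y, ENNReal.ofReal (zn h (la A β) y) ≤
      ∑ t ∈ S, (∫⁻ x, Dt P h ε t (x - β - y) ∂(mP A)) + ∫⁻ x, Ot h ρ (x - β - y) ∂(mP A) :=
    fun y => zn_le hh hsa hBa hP hS y
  have hBz : ∀ y, ENNReal.ofReal (zn h (lb A β) y) ≤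
      ∑ t ∈ S, (∫⁻ x, Dt P h ε t (β - x - y) ∂(mP A)) + ∫⁻ x, Ot h ρ (β - x - y) ∂(mP A) :=
    fun y => zn_le hh hsb hBb hP hS y
  have hpt : ∀ y, min (ENNReal.ofReal (zn h (la A β) y)) (ENNReal.ofReal (zn h (lb A β) y)) ≤
      (∑ t ∈ S, ∑ t' ∈ S, min (∫⁻ x, Dt P h ε t (x - β - y) ∂(mP A))
        (∫⁻ x, Dt P h ε t' (β - x - y) ∂(mP A))) +
      ((∫⁻ x, Ot h ρ (x - β - y) ∂(mP A)) + ∫⁻ x, Ot h ρ (β - x - y) ∂(mP A)) := fun y =>
    (min_le_min (hA y) (hBz y)).trans ((min_out _ _ _ _).trans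
      (add_le_add (min_sum_sum S _ _) le_rfl))
  have hmD : ∀ (t : E d) (s : E d → E d), Measurable s →
      Measurable fun y => ∫⁻ x, Dt P h ε t (s x - y) ∂(mP A) := by
    intro t s hs
    refine Measurable.lintegral_prod_right' (f := fun p : E d × E d => Dt P h ε t (s p.2 - p.1)) ?_
    exact (Dt_meas hP h ε t).comp ((hs.comp measurable_snd).sub measurable_fst)
  have hmO : ∀ (s : E d → E d), Measurable s →
      Measurable fun y => ∫⁻ x, Ot h ρ (s x - y) ∂(mP A) := by
    intro s hs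
    refine Measurable.lintegral_prod_right' (f := fun p : E d × E d => Ot h ρ (s p.2 - p.1)) ?_
    exact (Ot_meas h ρ).comp ((hs.comp measurable_snd).sub measurable_fst)
  have hsum := (overlap hz hh hB0 hBa hBb haff).trans (lintegral_mono hpt)
  have hOb : Measurable fun y => ∫⁻ x, Ot h ρ (β - x - y) ∂(mP A) := hmO _ hsb
  have hOO : Measurable fun y => (∫⁻ x, Ot h ρ (x - β - y) ∂(mP A)) +
      ∫⁻ x, Ot h ρ (β - x - y) ∂(mP A) := (hmO _ hsa).add (hmO _ hsb)
  have ta : ∫⁻ y, ∫⁻ x, Ot h ρ (x - β - y) ∂(mP A) = ∫⁻ u : E d, Ot h ρ u :=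
    ton' (mP A) (Ot_meas h ρ) hsa
  have tb : ∫⁻ y, ∫⁻ x, Ot h ρ (β - x - y) ∂(mP A) = ∫⁻ u : E d, Ot h ρ u :=
    ton' (mP A) (Ot_meas h ρ) hsb
  rw [lintegral_add_right _ hOO, lintegral_add_right _ hOb, ta, tb] at hsum
  have hsum2 : ∫⁻ y, ∑ t ∈ S, ∑ t' ∈ S, min (∫⁻ x, Dt P h ε t (x - β - y) ∂(mP A))
        (∫⁻ x, Dt P h ε t' (β - x - y) ∂(mP A)) ≤
      ENNReal.ofReal ((S.card : ℝ) ^ 2 * (q * gc (Fin d) h)) := by
    rw [lintegral_finsetSum (f := fun t y => ∑ t' ∈ S, min (∫⁻ x, Dt P h ε t (x - β - y) ∂(mP A))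
        (∫⁻ x, Dt P h ε t' (β - x - y) ∂(mP A))) _ fun t _ =>
        Finset.measurable_fun_sum _ fun t' _ => (hmD t _ hsa).min (hmD t' _ hsb)]
    have h5 : ∀ t ∈ S, ∫⁻ y, ∑ t' ∈ S, min (∫⁻ x, Dt P h ε t (x - β - y) ∂(mP A))
        (∫⁻ x, Dt P h ε t' (β - x - y) ∂(mP A)) ≤ S.card • ENNReal.ofReal (q * gc (Fin d) h) := by
      intro t _
      rw [lintegral_finsetSum (f := fun t' y => min (∫⁻ x, Dt P h ε t (x - β - y) ∂(mP A))
        (∫⁻ x, Dt P h ε t' (β - x - y) ∂(mP A))) _ fun t' _ => (hmD t _ hsa).min (hmD t' _ hsb)]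
      exact Finset.sum_le_card_nsmul _ _ _ fun t' _ => h4 t t'
    refine (Finset.sum_le_card_nsmul _ _ _ h5).trans (le_of_eq ?_)
    have hc : (S.card : ℝ≥0∞) = ENNReal.ofReal (S.card : ℝ) := (ENNReal.ofReal_natCast _).symm
    rw [nsmul_eq_mul, nsmul_eq_mul, ← mul_assoc, hc, ← ENNReal.ofReal_mul (by positivity),
      ← ENNReal.ofReal_mul (by positivity), sq]
  have hout := out_int hT hh hg
  have hfin : ENNReal.ofReal (gc (Fin d) h * (Real.exp (-(2 * L)) / 2)) ≤
      ENNReal.ofReal ((S.card : ℝ) ^ 2 * (q * gc (Fin d) h) +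
        (Real.exp (-(13 / 20 * d)) * gc (Fin d) h + Real.exp (-(13 / 20 * d)) * gc (Fin d) h)) := by
    rw [ENNReal.ofReal_add (by positivity) (by positivity),
      ENNReal.ofReal_add (by positivity) (by positivity)]
    exact hsum.trans (add_le_add hsum2 (add_le_add hout hout))
  rw [ENNReal.ofReal_le_ofReal_iff (by positivity)] at hfin
  have e1 : (S.card : ℝ) ^ 2 * (q * gc (Fin d) h) = gc (Fin d) h * (Real.exp (-(2 * L)) / 4) := by
    rw [hq]
    field_simp
  rw [e1] at hfin
  have hfin2 : Real.exp (-(2 * L)) ≤ 8 * Real.exp (-(13 / 20 * d)) := by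
    by_contra hlt
    push Not at hlt
    nlinarith
  have hdr : (7 : ℝ) ≤ d := by exact_mod_cast hd
  have h6 : Real.exp (-(1 / 4 * d)) ≤ Real.exp (-(2 * L)) := Real.exp_le_exp.mpr (by linarith)
  have h7 : Real.exp (2 / 5 * d) ≤ 8 := by
    have h8 : Real.exp (-(1 / 4 * d)) = Real.exp (2 / 5 * d) * Real.exp (-(13 / 20 * d)) := by
      rw [← Real.exp_add]
      congr 1
      ring
    have h9 := Real.exp_pos (-(13 / 20 * (d : ℝ)))
    have h10 := h6.trans hfin2
    rw [h8] at h10
    exact le_of_mul_le_mul_right h10 h9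
  have h8 : Real.exp 1 * Real.exp 1 * (1 + 4 / 5) ≤ Real.exp (2 / 5 * d) := by
    have h9 : (1 : ℝ) + 4 / 5 ≤ Real.exp (4 / 5) := by
      have := Real.add_one_le_exp (4 / 5 : ℝ)
      linarith
    calc Real.exp 1 * Real.exp 1 * (1 + 4 / 5) ≤ Real.exp 1 * Real.exp 1 * Real.exp (4 / 5) := by
          gcongr
      _ = Real.exp (14 / 5) := by
          rw [← Real.exp_add, ← Real.exp_add]
          congr 1
          norm_num
      _ ≤ Real.exp (2 / 5 * d) := Real.exp_le_exp.mpr (by linarith)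
  have h9 := Real.exp_one_gt_d9
  nlinarith

end Pool.Agent.T2h52.SP.OVLx
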