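import Pool.Agent.T2h52.SP.Stm
import Pool.Agent.R755.KF.L1
import Pool.Agent.R755.KF.L3

/-!
# PLB: the Prékopa-Leindler hypothesis for the laws of a centred convex subset
-/

set_option autoImplicit false

namespace Pool.Agent.T2h52.SP

open MeasureTheory Set Filter Topology
open scoped ENNReal InnerProductSpace Pointwise
open Pool.Agent.H888R2.KT (gs gc)
open Pool.Agent.R755.KF (zn aff sd PB PL3 PLH S_ZN)
open Pool.Agent.R754.KG (un)
open Pool.Agent.N555.RZ (mP)

namespace PLBaux

variable {d : ℕ}

theorem un_eq (A : Set (E d)) : un A = mP A := rfl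

theorem mP_prob' {A : Set (E d)} (h0 : volume A ≠ 0) (hfin : volume A ≠ ⊤) :
    IsProbabilityMeasure (mP A) := by
  refine ⟨?_⟩
  rw [mP, Measure.smul_apply, Measure.restrict_apply_univ, smul_eq_mul,
    ENNReal.inv_mul_cancel h0 hfin]

theorem pb_map {A : Set (E d)} (hc : IsCompact A) (h0 : volume A ≠ 0) (φ : E d → E d)
    (hφ : Continuous φ) : ∃ B : ℝ, 0 ≤ B ∧ PB B ((mP A).map φ) := by
  haveI := mP_prob' h0 hc.measure_lt_top.ne
  obtain ⟨B, hB⟩ := (hc.image hφ).isBounded.exists_norm_le
  refine ⟨max B 0, le_max_right _ _, ⟨?_, ?_⟩⟩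
  · exact Measure.isProbabilityMeasure_map hφ.aemeasurable
  · rw [ae_map_iff hφ.aemeasurable (measurableSet_le (by fun_prop) (by fun_prop))]
    have h1 : ∀ᵐ x ∂(volume.restrict A), ‖φ x‖ ≤ max B 0 := by
      rw [ae_restrict_iff' hc.measurableSet]
      exact ae_of_all _ fun x hx => (hB _ (mem_image_of_mem _ hx)).trans (le_max_left _ _)
    exact Measure.ae_smul_measure h1 _

theorem pb_mono {B B' : ℝ} {ν : Measure (E d)} (h : PB B ν) (hB : B ≤ B') : PB B' ν :=
  ⟨h.prob, h.bdd.mono fun _ hx => hx.trans hB⟩

end PLBaux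

/-- PLB -/
theorem plb (h2 : S_ZN) : T_PLB := by
  intro d P A hP hAP hAc hAk hA0 β h hh
  have hP0 : 0 < volume P :=
    lt_of_lt_of_le (isOpen_interior.measure_pos _ ⟨0, hP.int⟩) (measure_mono interior_subset)
  have hPt : volume P ≠ ⊤ := hP.comp.measure_lt_top.ne
  have hAt : volume A ≠ ⊤ := hAk.measure_lt_top.ne
  have vA : 0 < (volume A).toReal := ENNReal.toReal_pos hA0.ne' hAt
  have vP : 0 < (volume P).toReal := ENNReal.toReal_pos hP0.ne' hPt
  have hle : (volume A).toReal ≤ (volume P).toReal :=
    ENNReal.toReal_mono hPt (measure_mono hAP)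
  have hAk' : IsCompact (-A) := hAk.neg
  have hvn : volume (-A) = volume A := Measure.measure_neg _ _
  have hlb : lb A β = (un (-A)).map (fun y => y + β) := by
    have e1 : (mP A).map (fun x : E d => -x) = un (-A) := by
      have e2 : (volume.restrict A).map (fun x : E d => -x) = volume.restrict (-A) := by
        have mp : MeasurePreserving (fun x : E d => -x) volume volume :=
          Measure.measurePreserving_neg volume
        have := (mp.restrict_preimage (s := -A) hAk'.measurableSet).map_eq
        have e3 : (fun x : E d => -x) ⁻¹' (-A) = A := by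
          ext x; simp
        rwa [e3] at this
      rw [mP, Measure.map_smul, e2, un, hvn]
    have e4 : lb A β = ((mP A).map (fun x : E d => -x)).map (fun y => y + β) := by
      rw [Measure.map_map (by fun_prop) (by fun_prop), lb]
      congr 1
      ext1 x
      simp only [Function.comp]
      abel
    rw [e4, e1]
  have hm : mP P = (un P).map (fun x => x) := by
    rw [Measure.map_id', PLBaux.un_eq]
  have hPL : PL3 (la A β) (lb A β) (mP P)
      ((volume P).toReal ^ 2 / ((volume A).toReal * (volume A).toReal)) := by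
    rw [hlb, hm]
    have := Pool.Agent.R755.KF.L3aux.gen A (-A) P (fun x : E d => x - β) (fun y => y + β)
      (fun x => x) hAk.measurableSet hAk'.measurableSet hP.comp.measurableSet
      (by fun_prop) (by fun_prop) (by fun_prop) vA (by rw [hvn]; exact vA) vP (by
        intro x hx y hy
        constructor
        · have h1 := hP.conv (hAP hx) (by
            have := hP.sym _ (hAP hy)
            rwa [neg_neg] at this) (show (0 : ℝ) ≤ 1 / 2 by norm_num)
            (show (0 : ℝ) ≤ 1 / 2 by norm_num) (by norm_num)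
          rwa [smul_add]
        · congr 1
          abel)
    rw [hvn] at this
    exact this
  obtain ⟨B1, hB1, p1⟩ := PLBaux.pb_map hAk hA0.ne' (fun x => x - β) (by fun_prop)
  obtain ⟨B2, hB2, p2⟩ := PLBaux.pb_map hAk hA0.ne' (fun x => β - x) (by fun_prop)
  obtain ⟨B3, hB3, p3⟩ := PLBaux.pb_map hP.comp hP0.ne' (fun x => x) (by fun_prop)
  rw [Measure.map_id'] at p3
  set B : ℝ := max B1 (max B2 B3) with hB
  refine Pool.Agent.R755.KF.plh h2 d h B ((volume P).toReal / (volume A).toReal - 1) (la A β)
    (lb A β) (mP P) hh (hB1.trans (le_max_left _ _)) ?_ (PLBaux.pb_mono p1 (le_max_left _ _))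
    (PLBaux.pb_mono p2 ((le_max_left _ _).trans (le_max_right _ _)))
    (PLBaux.pb_mono p3 ((le_max_right _ _).trans (le_max_right _ _))) ?_
  · rw [sub_nonneg, le_div_iff₀ vA]
    linarith
  · have e : (1 + ((volume P).toReal / (volume A).toReal - 1)) ^ 2 =
        (volume P).toReal ^ 2 / ((volume A).toReal * (volume A).toReal) := by
      rw [add_sub_cancel, div_pow, sq (volume A).toReal]
    rw [e]
    exact hPL

end Pool.Agent.T2h52.SP
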