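import Pool.Agent.T2h52.SP.Stm3
import Pool.Agent.T2h52.SP.HALF

/-!
Task PZD: small ball estimate for directions (both signs).
-/

set_option autoImplicit false

namespace Pool.Agent.T2h52.SP

open MeasureTheory Set Filter Topology
open scoped ENNReal InnerProductSpace Pointwise
open Pool.Agent.N555.RZ (mP mP_prob mom_inner int_K)

theorem pzd : T_PZD := by
  intro d P hP hiso e he
  have hK0 : P ∈ 𝓝 0 := mem_interior_iff_mem_nhds.1 hP.int
  have hPm : MeasurableSet P := hP.comp.isClosed.measurableSet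
  have hfin : volume P ≠ ⊤ := hP.comp.measure_lt_top.ne
  have h0 : volume P ≠ 0 := (Measure.measure_pos_of_mem_nhds volume hK0).ne'
  have hprob := mP_prob h0 hfin
  set T : Set (E d) := {x | 1 / 2 ≤ |⟪x, e⟫_ℝ|} with hT
  have hTm : MeasurableSet T :=
    (isClosed_le continuous_const (by fun_prop : Continuous fun x : E d => |⟪x, e⟫_ℝ|)).measurableSet
  -- moments
  have i2 : Integrable (fun x : E d => ⟪x, e⟫_ℝ ^ 2) (mP P) := int_K hP.comp h0 (by fun_prop)
  have i4 : Integrable (fun x : E d => ⟪x, e⟫_ℝ ^ 4) (mP P) := int_K hP.comp h0 (by fun_prop)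
  have m2 : ∫ x, ⟪x, e⟫_ℝ ^ 2 ∂(mP P) = 1 := by
    rw [hiso e, he, one_pow]
  have m4 : ∫ x, ⟪x, e⟫_ℝ ^ 4 ∂(mP P) ≤ 160 ^ 4 := by
    have h1 := mom_inner hP.conv hP.comp hK0 hiso e 2 (by norm_num)
    rw [integral_eq_lintegral_of_nonneg_ae (Eventually.of_forall fun x => by positivity)
      i4.aestronglyMeasurable]
    refine ENNReal.toReal_le_of_le_ofReal (by positivity) (le_trans (le_of_eq ?_) (h1.trans ?_))
    · refine lintegral_congr fun x => ?_
      rw [real_inner_comm]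
      congr 1
      rw [show 2 * 2 = 4 by norm_num, pow_abs, abs_of_nonneg (by positivity)]
    · refine ENNReal.ofReal_le_ofReal ?_
      rw [he]
      norm_num
  have hle : ∫ x, ⟪x, e⟫_ℝ ^ 2 ∂(mP P) ≤ ∫ x, (1 / 4 + 3 / (8 * 160 ^ 4) * ⟪x, e⟫_ℝ ^ 4 +
      (2 / 3 * 160 ^ 4) * T.indicator (fun _ => (1 : ℝ)) x) ∂(mP P) := by
    refine integral_mono i2 ?_ fun x => ?_
    · refine ((integrable_const _).add (i4.const_mul _)).add (Integrable.const_mul ?_ _)
      exact (integrable_const _).indicator hTm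
    · have h1 := pz_point (⟪x, e⟫_ℝ)
      have h2 : T.indicator (fun _ => (1 : ℝ)) x = if 1 / 2 ≤ |⟪x, e⟫_ℝ| then (1 : ℝ) else 0 := by
        by_cases hx : 1 / 2 ≤ |⟪x, e⟫_ℝ|
        · rw [if_pos hx, indicator_of_mem (show x ∈ T from hx)]
        · rw [if_neg hx, indicator_of_notMem (show x ∉ T from hx)]
      show ⟪x, e⟫_ℝ ^ 2 ≤ _
      rw [h2]
      exact h1
  have iA : Integrable (fun x : E d => (1 / 4 : ℝ) + 3 / (8 * 160 ^ 4) * ⟪x, e⟫_ℝ ^ 4) (mP P) :=
    (integrable_const _).add (i4.const_mul _)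
  have iB : Integrable (fun x : E d => (2 / 3 * 160 ^ 4 : ℝ) * T.indicator (fun _ => (1 : ℝ)) x)
      (mP P) := Integrable.const_mul ((integrable_const (1 : ℝ)).indicator hTm) _
  have iC : Integrable (fun _ : E d => (1 / 4 : ℝ)) (mP P) := integrable_const _
  have iD : Integrable (fun x : E d => (3 / (8 * 160 ^ 4) : ℝ) * ⟪x, e⟫_ℝ ^ 4) (mP P) :=
    i4.const_mul _
  rw [integral_add iA iB, integral_add iC iD, integral_const_mul, integral_const_mul,
    integral_indicator hTm, integral_const, integral_const, m2] at hle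
  simp only [probReal_univ, smul_eq_mul, one_mul, mul_one] at hle
  have hTp : 9 / (16 * 160 ^ 4) ≤ (mP P).real T := by
    have h1 : ((mP P).restrict T).real univ = (mP P).real T := by
      rw [measureReal_restrict_apply_univ]
    rw [h1] at hle
    have h2 : 3 / (8 * 160 ^ 4) * ∫ x, ⟪x, e⟫_ℝ ^ 4 ∂(mP P) ≤ 3 / 8 := by
      have := mul_le_mul_of_nonneg_left m4 (by positivity : (0 : ℝ) ≤ 3 / (8 * 160 ^ 4))
      refine this.trans (le_of_eq ?_)
      norm_num
    have h3 : (3 : ℝ) / 8 ≤ 2 / 3 * 160 ^ 4 * (mP P).real T := by linarith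
    rw [div_le_iff₀ (by positivity)]
    linarith
  refine le_trans ?_ hTp
  norm_num

end Pool.Agent.T2h52.SP
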