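import Pool.Agent.T2h52.SP.Stm

/-!
# Task SIG: the function `σ = (1/2) log (f_b / f_a)`
-/

set_option autoImplicit false

namespace Pool.Agent.T2h52.SP

open MeasureTheory Set Filter Topology
open scoped ENNReal InnerProductSpace
open Pool.Agent.H888R2.KT (gs gc)
open Pool.Agent.R755.KF (zn aff sd PB PL3 PLH S_ZN)

theorem sig (hz : S_ZN) : T_SIG := by
  intro d h B νa νb hh hB ha hb
  obtain ⟨ca, pa, -, na, -, -, -⟩ := hz d h B νa hh hB ha
  obtain ⟨cb, pb, -, nb, -, -, -⟩ := hz d h B νb hh hB hb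
  have hlog : ∀ (z : E d → ℝ) (y : E d), ContDiff ℝ 1 z → (∀ y, 0 < z y) →
      HasFDerivAt (fun y => Real.log (z y)) ((z y)⁻¹ • fderiv ℝ z y) y := fun z y hc hp =>
    ((hc.differentiable one_ne_zero y).hasFDerivAt).log (hp y).ne'
  have hder : ∀ y, HasFDerivAt (sg h νa νb) (sd h νa νb y) y := fun y =>
    ((hlog _ y cb pb).sub (hlog _ y ca pa)).const_mul (1 / 2)
  have hnorm : ∀ (z : E d → ℝ) (y : E d), 0 < z y →
      ‖fderiv ℝ z y + ((1 / h) * z y) • innerSL ℝ y‖ ≤ B / h * z y →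
      ‖(z y)⁻¹ • fderiv ℝ z y + (1 / h) • innerSL ℝ y‖ ≤ B / h := by
    intro z y hp hn
    have e : (z y)⁻¹ • fderiv ℝ z y + (1 / h) • innerSL ℝ y =
        (z y)⁻¹ • (fderiv ℝ z y + ((1 / h) * z y) • innerSL ℝ y) := by
      rw [smul_add, smul_smul]
      congr 2
      field_simp
    rw [e, norm_smul, norm_inv, Real.norm_of_nonneg hp.le]
    calc (z y)⁻¹ * ‖fderiv ℝ z y + ((1 / h) * z y) • innerSL ℝ y‖ ≤ (z y)⁻¹ * (B / h * z y) :=
          mul_le_mul_of_nonneg_left hn (inv_nonneg.2 hp.le)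
      _ = B / h := by field_simp
  refine ⟨?_, fun y => (hder y).fderiv, fun y => ?_, fun y => ?_⟩
  · have h1 : ContDiff ℝ 1 fun y => 1 / 2 * (Real.log (zn h νb y) - Real.log (zn h νa y)) :=
      contDiff_const.mul ((cb.log fun y => (pb y).ne').sub (ca.log fun y => (pa y).ne'))
    exact h1
  · have e : sd h νa νb y = (1 / 2 : ℝ) •
        (((zn h νb y)⁻¹ • fderiv ℝ (zn h νb) y + (1 / h) • innerSL ℝ y) -
          ((zn h νa y)⁻¹ • fderiv ℝ (zn h νa) y + (1 / h) • innerSL ℝ y)) := by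
      unfold sd
      congr 1
      abel
    rw [e, norm_smul]
    have h1 := norm_sub_le ((zn h νb y)⁻¹ • fderiv ℝ (zn h νb) y + (1 / h) • innerSL ℝ y)
      ((zn h νa y)⁻¹ • fderiv ℝ (zn h νa) y + (1 / h) • innerSL ℝ y)
    have h2 := hnorm _ y (pa y) (na y)
    have h3 := hnorm _ y (pb y) (nb y)
    have h4 : ‖(1 / 2 : ℝ)‖ = 1 / 2 := by norm_num
    rw [h4]
    linarith
  · have h1 : Real.sqrt (zn h νa y * zn h νb y) =
        Real.exp ((Real.log (zn h νa y) + Real.log (zn h νb y)) / 2) := by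
      rw [Real.sqrt_eq_iff_mul_self_eq (mul_nonneg (pa y).le (pb y).le) (Real.exp_pos _).le,
        ← Real.exp_add, add_halves, Real.exp_add, Real.exp_log (pa y), Real.exp_log (pb y)]
    rw [h1, ← Real.exp_add, ← Real.exp_add]
    unfold sg
    constructor
    · rw [show (Real.log (zn h νa y) + Real.log (zn h νb y)) / 2 +
        -(1 / 2 * (Real.log (zn h νb y) - Real.log (zn h νa y))) = Real.log (zn h νa y) by ring,
        Real.exp_log (pa y)]
    · rw [show (Real.log (zn h νa y) + Real.log (zn h νb y)) / 2 +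
        (1 / 2 * (Real.log (zn h νb y) - Real.log (zn h νa y))) = Real.log (zn h νb y) by ring,
        Real.exp_log (pb y)]

end Pool.Agent.T2h52.SP
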