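import Pool.Agent.T2h52.SP.Stm
import Pool.Agent.TH591.Ns.Cover
import Pool.Agent.TH591.Ns.Flat

/-!
# Task SM
-/

set_option autoImplicit false

namespace Pool.Agent.T2h52.SP

open MeasureTheory Set Filter Topology
open scoped ENNReal
open Pool.Agent.N555.RZ (mP Spr)

theorem sm_ : T_SM := by
  intro d P hd hP γ r ε' hr hε' hγ hw
  have hP0 : P ∈ 𝓝 (0 : E d) := mem_interior_iff_mem_nhds.1 hP.int
  have hg := Pool.Agent.TH591.Ns.isG_gauge hP.conv hP0
  have hvol0 : volume P ≠ 0 := by
    have : 0 < volume (interior P) := isOpen_interior.measure_pos _ ⟨0, hP.int⟩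
    exact (this.trans_le (measure_mono interior_subset)).ne'
  have hvolt : volume P ≠ ⊤ := hP.comp.measure_lt_top.ne
  have := Pool.Agent.N555.RZ.mP_prob hvol0 hvolt
  have hPm : MeasurableSet P := hP.comp.isClosed.measurableSet
  set g : E d → ℝ := gauge P with hgd
  set ψ : E d → ℝ := fun z => fderiv ℝ g z γ with hψ
  have hmeas : Measurable ψ := measurable_fderiv_apply_const ℝ g γ
  have heven : ∀ x, g (-x) = g x := fun x => gauge_neg (fun y hy => hP.sym y hy) x
  have hodd : ∀ x, ψ (-x) = -ψ x := by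
    intro x
    have h1 : (g ∘ (ContinuousLinearEquiv.neg ℝ : E d ≃L[ℝ] E d)) = g := funext heven
    have h2 := (ContinuousLinearEquiv.neg ℝ : E d ≃L[ℝ] E d).comp_right_fderiv (f := g) (x := x)
    rw [h1] at h2
    simp only [hψ]
    rw [h2]
    simp
  have hψle : ∀ x, ψ x ≤ 2 := fun x => (Pool.Agent.TH591.Ns.fderiv_le_g hg x γ).trans hγ
  have habs : ∀ x, |ψ x| ≤ 2 := by
    intro x
    rw [abs_le]
    refine ⟨?_, hψle x⟩
    have := hψle (-x)
    rw [hodd] at this
    linarith
  set c : ℝ := 8 / 5 * (r + 1) / d with hc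
  have hd0 : (0 : ℝ) < d := by exact_mod_cast hd
  have hc0 : 0 ≤ c := by positivity
  set F : E d → ℝ := fun x => max (|ψ x| - ε') 0 with hF
  have hFm : Measurable F := ((hmeas.abs).sub_const ε').max measurable_const
  have hF0 : ∀ x, 0 ≤ F x := fun x => le_max_right _ _
  have hF2 : ∀ x, F x ≤ 2 := by
    intro x
    refine max_le ?_ (by norm_num)
    have := habs x
    linarith
  have hwt : ∀ t : ℝ, 0 < t → (mP P) {x | t ≤ F x} ≤ ENNReal.ofReal (2 * (c / t)) := by
    intro t ht
    have hb1 : volume {x | x ∈ P ∧ ε' + t ≤ -ψ x} ≤ ENNReal.ofReal (c / t) * volume P := by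
      have := hw t ht
      have e : 8 / 5 * (r + 1) / (d * t) = c / t := by
        rw [hc]; field_simp
      rw [e] at this
      exact this
    have hb2 : volume {x | x ∈ P ∧ ε' + t ≤ ψ x} ≤ ENNReal.ofReal (c / t) * volume P := by
      have e : {x | x ∈ P ∧ ε' + t ≤ ψ x} =
          (fun x => -x) ⁻¹' {x | x ∈ P ∧ ε' + t ≤ -ψ x} := by
        ext x
        simp only [Set.mem_ofPred_eq, Set.mem_preimage, hodd, neg_neg]
        constructor
        · rintro ⟨h1, h2⟩; exact ⟨hP.sym x h1, h2⟩
        · rintro ⟨h1, h2⟩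
          refine ⟨?_, h2⟩
          have := hP.sym _ h1
          rwa [neg_neg] at this
      rw [e, Measure.measure_preimage_neg]
      exact hb1
    have hsub : {x | t ≤ F x} ∩ P ⊆ {x | x ∈ P ∧ ε' + t ≤ -ψ x} ∪ {x | x ∈ P ∧ ε' + t ≤ ψ x} := by
      rintro x ⟨hx, hxP⟩
      have h1 : t ≤ |ψ x| - ε' := by
        rcases le_max_iff.1 (show t ≤ max (|ψ x| - ε') 0 from hx) with h | h
        · exact h
        · linarith
      rcases abs_cases (ψ x) with ⟨h2, _⟩ | ⟨h2, _⟩
      · right; exact ⟨hxP, by linarith⟩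
      · left; exact ⟨hxP, by linarith⟩
    have hm : MeasurableSet {x | t ≤ F x} := measurableSet_le measurable_const hFm
    rw [mP, Measure.smul_apply, Measure.restrict_apply hm, smul_eq_mul]
    calc (volume P)⁻¹ * volume ({x | t ≤ F x} ∩ P)
        ≤ (volume P)⁻¹ * (ENNReal.ofReal (c / t) * volume P + ENNReal.ofReal (c / t) * volume P) := by
          gcongr
          exact (measure_mono hsub).trans ((measure_union_le _ _).trans (add_le_add hb1 hb2))
      _ = ENNReal.ofReal (2 * (c / t)) * (volume P * (volume P)⁻¹) := by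
          rw [two_mul, ENNReal.ofReal_add (by positivity) (by positivity)]
          ring
      _ = _ := by rw [ENNReal.mul_inv_cancel hvol0 hvolt, mul_one]
  have hwt2 : ∀ t : ℝ, 2 < t → (mP P) {x | t ≤ F x} = 0 := by
    intro t ht
    have : {x | t ≤ F x} = ∅ := by
      ext x
      simp only [Set.mem_ofPred_eq, Set.mem_empty_iff_false, iff_false, not_le]
      exact (hF2 x).trans_lt ht
    rw [this, measure_empty]
  -- layer cake
  have hlc : ∫⁻ x, ENNReal.ofReal (F x ^ (2 : ℝ)) ∂(mP P) ≤ ENNReal.ofReal (8 * c) := by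
    rw [lintegral_rpow_eq_lintegral_meas_le_mul (mP P) (Filter.Eventually.of_forall hF0)
      hFm.aemeasurable (by norm_num : (0 : ℝ) < 2)]
    have hb : ∫⁻ t in Ioi (0 : ℝ), (mP P) {x | t ≤ F x} * ENNReal.ofReal (t ^ ((2 : ℝ) - 1)) ≤
        ∫⁻ t in Ioi (0 : ℝ), (Ioc (0 : ℝ) 2).indicator (fun _ => ENNReal.ofReal (2 * c)) t := by
      refine setLIntegral_mono' measurableSet_Ioi ?_
      intro t ht
      have ht0 : (0 : ℝ) < t := ht
      by_cases h2 : t ≤ 2
      · rw [Set.indicator_of_mem (show t ∈ Ioc (0 : ℝ) 2 from ⟨ht0, h2⟩)]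
        calc (mP P) {x | t ≤ F x} * ENNReal.ofReal (t ^ ((2 : ℝ) - 1))
            ≤ ENNReal.ofReal (2 * (c / t)) * ENNReal.ofReal (t ^ ((2 : ℝ) - 1)) := by
              gcongr
              exact hwt t ht0
          _ = ENNReal.ofReal (2 * c) := by
              rw [← ENNReal.ofReal_mul (by positivity)]
              congr 1
              have : t ^ ((2 : ℝ) - 1) = t := by norm_num
              rw [this]
              field_simp
      · rw [hwt2 t (not_le.1 h2), zero_mul]
        exact bot_le
    calc ENNReal.ofReal 2 * ∫⁻ t in Ioi (0 : ℝ), (mP P) {x | t ≤ F x} *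
          ENNReal.ofReal (t ^ ((2 : ℝ) - 1))
        ≤ ENNReal.ofReal 2 * ∫⁻ t in Ioi (0 : ℝ),
            (Ioc (0 : ℝ) 2).indicator (fun _ => ENNReal.ofReal (2 * c)) t := by gcongr
      _ ≤ ENNReal.ofReal 2 * ∫⁻ t, (Ioc (0 : ℝ) 2).indicator (fun _ => ENNReal.ofReal (2 * c)) t := by
          gcongr
          exact Measure.restrict_le_self
      _ = ENNReal.ofReal (8 * c) := by
          rw [lintegral_indicator measurableSet_Ioc, setLIntegral_const, Real.volume_Ioc,
            ← ENNReal.ofReal_mul (by positivity), ← ENNReal.ofReal_mul (by norm_num)]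
          congr 1
          ring
  have hFi : Integrable (fun x => F x ^ 2) (mP P) := by
    refine Integrable.of_bound (hFm.pow_const 2).aestronglyMeasurable 4
      (Filter.Eventually.of_forall fun x => ?_)
    rw [Real.norm_of_nonneg (by positivity)]
    nlinarith [hF0 x, hF2 x]
  have hFint : ∫ x, F x ^ 2 ∂(mP P) ≤ 8 * c := by
    rw [integral_eq_lintegral_of_nonneg_ae (Filter.Eventually.of_forall fun x => by positivity)
      (hFm.pow_const 2).aestronglyMeasurable]
    refine ENNReal.toReal_le_of_le_ofReal (by positivity) ?_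
    refine le_trans (le_of_eq ?_) hlc
    refine lintegral_congr fun x => ?_
    congr 1
    exact (Real.rpow_two _).symm
  have hψi : Integrable (fun x => ψ x ^ 2) (mP P) := by
    refine Integrable.of_bound (hmeas.pow_const 2).aestronglyMeasurable 4
      (Filter.Eventually.of_forall fun x => ?_)
    rw [Real.norm_of_nonneg (by positivity), ← sq_abs]
    nlinarith [habs x, abs_nonneg (ψ x)]
  calc ∫ z, ψ z ^ 2 ∂(mP P) ≤ ∫ z, (2 * ε' ^ 2 + 2 * F z ^ 2) ∂(mP P) := by
        refine integral_mono hψi ((integrable_const _).add (hFi.const_mul 2)) ?_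
        intro x
        have h1 : |ψ x| ≤ ε' + F x := by
          have := le_max_left (|ψ x| - ε') 0
          simp only [hF]
          linarith
        have h2 : ψ x ^ 2 = |ψ x| ^ 2 := (sq_abs _).symm
        simp only
        rw [h2]
        nlinarith [abs_nonneg (ψ x), hF0 x, sq_nonneg (ε' - F x)]
    _ = 2 * ε' ^ 2 + 2 * ∫ z, F z ^ 2 ∂(mP P) := by
        rw [integral_add (integrable_const _) (hFi.const_mul 2), integral_const, integral_const_mul]
        simp
    _ ≤ 2 * ε' ^ 2 + 128 / 5 * (r + 1) / d := by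
        have : 2 * (8 * c) = 128 / 5 * (r + 1) / d := by rw [hc]; ring
        linarith

end Pool.Agent.T2h52.SP
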