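import Pool.Agent.T2h52.SP.Stm3
import Pool.Agent.N555.RZ.MainA

/-!
Task SMP: sampling, about `d log d` points with a large covariance.
-/

set_option autoImplicit false

namespace Pool.Agent.T2h52.SP

open MeasureTheory Set Filter Topology
open scoped ENNReal InnerProductSpace Pointwise
open Pool.Agent.N555.RZ (mP mP_prob mom_inner int_K)

theorem smp_log {d : ℕ} (hd : 2 ≤ d) : 1 ≤ Real.log (d + 1) := by
  have h1 : Real.exp 1 ≤ (d : ℝ) + 1 := by
    have h2 : (2 : ℝ) ≤ d := by exact_mod_cast hd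
    have h3 := Real.exp_one_lt_d9
    linarith
  exact (Real.le_log_iff_exp_le (by positivity)).2 h1

/-- numbers: the union bound over the net -/
theorem smp_num {d N : ℕ} (hd : 2 ≤ d) (hN1 : 10 ^ 12 * ((d : ℝ) * Real.log (d + 1)) ≤ N)
    (hN2 : (N : ℝ) ≤ 2 * 10 ^ 12 * (d * Real.log (d + 1))) :
    (3 / (1 / (40 * Real.sqrt (d * N)))) ^ d * Real.exp (-(8 / 10 ^ 10 * N / 8)) ≤ 1 / 2 := by
  have hd' : (2 : ℝ) ≤ d := by exact_mod_cast hd
  have hL1 := smp_log hd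
  set L : ℝ := Real.log (d + 1) with hL
  have hLd : L ≤ (d : ℝ) + 1 := by
    have := Real.log_le_sub_one_of_pos (show (0 : ℝ) < (d : ℝ) + 1 by positivity)
    linarith
  have hexp : Real.exp L = (d : ℝ) + 1 := Real.exp_log (by positivity)
  have e1 : 3 / (1 / (40 * Real.sqrt (d * N))) = 120 * Real.sqrt (d * N) := by
    rw [div_div_eq_mul_div, div_one]
    ring
  have h1 : 120 * Real.sqrt (d * N) ≤ ((d : ℝ) + 1) ^ 20 := by
    have h2 : 120 * Real.sqrt (d * N) = Real.sqrt (14400 * (d * N)) := by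
      have h20 : Real.sqrt (14400 : ℝ) = 120 := by
        rw [show (14400 : ℝ) = 120 ^ 2 by norm_num]
        exact Real.sqrt_sq (by norm_num)
      have h21 : Real.sqrt ((14400 : ℝ) * (d * N)) = Real.sqrt 14400 * Real.sqrt (d * N) :=
        Real.sqrt_mul (by norm_num) _
      rw [h21, h20]
    rw [h2]
    apply Real.sqrt_le_iff.2
    refine ⟨by positivity, ?_⟩
    have h3 : (d : ℝ) * N ≤ 2 * 10 ^ 12 * ((d : ℝ) + 1) ^ 3 := by
      calc (d : ℝ) * N ≤ d * (2 * 10 ^ 12 * (d * L)) :=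
            mul_le_mul_of_nonneg_left hN2 (by positivity)
        _ ≤ ((d : ℝ) + 1) * (2 * 10 ^ 12 * (((d : ℝ) + 1) * ((d : ℝ) + 1))) := by
            gcongr <;> linarith
        _ = _ := by ring
    have h4 : (3 : ℝ) ^ 37 ≤ ((d : ℝ) + 1) ^ 37 := pow_le_pow_left₀ (by norm_num) (by linarith) _
    have h5 : (14400 : ℝ) * (2 * 10 ^ 12) ≤ 3 ^ 37 := by norm_num
    have h6 : (0 : ℝ) ≤ ((d : ℝ) + 1) ^ 3 := by positivity
    calc 14400 * ((d : ℝ) * N) ≤ 14400 * (2 * 10 ^ 12 * ((d : ℝ) + 1) ^ 3) :=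
          mul_le_mul_of_nonneg_left h3 (by norm_num)
      _ = 14400 * (2 * 10 ^ 12) * ((d : ℝ) + 1) ^ 3 := by ring
      _ ≤ ((d : ℝ) + 1) ^ 37 * ((d : ℝ) + 1) ^ 3 :=
          mul_le_mul_of_nonneg_right (h5.trans h4) h6
      _ = (((d : ℝ) + 1) ^ 20) ^ 2 := by ring
  have h2 : (3 / (1 / (40 * Real.sqrt (d * N)))) ^ d ≤ Real.exp (20 * (d * L)) := by
    rw [e1]
    calc (120 * Real.sqrt (d * N)) ^ d ≤ (((d : ℝ) + 1) ^ 20) ^ d :=
          pow_le_pow_left₀ (by positivity) h1 _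
      _ = Real.exp (20 * (d * L)) := by
          rw [← hexp, ← Real.exp_nat_mul, ← Real.exp_nat_mul]
          congr 1
          push_cast
          ring
  have h3 : Real.exp (-(8 / 10 ^ 10 * N / 8)) ≤ Real.exp (-(100 * (d * L))) := by
    apply Real.exp_le_exp.2
    linarith
  have hdL : 1 ≤ (d : ℝ) * L := by nlinarith
  calc (3 / (1 / (40 * Real.sqrt (d * N)))) ^ d * Real.exp (-(8 / 10 ^ 10 * N / 8))
      ≤ Real.exp (20 * (d * L)) * Real.exp (-(100 * (d * L))) :=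
        mul_le_mul h2 h3 (Real.exp_pos _).le (Real.exp_pos _).le
    _ = Real.exp (-(80 * (d * L))) := by
        rw [← Real.exp_add]
        congr 1
        ring
    _ ≤ Real.exp (-1) := Real.exp_le_exp.2 (by linarith)
    _ ≤ 1 / 2 := by
        rw [Real.exp_neg, one_div]
        apply inv_anti₀ (by norm_num)
        have := Real.add_one_le_exp (1 : ℝ)
        linarith

/-- the deterministic part -/
theorem smp_det {d N : ℕ} (S : Finset (E d)) (X : Fin N → E d) (hN : 1 ≤ N) (hd : 1 ≤ d)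
    (hS : ∀ w : E d, ‖w‖ = 1 → ∃ s ∈ S, ‖w - s‖ ≤ 1 / (40 * Real.sqrt (d * N)))
    (hX : ∀ i, ‖X i‖ ^ 2 < 100 * (d * N))
    (hc : ∀ s ∈ S, 8 / 10 ^ 10 * N / 2 ≤
      ∑ i, ({x : E d | 1 / 2 ≤ |⟪x, s⟫_ℝ|}).indicator (fun _ => (1 : ℝ)) (X i)) (w : E d) :
    8 / 10 ^ 10 / 32 * N * ‖w‖ ^ 2 ≤ ∑ i, ⟪X i, w⟫_ℝ ^ 2 := by
  rcases eq_or_ne w 0 with rfl | hw
  · simp
  have hw0 : 0 < ‖w‖ := norm_pos_iff.2 hw
  have hN' : (1 : ℝ) ≤ N := by exact_mod_cast hN
  have hd' : (1 : ℝ) ≤ d := by exact_mod_cast hd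
  have hdN : (0 : ℝ) < d * N := by positivity
  have hsq : 0 < Real.sqrt (d * N) := Real.sqrt_pos.2 hdN
  set u : E d := ‖w‖⁻¹ • w with hu
  have hu1 : ‖u‖ = 1 := by
    rw [hu, norm_smul, norm_inv, norm_norm, inv_mul_cancel₀ hw0.ne']
  obtain ⟨s, hs, hsu⟩ := hS u hu1
  have hR : ∀ i, ‖X i‖ ≤ 10 * Real.sqrt (d * N) := by
    intro i
    apply abs_le_of_sq_le_sq' _ (by positivity) |>.2
    rw [mul_pow, Real.sq_sqrt hdN.le]
    have := hX i
    linarith
  have hterm : ∀ i, (1 / 16 : ℝ) *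
      ({x : E d | 1 / 2 ≤ |⟪x, s⟫_ℝ|}).indicator (fun _ => (1 : ℝ)) (X i) ≤ ⟪X i, u⟫_ℝ ^ 2 := by
    intro i
    by_cases hi : X i ∈ {x : E d | 1 / 2 ≤ |⟪x, s⟫_ℝ|}
    · rw [indicator_of_mem hi, mul_one]
      have h1 : 1 / 2 ≤ |⟪X i, s⟫_ℝ| := hi
      have h2 : ⟪X i, s⟫_ℝ = ⟪X i, u⟫_ℝ - ⟪X i, u - s⟫_ℝ := by
        rw [inner_sub_right]
        ring
      have h3 : |⟪X i, u - s⟫_ℝ| ≤ 1 / 4 := by
        calc |⟪X i, u - s⟫_ℝ| ≤ ‖X i‖ * ‖u - s‖ := abs_real_inner_le_norm _ _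
          _ ≤ (10 * Real.sqrt (d * N)) * (1 / (40 * Real.sqrt (d * N))) :=
              mul_le_mul (hR i) hsu (norm_nonneg _) (by positivity)
          _ = 1 / 4 := by field_simp; norm_num
      have h4 : |⟪X i, s⟫_ℝ| ≤ |⟪X i, u⟫_ℝ| + |⟪X i, u - s⟫_ℝ| := by
        rw [h2]
        exact abs_sub _ _
      have h5 : 1 / 4 ≤ |⟪X i, u⟫_ℝ| := by linarith
      rw [← sq_abs]
      nlinarith
    · rw [indicator_of_notMem hi, mul_zero]
      positivity
  have hsum : 8 / 10 ^ 10 / 32 * (N : ℝ) ≤ ∑ i, ⟪X i, u⟫_ℝ ^ 2 := by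
    calc 8 / 10 ^ 10 / 32 * (N : ℝ) = 1 / 16 * (8 / 10 ^ 10 * N / 2) := by ring
      _ ≤ 1 / 16 * ∑ i, ({x : E d | 1 / 2 ≤ |⟪x, s⟫_ℝ|}).indicator (fun _ => (1 : ℝ)) (X i) :=
          mul_le_mul_of_nonneg_left (hc s hs) (by norm_num)
      _ = ∑ i, (1 / 16 : ℝ) *
          ({x : E d | 1 / 2 ≤ |⟪x, s⟫_ℝ|}).indicator (fun _ => (1 : ℝ)) (X i) := by
          rw [Finset.mul_sum]
      _ ≤ _ := Finset.sum_le_sum fun i _ => hterm i
  have hw2 : w = ‖w‖ • u := by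
    rw [hu, smul_smul, mul_inv_cancel₀ hw0.ne', one_smul]
  calc 8 / 10 ^ 10 / 32 * (N : ℝ) * ‖w‖ ^ 2 ≤ (∑ i, ⟪X i, u⟫_ℝ ^ 2) * ‖w‖ ^ 2 :=
        mul_le_mul_of_nonneg_right hsum (by positivity)
    _ = ∑ i, ⟪X i, w⟫_ℝ ^ 2 := by
        rw [Finset.sum_mul]
        refine Finset.sum_congr rfl fun i _ => ?_
        conv_rhs => rw [hw2, real_inner_smul_right]
        ring

theorem smp_sq {d : ℕ} {P : Set (E d)} (hP : Bd P) (hiso : Iso P) (h0 : volume P ≠ 0) :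
    Integrable (fun x : E d => ‖x‖ ^ 2) (mP P) ∧ ∫ x, ‖x‖ ^ 2 ∂(mP P) = d := by
  have i0 : Integrable (fun x : E d => ‖x‖ ^ 2) (mP P) := int_K hP.comp h0 (by fun_prop)
  refine ⟨i0, ?_⟩
  have h1 : ∀ x : E d, ‖x‖ ^ 2 = ∑ j, ⟪x, EuclideanSpace.single j (1 : ℝ)⟫_ℝ ^ 2 := by
    intro x
    rw [EuclideanSpace.norm_sq_eq]
    refine Finset.sum_congr rfl fun j _ => ?_
    rw [real_inner_comm, EuclideanSpace.inner_single_left]
    simp
  simp_rw [h1]
  rw [integral_finsetSum _ fun j _ => int_K hP.comp h0 (by fun_prop)]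
  rw [Finset.sum_congr rfl fun j _ => hiso (EuclideanSpace.single j (1 : ℝ))]
  simp

theorem smp (hBIN : T_BIN) (hNET : T_NET) (hPZD : T_PZD) : T_SMP := by
  intro d P hd hP hiso
  have hK0 : P ∈ 𝓝 0 := mem_interior_iff_mem_nhds.1 hP.int
  have hPm : MeasurableSet P := hP.comp.isClosed.measurableSet
  have hfin : volume P ≠ ⊤ := hP.comp.measure_lt_top.ne
  have h0 : volume P ≠ 0 := (Measure.measure_pos_of_mem_nhds volume hK0).ne'
  have hprob := mP_prob h0 hfin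
  have hd' : (2 : ℝ) ≤ d := by exact_mod_cast hd
  have hL1 := smp_log hd
  obtain ⟨isq, esq⟩ := smp_sq hP hiso h0
  set L : ℝ := Real.log (d + 1) with hL
  have hdL : 1 ≤ (d : ℝ) * L := by nlinarith
  set N : ℕ := ⌈10 ^ 12 * ((d : ℝ) * L)⌉₊ with hN
  have hN1 : 10 ^ 12 * ((d : ℝ) * L) ≤ N := Nat.le_ceil _
  have hN2 : (N : ℝ) ≤ 2 * 10 ^ 12 * (d * L) := by
    have := Nat.ceil_lt_add_one (show (0 : ℝ) ≤ 10 ^ 12 * ((d : ℝ) * L) by positivity)
    rw [← hN] at this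
    linarith
  have hNpos : 1 ≤ N := by
    have : (1 : ℝ) ≤ N := by linarith
    exact_mod_cast this
  have hNr : (1 : ℝ) ≤ N := by exact_mod_cast hNpos
  have hdN : (0 : ℝ) < d * N := by positivity
  have hdN1 : (1 : ℝ) ≤ Real.sqrt (d * N) := by
    rw [Real.one_le_sqrt]
    nlinarith
  set δ : ℝ := 1 / (40 * Real.sqrt (d * N)) with hδ
  have hδ0 : 0 < δ := by positivity
  have hδ1 : δ ≤ 1 := by
    rw [hδ, div_le_one (by positivity)]
    linarith
  obtain ⟨S, hS1, hSc, hS⟩ := hNET d δ (by omega) hδ0 hδ1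
  set ν : Measure (Fin N → E d) := Measure.pi (fun _ : Fin N => mP P) with hν
  have hνp : IsProbabilityMeasure ν := by rw [hν]; infer_instance
  -- the bad events
  let A : Fin N → Set (Fin N → E d) := fun i => {X | X i ∈ Pᶜ}
  let B : Fin N → Set (Fin N → E d) := fun i => {X | X i ∈ {x : E d | 100 * ((d : ℝ) * N) ≤ ‖x‖ ^ 2}}
  let T : E d → Set (E d) := fun s => {x : E d | 1 / 2 ≤ |⟪x, s⟫_ℝ|}
  let C : E d → Set (Fin N → E d) := fun s =>
    {X | (∑ i, (T s).indicator (fun _ => (1 : ℝ)) (X i)) < 8 / 10 ^ 10 * N / 2}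
  have hev : ∀ (i : Fin N) (D : Set (E d)), MeasurableSet D → ν.real {X | X i ∈ D} = (mP P).real D := by
    intro i D hD
    have h1 := (measurePreserving_eval (fun _ : Fin N => mP P) i).measure_preimage
      hD.nullMeasurableSet
    rw [Measure.real, Measure.real, ← h1]
    rfl
  have hA : ∀ i, ν.real (A i) = 0 := by
    intro i
    rw [hev i Pᶜ hPm.compl, Measure.real, mP, Measure.smul_apply, Measure.restrict_apply hPm.compl]
    simp
  have hB : ∀ i, ν.real (B i) ≤ 1 / (100 * N) := by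
    intro i
    have hm : MeasurableSet {x : E d | 100 * ((d : ℝ) * N) ≤ ‖x‖ ^ 2} :=
      (isClosed_le continuous_const (by fun_prop)).measurableSet
    rw [hev i _ hm]
    have h1 := mul_meas_ge_le_integral_of_nonneg (μ := mP P) (f := fun x : E d => ‖x‖ ^ 2)
      (Eventually.of_forall fun x => by positivity) isq (100 * ((d : ℝ) * N))
    rw [esq] at h1
    have h2 : (mP P).real {x : E d | 100 * ((d : ℝ) * N) ≤ ‖x‖ ^ 2} ≤ d / (100 * (d * N)) := by
      rw [le_div_iff₀ (by positivity)]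
      linarith
    refine h2.trans (le_of_eq ?_)
    have hd0 : (d : ℝ) ≠ 0 := by positivity
    field_simp
  have hC : ∀ s ∈ S, ν.real (C s) ≤ Real.exp (-(8 / 10 ^ 10 * N / 8)) := by
    intro s hs
    refine hBIN d N (mP P) (T s) (8 / 10 ^ 10) hprob ?_ (by norm_num) (hPZD d P hP hiso s (hS1 s hs))
    exact (isClosed_le continuous_const (by fun_prop : Continuous fun x : E d => |⟪x, s⟫_ℝ|)).measurableSet
  have hgood : ∃ X : Fin N → E d, (∀ i, X ∉ A i) ∧ (∀ i, X ∉ B i) ∧ ∀ s ∈ S, X ∉ C s := by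
    by_contra hne
    push Not at hne
    have hcov : (univ : Set (Fin N → E d)) ⊆ ((⋃ i, A i) ∪ ⋃ i, B i) ∪ ⋃ s ∈ S, C s := by
      intro X _
      by_cases h1 : ∀ i, X ∉ A i
      · by_cases h2 : ∀ i, X ∉ B i
        · obtain ⟨s, hs, hs'⟩ := hne X h1 h2
          exact Or.inr (mem_iUnion₂.2 ⟨s, hs, hs'⟩)
        · push Not at h2
          exact Or.inl (Or.inr (mem_iUnion.2 h2))
      · push Not at h1
        exact Or.inl (Or.inl (mem_iUnion.2 h1))
    have h1 : (1 : ℝ) ≤ ν.real (((⋃ i, A i) ∪ ⋃ i, B i) ∪ ⋃ s ∈ S, C s) := by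
      rw [← probReal_univ (μ := ν)]
      exact measureReal_mono hcov
    have h2 : ν.real (⋃ i, A i) ≤ 0 :=
      (measureReal_iUnion_fintype_le _).trans (le_of_eq (Finset.sum_eq_zero fun i _ => hA i))
    have h3 : ν.real (⋃ i, B i) ≤ 1 / 100 := by
      refine (measureReal_iUnion_fintype_le _).trans ((Finset.sum_le_sum fun i _ => hB i).trans ?_)
      rw [Finset.sum_const, Finset.card_univ, Fintype.card_fin, nsmul_eq_mul]
      refine le_of_eq ?_
      have : (N : ℝ) ≠ 0 := by positivity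
      field_simp
    have h4 : ν.real (⋃ s ∈ S, C s) ≤ 1 / 2 := by
      refine (measureReal_biUnion_finset_le _ _).trans ((Finset.sum_le_sum hC).trans ?_)
      rw [Finset.sum_const, nsmul_eq_mul]
      exact (mul_le_mul_of_nonneg_right hSc (Real.exp_pos _).le).trans (smp_num hd hN1 hN2)
    have h5 := measureReal_union_le (μ := ν) ((⋃ i, A i) ∪ ⋃ i, B i) (⋃ s ∈ S, C s)
    have h6 := measureReal_union_le (μ := ν) (⋃ i, A i) (⋃ i, B i)
    linarith
  obtain ⟨X, hXA, hXB, hXC⟩ := hgood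
  refine ⟨N, X, hNpos, hN2, fun i => ?_, fun w => ?_⟩
  · by_contra h
    exact hXA i h
  · refine smp_det S X hNpos (by omega) hS (fun i => ?_) (fun s hs => ?_) w
    · exact not_le.1 (hXB i)
    · exact not_lt.1 (hXC s hs)

end Pool.Agent.T2h52.SP
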