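import Pool.Agent.T2h52.SP.Stm

set_option autoImplicit false

namespace Pool.Agent.T2h52.SP.SNHx

open MeasureTheory Set Filter Topology
open scoped ENNReal InnerProductSpace Pointwise
open Pool.Agent.R755.KF (PB)
open Pool.Agent.T2h52.SP

variable {d : ℕ}

lemma int_c {B : ℝ} {ν : Measure (E d)} (h : PB B ν) {f : E d → ℝ} (hf : Continuous f) :
    Integrable f ν := by
  have := h.prob
  obtain ⟨C, hC⟩ := (isCompact_closedBall (0 : E d) B).exists_bound_of_continuousOn hf.continuousOn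
  refine Integrable.of_bound hf.aestronglyMeasurable C ?_
  filter_upwards [h.bdd] with x hx
  exact hC x (by simpa using hx)

lemma exp_rem (t : ℝ) : |Real.exp t - (1 + t + t ^ 2 / 2)| ≤ |t| ^ 3 * Real.exp |t| := by
  have h := Complex.norm_exp_sub_sum_le_norm_mul_exp (t : ℂ) 3
  have e : Complex.exp (t : ℂ) - ∑ m ∈ Finset.range 3, (t : ℂ) ^ m / (m.factorial : ℂ) =
      ((Real.exp t - (1 + t + t ^ 2 / 2) : ℝ) : ℂ) := by
    simp [Finset.sum_range_succ, Nat.factorial]
  rw [e, Complex.norm_real, Complex.norm_real, Real.norm_eq_abs, Real.norm_eq_abs] at h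
  exact h

lemma sinh_rem (t : ℝ) : Real.sinh t ≤ t + |t| ^ 3 * Real.exp |t| := by
  have h1 := abs_le.mp (exp_rem t)
  have h2 := abs_le.mp (exp_rem (-t))
  rw [abs_neg] at h2
  rw [Real.sinh_eq]
  have h3 := h1.2
  have h4 := h2.1
  have h5 : (-t) ^ 2 = t ^ 2 := by ring
  rw [h5] at h4
  linarith

lemma sinh_bd (τ u : ℝ) (h0 : 0 ≤ τ) (h1 : τ ≤ 1 / 10) :
    Real.sinh (τ * u) ≤ τ * u + 9 * τ ^ 3 * Real.exp |u| := by
  have h := sinh_rem (τ * u)
  rw [abs_mul, abs_of_nonneg h0] at h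
  have hu := abs_nonneg u
  have h2 := Real.pow_div_factorial_le_exp (x := 9 / 10 * |u|) (by positivity) 3
  have h3 : |u| ^ 3 ≤ 9 * Real.exp (9 / 10 * |u|) := by
    have h4 : ((3 : ℕ).factorial : ℝ) = 6 := by norm_num [Nat.factorial]
    rw [h4] at h2
    have h5 := Real.exp_pos (9 / 10 * |u|)
    nlinarith
  have h4 : Real.exp (τ * |u|) ≤ Real.exp (1 / 10 * |u|) :=
    Real.exp_le_exp.mpr (mul_le_mul_of_nonneg_right h1 hu)
  have h5 : Real.exp (9 / 10 * |u|) * Real.exp (1 / 10 * |u|) = Real.exp |u| := by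
    rw [← Real.exp_add]
    congr 1
    ring
  have h6 : |u| ^ 3 * Real.exp (τ * |u|) ≤ 9 * Real.exp |u| := by
    calc |u| ^ 3 * Real.exp (τ * |u|) ≤ (9 * Real.exp (9 / 10 * |u|)) * Real.exp (1 / 10 * |u|) :=
          mul_le_mul h3 h4 (Real.exp_pos _).le (by positivity)
      _ = 9 * Real.exp |u| := by rw [mul_assoc, h5]
  have h7 : (τ * |u|) ^ 3 * Real.exp (τ * |u|) ≤ 9 * τ ^ 3 * Real.exp |u| := by
    calc (τ * |u|) ^ 3 * Real.exp (τ * |u|) = τ ^ 3 * (|u| ^ 3 * Real.exp (τ * |u|)) := by ring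
      _ ≤ τ ^ 3 * (9 * Real.exp |u|) := mul_le_mul_of_nonneg_left h6 (by positivity)
      _ = _ := by ring
  linarith

lemma sq_exp (s : ℝ) : s ^ 2 ≤ 800 * Real.exp (|s| / 20) := by
  have h2 := Real.pow_div_factorial_le_exp (x := |s| / 20) (by positivity) 2
  have h4 : ((2 : ℕ).factorial : ℝ) = 2 := by norm_num [Nat.factorial]
  rw [h4, div_pow, sq_abs] at h2
  linarith

theorem snh : T_SNH := by
  intro d H M B ν hd hM hH hν hmean hexp
  have hprob := hν.prob
  have hM0 : 0 < M := by linarith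
  have hd1 : (1 : ℝ) ≤ d := by exact_mod_cast hd
  have hd0 : (0 : ℝ) < d := by linarith
  have hsd : 1 ≤ Real.sqrt d := Real.one_le_sqrt.mpr hd1
  have hH0 : 0 < H := lt_of_lt_of_le (by positivity) hH
  -- second moments
  have hci : ∀ w : E d, Continuous fun x : E d => ⟪x, w⟫_ℝ := fun w =>
    continuous_id.inner continuous_const
  have hci2 : ∀ w : E d, Continuous fun x : E d => ⟪x, w⟫_ℝ ^ 2 := fun w => (hci w).pow 2
  have hs : ∀ w : E d, ∫ x, ⟪x, w⟫_ℝ ^ 2 ∂ν ≤ 800 * M * ‖w‖ ^ 2 := by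
    intro w
    rcases eq_or_ne w 0 with rfl | hw
    · simp
    have hw0 : 0 < ‖w‖ := norm_pos_iff.mpr hw
    have h1 : ∫ x, ⟪x, ‖w‖⁻¹ • w⟫_ℝ ^ 2 ∂ν ≤ 800 * M := by
      calc ∫ x, ⟪x, ‖w‖⁻¹ • w⟫_ℝ ^ 2 ∂ν ≤ ∫ x, 800 * Real.exp (|⟪x, ‖w‖⁻¹ • w⟫_ℝ| / 20) ∂ν := by
            refine integral_mono (int_c hν ((hci _).pow 2)) (int_c hν ?_) fun x => sq_exp _
            exact continuous_const.mul (Real.continuous_exp.comp ((hci _).abs.div_const _))
        _ = 800 * ∫ x, Real.exp (|⟪x, ‖w‖⁻¹ • w⟫_ℝ| / 20) ∂ν := integral_const_mul _ _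
        _ ≤ 800 * M := by
            have := hexp (‖w‖⁻¹ • w) (by rw [norm_smul, norm_inv, norm_norm,
              inv_mul_cancel₀ hw0.ne'])
            linarith
    have h2 : ∀ x : E d, ⟪x, w⟫_ℝ ^ 2 = ‖w‖ ^ 2 * ⟪x, ‖w‖⁻¹ • w⟫_ℝ ^ 2 := by
      intro x
      rw [real_inner_smul_right]
      field_simp
    simp only [h2]
    rw [integral_const_mul]
    nlinarith [sq_nonneg ‖w‖]
  have hn : ∫ x, ‖x‖ ^ 2 ∂ν ≤ 800 * M * d := by
    have h1 : ∀ x : E d, ‖x‖ ^ 2 = ∑ i : Fin d, ⟪x, EuclideanSpace.single i (1 : ℝ)⟫_ℝ ^ 2 := by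
      intro x
      rw [EuclideanSpace.real_norm_sq_eq]
      refine Finset.sum_congr rfl fun i _ => ?_
      rw [EuclideanSpace.inner_single_right]
      simp
    simp only [h1]
    rw [integral_finsetSum _ fun i _ => int_c hν (hci2 _)]
    calc ∑ i : Fin d, ∫ x, ⟪x, EuclideanSpace.single i (1 : ℝ)⟫_ℝ ^ 2 ∂ν ≤
        ∑ i : Fin d, 800 * M := Finset.sum_le_sum fun i _ => by
          have := hs (EuclideanSpace.single i (1 : ℝ))
          simpa using this
      _ = 800 * M * d := by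
          rw [Finset.sum_const, Finset.card_univ, Fintype.card_fin, nsmul_eq_mul]
          ring
  set R : ℝ := Real.sqrt (1600 * M * d) with hR
  have hRsq : R ^ 2 = 1600 * M * d := Real.sq_sqrt (by positivity)
  have hR0 : 0 < R := Real.sqrt_pos.mpr (by positivity)
  set A : Set (E d) := Metric.closedBall 0 R with hA
  have hAm : MeasurableSet A := Metric.isClosed_closedBall.measurableSet
  -- Markov
  have hAc : ν.real Aᶜ ≤ 1 / 2 := by
    have h1 : ∫ x in Aᶜ, R ^ 2 ∂ν ≤ ∫ x in Aᶜ, ‖x‖ ^ 2 ∂ν := by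
      refine setIntegral_mono_on (integrable_const _) (int_c hν (by fun_prop)).integrableOn
        hAm.compl fun x hx => ?_
      have : R < ‖x‖ := by
        simpa [hA] using hx
      exact pow_le_pow_left₀ hR0.le this.le 2
    have h2 : ∫ x in Aᶜ, ‖x‖ ^ 2 ∂ν ≤ ∫ x, ‖x‖ ^ 2 ∂ν :=
      setIntegral_le_integral (int_c hν (by fun_prop)) (Eventually.of_forall fun x => sq_nonneg _)
    rw [setIntegral_const, smul_eq_mul, hRsq] at h1
    have h3 : ν.real Aᶜ * (1600 * M * d) ≤ 800 * M * d := h1.trans (h2.trans hn)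
    have h4 : 0 < M * d := by positivity
    by_contra hcon
    push Not at hcon
    nlinarith
  have hAr : ν.real A = 1 - ν.real Aᶜ := by
    have := probReal_compl_eq_one_sub (μ := ν) hAm
    linarith
  have hA1 : ν.real A ≤ 1 := measureReal_le_one
  -- the mean over `A`
  have hid : Integrable (fun x : E d => x) ν := by
    refine Integrable.of_bound aestronglyMeasurable_id B ?_
    exact hν.bdd
  set v : E d := ∫ x in A, x ∂ν with hv
  have hIA : ∀ w : E d, ∫ x in A, ⟪w, x⟫_ℝ ∂ν = ⟪w, v⟫_ℝ := fun w =>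
    integral_inner hid.integrableOn w
  have hvv : ‖v‖ ^ 2 ≤ 400 * M := by
    have h1 : ‖v‖ ^ 2 = - ∫ x in Aᶜ, ⟪x, v⟫_ℝ ∂ν := by
      have h2 := integral_add_compl hAm (int_c hν (hci v))
      rw [hmean v] at h2
      have h3 : ∫ x in A, ⟪x, v⟫_ℝ ∂ν = ‖v‖ ^ 2 := by
        simp only [real_inner_comm v]
        rw [hIA v, real_inner_self_eq_norm_sq]
      linarith
    have h2 : - ∫ x in Aᶜ, ⟪x, v⟫_ℝ ∂ν ≤ ∫ x in Aᶜ, (⟪x, v⟫_ℝ ^ 2 / (1600 * M) + 400 * M) ∂ν := by
      rw [← integral_neg]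
      refine integral_mono (int_c hν (hci v)).integrableOn.neg ?_ fun x => ?_
      · exact ((int_c hν ((hci v).pow 2)).integrableOn.div_const _).add (integrable_const _)
      · show -⟪x, v⟫_ℝ ≤ ⟪x, v⟫_ℝ ^ 2 / (1600 * M) + 400 * M
        rw [← sub_nonneg]
        have : ⟪x, v⟫_ℝ ^ 2 / (1600 * M) + 400 * M - -⟪x, v⟫_ℝ =
            (⟪x, v⟫_ℝ + 800 * M) ^ 2 / (1600 * M) := by
          field_simp
          ring
        rw [this]
        positivity
    have h3 : ∫ x in Aᶜ, (⟪x, v⟫_ℝ ^ 2 / (1600 * M) + 400 * M) ∂ν =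
        (∫ x in Aᶜ, ⟪x, v⟫_ℝ ^ 2 / (1600 * M) ∂ν) + ν.real Aᶜ * (400 * M) := by
      rw [integral_add ((int_c hν (hci2 v)).integrableOn.div_const _) (integrable_const _),
        setIntegral_const, smul_eq_mul]
    have h4 : ∫ x in Aᶜ, ⟪x, v⟫_ℝ ^ 2 / (1600 * M) ∂ν ≤ ‖v‖ ^ 2 / 2 := by
      calc ∫ x in Aᶜ, ⟪x, v⟫_ℝ ^ 2 / (1600 * M) ∂ν ≤ ∫ x, ⟪x, v⟫_ℝ ^ 2 / (1600 * M) ∂ν :=
            setIntegral_le_integral ((int_c hν ((hci v).pow 2)).div_const _)
              (Eventually.of_forall fun x => by positivity)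
        _ = (∫ x, ⟪x, v⟫_ℝ ^ 2 ∂ν) / (1600 * M) := integral_div _ _
        _ ≤ (800 * M * ‖v‖ ^ 2) / (1600 * M) := by
            gcongr
            exact hs v
        _ = ‖v‖ ^ 2 / 2 := by
            field_simp
            ring
    have h5 : ν.real Aᶜ * (400 * M) ≤ 200 * M := by nlinarith
    linarith
  refine ⟨A, hAm, ?_, ?_⟩
  · show 1 / 2 ≤ ν.real A
    linarith
  · set τ : ℝ := 20 * R / H with hτ
    have hτ0 : 0 ≤ τ := by positivity
    have hsq : R = 40 * Real.sqrt M * Real.sqrt d := by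
      rw [hR, show 1600 * M * (d : ℝ) = 40 ^ 2 * (M * d) by ring, Real.sqrt_mul (by norm_num),
        Real.sqrt_sq (by norm_num), Real.sqrt_mul hM0.le, mul_assoc]
    have hsM : 1 ≤ Real.sqrt M := Real.one_le_sqrt.mpr hM
    have hsMM : Real.sqrt M ^ 2 = M := Real.sq_sqrt hM0.le
    have hτ1 : τ * Real.sqrt M ≤ 8 / 100 := by
      rw [hτ, hsq, div_mul_eq_mul_div, div_le_iff₀ hH0]
      have : 20 * (40 * Real.sqrt M * Real.sqrt d) * Real.sqrt M = 800 * M * Real.sqrt d := by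
        rw [← hsMM]
        rw [Real.sqrt_sq (by positivity)]
        ring
      rw [this]
      nlinarith
    have hτ2 : τ ≤ 8 / 100 := le_trans (le_mul_of_one_le_right hτ0 hsM) hτ1
    have hτ3 : 9 * τ ^ 3 * M ≤ 1 / 100 := by
      have h1 : τ ^ 2 * M ≤ (8 / 100) ^ 2 := by
        calc τ ^ 2 * M = (τ * Real.sqrt M) ^ 2 := by rw [mul_pow, hsMM]
          _ ≤ _ := pow_le_pow_left₀ (by positivity) hτ1 2
      have h2 : 0 ≤ τ ^ 2 * M := by positivity
      calc 9 * τ ^ 3 * M = 9 * (τ * (τ ^ 2 * M)) := by ring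
        _ ≤ 9 * (8 / 100 * (8 / 100) ^ 2) := by
            gcongr
        _ ≤ 1 / 100 := by norm_num
    have hMH : 400 * M / H ≤ 1 / 25 := by
      rw [div_le_iff₀ hH0]
      nlinarith
    have hinner : ∀ x ∈ A, ∫ x' in A, Real.sinh (⟪x, x'⟫_ℝ / H) ∂ν ≤ ⟪x, v⟫_ℝ / H + 9 * τ ^ 3 * M := by
      intro x hx
      have hxR : ‖x‖ ≤ R := by simpa [hA] using hx
      have hxn : ‖R⁻¹ • x‖ ≤ 1 := by
        rw [norm_smul, norm_inv, Real.norm_of_nonneg hR0.le, inv_mul_le_iff₀ hR0, mul_one]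
        exact hxR
      have hT : ∀ x' : E d, ⟪x, x'⟫_ℝ / H = τ * (⟪x', R⁻¹ • x⟫_ℝ / 20) := by
        intro x'
        rw [real_inner_smul_right, real_inner_comm, hτ]
        field_simp
      have hce : Continuous fun x' : E d => Real.exp (|⟪x', R⁻¹ • x⟫_ℝ| / 20) :=
        Real.continuous_exp.comp ((hci _).abs.div_const _)
      calc ∫ x' in A, Real.sinh (⟪x, x'⟫_ℝ / H) ∂ν
          ≤ ∫ x' in A, (⟪x, x'⟫_ℝ / H + 9 * τ ^ 3 * Real.exp (|⟪x', R⁻¹ • x⟫_ℝ| / 20)) ∂ν := by
            refine integral_mono (int_c hν ?_).integrableOn (int_c hν ?_).integrableOn fun x' => ?_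
            · exact Real.continuous_sinh.comp ((continuous_const.inner continuous_id).div_const _)
            · exact ((continuous_const.inner continuous_id).div_const _).add
                (continuous_const.mul hce)
            · show Real.sinh (⟪x, x'⟫_ℝ / H) ≤ _
              have := sinh_bd τ (⟪x', R⁻¹ • x⟫_ℝ / 20) hτ0 (by linarith)
              rw [abs_div, abs_of_pos (by norm_num : (0 : ℝ) < 20), ← hT x'] at this
              exact this
        _ = (∫ x' in A, ⟪x, x'⟫_ℝ / H ∂ν) +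
            9 * τ ^ 3 * ∫ x' in A, Real.exp (|⟪x', R⁻¹ • x⟫_ℝ| / 20) ∂ν := by
            rw [integral_add, integral_const_mul]
            · exact (int_c hν ((continuous_const.inner continuous_id).div_const _)).integrableOn
            · exact (int_c hν (continuous_const.mul hce)).integrableOn
        _ ≤ ⟪x, v⟫_ℝ / H + 9 * τ ^ 3 * M := by
            have h1 : ∫ x' in A, ⟪x, x'⟫_ℝ / H ∂ν = ⟪x, v⟫_ℝ / H := by
              rw [integral_div, hIA]
            have h2 : ∫ x' in A, Real.exp (|⟪x', R⁻¹ • x⟫_ℝ| / 20) ∂ν ≤ M :=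
              (setIntegral_le_integral (int_c hν hce)
                (Eventually.of_forall fun x => (Real.exp_pos _).le)).trans (hexp _ hxn)
            have h3 : 0 ≤ 9 * τ ^ 3 := by positivity
            have := mul_le_mul_of_nonneg_left h2 h3
            linarith
    by_cases hint : Integrable (fun x => ∫ x' in A, Real.sinh (⟪x, x'⟫_ℝ / H) ∂ν) (ν.restrict A)
    · calc ∫ x in A, ∫ x' in A, Real.sinh (⟪x, x'⟫_ℝ / H) ∂ν ∂ν
          ≤ ∫ x in A, (⟪x, v⟫_ℝ / H + 9 * τ ^ 3 * M) ∂ν :=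
            setIntegral_mono_on hint (int_c hν (((hci v).div_const _).add
              continuous_const)).integrableOn hAm hinner
        _ = ‖v‖ ^ 2 / H + ν.real A * (9 * τ ^ 3 * M) := by
            rw [integral_add (int_c hν ((hci v).div_const _)).integrableOn (integrable_const _),
              setIntegral_const, smul_eq_mul, integral_div]
            congr 2
            simp only [real_inner_comm v]
            rw [hIA v, real_inner_self_eq_norm_sq]
        _ ≤ 1 / 16 := by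
            have h1 : ‖v‖ ^ 2 / H ≤ 1 / 25 := by
              refine le_trans ?_ hMH
              gcongr
            have h2 : ν.real A * (9 * τ ^ 3 * M) ≤ 1 / 100 := by
              have h3 : 0 ≤ 9 * τ ^ 3 * M := by positivity
              calc ν.real A * (9 * τ ^ 3 * M) ≤ 1 * (9 * τ ^ 3 * M) :=
                    mul_le_mul_of_nonneg_right hA1 h3
                _ ≤ 1 / 100 := by linarith
            linarith
    · rw [integral_undef hint]
      norm_num

end Pool.Agent.T2h52.SP.SNHx
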