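import Pool.Agent.T2h52.SP.Stm

/-!
# The spread inequality (task SPR)
-/

set_option autoImplicit false

namespace Pool.Agent.T2h52.SP

open MeasureTheory Set Filter Topology
open scoped ENNReal InnerProductSpace Pointwise

namespace SPRaux

/-- the real number `s = l^{2/3} / d^{1/6}` -/
theorem exists_s (D l : ℝ) (hl : 1 ≤ l) (hd : 10 ^ 180 * l ^ 4 ≤ D) :
    ∃ s : ℝ, 0 < s ∧ s ≤ 1 / 10 ^ 30 ∧ 1 / D ≤ s ∧ Real.sqrt D * l ^ 2 = D * s ^ 3 ∧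
      D ^ ((1 : ℝ) / 6) / (10 ^ 30 * l ^ ((2 : ℝ) / 3)) = 1 / (10 ^ 30 * s) := by
  have hl0 : 0 < l := by linarith
  have hl4 : 1 ≤ l ^ 4 := one_le_pow₀ hl
  have hD0 : 0 < D := by
    have : (0 : ℝ) < 10 ^ 180 * l ^ 4 := by positivity
    linarith
  set A := D ^ ((1 : ℝ) / 6) with hA
  set B := l ^ ((2 : ℝ) / 3) with hB
  have hApos : 0 < A := Real.rpow_pos_of_pos hD0 _
  have hBpos : 0 < B := Real.rpow_pos_of_pos hl0 _
  have hA6 : A ^ 6 = D := by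
    rw [hA, ← Real.rpow_natCast, ← Real.rpow_mul hD0.le]
    norm_num
  have hB3 : B ^ 3 = l ^ 2 := by
    rw [hB, ← Real.rpow_natCast, ← Real.rpow_mul hl0.le]
    norm_num
  have hB6 : B ^ 6 = l ^ 4 := by
    calc B ^ 6 = (B ^ 3) ^ 2 := by ring
      _ = l ^ 4 := by rw [hB3]; ring
  have hs6 : (B / A) ^ 6 = l ^ 4 / D := by rw [div_pow, hA6, hB6]
  have hspos : 0 < B / A := div_pos hBpos hApos
  have hs6le : (B / A) ^ 6 ≤ (1 / 10 ^ 30) ^ 6 := by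
    rw [hs6, div_le_iff₀ hD0]
    have e : ((1 : ℝ) / 10 ^ 30) ^ 6 * (10 ^ 180 * l ^ 4) = l ^ 4 := by
      rw [div_pow, one_pow, ← pow_mul]
      field_simp
    calc l ^ 4 = ((1 : ℝ) / 10 ^ 30) ^ 6 * (10 ^ 180 * l ^ 4) := e.symm
      _ ≤ _ := by gcongr
  have hsle : B / A ≤ 1 / 10 ^ 30 :=
    (pow_le_pow_iff_left₀ hspos.le (by positivity) (by norm_num)).1 hs6le
  have hs1 : B / A ≤ 1 := hsle.trans (by norm_num)
  refine ⟨B / A, hspos, hsle, ?_, ?_, ?_⟩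
  · have h1 : (B / A) ^ 6 ≤ B / A := pow_le_of_le_one hspos.le hs1 (by norm_num)
    refine le_trans ?_ h1
    rw [hs6]
    gcongr
  · have h1 : 0 ≤ Real.sqrt D * l ^ 2 := by positivity
    have h2 : 0 ≤ D * (B / A) ^ 3 := by positivity
    have h3 : (Real.sqrt D * l ^ 2) ^ 2 = (D * (B / A) ^ 3) ^ 2 := by
      rw [mul_pow, Real.sq_sqrt hD0.le]
      calc D * (l ^ 2) ^ 2 = D ^ 2 * (l ^ 4 / D) := by field_simp
        _ = D ^ 2 * (B / A) ^ 6 := by rw [hs6]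
        _ = _ := by ring
    exact (pow_left_inj₀ h1 h2 (by norm_num)).1 h3
  · field_simp

end SPRaux

theorem spr (hLAM : T_LAM) : T_SPR := by
  intro d P l hP hI hl hg hd
  obtain ⟨s, hs0, hs1, hs2, hs3, hs4⟩ := SPRaux.exists_s (d : ℝ) l hl hd
  have hl0 : 0 < l := by linarith
  have hl4 : 1 ≤ l ^ 4 := one_le_pow₀ hl
  have hl2 : 1 ≤ l ^ 2 := one_le_pow₀ hl
  have hbig : (10 : ℝ) ^ 180 ≤ d := by nlinarith [show (0 : ℝ) < 10 ^ 180 by positivity]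
  have hD0 : (0 : ℝ) < d := lt_of_lt_of_le (by positivity) hbig
  have hd7 : 7 ≤ d := by
    have : (7 : ℝ) ≤ d := le_trans (by norm_num) hbig
    exact_mod_cast this
  have hd1 : (1 : ℝ) ≤ d := le_trans (by norm_num) hbig
  have hsq : 1 ≤ Real.sqrt d := by rwa [Real.one_le_sqrt]
  set h : ℝ := s ^ 2 / l ^ 2 with hh
  have hh0 : 0 < h := by positivity
  have hs1' : s ≤ 1 := hs1.trans (by norm_num)
  have hh1 : h ≤ 1 := by
    rw [hh, div_le_one (by positivity)]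
    exact (pow_le_one₀ hs0.le hs1').trans hl2
  have hq : Real.sqrt d / h = d * s := by
    rw [hh, div_div_eq_mul_div, hs3]
    field_simp
  have e2 : Real.sqrt s ^ 2 = s := Real.sq_sqrt hs0.le
  have hc1 : 25 * 10 ^ 26 * Real.sqrt d / h = 25 * 10 ^ 26 * (d * s) := by
    rw [mul_div_assoc, hq]
  have h1 := hLAM d P l h (Real.sqrt s) hd7 hP hI hl0 hg hh0
    (by nlinarith) (Real.sqrt_pos.2 hs0) (by
      rw [hc1]
      have : s * d ≤ 1 / 10 ^ 30 * d := mul_le_mul_of_nonneg_right hs1 hD0.le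
      nlinarith)
  rw [hs4]
  refine Pool.Agent.N555.RZ.spr_of_iso hI _ fun w => ?_
  have h2 := h1 w
  have h3 : 32 * Real.sqrt s ^ 2 + 128 / 5 * (27 + 2 * (25 * 10 ^ 26 * Real.sqrt d / h) +
      64 * l ^ 2 * h * d / Real.sqrt s ^ 2) / d ≤ 10 ^ 30 * s := by
    rw [e2, hc1]
    have e3 : 64 * l ^ 2 * h * d / s = 64 * s * d := by
      rw [hh]
      field_simp
    have e4 : 128 / 5 * (27 + 2 * (25 * 10 ^ 26 * (d * s)) + 64 * l ^ 2 * h * d / s) / d =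
        128 / 5 * (27 * (1 / d) + 50 * 10 ^ 26 * s + 64 * s) := by
      rw [e3]
      field_simp
      ring
    rw [e4]
    nlinarith
  have hw : 0 ≤ ‖w‖ ^ 2 := sq_nonneg _
  have h4 : ∫ z, (fderiv ℝ (gauge P) z w) ^ 2 ∂(Pool.Agent.N555.RZ.mP P) ≤ 10 ^ 30 * s * ‖w‖ ^ 2 :=
    h2.trans (mul_le_mul_of_nonneg_right h3 hw)
  calc 1 / (10 ^ 30 * s) * ∫ z, (fderiv ℝ (gauge P) z w) ^ 2 ∂(Pool.Agent.N555.RZ.mP P)
      ≤ 1 / (10 ^ 30 * s) * (10 ^ 30 * s * ‖w‖ ^ 2) :=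
        mul_le_mul_of_nonneg_left h4 (by positivity)
    _ = ‖w‖ ^ 2 := by field_simp

end Pool.Agent.T2h52.SP
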