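import Pool.Agent.T2h52.SP.Stm

/-!
# Task TAIL
-/

set_option autoImplicit false

namespace Pool.Agent.T2h52.SP

open MeasureTheory Set Filter Topology
open Pool.Agent.H888R2.KT (gs gc)

lemma gc_eq (d : ℕ) (h : ℝ) (hh : 0 < h) :
    gc (Fin d) h = (2 * Real.pi * h) ^ ((d : ℝ) / 2) := by
  unfold gc
  have h1 := GaussianFourier.integral_rexp_neg_mul_sq_norm (V := EuclideanSpace ℝ (Fin d))
    (b := 1 / (2 * h)) (by positivity)
  have e : ∀ y : EuclideanSpace ℝ (Fin d), Real.exp (-(‖y‖ ^ 2 / (2 * h))) =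
      Real.exp (-(1 / (2 * h)) * ‖y‖ ^ 2) := by
    intro y; congr 1; ring
  simp only [e]
  rw [h1, finrank_euclideanSpace, Fintype.card_fin]
  congr 1
  field_simp

lemma gc_integrable (d : ℕ) (h : ℝ) (hh : 0 < h) :
    Integrable (fun y : EuclideanSpace ℝ (Fin d) => Real.exp (-(‖y‖ ^ 2 / (2 * h)))) := by
  by_contra hn
  have h1 := gc_eq d h hh
  unfold gc at h1
  rw [integral_undef hn] at h1
  have : 0 < (2 * Real.pi * h) ^ ((d : ℝ) / 2) := by positivity
  linarith

theorem tail_ : T_TAIL := by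
  intro d h hh
  have h2h : 0 < 2 * h := by positivity
  have hI2 := gc_integrable d (2 * h) h2h
  have hS : MeasurableSet {u : E d | 2 * Real.sqrt (h * d) < ‖u‖} :=
    measurableSet_lt measurable_const measurable_norm
  calc ∫ u in {u : E d | 2 * Real.sqrt (h * d) < ‖u‖}, Real.exp (-(‖u‖ ^ 2 / (2 * h)))
      ≤ ∫ u in {u : E d | 2 * Real.sqrt (h * d) < ‖u‖},
          Real.exp (-(d : ℝ)) * Real.exp (-(‖u‖ ^ 2 / (2 * (2 * h)))) := by
        refine setIntegral_mono_on (gc_integrable d h hh).integrableOn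
          (hI2.const_mul _).integrableOn hS ?_
        intro u hu
        rw [← Real.exp_add]
        apply Real.exp_le_exp.2
        have h1 : 2 * Real.sqrt (h * d) < ‖u‖ := hu
        have h2 : 4 * (h * d) < ‖u‖ ^ 2 := by
          have h3 : (2 * Real.sqrt (h * d)) ^ 2 < ‖u‖ ^ 2 :=
            pow_lt_pow_left₀ h1 (by positivity) two_ne_zero
          rw [mul_pow, Real.sq_sqrt (by positivity)] at h3
          linarith
        have h4 : (d : ℝ) ≤ ‖u‖ ^ 2 / (2 * (2 * h)) := by
          rw [le_div_iff₀ (by positivity)]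
          nlinarith
        have h5 : ‖u‖ ^ 2 / (2 * h) = ‖u‖ ^ 2 / (2 * (2 * h)) + ‖u‖ ^ 2 / (2 * (2 * h)) := by
          field_simp
          ring
        linarith
    _ ≤ ∫ u : E d, Real.exp (-(d : ℝ)) * Real.exp (-(‖u‖ ^ 2 / (2 * (2 * h)))) :=
        setIntegral_le_integral (hI2.const_mul _)
          (Filter.Eventually.of_forall fun u => by positivity)
    _ = Real.exp (-(d : ℝ)) * gc (Fin d) (2 * h) := by
        rw [integral_const_mul]; rfl
    _ ≤ Real.exp (-(13 / 20 * d)) * gc (Fin d) h := by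
        rw [gc_eq d _ h2h, gc_eq d _ hh]
        have e1 : 2 * Real.pi * (2 * h) = 2 * (2 * Real.pi * h) := by ring
        rw [e1, Real.mul_rpow (by norm_num) (by positivity), ← mul_assoc]
        refine mul_le_mul_of_nonneg_right ?_ (by positivity)
        rw [Real.rpow_def_of_pos (by norm_num : (0 : ℝ) < 2), ← Real.exp_add]
        apply Real.exp_le_exp.2
        have hl := Real.log_two_lt_d9
        have hd : (0 : ℝ) ≤ d := Nat.cast_nonneg d
        nlinarith

end Pool.Agent.T2h52.SP
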