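import Pool.Agent.T2h52.SP.Stm3

/-!
# The Gaussian mean of the gauge for spaces of type `p`
-/

set_option autoImplicit false

namespace Pool.Agent.T2h52.SP

open MeasureTheory Set Filter Topology
open scoped ENNReal InnerProductSpace Pointwise
open Pool.Agent.N555.RZ (mP Spr)

theorem tgm (hS : T_SMP) (hG : T_GMO) (hY : T_TYG) : T_TGM := by
  intro d P p T hd hB hI hp hp2 hT hTY
  obtain ⟨N, x, hN1, hN, hx, hw⟩ := hS d P hd hB hI
  have hNR : (1 : ℝ) ≤ (N : ℝ) := by exact_mod_cast hN1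
  have hN0 : (0 : ℝ) < (N : ℝ) := by linarith
  have hsq : Real.sqrt (N : ℝ) ^ 2 = (N : ℝ) := Real.sq_sqrt hN0.le
  have hs0 : 0 < Real.sqrt (N : ℝ) := Real.sqrt_pos.mpr hN0
  have hga := hG d N P x (Real.sqrt (N : ℝ) / (2 * 10 ^ 5)) hB (by positivity) (fun w => by
    have h1 := hw w
    have h2 : (Real.sqrt (N : ℝ) / (2 * 10 ^ 5)) ^ 2 = 8 / 10 ^ 10 / 32 * (N : ℝ) := by
      rw [div_pow, hsq]; norm_num; ring
    rw [h2]
    exact h1)
  have hp0 : (0 : ℝ) < p := by linarith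
  have hy := hY d N P x p T hB (by linarith) hp2 (by linarith) hTY hx
  have hle := hga.trans hy
  have hL : 0 ≤ Real.log ((d : ℝ) + 1) := Real.log_nonneg (by
    have : (0 : ℝ) ≤ d := Nat.cast_nonneg d
    linarith)
  have hD : 0 ≤ (d : ℝ) * Real.log ((d : ℝ) + 1) := mul_nonneg (Nat.cast_nonneg d) hL
  have hθ0 : 0 ≤ 1 / p - 1 / 2 := by
    have : 1 / 2 ≤ 1 / p := one_div_le_one_div_of_le hp0 hp2
    linarith
  have hθ1 : 1 / p - 1 / 2 ≤ 1 / 4 := by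
    have : 1 / p ≤ 1 / (4 / 3) := one_div_le_one_div_of_le (by norm_num) hp
    norm_num at this ⊢
    linarith
  -- the power of `N`
  have hsqrt : Real.sqrt (N : ℝ) = (N : ℝ) ^ ((1 : ℝ) / 2) := Real.sqrt_eq_rpow _
  have hpow : (N : ℝ) ^ (1 / p) = (N : ℝ) ^ (1 / p - 1 / 2) * Real.sqrt (N : ℝ) := by
    rw [hsqrt, ← Real.rpow_add hN0]
    congr 1
    ring
  have hgm : gm (gauge P) ≤ 2 * 10 ^ 5 * T * (N : ℝ) ^ (1 / p - 1 / 2) := by
    rw [hpow] at hle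
    have h3 : Real.sqrt (N : ℝ) * (gm (gauge P)) ≤
        Real.sqrt (N : ℝ) * (2 * 10 ^ 5 * T * (N : ℝ) ^ (1 / p - 1 / 2)) := by
      have h4 : Real.sqrt (N : ℝ) * gm (gauge P) =
          2 * 10 ^ 5 * (Real.sqrt (N : ℝ) / (2 * 10 ^ 5) * gm (gauge P)) := by
        field_simp
      rw [h4]
      nlinarith [hle]
    exact le_of_mul_le_mul_left h3 hs0
  have hNθ : (N : ℝ) ^ (1 / p - 1 / 2) ≤
      1500 * ((d : ℝ) * Real.log ((d : ℝ) + 1)) ^ (1 / p - 1 / 2) := by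
    calc (N : ℝ) ^ (1 / p - 1 / 2)
        ≤ (2 * 10 ^ 12 * ((d : ℝ) * Real.log ((d : ℝ) + 1))) ^ (1 / p - 1 / 2) :=
          Real.rpow_le_rpow hN0.le hN hθ0
      _ = (2 * 10 ^ 12) ^ (1 / p - 1 / 2) *
          ((d : ℝ) * Real.log ((d : ℝ) + 1)) ^ (1 / p - 1 / 2) :=
          Real.mul_rpow (by norm_num) hD
      _ ≤ 1500 * ((d : ℝ) * Real.log ((d : ℝ) + 1)) ^ (1 / p - 1 / 2) := by
          apply mul_le_mul_of_nonneg_right _ (Real.rpow_nonneg hD _)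
          calc ((2 * 10 ^ 12 : ℝ)) ^ (1 / p - 1 / 2) ≤ (2 * 10 ^ 12 : ℝ) ^ ((1 : ℝ) / 4) :=
                Real.rpow_le_rpow_of_exponent_le (by norm_num) hθ1
            _ ≤ ((1500 : ℝ) ^ 4) ^ ((1 : ℝ) / 4) :=
                Real.rpow_le_rpow (by norm_num) (by norm_num) (by norm_num)
            _ = 1500 := by
                rw [← Real.rpow_natCast (1500 : ℝ) 4, ← Real.rpow_mul (by norm_num)]
                norm_num
  calc gm (gauge P) ≤ 2 * 10 ^ 5 * T * (N : ℝ) ^ (1 / p - 1 / 2) := hgm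
    _ ≤ 2 * 10 ^ 5 * T * (1500 * ((d : ℝ) * Real.log ((d : ℝ) + 1)) ^ (1 / p - 1 / 2)) :=
        mul_le_mul_of_nonneg_left hNθ (by positivity)
    _ = 3 * 10 ^ 8 * T * ((d : ℝ) * Real.log ((d : ℝ) + 1)) ^ (1 / p - 1 / 2) := by ring

end Pool.Agent.T2h52.SP
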