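import Pool.Agent.T2h52.SP.Stm3
import Pool.Agent.T2h52.SP.LGM
import Pool.Agent.H888R2.KT.N0b

/-!
# TYG: Gaussian type from type
-/

set_option autoImplicit false
set_option linter.all false

namespace Pool.Agent.T2h52.SP

open MeasureTheory Set Filter Topology
open scoped ENNReal InnerProductSpace Pointwise
open Pool.Agent.H888R2.KT (gs gc gc_pos gauss2)
open Pool.Agent.N555.RZ (mP Spr)

namespace Tyg

open Sud (W W_pos W_cont W_int W_int1 W_neg)
open Lgm (Z Z_pos ga ga_prob ga_int ga_gm ga_integrable)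

variable {N : ℕ}

/-- sign changes -/
noncomputable def fl (δ : Fin N → Bool) : E N ≃ₗᵢ[ℝ] E N :=
  LinearIsometryEquiv.piLpCongrRight 2 fun i =>
    if δ i then LinearIsometryEquiv.refl ℝ ℝ else LinearIsometryEquiv.neg ℝ

lemma fl_apply (δ : Fin N → Bool) (G : E N) (i : Fin N) :
    fl δ G i = (if δ i then (1 : ℝ) else -1) * G i := by
  unfold fl
  rw [LinearIsometryEquiv.piLpCongrRight_apply]
  simp only
  split_ifs <;> simp

lemma fl_int (δ : Fin N → Bool) (f : E N → ℝ) : ∫ y, f (fl δ y) ∂(ga N) = ∫ y, f y ∂(ga N) := by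
  rw [ga_int, ga_int]
  congr 1
  have h := (fl δ).measurePreserving.integral_comp (fl δ).toHomeomorph.measurableEmbedding
    (fun y => f y * W y)
  rw [← h]
  refine integral_congr_ae (Eventually.of_forall fun y => ?_)
  simp only
  congr 1
  unfold W
  rw [LinearIsometryEquiv.norm_map]

lemma coord_int (i : Fin N) : Integrable (fun G : E N => G i ^ 2) (ga N) ∧
    ∫ G : E N, G i ^ 2 ∂(ga N) = 1 := by
  obtain ⟨h1, h2, -⟩ := gauss2 (κ := Fin N) 1 one_pos (EuclideanSpace.single i (1 : ℝ))
  have e : ∀ y : E N, ⟪y, EuclideanSpace.single i (1 : ℝ)⟫_ℝ ^ 2 *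
      Real.exp (-(‖y‖ ^ 2 / (2 * 1))) = y i ^ 2 * W y := by
    intro y
    unfold W
    rw [EuclideanSpace.inner_single_right]
    simp
  have h1' : Integrable fun y : E N => y i ^ 2 * W y := h1.congr (Eventually.of_forall e)
  refine ⟨ga_integrable h1', ?_⟩
  rw [ga_int, ← integral_congr_ae (Eventually.of_forall e), h2]
  have hgc : gc (Fin N) 1 = Z N := by
    unfold gc Z W
    refine integral_congr_ae (Eventually.of_forall fun y => ?_)
    simp
  rw [hgc, EuclideanSpace.norm_single]
  have := Z_pos (d := N)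
  simp only [norm_one]
  field_simp

lemma bern {α u : ℝ} (h0 : 0 ≤ α) (h1 : α ≤ 1) (hu : 0 ≤ u) : u ^ α ≤ 1 + α * (u - 1) := by
  have h := rpow_one_add_le_one_add_mul_self (s := u - 1) (by linarith) h0 h1
  rwa [add_sub_cancel] at h

lemma gauge_abs {d : ℕ} {P : Set (E d)} (hP : Bd P) (c : ℝ) (x : E d) :
    gauge P (c • x) = |c| * gauge P x := by
  rcases le_total 0 c with h | h
  · rw [gauge_smul_of_nonneg h, abs_of_nonneg h, smul_eq_mul]
  · rw [abs_of_nonpos h, ← gauge_neg hP.sym, ← neg_smul, gauge_smul_of_nonneg (by linarith),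
      smul_eq_mul]

lemma gauge_sum {d : ℕ} {P : Set (E d)} (hP : Bd P) {ι : Type*} (s : Finset ι) (v : ι → E d) :
    gauge P (∑ i ∈ s, v i) ≤ ∑ i ∈ s, gauge P (v i) := by
  classical
  induction s using Finset.induction_on with
  | empty => simp
  | insert i s hi ih =>
    rw [Finset.sum_insert hi, Finset.sum_insert hi]
    have hP0 : P ∈ 𝓝 (0 : E d) := mem_interior_iff_mem_nhds.1 hP.int
    exact (gauge_add_le hP.conv (absorbent_nhds_zero hP0) _ _).trans (by linarith)

/-- the function is integrable -/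
lemma f_int {d : ℕ} {P : Set (E d)} (hP : Bd P) (x : Fin N → E d) :
    Integrable (fun G : E N => gauge P (∑ i, G i • x i)) (ga N) := by
  have hP0 : P ∈ 𝓝 (0 : E d) := mem_interior_iff_mem_nhds.1 hP.int
  have hcont : Continuous (gauge P) := continuous_gauge hP.conv hP0
  have hc : Continuous fun G : E N => gauge P (∑ i, G i • x i) := by
    refine hcont.comp (continuous_finset_sum _ fun i _ => ?_)
    fun_prop
  apply ga_integrable
  refine (W_int1.const_mul (∑ i, gauge P (x i))).mono' (hc.mul W_cont).aestronglyMeasurable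
    (Eventually.of_forall fun G => ?_)
  rw [norm_mul, Real.norm_eq_abs, Real.norm_eq_abs, abs_of_nonneg (gauge_nonneg _),
    abs_of_pos (W_pos G), ← mul_assoc]
  refine mul_le_mul_of_nonneg_right ?_ (W_pos G).le
  refine (gauge_sum hP _ _).trans ?_
  rw [Finset.sum_mul]
  refine Finset.sum_le_sum fun i _ => ?_
  rw [gauge_abs hP, mul_comm]
  refine mul_le_mul_of_nonneg_left ?_ (gauge_nonneg _)
  have := PiLp.norm_apply_le G i
  rwa [Real.norm_eq_abs] at this

end Tyg

open Tyg Lgm in
theorem tyg : T_TYG := by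
  classical
  intro d N P x p T hP hp hp2 hT hTY hx
  have hp0 : 0 < p := by linarith
  haveI := ga_prob (d := N)
  rw [← ga_gm]
  rcases Nat.eq_zero_or_pos N with rfl | hN
  · have e : (fun G : E 0 => gauge P (∑ i, G i • x i)) = fun _ => (0 : ℝ) := by
      funext G
      simp
    rw [e, integral_zero]
    exact mul_nonneg hT (Real.rpow_nonneg (Nat.cast_nonneg _) _)
  have hN' : (0 : ℝ) < N := by exact_mod_cast hN
  have hfi := f_int hP x
  set f : E N → ℝ := fun G => gauge P (∑ i, G i • x i) with hf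
  have hfl : ∀ δ : Fin N → Bool, Integrable (fun G => f (fl δ G)) (ga N) := by
    intro δ
    have h := f_int hP (fun i => (if δ i then (1 : ℝ) else -1) • x i)
    refine h.congr (Eventually.of_forall fun G => ?_)
    simp only [hf]
    congr 1
    refine Finset.sum_congr rfl fun i _ => ?_
    rw [fl_apply, smul_smul, mul_comm]
  have h1 : ∫ G, f G ∂(ga N) = ∫ G, (∑ δ : Fin N → Bool, f (fl δ G)) / 2 ^ N ∂(ga N) := by
    rw [integral_div, integral_finset_sum _ fun δ _ => hfl δ,
      Finset.sum_congr rfl fun δ _ => fl_int δ f]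
    rw [Finset.sum_const, Finset.card_univ, Fintype.card_fun, Fintype.card_bool, Fintype.card_fin,
      nsmul_eq_mul]
    push_cast
    field_simp
  rw [h1]
  have hc2 : Integrable (fun G : E N => ∑ i, G i ^ 2) (ga N) :=
    integrable_finset_sum _ fun i _ => (coord_int i).1
  have hpt : ∀ G : E N, (∑ δ : Fin N → Bool, f (fl δ G)) / 2 ^ N ≤
      T * (N : ℝ) ^ (1 / p) * (1 / 2 + (∑ i, G i ^ 2) * (1 / (2 * N))) := by
    intro G
    have h2 := hTY N (fun i => G i • x i)
    have e2 : ∀ δ : Fin N → Bool, f (fl δ G) =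
        gauge P (∑ i, (if δ i then (1 : ℝ) else -1) • (G i • x i)) := by
      intro δ
      simp only [hf]
      congr 1
      refine Finset.sum_congr rfl fun i _ => ?_
      rw [fl_apply, smul_smul]
    simp_rw [e2]
    refine h2.trans ?_
    rw [mul_assoc]
    refine mul_le_mul_of_nonneg_left ?_ hT
    set S := ∑ i, |G i| ^ p with hS
    have hS0 : 0 ≤ S := Finset.sum_nonneg fun i _ => Real.rpow_nonneg (abs_nonneg _) _
    have h3 : ∑ i, gauge P (G i • x i) ^ p ≤ S := by
      refine Finset.sum_le_sum fun i _ => ?_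
      refine Real.rpow_le_rpow (gauge_nonneg _) ?_ hp0.le
      rw [gauge_abs hP]
      exact mul_le_of_le_one_right (abs_nonneg _) (gauge_le_one_of_mem (hx i))
    have h4 : (∑ i, gauge P (G i • x i) ^ p) ^ (1 / p) ≤ S ^ (1 / p) :=
      Real.rpow_le_rpow (Finset.sum_nonneg fun i _ => Real.rpow_nonneg (gauge_nonneg _) _) h3
        (by positivity)
    refine h4.trans ?_
    have h5 : S = N * (S / N) := by field_simp
    rw [h5, Real.mul_rpow hN'.le (by positivity)]
    refine mul_le_mul_of_nonneg_left ?_ (Real.rpow_nonneg hN'.le _)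
    have h6 : (S / N) ^ (1 / p) ≤ 1 + 1 / p * (S / N - 1) :=
      bern (by positivity) ((div_le_one hp0).2 hp) (by positivity)
    refine h6.trans ?_
    have h7 : S ≤ N + p / 2 * ((∑ i, G i ^ 2) - N) := by
      have e7 : (N : ℝ) + p / 2 * ((∑ i, G i ^ 2) - N) = ∑ i : Fin N, (1 + p / 2 * (G i ^ 2 - 1)) := by
        rw [Finset.sum_add_distrib, ← Finset.mul_sum, Finset.sum_sub_distrib]
        simp
      rw [e7]
      refine Finset.sum_le_sum fun i _ => ?_
      have h8 := bern (α := p / 2) (by positivity) (by linarith) (sq_nonneg (G i))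
      have e8 : (G i ^ 2) ^ (p / 2) = |G i| ^ p := by
        rw [← sq_abs, ← Real.rpow_natCast, ← Real.rpow_mul (abs_nonneg _)]
        congr 1
        push_cast
        ring
      rwa [e8] at h8
    have h9 : S / N - 1 ≤ p / 2 * ((∑ i, G i ^ 2) / N - 1) := by
      have : S / N ≤ (N + p / 2 * ((∑ i, G i ^ 2) - N)) / N := div_le_div_of_nonneg_right h7 hN'.le
      have e9 : (N + p / 2 * ((∑ i, G i ^ 2) - N)) / N = 1 + p / 2 * ((∑ i, G i ^ 2) / N - 1) := by
        field_simp
      rw [e9] at this
      linarith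
    calc 1 + 1 / p * (S / N - 1) ≤ 1 + 1 / p * (p / 2 * ((∑ i, G i ^ 2) / N - 1)) := by gcongr
      _ = 1 / 2 + (∑ i, G i ^ 2) * (1 / (2 * N)) := by
          field_simp
          ring
  have hint2 : Integrable (fun G : E N => T * (N : ℝ) ^ (1 / p) *
      (1 / 2 + (∑ i, G i ^ 2) * (1 / (2 * N)))) (ga N) :=
    ((integrable_const _).add (hc2.mul_const _)).const_mul _
  refine (integral_mono ((integrable_finset_sum _ fun δ _ => hfl δ).div_const _) hint2 hpt).trans ?_
  rw [integral_const_mul, integral_add (integrable_const _) (hc2.mul_const _), integral_mul_const,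
    integral_finset_sum _ fun i _ => (coord_int i).1,
    Finset.sum_congr rfl fun i _ => (coord_int i).2]
  simp only [integral_const, probReal_univ, one_smul, smul_eq_mul, one_mul, Finset.sum_const,
    Finset.card_univ, Fintype.card_fin, nsmul_eq_mul, mul_one]
  have e10 : (1 : ℝ) / 2 + N * (1 / (2 * N)) = 1 := by
    field_simp
    norm_num
  rw [e10, mul_one]

end Pool.Agent.T2h52.SP
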