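import Pool.Agent.T2h52.SP.Stm3

/-!
# Task TYI
-/

set_option autoImplicit false

namespace Pool.Agent.T2h52.SP

open MeasureTheory Set Filter Topology
open scoped ENNReal InnerProductSpace Pointwise

/-- Type is invariant under linear images. -/
theorem tyi : T_TYI := by
  intro d P A p T hP hT
  have hAc : Continuous A := A.toContinuousLinearEquiv.continuous
  refine ⟨⟨?_, hP.comp.image hAc, ?_, ?_⟩, ?_⟩
  · exact hP.conv.linear_image A.toLinearMap
  · have hint : interior (A '' P) = A '' interior P :=
      (A.toContinuousLinearEquiv.toHomeomorph.image_interior P).symm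
    rw [hint]
    exact ⟨0, hP.int, map_zero A⟩
  · rintro _ ⟨x, hx, rfl⟩
    exact ⟨-x, hP.sym x hx, map_neg A x⟩
  · intro m x
    have h1 : ∀ z : E d, gauge (A '' P) z = gauge P (A.symm z) := by
      intro z
      have h2 := Pool.Agent.N555.RZ.gauge_img (K := P) A (A.symm z)
      rwa [A.apply_symm_apply] at h2
    have h2 := hT m fun i => A.symm (x i)
    simp only [h1, map_sum, map_smul]
    exact h2

end Pool.Agent.T2h52.SP
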