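import Pool.Agent.T2h52.SP.Stm

/-! The spread inequality: cotype 2 of L_1. -/

set_option autoImplicit false

open MeasureTheory Set Filter Topology
open scoped ENNReal InnerProductSpace Pointwise

namespace Pool.Agent.T2h52.SP

/-- the sign -/
def zsg (b : Bool) : ℝ := if b then 1 else -1

theorem zsum_cons {m : ℕ} (f : (Fin (m + 1) → Bool) → ℝ) :
    ∑ δ : Fin (m + 1) → Bool, f δ = ∑ δ : Fin m → Bool, (f (Fin.cons true δ) + f (Fin.cons false δ)) := by
  rw [← Equiv.sum_comp (Fin.consEquiv fun _ => Bool) f, Fintype.sum_prod_type]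
  simp only [Fintype.sum_bool]
  rw [← Finset.sum_add_distrib]
  rfl

theorem zmom {m : ℕ} : ∀ a : Fin m → ℝ,
    ∑ δ : Fin m → Bool, (∑ i, zsg (δ i) * a i) ^ 2 = 2 ^ m * ∑ i, a i ^ 2 ∧
    ∑ δ : Fin m → Bool, (∑ i, zsg (δ i) * a i) ^ 4 ≤ 3 * 2 ^ m * (∑ i, a i ^ 2) ^ 2 := by
  induction m with
  | zero => intro a; simp
  | succ m ih =>
    intro a
    obtain ⟨h1, h2⟩ := ih fun i => a i.succ
    have e : ∀ (b : Bool) (δ : Fin m → Bool), ∑ i, zsg ((Fin.cons b δ : Fin (m + 1) → Bool) i) * a i =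
        zsg b * a 0 + ∑ i, zsg (δ i) * a i.succ := by
      intro b δ
      rw [Fin.sum_univ_succ]
      simp only [Fin.cons_zero, Fin.cons_succ]
    have ht : zsg true = 1 := rfl
    have hf : zsg false = -1 := rfl
    constructor
    · rw [zsum_cons]
      have e2 : ∀ δ : Fin m → Bool, (∑ i, zsg ((Fin.cons true δ : Fin (m + 1) → Bool) i) * a i) ^ 2 +
          (∑ i, zsg ((Fin.cons false δ : Fin (m + 1) → Bool) i) * a i) ^ 2 =
          2 * a 0 ^ 2 + 2 * (∑ i, zsg (δ i) * a i.succ) ^ 2 := by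
        intro δ
        rw [e, e, ht, hf]
        ring
      rw [Finset.sum_congr rfl fun δ _ => e2 δ, Finset.sum_add_distrib, Finset.sum_const, Finset.card_univ,
        Fintype.card_fun, Fintype.card_bool, Fintype.card_fin, nsmul_eq_mul, ← Finset.mul_sum, h1,
        Fin.sum_univ_succ]
      push_cast
      ring
    · rw [zsum_cons]
      have e2 : ∀ δ : Fin m → Bool, (∑ i, zsg ((Fin.cons true δ : Fin (m + 1) → Bool) i) * a i) ^ 4 +
          (∑ i, zsg ((Fin.cons false δ : Fin (m + 1) → Bool) i) * a i) ^ 4 =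
          2 * a 0 ^ 4 + 12 * a 0 ^ 2 * (∑ i, zsg (δ i) * a i.succ) ^ 2 + 2 * (∑ i, zsg (δ i) * a i.succ) ^ 4 := by
        intro δ
        rw [e, e, ht, hf]
        ring
      rw [Finset.sum_congr rfl fun δ _ => e2 δ, Finset.sum_add_distrib, Finset.sum_add_distrib, Finset.sum_const,
        Finset.card_univ, Fintype.card_fun, Fintype.card_bool, Fintype.card_fin, nsmul_eq_mul, ← Finset.mul_sum,
        ← Finset.mul_sum, h1, Fin.sum_univ_succ]
      push_cast
      have h0 : (0 : ℝ) ≤ 2 ^ m := by positivity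
      have h4 : 0 ≤ a 0 ^ 4 * 2 ^ m := by positivity
      have h5 : (2 : ℝ) ^ (m + 1) = 2 * 2 ^ m := by ring
      rw [h5]
      nlinarith [h2, h4]

/-- Khinchine's inequality -/
theorem zkhin {m : ℕ} (a : Fin m → ℝ) :
    5 / 9 * 2 ^ m * √(∑ i, a i ^ 2) ≤ ∑ δ : Fin m → Bool, |∑ i, zsg (δ i) * a i| := by
  obtain ⟨h1, h2⟩ := zmom a
  set V : ℝ := ∑ i, a i ^ 2 with hV
  have hV0 : 0 ≤ V := Finset.sum_nonneg fun i _ => sq_nonneg _
  set v : ℝ := √V with hv
  have hv0 : 0 ≤ v := Real.sqrt_nonneg _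
  have hv2 : v ^ 2 = V := Real.sq_sqrt hV0
  rcases hv0.eq_or_lt with h | h
  · rw [← h, mul_zero]
    exact Finset.sum_nonneg fun _ _ => abs_nonneg _
  · have hp : ∀ δ : Fin m → Bool, (∑ i, zsg (δ i) * a i) ^ 2 * v ^ 2 - 4 / 27 * (∑ i, zsg (δ i) * a i) ^ 4 ≤
        |∑ i, zsg (δ i) * a i| * v ^ 3 := by
      intro δ
      set s := ∑ i, zsg (δ i) * a i
      have hs : 0 ≤ |s| := abs_nonneg s
      have h3 : s ^ 2 = |s| ^ 2 := (sq_abs s).symm
      have h4 : s ^ 4 = |s| ^ 4 := by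
        have : s ^ 4 = (s ^ 2) ^ 2 := by ring
        rw [this, h3]
        ring
      rw [h3, h4]
      have : |s| * v ^ 3 - (|s| ^ 2 * v ^ 2 - 4 / 27 * |s| ^ 4) =
        4 / 27 * |s| * (|s| - 3 / 2 * v) ^ 2 * (|s| + 3 * v) := by ring
      have : 0 ≤ 4 / 27 * |s| * (|s| - 3 / 2 * v) ^ 2 * (|s| + 3 * v) := by positivity
      linarith
    have h5 := Finset.sum_le_sum fun (δ : Fin m → Bool) (_ : δ ∈ Finset.univ) => hp δ
    rw [Finset.sum_sub_distrib, ← Finset.sum_mul, ← Finset.mul_sum, ← Finset.sum_mul, h1, ← hv2] at h5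
    rw [← hv2] at h2
    have h6 : 5 / 9 * 2 ^ m * v * v ^ 3 ≤ (∑ δ : Fin m → Bool, |∑ i, zsg (δ i) * a i|) * v ^ 3 := by
      nlinarith [h5, h2]
    exact le_of_mul_le_mul_right h6 (by positivity)

theorem zco_zn (d : ℕ) (g : E d → ℝ) (hg : ZN g) (m : ℕ) (x : Fin m → E d) : ∑ i, g (x i) ^ 2 ≤
    4 * ((∑ δ : Fin m → Bool, g (∑ i, (if δ i then (1 : ℝ) else -1) • x i) ^ 2) / 2 ^ m) := by
  obtain ⟨μ, hμ, hint, hgu⟩ := hg
  -- integrability
  have hI : ∀ u : E d, Integrable (fun y : E d => |⟪u, y⟫_ℝ|) μ := by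
    intro u
    refine (hint.const_mul ‖u‖).mono' (by fun_prop) (Eventually.of_forall fun y => ?_)
    rw [Real.norm_eq_abs, abs_abs]
    exact abs_real_inner_le_norm u y
  let v : E d → ℝ := fun y => √(∑ i, ⟪x i, y⟫_ℝ ^ 2)
  have hv0 : ∀ y, 0 ≤ v y := fun y => Real.sqrt_nonneg _
  have hvI : Integrable v μ := by
    refine (integrable_finsetSum Finset.univ fun i _ => hI (x i)).mono' (by fun_prop)
      (Eventually.of_forall fun y => ?_)
    rw [Real.norm_eq_abs, abs_of_nonneg (hv0 y)]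
    refine Real.sqrt_le_iff.2 ⟨Finset.sum_nonneg fun _ _ => abs_nonneg _, ?_⟩
    have := Finset.sum_sq_le_sq_sum_of_nonneg (s := Finset.univ) (f := fun i => |⟪x i, y⟫_ℝ|) (fun i _ => abs_nonneg _)
    simpa only [sq_abs] using this
  set I : ℝ := ∫ y, v y ∂μ with hIdef
  have hI0 : 0 ≤ I := integral_nonneg hv0
  -- the first inequality
  set S : ℝ := ∑ i, g (x i) ^ 2 with hS
  have hS0 : 0 ≤ S := Finset.sum_nonneg fun i _ => sq_nonneg _
  have h1 : S ≤ √S * I := by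
    have e1 : S = ∫ y, ∑ i, g (x i) * |⟪x i, y⟫_ℝ| ∂μ := by
      rw [integral_finsetSum _ fun i _ => (hI (x i)).const_mul _]
      refine Finset.sum_congr rfl fun i _ => ?_
      rw [integral_const_mul, ← hgu, pow_two]
    rw [hIdef, ← integral_const_mul]
    conv_lhs => rw [e1]
    refine integral_mono (integrable_finsetSum Finset.univ fun i _ => (hI (x i)).const_mul _)
      (hvI.const_mul _) fun y => ?_
    have := Real.sum_mul_le_sqrt_mul_sqrt Finset.univ (fun i => g (x i)) (fun i => |⟪x i, y⟫_ℝ|)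
    simpa only [sq_abs] using this
  have h2 : S ≤ I ^ 2 := by
    have h3 : √S ≤ I := by
      rcases (Real.sqrt_nonneg S).eq_or_lt with h | h
      · rw [← h]; exact hI0
      · have h4 : √S * √S ≤ √S * I := by rw [Real.mul_self_sqrt hS0]; exact h1
        exact le_of_mul_le_mul_left h4 h
    calc S = √S ^ 2 := (Real.sq_sqrt hS0).symm
      _ ≤ I ^ 2 := pow_le_pow_left₀ (Real.sqrt_nonneg _) h3 2
  -- the second inequality
  have hX : ∀ (δ : Fin m → Bool) (y : E d),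
      ⟪∑ i, (if δ i then (1 : ℝ) else -1) • x i, y⟫_ℝ = ∑ i, zsg (δ i) * ⟪x i, y⟫_ℝ := by
    intro δ y
    rw [sum_inner]
    refine Finset.sum_congr rfl fun i _ => ?_
    rw [real_inner_smul_left]
    rfl
  have h5 : 5 / 9 * 2 ^ m * I ≤ ∑ δ : Fin m → Bool, g (∑ i, (if δ i then (1 : ℝ) else -1) • x i) := by
    have e2 : ∑ δ : Fin m → Bool, g (∑ i, (if δ i then (1 : ℝ) else -1) • x i) =
        ∫ y, ∑ δ : Fin m → Bool, |∑ i, zsg (δ i) * ⟪x i, y⟫_ℝ| ∂μ := by
      rw [integral_finsetSum _ fun δ _ => ?_]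
      · refine Finset.sum_congr rfl fun δ _ => ?_
        rw [hgu]
        simp only [hX]
      · have := hI (∑ i, (if δ i then (1 : ℝ) else -1) • x i)
        simpa only [hX] using this
    rw [e2, hIdef, ← integral_const_mul]
    refine integral_mono (hvI.const_mul _) (integrable_finsetSum Finset.univ fun δ _ => ?_) fun y => ?_
    · have := hI (∑ i, (if δ i then (1 : ℝ) else -1) • x i)
      simpa only [hX] using this
    · exact zkhin fun i => ⟪x i, y⟫_ℝ
  set G : ℝ := ∑ δ : Fin m → Bool, g (∑ i, (if δ i then (1 : ℝ) else -1) • x i) ^ 2 with hG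
  have h6 : (∑ δ : Fin m → Bool, g (∑ i, (if δ i then (1 : ℝ) else -1) • x i)) ^ 2 ≤ 2 ^ m * G := by
    have := sq_sum_le_card_mul_sum_sq (s := (Finset.univ : Finset (Fin m → Bool)))
      (f := fun δ => g (∑ i, (if δ i then (1 : ℝ) else -1) • x i))
    rw [Finset.card_univ, Fintype.card_fun, Fintype.card_bool, Fintype.card_fin] at this
    push_cast at this
    exact this
  have h7 : (5 / 9 * 2 ^ m * I) ^ 2 ≤ 2 ^ m * G :=
    (pow_le_pow_left₀ (by positivity) h5 2).trans h6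
  have h2m : (0 : ℝ) < 2 ^ m := by positivity
  have h8 : 25 / 81 * 2 ^ m * I ^ 2 ≤ G := by
    have : 2 ^ m * (25 / 81 * 2 ^ m * I ^ 2) ≤ 2 ^ m * G := by
      refine le_trans (le_of_eq ?_) h7
      ring
    exact le_of_mul_le_mul_left this h2m
  rw [← mul_div_assoc, le_div_iff₀ h2m]
  nlinarith [mul_nonneg h2m.le (sq_nonneg I), mul_le_mul_of_nonneg_right h2 h2m.le]

theorem zco : T_ZCO := by
  intro d C g hC hg m x
  obtain ⟨n, hn, hng⟩ := hg
  have hn0 : ∀ u, 0 ≤ n u := by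
    obtain ⟨μ, -, -, hgu⟩ := hn
    intro u
    rw [hgu]
    exact integral_nonneg fun y => abs_nonneg _
  have h1 : ∑ i, g (x i) ^ 2 ≤ C ^ 2 * ∑ i, n (x i) ^ 2 := by
    rw [Finset.mul_sum]
    refine Finset.sum_le_sum fun i _ => ?_
    rw [← mul_pow]
    exact pow_le_pow_left₀ ((hn0 _).trans (hng _).1) (hng _).2 2
  have h2 : (∑ δ : Fin m → Bool, n (∑ i, (if δ i then (1 : ℝ) else -1) • x i) ^ 2) / 2 ^ m ≤
      (∑ δ : Fin m → Bool, g (∑ i, (if δ i then (1 : ℝ) else -1) • x i) ^ 2) / 2 ^ m := by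
    refine div_le_div_of_nonneg_right (Finset.sum_le_sum fun δ _ => ?_) (by positivity)
    exact pow_le_pow_left₀ (hn0 _) (hng _).1 2
  have h3 := zco_zn d n hn m x
  have hC2 : 0 ≤ C ^ 2 := sq_nonneg C
  calc ∑ i, g (x i) ^ 2 ≤ C ^ 2 * ∑ i, n (x i) ^ 2 := h1
    _ ≤ C ^ 2 * (4 * ((∑ δ : Fin m → Bool, n (∑ i, (if δ i then (1 : ℝ) else -1) • x i) ^ 2) / 2 ^ m)) :=
      mul_le_mul_of_nonneg_left h3 hC2
    _ ≤ C ^ 2 * (4 * ((∑ δ : Fin m → Bool, g (∑ i, (if δ i then (1 : ℝ) else -1) • x i) ^ 2) / 2 ^ m)) := by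
      gcongr
    _ = _ := by ring

end Pool.Agent.T2h52.SP
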