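import Pool.Agent.T2h52.SP.Stm
import Pool.Agent.H888R2.KT.N0
import Pool.Agent.H888R2.KT.N0b
import Pool.Agent.N555.RZ.MainA

set_option autoImplicit false

/-!
# ZGM: the Gaussian mean of the gauge of the unit ball of a subspace of `L_1`
-/

namespace Pool.Agent.T2h52.SP.ZGMaux

open MeasureTheory Set Filter Topology
open scoped ENNReal InnerProductSpace Pointwise
open Pool.Agent.H888R2.KT (gs gc)
open Pool.Agent.N555.RZ

variable {d : ℕ} {P : Set (E d)}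

theorem prodInt (ν μ : Measure (E d)) [SFinite ν] [SFinite μ] (k : E d → ℝ) (hk : Continuous k)
    (hk0 : ∀ y, 0 ≤ k y) (h1 : Integrable (fun y => ‖y‖ * k y) ν)
    (h2 : Integrable (fun x : E d => ‖x‖) μ) :
    Integrable (Function.uncurry fun y x : E d => |⟪y, x⟫_ℝ| * k y) (ν.prod μ) := by
  refine (h1.mul_prod h2).mono' ?_ (Eventually.of_forall fun p => ?_)
  · apply Continuous.aestronglyMeasurable
    unfold Function.uncurry
    fun_prop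
  · show ‖|⟪p.1, p.2⟫_ℝ| * k p.1‖ ≤ ‖p.1‖ * k p.1 * ‖p.2‖
    rw [Real.norm_of_nonneg (mul_nonneg (abs_nonneg _) (hk0 _))]
    have := abs_real_inner_le_norm p.1 p.2
    calc |⟪p.1, p.2⟫_ℝ| * k p.1 ≤ (‖p.1‖ * ‖p.2‖) * k p.1 :=
          mul_le_mul_of_nonneg_right this (hk0 _)
      _ = _ := by ring

theorem fub (ν μ : Measure (E d)) [SFinite ν] [SFinite μ] (k : E d → ℝ) (hk : Continuous k)
    (hk0 : ∀ y, 0 ≤ k y) (h1 : Integrable (fun y => ‖y‖ * k y) ν)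
    (h2 : Integrable (fun x : E d => ‖x‖) μ) :
    ∫ y, (∫ x, |⟪y, x⟫_ℝ| ∂μ) * k y ∂ν = ∫ x, ∫ y, |⟪y, x⟫_ℝ| * k y ∂ν ∂μ := by
  rw [← integral_integral_swap (prodInt ν μ k hk hk0 h1 h2)]
  refine integral_congr_ae (Eventually.of_forall fun y => ?_)
  show (∫ x, |⟪y, x⟫_ℝ| ∂μ) * k y = ∫ x, |⟪y, x⟫_ℝ| * k y ∂μ
  rw [integral_mul_const]

theorem innInt (ν μ : Measure (E d)) [SFinite ν] [SFinite μ] (k : E d → ℝ) (hk : Continuous k)
    (hk0 : ∀ y, 0 ≤ k y) (h1 : Integrable (fun y => ‖y‖ * k y) ν)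
    (h2 : Integrable (fun x : E d => ‖x‖) μ) :
    Integrable (fun x => ∫ y, |⟪y, x⟫_ℝ| * k y ∂ν) μ :=
  (prodInt ν μ k hk hk0 h1 h2).integral_prod_right

/-- the Gaussian weight -/
noncomputable def W (y : E d) : ℝ := Real.exp (-(‖y‖ ^ 2 / 2))

theorem W_cont : Continuous (W : E d → ℝ) := by unfold W; fun_prop

theorem W_eq (y : E d) : W y = Real.exp (-(‖y‖ ^ 2 / (2 * 1))) := by rw [W, mul_one]

theorem W_int : Integrable (W : E d → ℝ) := by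
  have h := Pool.Agent.H888R2.KT.N0bx.int0 (κ := Fin d) (1 / 2) (by norm_num)
  refine h.congr (Eventually.of_forall fun y => ?_)
  show Real.exp (-(1 / 2 * ‖y‖ ^ 2)) = W y
  rw [W]
  congr 1
  ring

theorem W_sq (w : E d) : Integrable (fun y : E d => ⟪y, w⟫_ℝ ^ 2 * W y) ∧
    ∫ y : E d, ⟪y, w⟫_ℝ ^ 2 * W y = ‖w‖ ^ 2 * ∫ y : E d, W y := by
  have h := Pool.Agent.H888R2.KT.gauss2 (κ := Fin d) 1 one_pos w
  simp only [W_eq]
  refine ⟨h.1, ?_⟩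
  rw [h.2.1, one_mul, gc]

theorem W_abs (w : E d) : Integrable (fun y : E d => |⟪y, w⟫_ℝ| * W y) := by
  have h3 : Integrable (fun y : E d => (1 + ⟪y, w⟫_ℝ ^ 2) * W y) := by
    refine (W_int.add (W_sq w).1).congr (Eventually.of_forall fun y => ?_)
    show W y + ⟪y, w⟫_ℝ ^ 2 * W y = (1 + ⟪y, w⟫_ℝ ^ 2) * W y
    ring
  refine h3.mono' ?_ (Eventually.of_forall fun y => ?_)
  · apply Continuous.aestronglyMeasurable
    have := W_cont (d := d)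
    fun_prop
  · have h0 : 0 ≤ W y := (Real.exp_pos _).le
    rw [Real.norm_of_nonneg (mul_nonneg (abs_nonneg _) h0)]
    refine mul_le_mul_of_nonneg_right ?_ h0
    rw [← sq_abs]
    nlinarith [sq_nonneg (|⟪y, w⟫_ℝ| - 1), abs_nonneg ⟪y, w⟫_ℝ]

theorem W_norm : Integrable (fun y : E d => ‖y‖ * W y) := by
  have h3 : Integrable (fun y : E d => ∑ i, |⟪y, EuclideanSpace.single i (1 : ℝ)⟫_ℝ| * W y) :=
    integrable_finsetSum _ fun i _ => W_abs _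
  refine h3.mono' ?_ (Eventually.of_forall fun y => ?_)
  · apply Continuous.aestronglyMeasurable
    have := W_cont (d := d)
    fun_prop
  · have h0 : 0 ≤ W y := (Real.exp_pos _).le
    rw [Real.norm_of_nonneg (mul_nonneg (norm_nonneg _) h0), ← Finset.sum_mul]
    refine mul_le_mul_of_nonneg_right ?_ h0
    rw [EuclideanSpace.norm_eq]
    refine Real.sqrt_le_iff.2 ⟨Finset.sum_nonneg fun _ _ => abs_nonneg _, ?_⟩
    have h1 : ∀ i, ⟪y, EuclideanSpace.single i (1 : ℝ)⟫_ℝ = y i := by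
      intro i
      simp [EuclideanSpace.inner_single_right]
    simp only [h1, Real.norm_eq_abs]
    exact Finset.sum_sq_le_sq_sum_of_nonneg fun _ _ => abs_nonneg _

theorem W_bound (x : E d) : ∫ y : E d, |⟪y, x⟫_ℝ| * W y ≤ ‖x‖ * ∫ y : E d, W y := by
  rcases eq_or_ne x 0 with hx | hx
  · subst hx
    simp
  have hn : 0 < ‖x‖ := norm_pos_iff.2 hx
  obtain ⟨h1, h2⟩ := W_sq x
  have h3 : ∫ y : E d, |⟪y, x⟫_ℝ| * W y ≤
      ∫ y : E d, ((2 * ‖x‖)⁻¹ * (⟪y, x⟫_ℝ ^ 2 * W y) + ‖x‖ / 2 * W y) := by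
    refine integral_mono (W_abs x) ((h1.const_mul _).add (W_int.const_mul _)) fun y => ?_
    have h0 : 0 ≤ W y := (Real.exp_pos _).le
    show |⟪y, x⟫_ℝ| * W y ≤ (2 * ‖x‖)⁻¹ * (⟪y, x⟫_ℝ ^ 2 * W y) + ‖x‖ / 2 * W y
    have h4 : |⟪y, x⟫_ℝ| ≤ (2 * ‖x‖)⁻¹ * ⟪y, x⟫_ℝ ^ 2 + ‖x‖ / 2 := by
      rw [← sub_nonneg]
      have h5 : (2 * ‖x‖)⁻¹ * ⟪y, x⟫_ℝ ^ 2 + ‖x‖ / 2 - |⟪y, x⟫_ℝ| =
          (2 * ‖x‖)⁻¹ * (|⟪y, x⟫_ℝ| - ‖x‖) ^ 2 := by
        rw [← sq_abs ⟪y, x⟫_ℝ]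
        field_simp
        ring
      rw [h5]
      positivity
    calc |⟪y, x⟫_ℝ| * W y ≤ ((2 * ‖x‖)⁻¹ * ⟪y, x⟫_ℝ ^ 2 + ‖x‖ / 2) * W y :=
          mul_le_mul_of_nonneg_right h4 h0
      _ = _ := by ring
  have f1 := integral_add (μ := (volume : Measure (E d))) (h1.const_mul (2 * ‖x‖)⁻¹)
    (W_int.const_mul (‖x‖ / 2))
  have f2 := integral_const_mul (μ := (volume : Measure (E d))) (2 * ‖x‖)⁻¹
    (fun y : E d => ⟪y, x⟫_ℝ ^ 2 * W y)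
  have f3 := integral_const_mul (μ := (volume : Measure (E d))) (‖x‖ / 2) (W : E d → ℝ)
  rw [f1, f2, f3, h2] at h3
  refine h3.trans (le_of_eq ?_)
  field_simp
  ring

theorem fourth (hP : Bd P) (hI : Iso P) (x : E d) :
    ∫ z, ⟪z, x⟫_ℝ ^ 4 ∂(mP P) ≤ (160 * ‖x‖) ^ 4 := by
  have hP0 : P ∈ 𝓝 (0 : E d) := mem_interior_iff_mem_nhds.1 hP.int
  have h0 : volume P ≠ 0 := (Measure.measure_pos_of_mem_nhds volume hP0).ne'
  have h := mom_inner hP.conv hP.comp hP0 hI x 2 (by norm_num)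
  have hint : Integrable (fun z : E d => ⟪z, x⟫_ℝ ^ 4) (mP P) := int_K hP.comp h0 (by fun_prop)
  have e1 : ∫⁻ z, ENNReal.ofReal (⟪z, x⟫_ℝ ^ 4) ∂(mP P) ≤
      ENNReal.ofReal ((160 * ‖x‖) ^ 4) := by
    refine le_trans (le_of_eq (lintegral_congr fun z => ?_)) (h.trans (le_of_eq ?_))
    · congr 1
      rw [real_inner_comm]
      have : |⟪x, z⟫_ℝ| ^ (2 * 2) = ⟪x, z⟫_ℝ ^ 4 := by
        rw [pow_mul, sq_abs]; ring
      rw [this]
    · congr 1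
      norm_num
  rw [← ofReal_integral_eq_lintegral_ofReal hint (Eventually.of_forall fun z => by positivity)] at e1
  exact (ENNReal.ofReal_le_ofReal_iff (by positivity)).1 e1

theorem lower (hP : Bd P) (hI : Iso P) (x : E d) :
    ‖x‖ / 10 ^ 5 ≤ ∫ z, |⟪z, x⟫_ℝ| ∂(mP P) := by
  rcases eq_or_ne x 0 with hx | hx
  · subst hx
    simp
  have hn : 0 < ‖x‖ := norm_pos_iff.2 hx
  have hP0 : P ∈ 𝓝 (0 : E d) := mem_interior_iff_mem_nhds.1 hP.int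
  have h0 : volume P ≠ 0 := (Measure.measure_pos_of_mem_nhds volume hP0).ne'
  have i1 : Integrable (fun z : E d => |⟪z, x⟫_ℝ|) (mP P) := int_K hP.comp h0 (by fun_prop)
  have i2 : Integrable (fun z : E d => ⟪z, x⟫_ℝ ^ 2) (mP P) := int_K hP.comp h0 (by fun_prop)
  have i4 : Integrable (fun z : E d => ⟪z, x⟫_ℝ ^ 4) (mP P) := int_K hP.comp h0 (by fun_prop)
  set a : ℝ := 5 * 10 ^ 4 * ‖x‖ with ha
  have ha0 : 0 < a := by positivity
  have h1 : ∫ z, (a⁻¹ * ⟪z, x⟫_ℝ ^ 2 - (a⁻¹) ^ 3 * ⟪z, x⟫_ℝ ^ 4) ∂(mP P) ≤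
      ∫ z, |⟪z, x⟫_ℝ| ∂(mP P) := by
    refine integral_mono ((i2.const_mul _).sub (i4.const_mul _)) i1 fun z => ?_
    show a⁻¹ * ⟪z, x⟫_ℝ ^ 2 - (a⁻¹) ^ 3 * ⟪z, x⟫_ℝ ^ 4 ≤ |⟪z, x⟫_ℝ|
    obtain ⟨t, ht⟩ : ∃ t, t = |⟪z, x⟫_ℝ| := ⟨_, rfl⟩
    have e2 : ⟪z, x⟫_ℝ ^ 2 = t ^ 2 := by rw [ht, sq_abs]
    have e4 : ⟪z, x⟫_ℝ ^ 4 = t ^ 4 := by
      rw [show (4 : ℕ) = 2 * 2 by norm_num, pow_mul, pow_mul, e2]
    rw [e2, e4, ← ht]
    have ht0 : 0 ≤ t := by rw [ht]; exact abs_nonneg _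
    obtain ⟨τ, hτ⟩ : ∃ τ, τ = a⁻¹ * t := ⟨_, rfl⟩
    have hτ0 : 0 ≤ τ := by rw [hτ]; positivity
    have e5 : a⁻¹ * t ^ 2 - (a⁻¹) ^ 3 * t ^ 4 = t * (τ - τ ^ 3) := by rw [hτ]; ring
    rw [e5]
    have e6 : τ - τ ^ 3 ≤ 1 := by
      rcases le_total τ 1 with h | h
      · nlinarith [pow_nonneg hτ0 3]
      · nlinarith [mul_nonneg hτ0 (sub_nonneg.2 (one_le_pow₀ h (n := 2)))]
    calc t * (τ - τ ^ 3) ≤ t * 1 := mul_le_mul_of_nonneg_left e6 ht0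
      _ = t := mul_one t
  have f1 := integral_sub (μ := mP P) (i2.const_mul a⁻¹) (i4.const_mul ((a⁻¹) ^ 3))
  have f2 := integral_const_mul (μ := mP P) a⁻¹ (fun z : E d => ⟪z, x⟫_ℝ ^ 2)
  have f3 := integral_const_mul (μ := mP P) ((a⁻¹) ^ 3) (fun z : E d => ⟪z, x⟫_ℝ ^ 4)
  rw [f1, f2, f3, hI x] at h1
  have h4 := fourth hP hI x
  have h5 : (a⁻¹) ^ 3 * ∫ z, ⟪z, x⟫_ℝ ^ 4 ∂(mP P) ≤ (a⁻¹) ^ 3 * (160 * ‖x‖) ^ 4 :=
    mul_le_mul_of_nonneg_left h4 (by positivity)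
  have h6 : ‖x‖ / 10 ^ 5 ≤ a⁻¹ * ‖x‖ ^ 2 - (a⁻¹) ^ 3 * (160 * ‖x‖) ^ 4 := by
    have e1 : a⁻¹ * ‖x‖ ^ 2 = ‖x‖ / (5 * 10 ^ 4) := by rw [ha]; field_simp
    have e2 : (a⁻¹) ^ 3 * (160 * ‖x‖) ^ 4 = ‖x‖ * (160 ^ 4 / (5 * 10 ^ 4) ^ 3) := by
      rw [ha]; field_simp
    rw [e1, e2]
    nlinarith
  linarith

end ZGMaux

open MeasureTheory Set Filter Topology ZGMaux
open scoped ENNReal InnerProductSpace Pointwise
open Pool.Agent.H888R2.KT (gs gc)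
open Pool.Agent.N555.RZ

theorem zgm : T_ZGM := by
  rintro d C P hC hP hI ⟨n, ⟨μ, hμf, hμi, hμ⟩, hnb⟩
  have hP0 : P ∈ 𝓝 (0 : E d) := mem_interior_iff_mem_nhds.1 hP.int
  have h0 : volume P ≠ 0 := (Measure.measure_pos_of_mem_nhds volume hP0).ne'
  have hfin : volume P ≠ ⊤ := hP.comp.measure_lt_top.ne
  have hpr := mP_prob h0 hfin
  -- the bound `∫ ‖x‖ dμ ≤ 10⁵`
  have i1 : Integrable (fun z : E d => ‖z‖ * (1 : ℝ)) (mP P) := int_K hP.comp h0 (by fun_prop)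
  have h1 : ∫ x, ‖x‖ ∂μ ≤ 10 ^ 5 := by
    have e1 : ∫ z, gauge P z ∂(mP P) ≤ 1 := by
      have ig : Integrable (gauge P) (mP P) := int_K hP.comp h0 (continuous_gauge hP.conv hP0)
      have : ∫ z, gauge P z ∂(mP P) ≤ ∫ _z : E d, (1 : ℝ) ∂(mP P) := by
        refine integral_mono_ae ig (integrable_const _) ?_
        filter_upwards [mP_ae hP.comp.isClosed.measurableSet] with z hz
        exact gauge_le_one_of_mem hz
      simpa using this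
    have e2 := fub (mP P) μ (fun _ => (1 : ℝ)) continuous_const (fun _ => zero_le_one) i1 hμi
    have e3 := innInt (mP P) μ (fun _ => (1 : ℝ)) continuous_const (fun _ => zero_le_one) i1 hμi
    simp only [mul_one] at e2 e3
    have ig : Integrable (gauge P) (mP P) := int_K hP.comp h0 (continuous_gauge hP.conv hP0)
    have in0 : Integrable (fun y => ∫ x, |⟪y, x⟫_ℝ| ∂μ) (mP P) := by
      refine ig.mono' ?_ (Eventually.of_forall fun y => ?_)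
      · have hc : StronglyMeasurable (fun p : E d × E d => |⟪p.1, p.2⟫_ℝ|) :=
          (continuous_fst.inner continuous_snd).abs.stronglyMeasurable
        exact hc.integral_prod_right.aestronglyMeasurable
      · rw [Real.norm_of_nonneg (integral_nonneg fun x => abs_nonneg _), ← hμ y]
        exact (hnb y).1
    have e4 : ∫ y, ∫ x, |⟪y, x⟫_ℝ| ∂μ ∂(mP P) ≤ ∫ z, gauge P z ∂(mP P) :=
      integral_mono in0 ig fun y => by
        show ∫ x, |⟪y, x⟫_ℝ| ∂μ ≤ gauge P y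
        rw [← hμ y]
        exact (hnb y).1
    replace e1 := e4.trans e1
    rw [e2] at e1
    have e5 : ∫ x, ‖x‖ / 10 ^ 5 ∂μ ≤ ∫ x, ∫ y, |⟪y, x⟫_ℝ| ∂(mP P) ∂μ :=
      integral_mono (hμi.div_const _) e3 fun x => lower hP hI x
    rw [integral_div] at e5
    have e6 := e5.trans e1
    rwa [div_le_one (by positivity)] at e6
  -- the Gaussian mean
  have h2 : ∫ y : E d, gauge P y * Real.exp (-(‖y‖ ^ 2 / 2)) ≤
      C * ((∫ x, ‖x‖ ∂μ) * ∫ y : E d, W y) := by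
    have e2 := fub volume μ W W_cont (fun _ => (Real.exp_pos _).le) W_norm hμi
    have e3 := innInt volume μ W W_cont (fun _ => (Real.exp_pos _).le) W_norm hμi
    have e5 : Integrable (fun y : E d => ∫ x, |⟪y, x⟫_ℝ| * W y ∂μ) :=
      (prodInt volume μ W W_cont (fun _ => (Real.exp_pos _).le) W_norm hμi).integral_prod_left
    have e6 : Integrable (fun y : E d => (∫ x, |⟪y, x⟫_ℝ| ∂μ) * W y) := by
      refine e5.congr (Eventually.of_forall fun y => ?_)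
      show ∫ x, |⟪y, x⟫_ℝ| * W y ∂μ = (∫ x, |⟪y, x⟫_ℝ| ∂μ) * W y
      rw [integral_mul_const]
    have e4 : ∫ y : E d, gauge P y * Real.exp (-(‖y‖ ^ 2 / 2)) ≤
        ∫ y, C * ((∫ x, |⟪y, x⟫_ℝ| ∂μ) * W y) := by
      refine integral_mono_of_nonneg (Eventually.of_forall fun y =>
        mul_nonneg (gauge_nonneg _) (Real.exp_pos _).le) (e6.const_mul C)
        (Eventually.of_forall fun y => ?_)
      show gauge P y * Real.exp (-(‖y‖ ^ 2 / 2)) ≤ C * ((∫ x, |⟪y, x⟫_ℝ| ∂μ) * W y)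
      rw [← mul_assoc, ← hμ y]
      exact mul_le_mul_of_nonneg_right (hnb y).2 (Real.exp_pos _).le
    refine e4.trans ?_
    rw [integral_const_mul, e2, ← integral_mul_const]
    exact mul_le_mul_of_nonneg_left
      (integral_mono e3 (hμi.mul_const _) fun x => W_bound x) (by linarith)
  have hG : 0 < ∫ y : E d, W y := by
    refine (integral_pos_iff_support_of_nonneg (fun y => (Real.exp_pos _).le) W_int).2 ?_
    have : Function.support (fun y : E d => Real.exp (-(‖y‖ ^ 2 / 2))) = univ := by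
      ext y
      simp [(Real.exp_pos _).ne']
    rw [this]
    exact Measure.measure_univ_pos.2 (NeZero.ne _)
  unfold gm
  show (∫ y : E d, W y)⁻¹ * ∫ y : E d, gauge P y * Real.exp (-(‖y‖ ^ 2 / 2)) ≤ 10 ^ 5 * C
  rw [inv_mul_le_iff₀ hG]
  have hC0 : 0 ≤ C := by linarith
  calc _ ≤ C * ((∫ x, ‖x‖ ∂μ) * ∫ y : E d, W y) := h2
    _ ≤ C * (10 ^ 5 * ∫ y : E d, W y) :=
        mul_le_mul_of_nonneg_left (mul_le_mul_of_nonneg_right h1 hG.le) hC0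
    _ = _ := by ring

end Pool.Agent.T2h52.SP
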