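import Pool.Agent.R755.KF.P2
import Pool.Agent.R755.KF.T5
import Pool.Agent.T2h52.SP.Fin
import Pool.Agent.T2h52.SP.HB
import Pool.Agent.T2h52.SP.LAM
import Pool.Agent.T2h52.SP.BIG
import Pool.Agent.T2h52.SP.BIN
import Pool.Agent.T2h52.SP.BM
import Pool.Agent.T2h52.SP.CALC
import Pool.Agent.T2h52.SP.CHI
import Pool.Agent.T2h52.SP.CRT
import Pool.Agent.T2h52.SP.EIG
import Pool.Agent.T2h52.SP.ENT
import Pool.Agent.T2h52.SP.EXPM
import Pool.Agent.T2h52.SP.GMO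
import Pool.Agent.T2h52.SP.HALF
import Pool.Agent.T2h52.SP.HEA
import Pool.Agent.T2h52.SP.LCO
import Pool.Agent.T2h52.SP.LGM
import Pool.Agent.T2h52.SP.LIA
import Pool.Agent.T2h52.SP.LIM
import Pool.Agent.T2h52.SP.LLN
import Pool.Agent.T2h52.SP.LPO
import Pool.Agent.T2h52.SP.MON
import Pool.Agent.T2h52.SP.NET
import Pool.Agent.T2h52.SP.NUM
import Pool.Agent.T2h52.SP.OVL
import Pool.Agent.T2h52.SP.PLB
import Pool.Agent.T2h52.SP.PZD
import Pool.Agent.T2h52.SP.SEMI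
import Pool.Agent.T2h52.SP.SIG
import Pool.Agent.T2h52.SP.SM
import Pool.Agent.T2h52.SP.SMP
import Pool.Agent.T2h52.SP.SNH
import Pool.Agent.T2h52.SP.SPR
import Pool.Agent.T2h52.SP.SUD
import Pool.Agent.T2h52.SP.TAIL
import Pool.Agent.T2h52.SP.TGM
import Pool.Agent.T2h52.SP.TNU
import Pool.Agent.T2h52.SP.TYG
import Pool.Agent.T2h52.SP.TYI
import Pool.Agent.T2h52.SP.WEAK
import Pool.Agent.T2h52.SP.ZCO
import Pool.Agent.T2h52.SP.ZGM
import Pool.Agent.T2h52.SP.ZIM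

/-!
# The spread inequality: the theorems without hypotheses
-/

set_option autoImplicit false

namespace Pool.Agent.T2h52.SP

theorem z_zn : Pool.Agent.R755.KF.S_ZN := Pool.Agent.R755.KF.zn_ok

theorem z_ct : Pool.Agent.R755.KF.S_CT := Pool.Agent.R755.KF.ct z_zn

theorem z_heat : T_HEAT := heat z_zn (hea z_zn semi (sig z_zn)) lim (sig z_zn)

theorem z_mon : T_MON := mon_ calc_ z_heat (ent z_zn) z_ct

theorem z_lam : T_LAM := lam half hb_ expm (plb z_zn) z_mon (big SNHx.snh chi)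
  (OVLx.ovl z_zn tail_ hb_) sud bm weak sm_ eig (ent z_zn)

theorem z_spr : T_SPR := spr z_lam

theorem z_crt : T_CRT := crt z_spr

theorem z_lgm : T_LGM := lgm lln_

theorem z_tgm : T_TGM := tgm (smp bin net pzd) gmo tyg

end Pool.Agent.T2h52.SP
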