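import Mathlib
import Pool.Agent.R755.KF.Defs
import Pool.Agent.N555.RZ.Spread

/-!
# The spread inequality with a power of the dimension: definitions

`P` is a symmetric convex body in `E d`, isotropic (`Iso`): the covariance is the identity.
`gm g` is the Gaussian mean of `g`.
-/

set_option autoImplicit false

namespace Pool.Agent.T2h52.SP

open MeasureTheory Set Filter Topology
open scoped ENNReal InnerProductSpace Pointwise
open Pool.Agent.H888R2.KT (gs gc)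
open Pool.Agent.R755.KF (zn aff sd PB PL3 PLH)
open Pool.Agent.N555.RZ (mP Spr)

/-- Euclidean space -/
abbrev E (d : ℕ) : Type := EuclideanSpace ℝ (Fin d)

/-- symmetric convex bodies -/
structure Bd {d : ℕ} (P : Set (E d)) : Prop where
  conv : Convex ℝ P
  comp : IsCompact P
  int : 0 ∈ interior P
  sym : ∀ x ∈ P, -x ∈ P

/-- the covariance of the uniform measure is the identity -/
def Iso {d : ℕ} (P : Set (E d)) : Prop := ∀ w : E d, ∫ z, ⟪z, w⟫_ℝ ^ 2 ∂(mP P) = ‖w‖ ^ 2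

/-- the half body `{x ∈ P | 1/2 ≤ ⟪x, e⟫}` -/
def hb {d : ℕ} (P : Set (E d)) (e : E d) : Set (E d) := {x | x ∈ P ∧ 1 / 2 ≤ ⟪x, e⟫_ℝ}

/-- law of `x - β`, `x` uniform in `A` -/
noncomputable def la {d : ℕ} (A : Set (E d)) (β : E d) : Measure (E d) :=
  (mP A).map fun x => x - β

/-- law of `β - x`, `x` uniform in `A` -/
noncomputable def lb {d : ℕ} (A : Set (E d)) (β : E d) : Measure (E d) :=
  (mP A).map fun x => β - x

/-- the mean of `g` for the standard Gaussian measure -/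
noncomputable def gm {d : ℕ} (g : E d → ℝ) : ℝ :=
  (∫ y : E d, Real.exp (-(‖y‖ ^ 2 / 2)))⁻¹ * ∫ y : E d, g y * Real.exp (-(‖y‖ ^ 2 / 2))

/-- `∫ √(f_a f_b) ‖∇σ‖²`, `σ = (1/2) log (f_b / f_a)` -/
noncomputable def fi {d : ℕ} (h : ℝ) (νa νb : Measure (E d)) : ℝ :=
  (gc (Fin d) h)⁻¹ * ∫ y, Real.sqrt (zn h νa y * zn h νb y) * ‖sd h νa νb y‖ ^ 2

/-- `σ = (1/2) log (f_b / f_a)` -/
noncomputable def sg {d : ℕ} (h : ℝ) (νa νb : Measure (E d)) (y : E d) : ℝ :=
  1 / 2 * (Real.log (zn h νb y) - Real.log (zn h νa y))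

/-- norms of the form `∫ |⟪u, x⟫| dμ(x)` -/
def ZN {d : ℕ} (g : E d → ℝ) : Prop :=
  ∃ μ : Measure (E d), IsFiniteMeasure μ ∧ Integrable (fun x : E d => ‖x‖) μ ∧
    ∀ u, g u = ∫ x, |⟪u, x⟫_ℝ| ∂μ

end Pool.Agent.T2h52.SP
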