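import Pool.Agent.T2h52.SP.Stm3
import Pool.Agent.T2h52.SP.LGM
import Pool.Agent.T2h52.SP.TYG

/-!
# GMO: monotonicity of Gaussian means
-/

set_option autoImplicit false
set_option linter.all false

namespace Pool.Agent.T2h52.SP

open MeasureTheory Set Filter Topology
open scoped ENNReal InnerProductSpace Pointwise
open Pool.Agent.N555.RZ (mP Spr)

namespace Gmo

open Sud (W W_pos W_cont W_int W_int1 W_neg)
open Lgm (Z Z_pos ga ga_prob ga_int ga_gm ga_integrable)

/-- the square root of a nonnegative quadratic form -/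
lemma sqrt_form {d N : ℕ} (x : Fin N → E d) (a : ℝ)
    (h : ∀ w : E d, a ^ 2 * ‖w‖ ^ 2 ≤ ∑ i, ⟪x i, w⟫_ℝ ^ 2) :
    ∃ y : Fin d → E d, ∀ w : E d, ∑ j, ⟪y j, w⟫_ℝ ^ 2 + a ^ 2 * ‖w‖ ^ 2 = ∑ i, ⟪x i, w⟫_ℝ ^ 2 := by
  classical
  let A : E d →ₗ[ℝ] E d :=
    { toFun := fun w => (∑ i, ⟪x i, w⟫_ℝ • x i) - a ^ 2 • w
      map_add' := by
        intro v w
        simp only [inner_add_right, add_smul, Finset.sum_add_distrib, smul_add]
        abel
      map_smul' := by
        intro c w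
        simp only [inner_smul_right, RingHom.id_apply, smul_sub, Finset.smul_sum, smul_smul]
        rw [mul_comm (a ^ 2) c] }
  have hAa : ∀ w, A w = (∑ i, ⟪x i, w⟫_ℝ • x i) - a ^ 2 • w := fun w => rfl
  have hin : ∀ v w, ⟪A v, w⟫_ℝ = ∑ i, ⟪x i, v⟫_ℝ * ⟪x i, w⟫_ℝ - a ^ 2 * ⟪v, w⟫_ℝ := by
    intro v w
    rw [hAa, inner_sub_left, sum_inner, real_inner_smul_left]
    congr 1
    refine Finset.sum_congr rfl fun i _ => ?_
    rw [real_inner_smul_left]
  have hS : A.IsSymmetric := by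
    intro v w
    rw [real_inner_comm (A w) v, hin, hin, real_inner_comm w v]
    congr 1
    exact Finset.sum_congr rfl fun i _ => mul_comm _ _
  have hn : Module.finrank ℝ (E d) = d := by simp
  have hpos : ∀ w, 0 ≤ ⟪A w, w⟫_ℝ := by
    intro w
    rw [hin, real_inner_self_eq_norm_sq]
    have := h w
    have e : ∑ i, ⟪x i, w⟫_ℝ * ⟪x i, w⟫_ℝ = ∑ i, ⟪x i, w⟫_ℝ ^ 2 :=
      Finset.sum_congr rfl fun i _ => (sq _).symm
    rw [e]
    linarith
  set b := hS.eigenvectorBasis hn with hb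
  have hev : ∀ j, A (b j) = hS.eigenvalues hn j • b j := by
    intro j
    have := hS.apply_eigenvectorBasis hn j
    exact this
  have hl : ∀ j, 0 ≤ hS.eigenvalues hn j := by
    intro j
    have h1 := hpos (b j)
    rw [hev, real_inner_smul_left, real_inner_self_eq_norm_sq, b.orthonormal.1 j] at h1
    linarith
  refine ⟨fun j => Real.sqrt (hS.eigenvalues hn j) • b j, fun w => ?_⟩
  have h2 : ∀ j, ⟪Real.sqrt (hS.eigenvalues hn j) • b j, w⟫_ℝ ^ 2 = ⟪A w, b j⟫_ℝ * ⟪b j, w⟫_ℝ := by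
    intro j
    rw [real_inner_smul_left, mul_pow, Real.sq_sqrt (hl j), hS w (b j), hev, real_inner_smul_right,
      real_inner_comm (b j) w]
    ring
  rw [Finset.sum_congr rfl fun j _ => h2 j, b.sum_inner_mul_inner, hin, real_inner_self_eq_norm_sq]
  have e : ∑ i, ⟪x i, w⟫_ℝ * ⟪x i, w⟫_ℝ = ∑ i, ⟪x i, w⟫_ℝ ^ 2 :=
    Finset.sum_congr rfl fun i _ => (sq _).symm
  rw [e]
  ring

/-- characteristic function of the standard Gaussian measure -/
lemma cf {n : ℕ} (u : E n) : ∫ y : E n, Complex.exp ((⟪y, u⟫_ℝ : ℂ) * Complex.I) ∂(ga n) =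
    Complex.exp (-(‖u‖ ^ 2 / 2 : ℝ)) := by
  have h0 := GaussianFourier.integral_cexp_neg_mul_sq_norm_add (V := E n) (b := 1 / 2)
    (by norm_num) Complex.I u
  have h1 := GaussianFourier.integral_cexp_neg_mul_sq_norm_add (V := E n) (b := 1 / 2)
    (by norm_num) Complex.I (0 : E n)
  have eZ : ((Z n : ℝ) : ℂ) = (Real.pi / (1 / 2 : ℂ)) ^ (Module.finrank ℝ (E n) / 2 : ℂ) := by
    have e : ∀ v : E n, Complex.exp (-(1 / 2 : ℂ) * (‖v‖ : ℂ) ^ 2 + Complex.I * ⟪(0 : E n), v⟫_ℝ) =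
        ((W v : ℝ) : ℂ) := by
      intro v
      unfold W
      rw [inner_zero_left, Complex.ofReal_exp]
      congr 1
      push_cast
      ring
    rw [integral_congr_ae (Eventually.of_forall e), integral_complex_ofReal] at h1
    rw [show Z n = ∫ y : E n, W y from rfl, h1]
    simp
  have hZ := Z_pos (d := n)
  have hd : ∫ y : E n, Complex.exp ((⟪y, u⟫_ℝ : ℂ) * Complex.I) ∂(ga n) =
      ((Z n : ℝ) : ℂ)⁻¹ * ∫ y : E n, Complex.exp ((⟪y, u⟫_ℝ : ℂ) * Complex.I) * ((W y : ℝ) : ℂ) := by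
    unfold ga
    rw [integral_withDensity_eq_integral_toReal_smul Lgm.dm
      (Eventually.of_forall fun _ => ENNReal.ofReal_lt_top), ← integral_const_mul]
    refine integral_congr_ae (Eventually.of_forall fun y => ?_)
    simp only
    rw [ENNReal.toReal_ofReal (Lgm.dpos y), Complex.real_smul]
    push_cast
    ring
  have e2 : ∀ v : E n, Complex.exp ((⟪v, u⟫_ℝ : ℂ) * Complex.I) * ((W v : ℝ) : ℂ) =
      Complex.exp (-(1 / 2 : ℂ) * (‖v‖ : ℂ) ^ 2 + Complex.I * ⟪u, v⟫_ℝ) := by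
    intro v
    unfold W
    rw [Complex.ofReal_exp, ← Complex.exp_add, real_inner_comm]
    congr 1
    push_cast
    ring
  rw [hd, integral_congr_ae (Eventually.of_forall e2), h0, ← eZ, ← mul_assoc, inv_mul_cancel₀, one_mul]
  · congr 1
    rw [Complex.I_sq]
    push_cast
    ring
  · exact_mod_cast hZ.ne'

/-- the linear map `G ↦ ∑ G_i x_i` -/
lemma lin_cont {N d : ℕ} (x : Fin N → E d) : Continuous fun G : E N => ∑ i, G i • x i := by
  fun_prop

/-- its adjoint -/
noncomputable def adj {N d : ℕ} (x : Fin N → E d) (u : E d) : E N :=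
  WithLp.toLp 2 fun i => ⟪x i, u⟫_ℝ

lemma adj_inner {N d : ℕ} (x : Fin N → E d) (u : E d) (G : E N) :
    ⟪∑ i, G i • x i, u⟫_ℝ = ⟪G, adj x u⟫_ℝ := by
  rw [sum_inner, PiLp.inner_apply]
  refine Finset.sum_congr rfl fun i _ => ?_
  rw [real_inner_smul_left]
  simp [adj, mul_comm]

lemma adj_norm {N d : ℕ} (x : Fin N → E d) (u : E d) :
    ‖adj x u‖ ^ 2 = ∑ i, ⟪x i, u⟫_ℝ ^ 2 := by
  rw [EuclideanSpace.norm_sq_eq]
  refine Finset.sum_congr rfl fun i _ => ?_
  simp [adj]

lemma cf_prod {d : ℕ} (y : Fin d → E d) (a : ℝ) (u : E d) :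
    ∫ z : E d × E d, Complex.exp ((⟪a • z.1 + ∑ j, z.2 j • y j, u⟫_ℝ : ℂ) * Complex.I)
      ∂((ga d).prod (ga d)) =
    Complex.exp (-((a ^ 2 * ‖u‖ ^ 2 + ∑ j, ⟪y j, u⟫_ℝ ^ 2) / 2 : ℝ)) := by
  haveI := ga_prob (d := d)
  have e : ∀ z : E d × E d, Complex.exp ((⟪a • z.1 + ∑ j, z.2 j • y j, u⟫_ℝ : ℂ) * Complex.I) =
      Complex.exp ((⟪z.1, a • u⟫_ℝ : ℂ) * Complex.I) *
        Complex.exp ((⟪z.2, adj y u⟫_ℝ : ℂ) * Complex.I) := by
    intro z
    rw [← Complex.exp_add, inner_add_left, adj_inner, real_inner_smul_left, real_inner_smul_right]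
    congr 1
    push_cast
    ring
  rw [integral_congr_ae (Eventually.of_forall e),
    integral_prod_mul (fun z : E d => Complex.exp ((⟪z, a • u⟫_ℝ : ℂ) * Complex.I))
      (fun z : E d => Complex.exp ((⟪z, adj y u⟫_ℝ : ℂ) * Complex.I)), cf, cf, ← Complex.exp_add]
  congr 1
  rw [adj_norm, norm_smul, mul_pow, Real.norm_eq_abs, sq_abs]
  push_cast
  ring

/-- the two laws are the same -/
lemma law_eq {N d : ℕ} (x : Fin N → E d) (y : Fin d → E d) (a : ℝ)
    (h : ∀ w : E d, ∑ j, ⟪y j, w⟫_ℝ ^ 2 + a ^ 2 * ‖w‖ ^ 2 = ∑ i, ⟪x i, w⟫_ℝ ^ 2) :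
    (ga N).map (fun G : E N => ∑ i, G i • x i) =
      ((ga d).prod (ga d)).map (fun z : E d × E d => a • z.1 + ∑ j, z.2 j • y j) := by
  haveI := ga_prob (d := d)
  haveI := ga_prob (d := N)
  have hc1 : Continuous fun G : E N => ∑ i, G i • x i := lin_cont x
  have hc2 : Continuous fun z : E d × E d => a • z.1 + ∑ j, z.2 j • y j :=
    (continuous_fst.const_smul a).add ((lin_cont y).comp continuous_snd)
  haveI : IsProbabilityMeasure ((ga N).map (fun G : E N => ∑ i, G i • x i)) :=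
    Measure.isProbabilityMeasure_map hc1.aemeasurable
  haveI : IsProbabilityMeasure
      (((ga d).prod (ga d)).map (fun z : E d × E d => a • z.1 + ∑ j, z.2 j • y j)) :=
    Measure.isProbabilityMeasure_map hc2.aemeasurable
  refine Measure.ext_of_charFun (funext fun u => ?_)
  rw [charFun_apply, charFun_apply, integral_map hc1.aemeasurable (by fun_prop),
    integral_map hc2.aemeasurable (by fun_prop), cf_prod]
  simp_rw [adj_inner]
  rw [cf, adj_norm, ← h u]
  congr 2
  ring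

end Gmo

open Gmo Lgm Tyg in
theorem gmo : T_GMO := by
  intro d N P x a hP ha h
  haveI := ga_prob (d := d)
  haveI := ga_prob (d := N)
  obtain ⟨y, hy⟩ := sqrt_form x a h
  have hP0 : P ∈ 𝓝 (0 : E d) := mem_interior_iff_mem_nhds.1 hP.int
  have hcont : Continuous (gauge P) := continuous_gauge hP.conv hP0
  have hy' : ∀ w : E d, ∑ j, ⟪(-y j), w⟫_ℝ ^ 2 + a ^ 2 * ‖w‖ ^ 2 = ∑ i, ⟪x i, w⟫_ℝ ^ 2 := by
    intro w
    rw [← hy w]
    congr 1
    refine Finset.sum_congr rfl fun j _ => ?_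
    rw [inner_neg_left, neg_sq]
  have l1 := law_eq x y a hy
  have l2 := law_eq x (fun j => -y j) a hy'
  have hc1 : Continuous fun G : E N => ∑ i, G i • x i := lin_cont x
  have hc2 : ∀ v : Fin d → E d, Continuous fun z : E d × E d => a • z.1 + ∑ j, z.2 j • v j :=
    fun v => (continuous_fst.const_smul a).add ((lin_cont v).comp continuous_snd)
  have hfi : Integrable (gauge P) ((ga N).map (fun G : E N => ∑ i, G i • x i)) :=
    (integrable_map_measure hcont.aestronglyMeasurable hc1.aemeasurable).2 (f_int hP x)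
  have hi1 : Integrable (fun z : E d × E d => gauge P (a • z.1 + ∑ j, z.2 j • y j))
      ((ga d).prod (ga d)) := by
    have := hfi
    rw [l1] at this
    exact (integrable_map_measure hcont.aestronglyMeasurable (hc2 y).aemeasurable).1 this
  have hi2 : Integrable (fun z : E d × E d => gauge P (a • z.1 + ∑ j, z.2 j • (-y j)))
      ((ga d).prod (ga d)) := by
    have := hfi
    rw [l2] at this
    exact (integrable_map_measure hcont.aestronglyMeasurable (hc2 _).aemeasurable).1 this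
  have e0 : ∫ v, gauge P v ∂((ga N).map (fun G : E N => ∑ i, G i • x i)) =
      gm (fun G : E N => gauge P (∑ i, G i • x i)) := by
    rw [integral_map hc1.aemeasurable hcont.aestronglyMeasurable, ga_gm]
  have e1 : ∫ z, gauge P (a • z.1 + ∑ j, z.2 j • y j) ∂((ga d).prod (ga d)) =
      gm (fun G : E N => gauge P (∑ i, G i • x i)) := by
    rw [← e0, l1, integral_map (hc2 y).aemeasurable hcont.aestronglyMeasurable]
  have e2 : ∫ z, gauge P (a • z.1 + ∑ j, z.2 j • (-y j)) ∂((ga d).prod (ga d)) =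
      gm (fun G : E N => gauge P (∑ i, G i • x i)) := by
    rw [← e0, l2, integral_map (hc2 _).aemeasurable hcont.aestronglyMeasurable]
  have hgi : Integrable (gauge P) (ga d) := by
    have h1 := f_int hP (fun j : Fin d => EuclideanSpace.single j (1 : ℝ))
    refine h1.congr (Eventually.of_forall fun G => ?_)
    simp only
    congr 1
    ext i
    simp [Finset.sum_apply, Pi.single_apply]
  have e3 : ∫ z : E d × E d, 2 * a * gauge P z.1 ∂((ga d).prod (ga d)) = 2 * a * gm (gauge P) := by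
    rw [integral_const_mul, integral_fun_fst (fun z : E d => gauge P z), probReal_univ, one_smul, ga_gm]
  have hpt : ∀ z : E d × E d, 2 * a * gauge P z.1 ≤
      gauge P (a • z.1 + ∑ j, z.2 j • y j) + gauge P (a • z.1 + ∑ j, z.2 j • (-y j)) := by
    intro z
    have h1 := gauge_add_le hP.conv (absorbent_nhds_zero hP0) (a • z.1 + ∑ j, z.2 j • y j)
      (a • z.1 + ∑ j, z.2 j • (-y j))
    have h2 : (a • z.1 + ∑ j, z.2 j • y j) + (a • z.1 + ∑ j, z.2 j • (-y j)) = (2 * a) • z.1 := by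
      simp only [smul_neg, Finset.sum_neg_distrib]
      rw [two_mul, add_smul]
      abel
    rw [h2, gauge_smul_of_nonneg (by positivity), smul_eq_mul] at h1
    exact h1
  have hi3 : Integrable (fun z : E d × E d => 2 * a * gauge P z.1) ((ga d).prod (ga d)) :=
    (hgi.comp_fst (ga d)).const_mul _
  have h4 := integral_mono hi3 (hi1.add hi2) hpt
  have h5 : ∫ z, ((fun z : E d × E d => gauge P (a • z.1 + ∑ j, z.2 j • y j)) +
      (fun z : E d × E d => gauge P (a • z.1 + ∑ j, z.2 j • (-y j)))) z ∂((ga d).prod (ga d)) =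
      gm (fun G : E N => gauge P (∑ i, G i • x i)) + gm (fun G : E N => gauge P (∑ i, G i • x i)) := by
    rw [integral_add' hi1 hi2, e1, e2]
  rw [e3] at h4
  have h6 : 2 * a * gm (gauge P) ≤
      gm (fun G : E N => gauge P (∑ i, G i • x i)) + gm (fun G : E N => gauge P (∑ i, G i • x i)) := by
    rw [← h5]
    exact h4
  linarith

end Pool.Agent.T2h52.SP
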