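import Pool.Agent.T2h52.SP.Stm

/-!
# Task MIN
-/

set_option autoImplicit false

namespace Pool.Agent.T2h52.SP

lemma min_aux {ι : Type} (s : Finset ι) (b : ι → ℝ) (hb : ∀ j, 0 ≤ b j) (c : ℝ) (hc : 0 ≤ c)
    (h : c ≤ ∑ k ∈ s, b k) : c ≤ ∑ k ∈ s, min c (b k) := by
  by_cases hk : ∃ k ∈ s, c ≤ b k
  · obtain ⟨k, hk1, hk2⟩ := hk
    calc c = min c (b k) := (min_eq_left hk2).symm
      _ ≤ ∑ k ∈ s, min c (b k) :=
        Finset.single_le_sum (f := fun k => min c (b k)) (fun i _ => le_min hc (hb i)) hk1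
  · push Not at hk
    refine h.trans (le_of_eq ?_)
    exact Finset.sum_congr rfl fun k hks => (min_eq_right (hk k hks).le).symm

theorem min_ : T_MIN := by
  intro ι s a b ha hb
  rcases le_total (∑ j ∈ s, a j) (∑ j ∈ s, b j) with h | h
  · rw [min_eq_left h]
    refine Finset.sum_le_sum fun j hj => ?_
    refine min_aux s b hb (a j) (ha j) ?_
    exact (Finset.single_le_sum (f := a) (fun i _ => ha i) hj).trans h
  · rw [min_eq_right h, Finset.sum_comm]
    refine Finset.sum_le_sum fun j hj => ?_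
    have := min_aux s a ha (b j) (hb j) ((Finset.single_le_sum (f := b) (fun i _ => hb i) hj).trans h)
    simpa only [min_comm] using this

end Pool.Agent.T2h52.SP
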