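import Pool.Agent.T2h52.SP.Stm
import Pool.Agent.H888R2.KT.N0

/-!
# Task SEMI: the semigroup property of the densities
-/

set_option autoImplicit false

namespace Pool.Agent.T2h52.SP

open MeasureTheory Set Filter Topology
open scoped ENNReal InnerProductSpace
open Pool.Agent.H888R2.KT (gs gc gc_pos)
open Pool.Agent.R755.KF (zn aff sd PB PL3 PLH)

namespace SEMIaux

theorem gc_eq {d : ℕ} (h : ℝ) (hh : 0 < h) :
    gc (Fin d) h = (2 * Real.pi * h) ^ ((d : ℝ) / 2) := by
  unfold gc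
  have h1 : ∀ y : EuclideanSpace ℝ (Fin d), Real.exp (-(‖y‖ ^ 2 / (2 * h))) =
      Real.exp (-(1 / (2 * h)) * ‖y‖ ^ 2) := by
    intro y
    congr 1
    ring
  rw [integral_congr_ae (Filter.Eventually.of_forall h1)]
  have h2 := GaussianFourier.integral_rexp_neg_mul_sq_norm
    (V := EuclideanSpace ℝ (Fin d)) (b := 1 / (2 * h)) (by positivity)
  rw [h2, finrank_euclideanSpace, Fintype.card_fin]
  congr 1
  field_simp

theorem gc_mul {d : ℕ} (h δ : ℝ) (hh : 0 < h) (hδ : 0 < δ) :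
    gc (Fin d) (h * δ / (h + δ)) * gc (Fin d) (h + δ) = gc (Fin d) h * gc (Fin d) δ := by
  rw [gc_eq _ (by positivity), gc_eq _ (by positivity), gc_eq _ hh, gc_eq _ hδ,
    ← Real.mul_rpow (by positivity) (by positivity), ← Real.mul_rpow (by positivity) (by positivity)]
  congr 1
  field_simp

/-- the product of two Gaussian kernels -/
theorem ker {d : ℕ} (h δ : ℝ) (hh : 0 < h) (hδ : 0 < δ) (x y z : E d) :
    Real.exp (-(‖x - z‖ ^ 2 / (2 * h))) * Real.exp (-(‖y - z‖ ^ 2 / (2 * δ))) =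
      Real.exp (-(‖x - y‖ ^ 2 / (2 * (h + δ)))) *
        Real.exp (-(‖(δ / (h + δ)) • x + (h / (h + δ)) • y - z‖ ^ 2 /
          (2 * (h * δ / (h + δ))))) := by
  rw [← Real.exp_add, ← Real.exp_add]
  congr 1
  have hs : h + δ ≠ 0 := by positivity
  have e1 : x - y = (x - z) - (y - z) := by abel
  have e2 : (δ / (h + δ)) • x + (h / (h + δ)) • y - z =
      (δ / (h + δ)) • (x - z) + (h / (h + δ)) • (y - z) := by
    have : z = (δ / (h + δ)) • z + (h / (h + δ)) • z := by
      rw [← add_smul, ← add_div, add_comm δ h, div_self hs, one_smul]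
    nth_rewrite 1 [this]
    module
  have key : ∀ a b : E d, -(‖a‖ ^ 2 / (2 * h)) + -(‖b‖ ^ 2 / (2 * δ)) =
      -(‖a - b‖ ^ 2 / (2 * (h + δ))) +
        -(‖(δ / (h + δ)) • a + (h / (h + δ)) • b‖ ^ 2 / (2 * (h * δ / (h + δ)))) := by
    intro a b
    rw [norm_sub_sq_real, norm_add_sq_real, norm_smul, norm_smul, real_inner_smul_left,
      real_inner_smul_right, Real.norm_of_nonneg (by positivity : 0 ≤ δ / (h + δ)),
      Real.norm_of_nonneg (by positivity : 0 ≤ h / (h + δ))]
    field_simp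
    ring
  rw [e1, e2]
  exact key _ _

end SEMIaux

open SEMIaux

theorem semi : T_SEMI := by
  intro d h δ B ν hh hδ hν y
  have := hν.prob
  have hκ : 0 < h * δ / (h + δ) := by positivity
  obtain ⟨gp, g1, g2, -⟩ := gc_pos (κ := Fin d) δ hδ
  obtain ⟨gph, -, -, -⟩ := gc_pos (κ := Fin d) h hh
  obtain ⟨gps, -, -, -⟩ := gc_pos (κ := Fin d) (h + δ) (by positivity)
  obtain ⟨-, l1, -, -⟩ := gc_pos (κ := Fin d) (h * δ / (h + δ)) hκ
  have iF : Integrable (Function.uncurry fun (z x : E d) =>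
      Real.exp (-(‖x - z‖ ^ 2 / (2 * h))) * Real.exp (-(‖y - z‖ ^ 2 / (2 * δ))))
      (volume.prod ν) := by
    have i1 : Integrable (fun p : E d × E d => Real.exp (-(‖y - p.1‖ ^ 2 / (2 * δ))) * (1 : ℝ))
        (volume.prod ν) := (g2 y).mul_prod (integrable_const (1 : ℝ))
    refine i1.mono' ?_ (Filter.Eventually.of_forall fun p => ?_)
    · have hc : Continuous (Function.uncurry fun (z x : E d) =>
        Real.exp (-(‖x - z‖ ^ 2 / (2 * h))) * Real.exp (-(‖y - z‖ ^ 2 / (2 * δ)))) := by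
        simp only [Function.uncurry_def]
        fun_prop
      exact hc.aestronglyMeasurable
    · simp only [Function.uncurry]
      rw [Real.norm_of_nonneg (by positivity), mul_comm]
      refine mul_le_mul_of_nonneg_left ?_ (Real.exp_pos _).le
      rw [Real.exp_le_one_iff]
      have : 0 ≤ ‖p.2 - p.1‖ ^ 2 / (2 * h) := by positivity
      linarith
  have e1 : gs δ (zn h ν) y = (∫ z : E d, ∫ x : E d, Real.exp (-(‖x - z‖ ^ 2 / (2 * h))) *
      Real.exp (-(‖y - z‖ ^ 2 / (2 * δ))) ∂ν) / gc (Fin d) δ := by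
    unfold gs
    congr 1
    refine integral_congr_ae (Filter.Eventually.of_forall fun z => ?_)
    simp only
    unfold zn
    rw [← integral_mul_const]
  have e2 : ∀ x : E d, ∫ z : E d, Real.exp (-(‖x - z‖ ^ 2 / (2 * h))) *
      Real.exp (-(‖y - z‖ ^ 2 / (2 * δ))) =
      Real.exp (-(‖x - y‖ ^ 2 / (2 * (h + δ)))) * gc (Fin d) (h * δ / (h + δ)) := by
    intro x
    rw [integral_congr_ae (Filter.Eventually.of_forall fun z => ker h δ hh hδ x y z),
      integral_const_mul, l1]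
  rw [e1, integral_integral_swap iF, integral_congr_ae (Filter.Eventually.of_forall e2),
    integral_mul_const]
  have e3 := gc_mul (d := d) h δ hh hδ
  change (gc (Fin d) (h + δ))⁻¹ * zn (h + δ) ν y = (gc (Fin d) h)⁻¹ *
    (zn (h + δ) ν y * gc (Fin d) (h * δ / (h + δ)) / gc (Fin d) δ)
  generalize zn (h + δ) ν y = Z
  field_simp
  linear_combination (-Z) * e3

end Pool.Agent.T2h52.SP
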