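import Pool.Agent.T2h52.SP.Defs
import Pool.Agent.TH591.Lie.Sep

/-!
# The spread inequality with a power of the dimension: statements

Each `T_XXX : Prop` is proved in a file `Pool/Agent/T2h52/SP/XXX.lean` as
`theorem xxx (hypotheses, other T_'s or library theorems) : T_XXX`.

The final theorems. (A) An isotropic symmetric convex body `P` in dimension `d` whose gauge has the
Gaussian mean at most `l`, `l⁴ ≤ c d`, is `c' d^{1/6} / l^{2/3}`-spread, hence (library) covered by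
fewer than `2^d` translates of its interior if its gauge has finite cotype. (B) For zonoids `K` (the
polar body is the unit ball of a subspace of `L_1`) of a sufficiently high dimension, and more
generally for all symmetric `K` the Banach-Mazur distance of which from a zonoid is at most
`d^{1/300}`, the faces are separated from the centre by fewer than `2^d` hyperplanes.
-/

set_option autoImplicit false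

namespace Pool.Agent.T2h52.SP

open MeasureTheory Set Filter Topology
open scoped ENNReal InnerProductSpace Pointwise
open Pool.Agent.H888R2.KT (gs gc)
open Pool.Agent.R755.KF (zn aff sd PB PL3 PLH)
open Pool.Agent.N555.RZ (mP Spr)

/-! ### Half bodies -/

/-- HALF. The half body has at least the part `10^(-10)` of the volume.
Proof. `s = ⟪x, e⟫`, `E s² = 1` (`Iso`), `E s⁴ ≤ 160⁴` (`N555.RZ.mom_inner` with `p = 2`).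
Paley-Zygmund: `3/4 = E (s² - 1/4) ≤ E s² 1_{s² ≥ 1/4} ≤ (E s⁴)^(1/2) μ(|s| ≥ 1/2)^(1/2)`, so
`μ(|s| ≥ 1/2) ≥ (9/16)/160⁴ ≥ 8 * 10^(-10)`, and `x ↦ -x` preserves `mP P`. -/
def T_HALF : Prop := ∀ (d : ℕ) (P : Set (E d)), Bd P → Iso P → ∀ e : E d, ‖e‖ = 1 →
  ENNReal.ofReal (1 / 10 ^ 10) * volume P ≤ volume (hb P e)

/-- HB. Elementary facts on the half body and the laws.
Proof. Closed subset of a compact set; laws of bounded random vectors; `lb` is the reflection of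
`la`. The mean of `la` is `0` if `β` is the barycentre of `mP A`. -/
def T_HB : Prop := ∀ (d : ℕ) (P A : Set (E d)), Bd P → A ⊆ P → Convex ℝ A → IsCompact A →
  0 < volume A → ∀ β : E d, (∃ B : ℝ, 0 ≤ B ∧ PB B (la A β) ∧ PB B (lb A β)) ∧
    lb A β = (la A β).map (fun x => -x) ∧
    ((∀ w : E d, ⟪β, w⟫_ℝ = ∫ x, ⟪x, w⟫_ℝ ∂(mP A)) → ∀ w : E d, ∫ x, ⟪x, w⟫_ℝ ∂(la A β) = 0)

/-- EXPM. Exponential moments of linear functionals of the centred half body.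
Proof. `E_P exp (⟪x, w⟫ / 20) ≤ 2` for `‖w‖ ≤ 1`: `N555.RZ.exp_one_side` with `s = 1` and
`φ = (20 * (log (3/2) / 8))⁻¹ ⟪w, ·⟫`, where `E |⟪x, w⟫| ≤ (E ⟪x, w⟫²)^(1/2) ≤ 1` and
`log (3/2) / 8 ≥ 1/20` (`N555.RZ.log_ge`). So `E_P exp (|⟪x, w⟫| / 20) ≤ 4` and
`E_A exp (|⟪x, w⟫| / 20) ≤ 4 * 10^10` (the density of `A` in `P` is at most `10^10`). By
Jensen `exp (|⟪β, w⟫| / 20) ≤ E_A exp (|⟪x, w⟫| / 20)`, and `|⟪x - β, w⟫| ≤ |⟪x, w⟫| + |⟪β, w⟫|`,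
so the integral is at most `(4 * 10^10)² ≤ 10^22`. -/
def T_EXPM : Prop := ∀ (d : ℕ) (P A : Set (E d)), Bd P → Iso P → A ⊆ P → MeasurableSet A →
  ENNReal.ofReal (1 / 10 ^ 10) * volume P ≤ volume A → ∀ β : E d,
  (∀ w : E d, ⟪β, w⟫_ℝ = ∫ x, ⟪x, w⟫_ℝ ∂(mP A)) → ∀ w : E d, ‖w‖ ≤ 1 →
  ∫ x, Real.exp (|⟪x, w⟫_ℝ| / 20) ∂(la A β) ≤ 10 ^ 22

/-- PLB. The Prékopa-Leindler hypothesis (constant `1 + η = |P| / |A|`) for the laws of `x - β` and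
`β - x`, `x ∈ A ⊆ P`.
Proof. `PL3 (la A β) (lb A β) (mP P) ((|P|/|A|)²)`: `R755.KF.L3aux.gen` with the sets `A`, `-A`, `P`
and the maps `x ↦ x - β`, `y ↦ y + β`, `id`: for `x ∈ A`, `y ∈ -A` the point `(x + y)/2` is in `P`.
(`lb A β` is the image of the uniform law of `-A` under `y ↦ y + β`.) Then `R755.KF.plh` (with
`R755.KF.zn_ok`). Note that `un = mP` (by `rfl`). -/
def T_PLB : Prop := ∀ (d : ℕ) (P A : Set (E d)), Bd P → A ⊆ P → Convex ℝ A → IsCompact A →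
  0 < volume A → ∀ (β : E d) (h : ℝ), 0 < h →
  PLH h ((volume P).toReal / (volume A).toReal - 1) (la A β) (lb A β)

/-! ### The affinity in the Gaussian channel -/

/-- ENT. The gradient estimate in its logarithmic form.
Proof. Let `S = √(zn a zn b)`, `∫ S = gc * aff` (positive). The proof of `R755.KF.T2aux.pointwise`
gives `S(y) exp (h/2 ‖sd y‖²) ≤ Zm(y)`, so `∫ S exp (h/2 ‖sd‖²) ≤ (1+η) gc`. With
`F = h/2 ‖sd‖²` (bounded: `‖sd y‖ ≤ B/h` by `S_ZN`), `a = (∫ S F)/(∫ S)`: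
`exp F ≥ exp a (1 + F - a)`, so `∫ S exp F ≥ exp a ∫ S`, that is
`a ≤ log ((1+η) gc / ∫ S) = log (1+η) - log aff`. Multiply by `aff`. -/
def T_ENT : Prop := ∀ (d : ℕ) (h B η : ℝ) (νa νb : Measure (E d)), 0 < h → 0 ≤ B → 0 ≤ η →
  PB B νa → PB B νb → PLH h η νa νb → 0 < aff h νa νb ∧ aff h νa νb ≤ 1 ∧
  h / 2 * fi h νa νb ≤ aff h νa νb * (Real.log (1 + η) - Real.log (aff h νa νb))

/-- SEMI. Semigroup property: the density for `h + δ` is the Gaussian average of that for `h`.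
Proof. Fubini and `‖x-z‖²/(2h) + ‖z-y‖²/(2δ) = ‖x-y‖²/(2(h+δ)) + (h+δ)/(2hδ) ‖z - z₀‖²` with
`z₀ = (δ x + h y)/(h+δ)`; `gc h = (√(2πh))^d` (or scaling), so
`gc(hδ/(h+δ)) gc(h+δ) = gc h gc δ`. Compare `R755.KF.G2aux.ker`, `conv`. -/
def T_SEMI : Prop := ∀ (d : ℕ) (h δ B : ℝ) (ν : Measure (E d)), 0 < h → 0 < δ → PB B ν →
  ∀ y, (gc (Fin d) (h + δ))⁻¹ * zn (h + δ) ν y = (gc (Fin d) h)⁻¹ * gs δ (zn h ν) y

/-- SIG. `σ` is a `C¹` Lipschitz function with the derivative `sd`, and `zn a = S exp (-σ)`,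
`zn b = S exp σ`. Proof. `S_ZN` (`R755.KF.zn_ok`): `zn` is `C¹`, positive, and
`‖∇zn/zn + y/h‖ ≤ B/h`, so `‖sd y‖ ≤ B/h`. -/
def T_SIG : Prop := ∀ (d : ℕ) (h B : ℝ) (νa νb : Measure (E d)), 0 < h → 0 ≤ B →
  PB B νa → PB B νb → ContDiff ℝ 1 (sg h νa νb) ∧ (∀ y, fderiv ℝ (sg h νa νb) y = sd h νa νb y) ∧
  (∀ y, ‖sd h νa νb y‖ ≤ B / h) ∧
  ∀ y, zn h νa y = Real.sqrt (zn h νa y * zn h νb y) * Real.exp (-sg h νa νb y) ∧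
    zn h νb y = Real.sqrt (zn h νa y * zn h νb y) * Real.exp (sg h νa νb y)

/-- HEA. Upper bound for the affinity at the time `h + δ`.
Proof. By `T_SEMI`, `aff (h+δ) = ∫ √(f_a' f_b')`, `f' = (gc h)⁻¹ gs δ (zn h ν)`. For each `y`,
`√(A B) ≤ (exp (σ y) A + exp (-σ y) B)/2`, and by `T_SIG` this is
`(gc h)⁻¹ gs δ (S cosh (σ · - σ y)) y`. Integrate in `y` and use Fubini (symmetry of the Gaussian
kernel, `gs δ φ x = (gc δ)⁻¹ ∫ φ(z) exp (-‖x-z‖²/(2δ)) dz`). Integrability: `S ≤ (zn a + zn b)/2` is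
integrable, `cosh (σ z - σ y) ≤ exp (B/h ‖z - y‖)`. -/
def T_HEA : Prop := ∀ (d : ℕ) (h B : ℝ) (νa νb : Measure (E d)), 0 < h → 0 ≤ B →
  PB B νa → PB B νb → ∀ δ : ℝ, 0 < δ →
  aff (h + δ) νa νb ≤ (gc (Fin d) h)⁻¹ * ∫ y, Real.sqrt (zn h νa y * zn h νb y) *
    gs δ (fun z => Real.cosh (sg h νa νb z - sg h νa νb y)) y

/-- LIM. The limit `δ → 0`.
Proof. Put `z = y + √δ w`: `gs δ (cosh (σ · - σ y)) y - 1 = E_w (cosh (σ(y+√δ w) - σ y) - 1)`, `w` a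
standard Gaussian vector. `(cosh t - 1) ≤ t²/2 cosh t`, `|σ(y+√δ w) - σ y| ≤ Λ √δ ‖w‖`: for `δ ≤ 1`
the quotient by `δ` is at most `Λ² ‖w‖²/2 cosh (Λ ‖w‖)`, integrable with respect to
`S(y) dy γ(dw)`; it converges to `(σ'(y) w)²/2`, with the Gaussian integral `‖σ'(y)‖²/2`. Dominated
convergence (for sequences `δ_n → 0`, or `tendsto_integral_filter_of_dominated_convergence`). -/
def T_LIM : Prop := ∀ (d : ℕ) (S σ : E d → ℝ) (Λ : ℝ), 0 ≤ Λ → Continuous S → (∀ y, 0 ≤ S y) →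
  Integrable S → ContDiff ℝ 1 σ → (∀ y, ‖fderiv ℝ σ y‖ ≤ Λ) → ∀ ε : ℝ, 0 < ε →
  ∃ δ0 : ℝ, 0 < δ0 ∧ ∀ δ : ℝ, 0 < δ → δ < δ0 →
    ∫ y, S y * gs δ (fun z => Real.cosh (σ z - σ y)) y ≤
      (∫ y, S y) + δ * (1 / 2 * (∫ y, S y * ‖fderiv ℝ σ y‖ ^ 2) + ε)

/-- HEAT. The upper right derivative of the affinity is at most `fi / 2`.
Proof. `T_HEA`, `T_LIM` (with `ε * gc`), `T_SIG`; `aff h = (gc h)⁻¹ ∫ S`. -/
def T_HEAT : Prop := ∀ (d : ℕ) (h B : ℝ) (νa νb : Measure (E d)), 0 < h → 0 ≤ B →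
  PB B νa → PB B νb → ∀ ε : ℝ, 0 < ε → ∃ δ0 : ℝ, 0 < δ0 ∧ ∀ δ : ℝ, 0 < δ → δ < δ0 →
  aff (h + δ) νa νb ≤ aff h νa νb + δ * (1 / 2 * fi h νa νb + ε)

/-- CALC. A lemma on one real variable.
Proof. Let `G(h) = h (b - log J(h))`, continuous on `(0, ∞)`. We show
`liminf_{δ → 0+} (G(h+δ) - G(h))/δ ≥ 0`, which implies that `G` is nondecreasing
(`image_le_of_liminf_slope_right_lt_deriv_boundary`, applied to `-G` and `x ↦ -G(a) + ε (x - a)`).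
`G(h+δ) - G(h) = δ (b - log J(h+δ)) - h (log J(h+δ) - log J(h))`, and
`log (J(h+δ)/J(h)) ≤ J(h+δ)/J(h) - 1 ≤ δ ((b - log J(h))/h + ε/J(h))`. So the difference is at least
`δ (log J(h) - log J(h+δ) - h ε / J(h))`, and `log J` is continuous. -/
def T_CALC : Prop := ∀ (J : ℝ → ℝ) (b : ℝ), ContinuousOn J (Ioi 0) → (∀ h, 0 < h → 0 < J h) →
  (∀ h, 0 < h → ∀ ε : ℝ, 0 < ε → ∃ δ0 : ℝ, 0 < δ0 ∧ ∀ δ : ℝ, 0 < δ → δ < δ0 →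
    J (h + δ) ≤ J h + δ * (J h * (b - Real.log (J h)) / h + ε)) →
  ∀ h H : ℝ, 0 < h → h ≤ H → h * (b - Real.log (J h)) ≤ H * (b - Real.log (J H))

/-- MON. Monotonicity: `h (log (1+η) - log aff h)` is nondecreasing.
Proof. `T_CALC` with `J h = aff h`, `b = log (1+η)`, `T_HEAT`, `T_ENT` and the continuity of the
affinity (`R755.KF.ct`). -/
def T_MON : Prop := ∀ (d : ℕ) (B η : ℝ) (νa νb : Measure (E d)), 0 ≤ B → 0 ≤ η →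
  PB B νa → PB B νb → (∀ h : ℝ, 0 < h → PLH h η νa νb) → ∀ h H : ℝ, 0 < h → h ≤ H →
  h * (Real.log (1 + η) - Real.log (aff h νa νb)) ≤ H * (Real.log (1 + η) - Real.log (aff H νa νb))

/-! ### Large times -/

/-- CHI. The total variation distance of the smoothed measures, by the chi-square method; `m` is a
finite measure of bounded support.
Proof. `F(y) = ∫ exp (-‖x-y‖²/(2H)) dm(x)`, `F'(y) = ∫ exp (-‖x+y‖²/(2H)) dm(x)`. By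
Cauchy-Schwarz `(∫ |F - F'|)² ≤ (∫ (F - F')² exp (‖y‖²/(2H))) (∫ exp (-‖y‖²/(2H)))`, and
`-‖x-y‖² - ‖x'-y‖² + ‖y‖² = 2⟪x,x'⟫ - ‖y - x - x'‖²`, so by Fubini the first factor is
`gc ∬ (2 exp T - 2 exp (-T)) = 4 gc ∬ sinh T`, `T = ⟪x, x'⟫/H`. -/
def T_CHI : Prop := ∀ (d : ℕ) (H R : ℝ) (m : Measure (E d)), 0 < H → IsFiniteMeasure m →
  (∀ᵐ x ∂m, ‖x‖ ≤ R) →
  Integrable (fun y => (∫ x, Real.exp (-(‖x - y‖ ^ 2 / (2 * H))) ∂m) -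
    ∫ x, Real.exp (-(‖x + y‖ ^ 2 / (2 * H))) ∂m) ∧
  (∫ y, |(∫ x, Real.exp (-(‖x - y‖ ^ 2 / (2 * H))) ∂m) -
    ∫ x, Real.exp (-(‖x + y‖ ^ 2 / (2 * H))) ∂m|) ^ 2 ≤
    4 * gc (Fin d) H ^ 2 * ∫ x, ∫ x', Real.sinh (⟪x, x'⟫_ℝ / H) ∂m ∂m

/-- SNH. The bound for the mean of `sinh T`, for the restriction of `ν` to a ball.
Proof. Let `A = {‖x‖ ≤ R}`, `R² = 1600 M d`. For `‖w‖ ≤ 1`: `⟪x,w⟫² ≤ 800 exp (|⟪x,w⟫|/20)`, so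
`∫ ⟪x,w⟫² dν ≤ 800 M`, `∫ ‖x‖² dν ≤ 800 M d` and `ν(A) ≥ 1/2` (Markov). The vector
`v = ∫_A x dν = -∫_{Aᶜ} x dν` has `‖v‖² ≤ 800 M * ν(Aᶜ) ≤ 400 M` (test against `v/‖v‖`). So
`∬_{A×A} T = ‖v‖²/H ≤ 400 M/H`. With `τ = 20 R/H ≤ 1`: `|sinh (τ u) - τ u| ≤ τ³ sinh |u|` (power
series; or `x ↦` derivatives), `T = τ u` with `u = ⟪x', x/R⟫/20`, so
`∬ |sinh T - T| ≤ τ³ M`. As `H ≥ 10⁴ M √d`, `M ≥ 1`: `400 M/H ≤ 1/25`, `τ ≤ 8/(100 √M)`,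
`τ³ M ≤ 1/1000`; total `≤ 1/16`. -/
def T_SNH : Prop := ∀ (d : ℕ) (H M B : ℝ) (ν : Measure (E d)), 1 ≤ d → 1 ≤ M →
  10 ^ 4 * M * Real.sqrt d ≤ H → PB B ν → (∀ w : E d, ∫ x, ⟪x, w⟫_ℝ ∂ν = 0) →
  (∀ w : E d, ‖w‖ ≤ 1 → ∫ x, Real.exp (|⟪x, w⟫_ℝ| / 20) ∂ν ≤ M) →
  ∃ A : Set (E d), MeasurableSet A ∧ 1 / 2 ≤ (ν A).toReal ∧
    ∫ x in A, ∫ x' in A, Real.sinh (⟪x, x'⟫_ℝ / H) ∂ν ∂ν ≤ 1 / 16

/-- BIG. The affinity of `ν` and its reflection is at least `1/4` for `H ≥ 10⁴ M √d`.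
Proof. `T_SNH`, `T_CHI` with `m = ν.restrict A`: `∫ |F - F'| ≤ 2 gc √(1/16) = gc/2`,
`∫ F = ∫ F' = gc ν(A) ≥ gc/2`, `min = (F + F' - |F - F'|)/2`, so `∫ min (F, F') ≥ gc/4`. Finally
`zn H ν ≥ F`, `zn H (ν.map neg) ≥ F'`, and `√(a b) ≥ min (a, b)`. -/
def T_BIG : Prop := ∀ (d : ℕ) (H M B : ℝ) (ν : Measure (E d)), 1 ≤ d → 1 ≤ M →
  10 ^ 4 * M * Real.sqrt d ≤ H → 0 ≤ B → PB B ν → (∀ w : E d, ∫ x, ⟪x, w⟫_ℝ ∂ν = 0) →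
  (∀ w : E d, ‖w‖ ≤ 1 → ∫ x, Real.exp (|⟪x, w⟫_ℝ| / 20) ∂ν ≤ M) →
  1 / 4 ≤ aff H ν (ν.map fun x => -x)

/-! ### From the affinity to a translation -/

/-- TAIL. Gaussian tails.
Proof. `∫_{‖u‖² > 4hd} exp (-‖u‖²/(2h)) ≤ exp (-d) ∫ exp (-‖u‖²/(4h)) = exp (-d) gc (2h)` and
`gc (2h) = 2^{d/2} gc h`; `(log 2)/2 ≤ 7/20`. -/
def T_TAIL : Prop := ∀ (d : ℕ) (h : ℝ), 0 < h →
  ∫ u in {u : E d | 2 * Real.sqrt (h * d) < ‖u‖}, Real.exp (-(‖u‖ ^ 2 / (2 * h))) ≤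
    Real.exp (-(13 / 20 * d)) * gc (Fin d) h

/-- MIN. `min (Σ a_j, Σ b_k) ≤ Σ_{j,k} min (a_j, b_k)` for nonnegative numbers.
Proof. If `Σ a ≤ Σ b =: B`: for each `j`, `Σ_k min (a_j, b_k) ≥ min (a_j, B) = a_j`. -/
def T_MIN : Prop := ∀ (ι : Type) (s : Finset ι) (a b : ι → ℝ), (∀ j, 0 ≤ a j) → (∀ j, 0 ≤ b j) →
  min (∑ j ∈ s, a j) (∑ j ∈ s, b j) ≤ ∑ j ∈ s, ∑ k ∈ s, min (a j) (b k)

/-- OVL. A translation with a large overlap.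
Proof. `f_a = (gc h)⁻¹ zn h (la A β)`, `f_b` similarly (probability densities), `p = exp (-2L)/2`.
(1) `exp (-2L) ≤ (∫ √(f_a f_b))² ≤ ∫ min (f_a, f_b) ∫ max (f_a, f_b) ≤ 2 ∫ min`. So `∫ min ≥ p`.
(2) Let `ρ = 2√(hd)`; split the Gaussian kernel at `‖x - y‖ ≤ ρ`: `f = f_in + f_out`,
`∫ f_out ≤ exp (-13d/20) ≤ exp (-2L)/16 = p/8` by `T_TAIL` (`2L ≤ d/4`, `d ≥ 7`). As
`min (a + a', b + b') ≤ min (a, b) + a' + b'`, `∫ min (f_in, f'_in) ≥ p/2`.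
(3) The ball of radius `ρ` is the disjoint union of measurable pieces `C_t`, `t ∈ S`, with
`gauge P (z - t) ≤ ε` on `C_t`. Let `a_t(y) = (gc h)⁻¹ ∫ 1[y - x ∈ C_t] exp (..) d(la)(x)`. By `T_MIN`
there are `t, t' ∈ S` with `∫ min (a_t, b_t') ≥ p/(2 N²)`, `N = #S`.
(4) Let `W` be the set of `x ∈ A` such that for some `y` with `y - (x - β) ∈ C_t` one has
`b_t'(y) > 0`; for `x ∈ W` there is `x' ∈ A` with `y - (β - x') ∈ C_t'`, so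
`gauge P (x + x' - 2β - (t' - t)) ≤ 2ε`. As `W` is not empty choose one such pair `(x1, x2)`,
`γ = x1 + x2`: for all `x ∈ W` there is `x' ∈ A` with `gauge P (x + x' - γ) ≤ 4ε`. And
`p/(2N²) ≤ ∫ a_t 1[b_t' > 0] ≤ mP A (V)`, `V = {x ∈ A | ∃ x' ∈ A, gauge P (x + x' - γ) ≤ 4ε}`
(compact). `p/(2N²) = exp (-2L)/(4N²)`. -/
def T_OVL : Prop := ∀ (d : ℕ) (P A : Set (E d)), 7 ≤ d → Bd P → A ⊆ P → Convex ℝ A → IsCompact A →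
  0 < volume A → ∀ (β : E d) (h L ε : ℝ), 0 < h → 0 ≤ L → 8 * L ≤ d → 0 < ε →
  Real.exp (-L) ≤ aff h (la A β) (lb A β) → ∀ S : Finset (E d),
  (∀ z : E d, ‖z‖ ≤ 2 * Real.sqrt (h * d) → ∃ t ∈ S, gauge P (z - t) ≤ ε) →
  ∃ x1 ∈ A, ∃ x2 ∈ A, ENNReal.ofReal (Real.exp (-(2 * L)) / (4 * (S.card : ℝ) ^ 2)) * volume A ≤
    volume {x | x ∈ A ∧ ∃ y ∈ A, gauge P (x + y - (x1 + x2)) ≤ 4 * ε}

/-- SUD. Dual Sudakov for the gauge and balls of radius `ρ`.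
Proof. `HypVol.Sol_EX_dual_sudakov.dual_sudakov` with `t = 2 l` (Markov:
`γ(gauge ≤ 2l) ≥ 1/2`), applied to `a = z/ρ`, `ε/ρ`; transfer between `Fin d → ℝ` with `gam` and
`E d` with the density. -/
def T_SUD : Prop := ∀ (d : ℕ) (P : Set (E d)), 1 ≤ d → Bd P → ∀ l : ℝ, 0 < l →
  gm (gauge P) ≤ l → ∀ ρ ε : ℝ, 0 < ρ → 0 < ε →
  ∃ S : Finset (E d), (S.card : ℝ) ≤ 2 * Real.exp (8 * l ^ 2 * ρ ^ 2 / ε ^ 2) ∧
    ∀ z : E d, ‖z‖ ≤ ρ → ∃ t ∈ S, gauge P (z - t) ≤ ε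

/-! ### From a translation to the derivative of the gauge -/

/-- BM. Small translations.
Proof. `V(τ) = |{x ∈ P | gauge P (x - τγ) ≤ 1 + ε'τ}|`, `V(0) = |P|`, `V(1) ≥ exp (-r) |P|`. The
midpoint Brunn-Minkowski inequality (`H815R2.Flat.bm_E`): `V(0) V(τ) ≤ V(τ/2)²` (if `x ∈ P` and
`x' ∈ P`, `g(x' - τγ) ≤ 1 + ε'τ`, then `g((x+x')/2 - (τ/2)γ) ≤ (1 + 1 + ε'τ)/2`). By induction
`V(2^(-k)) ≥ exp (-r 2^(-k)) |P| ≥ (1 - r 2^(-k)) |P|`. -/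
def T_BM : Prop := ∀ (d : ℕ) (P : Set (E d)), Bd P → ∀ (γ : E d) (r ε' : ℝ), 0 ≤ r → 0 ≤ ε' →
  ENNReal.ofReal (Real.exp (-r)) * volume P ≤ volume {x | x ∈ P ∧ gauge P (x - γ) ≤ 1 + ε'} →
  ∀ k : ℕ, volume {x | x ∈ P ∧ 1 + ε' * (1 / 2) ^ k < gauge P (x - (1 / 2 : ℝ) ^ k • γ)} ≤
    ENNReal.ofReal (r * (1 / 2) ^ k) * volume P

/-- WEAK. Weak type estimate for the derivative of the gauge (`g = gauge P`).
Proof. Let `C = {x | ε' + t ≤ -g'(x) γ}`; it is a cone (`g'(s x) = g'(x)`, `s > 0`), so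
`|{x ∈ C ∩ P | g x ≤ 1 - s}| = (1-s)^d |C ∩ P|`, `0 ≤ s < 1`. If `x ∈ C`, `g x > 1 - τ t`, `τ > 0`, then
`g (x - τγ) ≥ g x - τ g'(x) γ > 1 + ε'τ` (`TH591.Ns.fderiv_le`; `g` is differentiable at `x` as
`g'(x) γ ≠ 0`). So by the hypothesis `(1 - (1 - τt)^d) |C ∩ P| ≤ r τ |P|` for `τ = 2^(-k)`, `τ t ≤ 1`.
If `d t ≥ 1` choose `k` with `1/2 < d τ t ≤ 1`; then `1 - (1 - τt)^d ≥ 1 - exp (-dτt) ≥ (5/8) dτt`
(`1 - e^(-x) ≥ (1 - 1/e) x` on `[0,1]` by concavity), so `|C ∩ P| ≤ (8/5) r/(d t) |P|`. If `d t < 1`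
the claim is trivial. -/
def T_WEAK : Prop := ∀ (d : ℕ) (P : Set (E d)), 1 ≤ d → Bd P → ∀ (γ : E d) (r ε' : ℝ), 0 ≤ r →
  0 ≤ ε' → (∀ k : ℕ, volume {x | x ∈ P ∧ 1 + ε' * (1 / 2) ^ k <
    gauge P (x - (1 / 2 : ℝ) ^ k • γ)} ≤ ENNReal.ofReal (r * (1 / 2) ^ k) * volume P) →
  ∀ t : ℝ, 0 < t → volume {x | x ∈ P ∧ ε' + t ≤ -(fderiv ℝ (gauge P) x γ)} ≤
    ENNReal.ofReal (8 / 5 * (r + 1) / (d * t)) * volume P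

/-- SM. Second moment by integration of the weak type estimate.
Proof. `ψ(x) = g'(x) γ`, `|ψ| ≤ g(γ) ≤ 2`, `ψ(-x) = -ψ(x)`: `μ(|ψ| ≥ ε' + t) ≤ (16/5)(r+1)/(d t)`.
`ψ² ≤ 2ε'² + 2 ((|ψ| - ε')_+)²`, `E ((|ψ| - ε')_+)² = ∫_0^2 2t μ(|ψ| ≥ ε' + t) dt ≤ (64/5)(r+1)/d`. -/
def T_SM : Prop := ∀ (d : ℕ) (P : Set (E d)), 1 ≤ d → Bd P → ∀ (γ : E d) (r ε' : ℝ), 0 ≤ r →
  0 ≤ ε' → gauge P γ ≤ 2 →
  (∀ t : ℝ, 0 < t → volume {x | x ∈ P ∧ ε' + t ≤ -(fderiv ℝ (gauge P) x γ)} ≤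
    ENNReal.ofReal (8 / 5 * (r + 1) / (d * t)) * volume P) →
  ∫ z, (fderiv ℝ (gauge P) z γ) ^ 2 ∂(mP P) ≤ 2 * ε' ^ 2 + 128 / 5 * (r + 1) / d

/-- EIG. The top eigenvector.
Proof. `A(w) = E (g'(z) w)²` is a positive semidefinite quadratic form (`|g'(z) w| ≤ max (g w, g (-w))`
is bounded), `e` a maximum on the unit sphere, `λ = A(e)`. For `w ⊥ e` the bilinear form is
`A(e, w) = 0` (else `A(e + s w) > λ ‖e + s w‖²` for a small `s`), so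
`A(w) = λ ⟪w,e⟫² + A(w - ⟪w,e⟫ e) ≥ λ ⟪w,e⟫²`. -/
def T_EIG : Prop := ∀ (d : ℕ) (P : Set (E d)), 1 ≤ d → Bd P → ∃ (e : E d) (lam : ℝ), ‖e‖ = 1 ∧
  0 ≤ lam ∧ (∀ w : E d, ∫ z, (fderiv ℝ (gauge P) z w) ^ 2 ∂(mP P) ≤ lam * ‖w‖ ^ 2) ∧
  ∀ w : E d, lam * ⟪w, e⟫_ℝ ^ 2 ≤ ∫ z, (fderiv ℝ (gauge P) z w) ^ 2 ∂(mP P)

/-! ### The spread inequality -/

/-- LAM. The bound for the top eigenvalue with free parameters.
Proof. Let `e, λ` be from `T_EIG`, `A = hb P e`, `β` its barycentre, `η = |P|/|A| - 1`,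
`log (1 + η) ≤ log 10^10 ≤ 23.1` (`T_HALF`), `H = 10^26 √d`. By `T_HB`, `T_EXPM`, `T_BIG` with
`M = 10^22`: `aff H ≥ 1/4`. By `T_PLB`, `T_MON`: for `h ≤ H`,
`-log aff h ≤ (H/h)(log (1+η) + log 4) ≤ 25 * 10^26 √d / h = L`, where `8 L ≤ d` by hypothesis. `T_SUD`
with `ρ = 2√(hd)` gives `S` with `N ≤ 2 exp (32 l² h d/ε²)`; `T_OVL` gives `γ = x1 + x2`,
`⟪γ, e⟫ ≥ 1`, `gauge P γ ≤ 2`, and `{x ∈ A | ∃ y ∈ A, g(x + y - γ) ≤ 4ε} ⊆ {x ∈ P | g(x-γ) ≤ 1 + 4ε}`.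
So the hypothesis of `T_BM` is true with `ε' = 4ε` and
`r = log 10^10 + 2L + log 4 + 2 log 2 + 64 l² h d/ε² ≤ 26 + 2L + 64 l² h d/ε²`. By `T_WEAK`, `T_SM`:
`λ ≤ λ ⟪γ,e⟫² ≤ 32 ε² + (128/5)(r + 1)/d`. -/
def T_LAM : Prop := ∀ (d : ℕ) (P : Set (E d)) (l h ε : ℝ), 7 ≤ d → Bd P → Iso P → 0 < l →
  gm (gauge P) ≤ l → 0 < h → h ≤ 10 ^ 26 * Real.sqrt d → 0 < ε →
  8 * (25 * 10 ^ 26 * Real.sqrt d / h) ≤ d →
  ∀ w : E d, ∫ z, (fderiv ℝ (gauge P) z w) ^ 2 ∂(mP P) ≤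
    (32 * ε ^ 2 + 128 / 5 * (27 + 2 * (25 * 10 ^ 26 * Real.sqrt d / h) +
      64 * l ^ 2 * h * d / ε ^ 2) / d) * ‖w‖ ^ 2

/-- SPR. **The spread inequality.**
Proof. `T_LAM` with `s = l^{2/3} d^{-1/6}` (so `s⁶ = l⁴/d ≤ 10^(-180)`, `s ≤ 10^(-30)`), `ε² = s`,
`h = s²/l²` (`= l^{-2/3} d^{-1/3}`): `√d/h = d s` as `√d l² = d s³`. The constraints:
`200 * 10^26 d s ≤ d`, and `h ≤ 1`. Each `w` has the bound
`(32 s + (128/5)(27/d + 50 * 10^26 s + 64 s)) ‖w‖² ≤ 10^30 s ‖w‖²` (`1/d ≤ s`). Then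
`N555.RZ.spr_of_iso`. -/
def T_SPR : Prop := ∀ (d : ℕ) (P : Set (E d)) (l : ℝ), Bd P → Iso P → 1 ≤ l →
  gm (gauge P) ≤ l → 10 ^ 180 * l ^ 4 ≤ d →
  Spr P ((d : ℝ) ^ ((1 : ℝ) / 6) / (10 ^ 30 * l ^ ((2 : ℝ) / 3)))

/-! ### Zonoids -/

/-- norms equivalent to a norm of the form `∫ |⟪u, x⟫| dμ(x)` with the constant `C` -/
def ZC {d : ℕ} (C : ℝ) (g : E d → ℝ) : Prop := ∃ n : E d → ℝ, ZN n ∧ ∀ u, n u ≤ g u ∧ g u ≤ C * n u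

/-- ZIM. Linear images.
Proof. `gauge (A '' P) v = gauge P (A⁻¹ v)` (`N555.RZ.gauge_img`, `img_facts`) and
`n (A⁻¹ v) = ∫ |⟪A⁻¹ v, x⟫| dμ = ∫ |⟪v, A⁻ᵀ x⟫| dμ`: take the image of `μ` under the adjoint of
`A⁻¹`. -/
def T_ZIM : Prop := ∀ (d : ℕ) (C : ℝ) (P : Set (E d)) (A : E d ≃ₗ[ℝ] E d), Bd P →
  ZC C (gauge P) → Bd (A '' P) ∧ ZC C (gauge (A '' P))

/-- ZGM. The Gaussian mean of the gauge of a space close to a subspace of `L_1`.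
Proof. `gm (gauge P) ≤ C gm n = C ∫ E|⟪Z, x⟫| dμ ≤ C ∫ ‖x‖ dμ` (`E ⟪Z,x⟫² = ‖x‖²`). For the isotropic
`P` and `s = ⟪u, x⟫/‖x‖`: `|s| ≥ s²/a - s⁴/a³` for `a > 0`, so with `a = 5 * 10⁴` and `E s⁴ ≤ 160⁴`
(`mom_inner`), `E |s| ≥ 10^(-5)`. Thus `1 ≥ E_P gauge ≥ ∫ E_P |⟪u, x⟫| dμ ≥ 10^(-5) ∫ ‖x‖ dμ`. -/
def T_ZGM : Prop := ∀ (d : ℕ) (C : ℝ) (P : Set (E d)), 1 ≤ C → Bd P → Iso P → ZC C (gauge P) →
  gm (gauge P) ≤ 10 ^ 5 * C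

/-- ZCO. Cotype `2` of `L_1`.
Proof. Khinchine: for real `a_i`, `S = Σ δ_i a_i`, `v² = E S² = Σ a_i²`, `E |S| ≥ v/√3`: from
`E S⁴ ≤ 3 v⁴` and `|S| ≥ (3√3/2) (S²/(3v) - S⁴/(3v)³)` (or Hölder). So
`(E_δ n²)^{1/2} ≥ E_δ n(Σ δ_i x_i) = ∫ E_δ |Σ δ_i ⟪x_i, x⟫| dμ ≥ (1/√3) ∫ (Σ ⟪x_i,x⟫²)^{1/2} dμ
≥ (1/√3) (Σ (∫ |⟪x_i, x⟫| dμ)²)^{1/2}` (the last step: `ℓ_2`-norm of an integral, test against a unit
vector `c ∈ ℝ^m`: `Σ c_i ∫ |⟪x_i,x⟫| dμ ≤ ∫ (Σ ⟪x_i,x⟫²)^{1/2} dμ`). Then `n ≤ g ≤ C n`. -/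
def T_ZCO : Prop := ∀ (d : ℕ) (C : ℝ) (g : E d → ℝ), 1 ≤ C → ZC C g →
  ∀ (m : ℕ) (x : Fin m → E d), ∑ i, g (x i) ^ 2 ≤ (2 * C) ^ 2 *
    ((∑ δ : Fin m → Bool, g (∑ i, (if δ i then (1 : ℝ) else -1) • x i) ^ 2) / 2 ^ m)

/-- ZCV. Coverings of the unit balls of spaces close to subspaces of `L_1`.
Proof. `N555.RZ.exists_iso` gives `A` with `Iso (A '' P)`; `T_ZIM`, `T_ZGM`, `T_SPR` with
`l = 10⁵ C` (`10^180 l⁴ ≤ d` for `d ≥ d0` as `C^300 ≤ d`): `A '' P` and hence `P` (`spr_of_img`) is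
spread with `D = d^{1/6}/(10^30 (10^5 C)^{2/3})`. By `T_ZCO` the gauge of `P` has cotype `2` with the
constant `2C`, and `(10^7 * 2C * log (d+1))^(17*2) ≤ D` for `d ≥ d0` (`C^(34 + 2/3) ≤ d^{0.1156}`, and
`0.1156 < 1/6`): the theorem `Results.MP_eba1ef_gt.SpreadFiniteCotype.result` (third part). -/
def T_ZCV : Prop := ∃ d0 : ℕ, ∀ (d : ℕ) (C : ℝ) (P : Set (E d)), d0 ≤ d → 1 ≤ C →
  C ^ 300 ≤ d → Bd P → ZC C (gauge P) →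
  ∃ T : Finset (E d), P ⊆ ⋃ t ∈ T, (fun x => t + x) '' interior P ∧ T.card < 2 ^ d

/-- ZPO. The polar body of a body close to a zonoid. `K` is a convex body, symmetric about the
interior point `o`, and its support function about `o` is between `n` and `C n`.
Proof. `P = polarAt K o = {v | ∀ y ∈ K, ⟪v, y - o⟫ ≤ 1}` is compact and convex
(`TH591.Lie.polarAt_compact`, `polarAt_convex`), contains a neighbourhood of `0` (`K` is bounded). The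
maximum `H(u)` of `⟪u, y - o⟫` over `K` is even and positively homogeneous, `P = {H ≤ 1}`, and
`gauge P = H`. -/
def T_ZPO : Prop := ∀ (d : ℕ) (C : ℝ) (K : Set (E d)) (o : E d) (n : E d → ℝ), IsCompact K →
  Convex ℝ K → o ∈ interior K → (∀ x ∈ K, o + (o - x) ∈ K) → ZN n →
  (∀ u : E d, ∃ y ∈ K, n u ≤ ⟪u, y - o⟫_ℝ) → (∀ u : E d, ∀ y ∈ K, ⟪u, y - o⟫_ℝ ≤ C * n u) →
  Bd (Pool.Agent.TH591.Lie.polarAt K o) ∧ ZC C (gauge (Pool.Agent.TH591.Lie.polarAt K o))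

end Pool.Agent.T2h52.SP
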