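import Pool.Agent.T2h52.SP.Stm

/-!
# The spread inequality: explicit criterion and subspaces of `q`-concave lattices, statements
-/

set_option autoImplicit false

namespace Pool.Agent.T2h52.SP

open MeasureTheory Set Filter Topology
open scoped ENNReal InnerProductSpace Pointwise
open Pool.Agent.N555.RZ (mP Spr)

/-- the mean square over all signs of `g (± x_1 ± ... ± x_m)` -/
noncomputable def sm {d m : ℕ} (g : E d → ℝ) (x : Fin m → E d) : ℝ :=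
  (∑ δ : Fin m → Bool, g (∑ i, (if δ i then (1 : ℝ) else -1) • x i) ^ 2) / 2 ^ m

/-- `G` is a lattice (semi)norm on `ℝ^N`, `q`-concave with the constant `M` -/
structure LN (N : ℕ) (q M : ℝ) (G : (Fin N → ℝ) → ℝ) : Prop where
  add : ∀ a b, G (a + b) ≤ G a + G b
  smul : ∀ (c : ℝ) a, G (c • a) = |c| * G a
  mono : ∀ a b : Fin N → ℝ, (∀ j, |a j| ≤ |b j|) → G a ≤ G b
  conc : ∀ (m : ℕ) (v : Fin m → Fin N → ℝ), (∑ i, G (v i) ^ q) ^ (1 / q) ≤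
    M * G (fun j => (∑ i, |v i j| ^ q) ^ (1 / q))

/-- norms equivalent, with the constant `C`, to the norm of a subspace of a `q`-concave lattice -/
def LC {d : ℕ} (q M C : ℝ) (g : E d → ℝ) : Prop :=
  ∃ (N : ℕ) (G : (Fin N → ℝ) → ℝ) (x : Fin N → E d), LN N q M G ∧
    ∀ u, G (fun j => ⟪u, x j⟫_ℝ) ≤ g u ∧ g u ≤ C * G (fun j => ⟪u, x j⟫_ℝ)

/-- LLN. `q`-concavity for integrals.
Proof. `G` is continuous (`|G a - G b| ≤ G (a - b) ≤ Σ |a_j - b_j| G(e_j)`) and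
`G(V)^q ≤ (Σ |V_j| G(e_j))^q ≤ C Σ |V_j|^q` is integrable. Let `Z_1, Z_2, ...` be independent with
the law `μ` (product measure on sequences, `Measure.infinitePi` or `Measure.productMeasure`), and
`V(z) = (⟪z, x_j⟫)_j`. Strong law of large numbers (`ProbabilityTheory.strong_law_ae_real`) for
`G(V(Z_k))^q` and for `|⟪Z_k, x_j⟫|^q`, each `j`: almost surely
`(1/m) Σ_k G(V(Z_k))^q → ∫ G(V)^q dμ` and the averages of `|⟪Z_k, x_j⟫|^q` converge. The hypothesis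
`conc` divided by `m^{1/q}` (homogeneity of `G`) gives the inequality in the limit. -/
def T_LLN : Prop := ∀ (N d : ℕ) (q M : ℝ) (G : (Fin N → ℝ) → ℝ) (x : Fin N → E d), 1 ≤ q →
  0 ≤ M → LN N q M G → ∀ μ : Measure (E d), IsProbabilityMeasure μ →
  (∀ j, Integrable (fun z => |⟪z, x j⟫_ℝ| ^ q) μ) →
  Integrable (fun z => G (fun j => ⟪z, x j⟫_ℝ) ^ q) μ ∧
  (∫ z, G (fun j => ⟪z, x j⟫_ℝ) ^ q ∂μ) ^ (1 / q) ≤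
    M * G (fun j => (∫ z, |⟪z, x j⟫_ℝ| ^ q ∂μ) ^ (1 / q))

/-- LGM. The Gaussian mean of the gauge.
Proof. `n(u) = G(⟪u, x_j⟫)`. By `T_LLN` for the standard Gaussian measure (density
`(∫ exp (-‖y‖²/2))⁻¹ exp (-‖y‖²/2)`) and Jensen (`E n ≤ (E n^q)^{1/q}`):
`gm (gauge P) ≤ C gm n ≤ C M G((E |⟪Z, x_j⟫|^q)^{1/q}) ≤ C M (2 q) G(‖x_j‖)`, since
`|t|^q ≤ (q/e)^q e^{|t|}`, `E e^{|⟪Z, x⟫|/‖x‖} ≤ 2 e^{1/2} ≤ 3.3`. On the other hand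
`1 ≥ E_P gauge ≥ E_P G(|⟪u, x_j⟫|) ≥ G(E_P |⟪u, x_j⟫|)` (Jensen, `G` is convex and continuous:
`ConvexOn.map_integral_le`) `≥ 10^(-5) G(‖x_j‖)`, as `E_P |⟪u, x⟫| ≥ 10^(-5) ‖x‖` (see ZGM:
`|s| ≥ s²/a - s⁴/a³`, `a = 5 * 10⁴`, `E s⁴ ≤ 160⁴`). -/
def T_LGM : Prop := ∀ (d : ℕ) (q M C : ℝ) (P : Set (E d)), 2 ≤ q → 1 ≤ M → 1 ≤ C → Bd P →
  Iso P → LC q M C (gauge P) → gm (gauge P) ≤ 2 * 10 ^ 5 * q * M * C

/-- LCO. Cotype `q`.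
Proof. With `n(u) = G(⟪u, x_j⟫)`, `S_δ = Σ δ_i u_i`: `g(u_i) ≤ C n(u_i)` and
`(Σ n(u_i)^q)^{1/q} ≤ M G((Σ_i |⟪u_i, x_j⟫|^q)^{1/q}) ≤ M G((Σ_i ⟪u_i, x_j⟫²)^{1/2})` (the `ℓ_q`-norm
decreases in `q`) `≤ √3 M G(E_δ |⟪S_δ, x_j⟫|)` (Khinchine, see ZCO) `≤ √3 M E_δ n(S_δ)
≤ √3 M (E_δ n(S_δ)²)^{1/2} ≤ √3 M (E_δ g(S_δ)²)^{1/2}`. -/
def T_LCO : Prop := ∀ (d : ℕ) (q M C : ℝ) (g : E d → ℝ), 2 ≤ q → 1 ≤ M → 1 ≤ C → LC q M C g →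
  ∀ (m : ℕ) (x : Fin m → E d), (∑ i, g (x i) ^ q) ^ (1 / q) ≤ 2 * M * C * Real.sqrt (sm g x)

/-- LIA. Linear images. Proof. As ZIM: replace `x_j` by `A⁻ᵀ x_j`. -/
def T_LIA : Prop := ∀ (d : ℕ) (q M C : ℝ) (P : Set (E d)) (A : E d ≃ₗ[ℝ] E d), Bd P →
  LC q M C (gauge P) → Bd (A '' P) ∧ LC q M C (gauge (A '' P))

/-- CRT. The criterion. Proof. `T_SPR` for `A '' P`, `spr_of_img`, and the third part of
`Results.MP_eba1ef_gt.SpreadFiniteCotype.result` (`a = 1`; `sm` is `signMean`), with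
`D = d^{1/6}/(10^30 l^{2/3})`. (`d ≥ 10^180`.) -/
def T_CRT : Prop := ∀ (d : ℕ) (P : Set (E d)) (A : E d ≃ₗ[ℝ] E d) (l q B : ℝ), Bd P →
  Iso (A '' P) → gm (gauge (A '' P)) ≤ l → 1 ≤ l → 10 ^ 180 * l ^ 4 ≤ d → 2 ≤ q → 1 ≤ B →
  (∀ (m : ℕ) (x : Fin m → E d), (∑ i, gauge P (x i) ^ q) ^ (1 / q) ≤
    B * Real.sqrt (sm (gauge P) x)) →
  (10 ^ 7 * B * Real.log (d + 1)) ^ (17 * q) * (10 ^ 30 * l ^ ((2 : ℝ) / 3)) ≤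
    (d : ℝ) ^ ((1 : ℝ) / 6) →
  ∃ T : Finset (E d), P ⊆ ⋃ t ∈ T, (fun x => t + x) '' interior P ∧ T.card < 2 ^ d

/-- NUM. Numbers.
Proof. Let `X = 10^8 B log (d+1) ≥ 10^8`, `X^(120 q) ≤ d`. `10^7 * 2B * log (d+1) ≤ X`,
`10^30 ≤ X^{15/4}`, `q ≤ 2^q ≤ X^{q/26}`, `2 * 10^5 q B ≤ q X`, so the left side of the second claim is
at most `X^{17q + 15/4 + 2/3 + q/39} ≤ X^{20 q} ≤ d^{1/6}`, and
`10^180 (2 * 10^5 q B)^4 ≤ X^{45/2 + 4 + 4q/26} ≤ X^{120 q}`. -/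
def T_NUM : Prop := ∀ (d : ℕ) (q B : ℝ), 2 ≤ d → 2 ≤ q → 1 ≤ B →
  (10 ^ 8 * B * Real.log (d + 1)) ^ (120 * q) ≤ d →
  10 ^ 180 * (2 * 10 ^ 5 * q * B) ^ 4 ≤ d ∧
  (10 ^ 7 * (2 * B) * Real.log (d + 1)) ^ (17 * q) *
    (10 ^ 30 * (2 * 10 ^ 5 * q * B) ^ ((2 : ℝ) / 3)) ≤ (d : ℝ) ^ ((1 : ℝ) / 6)

/-- LPO. The polar body of a body the support function of which is between `n` and `C n`.
Proof. See ZPO. -/
def T_LPO : Prop := ∀ (d : ℕ) (C : ℝ) (K : Set (E d)) (o : E d) (n : E d → ℝ), IsCompact K →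
  Convex ℝ K → o ∈ interior K → (∀ x ∈ K, o + (o - x) ∈ K) →
  (∀ u : E d, ∃ y ∈ K, n u ≤ ⟪u, y - o⟫_ℝ) → (∀ u : E d, ∀ y ∈ K, ⟪u, y - o⟫_ℝ ≤ C * n u) →
  Bd (Pool.Agent.TH591.Lie.polarAt K o) ∧
    ∀ u, n u ≤ gauge (Pool.Agent.TH591.Lie.polarAt K o) u ∧
      gauge (Pool.Agent.TH591.Lie.polarAt K o) u ≤ C * n u

end Pool.Agent.T2h52.SP
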