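import Pool.Agent.T2h52.SP.Stm2

/-!
# The spread inequality: spaces of type `p > 4/3` and finite cotype, statements
-/

set_option autoImplicit false

namespace Pool.Agent.T2h52.SP

open MeasureTheory Set Filter Topology
open scoped ENNReal InnerProductSpace Pointwise
open Pool.Agent.N555.RZ (mP Spr)

/-- `g` has type `p` with the constant `T` -/
def TY {d : ℕ} (p T : ℝ) (g : E d → ℝ) : Prop := ∀ (m : ℕ) (x : Fin m → E d),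
  (∑ δ : Fin m → Bool, g (∑ i, (if δ i then (1 : ℝ) else -1) • x i)) / 2 ^ m ≤
    T * (∑ i, g (x i) ^ p) ^ (1 / p)

/-- PZD. Small ball estimate for directions (both signs).
Proof. As HALF: `s = ⟪x, w⟫`, `E s² = 1`, `E s⁴ ≤ 160⁴` (`N555.RZ.mom_inner`), Paley-Zygmund:
`μ(|s| ≥ 1/2) ≥ (9/16)/160⁴ ≥ 8 * 10^(-10)`. -/
def T_PZD : Prop := ∀ (d : ℕ) (P : Set (E d)), Bd P → Iso P → ∀ w : E d, ‖w‖ = 1 →
  8 / 10 ^ 10 ≤ (mP P {x | 1 / 2 ≤ |⟪x, w⟫_ℝ|}).toReal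

/-- BIN. Lower tail of the number of successes, for independent `X_i` with the law `μ`.
Proof. `A` measurable, `p = μ(A)`, `S = Σ 1_A(X_i)`: Markov for `exp (-S)`:
`P(S < p₁N/2) ≤ exp (p₁ N/2) E exp (-S) = exp (p₁N/2) (1 - p (1 - 1/e))^N
≤ exp (N (p₁/2 - p₁ (1 - 1/e))) ≤ exp (-p₁N/8)`. The product: `lintegral`/`integral` of a product of
functions of the coordinates on `Measure.pi`. -/
def T_BIN : Prop := ∀ (d N : ℕ) (μ : Measure (E d)) (A : Set (E d)) (p₁ : ℝ),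
  IsProbabilityMeasure μ → MeasurableSet A → 0 ≤ p₁ → p₁ ≤ (μ A).toReal →
  (Measure.pi (fun _ : Fin N => μ) {X | (∑ i, A.indicator (fun _ => (1 : ℝ)) (X i)) <
    p₁ * N / 2}).toReal ≤ Real.exp (-(p₁ * N / 8))

/-- NET. Nets of the unit sphere (or ball).
Proof. A maximal `δ`-separated subset of the unit sphere; volumes of the disjoint balls of radius
`δ/2` in the ball of radius `1 + δ/2` (search the library and Mathlib). -/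
def T_NET : Prop := ∀ (d : ℕ) (δ : ℝ), 1 ≤ d → 0 < δ → δ ≤ 1 → ∃ S : Finset (E d),
  (∀ s ∈ S, ‖s‖ = 1) ∧ (S.card : ℝ) ≤ (3 / δ) ^ d ∧ ∀ w : E d, ‖w‖ = 1 → ∃ s ∈ S, ‖w - s‖ ≤ δ

/-- SMP. Sampling: about `d log d` points of `P` with a large covariance.
Proof. `X_1, ..., X_N` independent, uniform in `P` (`Measure.pi (fun _ => mP P)`),
`N = ⌈10^12 d L⌉`, `L = log (d+1)`, `p₁ = 8/10^10`, `δ = 1/(40 √(dN))`, `S` the net of `T_NET`.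
(a) `E ‖X‖² = d` (`Iso`), so `P(∃ i, ‖X_i‖ > 10 √(dN)) ≤ 1/100` (Markov).
(b) For `s ∈ S`: `P(#{i : |⟪X_i, s⟫| ≥ 1/2} < p₁N/2) ≤ exp (-p₁N/8)` (`T_BIN`, `T_PZD`), and
`#S exp (-p₁N/8) ≤ (120 √(dN))^d exp (-p₁N/8) ≤ 1/2`: `log (120 √(dN)) ≤ 20 L`,
`p₁N/8 ≥ 100 d L`. So with positive probability neither (a) nor (b) happens; then for each unit
vector `w` choose `s` with `‖w - s‖ ≤ δ`: for at least `p₁N/2` indices
`|⟪X_i, w⟫| ≥ 1/2 - 10 √(dN) δ = 1/4`, so `Σ ⟪X_i, w⟫² ≥ p₁N/32`. -/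
def T_SMP : Prop := ∀ (d : ℕ) (P : Set (E d)), 2 ≤ d → Bd P → Iso P → ∃ (N : ℕ) (x : Fin N → E d),
  1 ≤ N ∧ (N : ℝ) ≤ 2 * 10 ^ 12 * (d * Real.log (d + 1)) ∧ (∀ i, x i ∈ P) ∧
  ∀ w : E d, 8 / 10 ^ 10 / 32 * N * ‖w‖ ^ 2 ≤ ∑ i, ⟪x i, w⟫_ℝ ^ 2

/-- GMO. Monotonicity of Gaussian means.
Proof. (1) For a convex even `g` of linear growth, an orthonormal basis `b_j` and `r_j ≥ a ≥ 0`:
`E g(Σ r_j z_j b_j) ≥ E g(a Σ z_j b_j)`: replace the `r_j` by `a` one after the other; for fixed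
`y`, `r ↦ E_{z_j} g(y + r z_j b_j)` is convex and even, so nondecreasing for `r ≥ 0`.
(2) Let `T : ℝ^N → ℝ^d`, `T G = Σ G_i x_i`, with `T Tᵀ ≥ a² I`. Singular value decomposition or the
spectral theorem for `T Tᵀ = Σ r_j² b_j b_jᵀ`, `r_j ≥ a`: `T G` has the law of `Σ r_j z_j b_j` (both
are centred Gaussian vectors with the covariance `T Tᵀ`; compare characteristic functions, or use the
isometry `U` with `T = R U`). `gm` is the mean for the standard Gaussian measure; `a gm g = gm (g (a ·))`.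
The statement uses `gm` on `E N` for the Gaussian sequence. -/
def T_GMO : Prop := ∀ (d N : ℕ) (P : Set (E d)) (x : Fin N → E d) (a : ℝ), Bd P → 0 ≤ a →
  (∀ w : E d, a ^ 2 * ‖w‖ ^ 2 ≤ ∑ i, ⟪x i, w⟫_ℝ ^ 2) →
  a * gm (gauge P) ≤ gm (fun G : E N => gauge P (∑ i, G i • x i))

/-- TYG. Gaussian type from type.
Proof. The Gaussian measure is invariant under sign changes, so the left side is
`E_G E_δ g(Σ δ_i G_i x_i) ≤ T E_G (Σ |G_i|^p g(x_i)^p)^{1/p} ≤ T (Σ E|G_i|^p g(x_i)^p)^{1/p}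
≤ T (Σ g(x_i)^p)^{1/p}` (Jensen for the concave function `t^{1/p}`; `E |G_i|^p ≤ 1` for `p ≤ 2`), and
`g(x_i) ≤ 1` for `x_i ∈ P`. -/
def T_TYG : Prop := ∀ (d N : ℕ) (P : Set (E d)) (x : Fin N → E d) (p T : ℝ), Bd P → 1 ≤ p →
  p ≤ 2 → 0 ≤ T → TY p T (gauge P) → (∀ i, x i ∈ P) →
  gm (fun G : E N => gauge P (∑ i, G i • x i)) ≤ T * (N : ℝ) ^ (1 / p)

/-- TGM. The Gaussian mean of the gauge for spaces of type `p`.
Proof. `T_SMP`, `T_GMO` with `a² = N/(4 * 10^10)` (`8/10^10/32 = 1/(4 * 10^10)`), `T_TYG`: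
`gm ≤ 2 * 10^5 T N^{1/p - 1/2} ≤ 2 * 10^5 T (2 * 10^12 d L)^{1/p - 1/2}`, and
`(2 * 10^12)^{1/4} ≤ 1200`, `1/p - 1/2 ≤ 1/4`. -/
def T_TGM : Prop := ∀ (d : ℕ) (P : Set (E d)) (p T : ℝ), 2 ≤ d → Bd P → Iso P → 4 / 3 ≤ p →
  p ≤ 2 → 1 ≤ T → TY p T (gauge P) →
  gm (gauge P) ≤ 3 * 10 ^ 8 * T * (d * Real.log (d + 1)) ^ (1 / p - 1 / 2)

/-- TNU. Numbers.
Proof. `L = log (d+1) ≥ 1`, `X = 10^8 T B L`, `X^(120 q) ≤ d^κ`, `κ = 3 - 4/p ∈ (0, 1]`,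
`l = 3 * 10^8 T (dL)^{1/p-1/2}`. `l⁴ = 81 * 10^32 T⁴ (dL)^{1-κ}` (as `4/p - 2 = 1 - κ`), so the first
claim follows from `10^214 T⁴ L ≤ X^{31} ≤ X^(120 q) ≤ d^κ`. `l^{2/3} ≤ 10^6 T^{2/3} L^{1/6} d^{(1-κ)/6}`,
so the second follows from `(10^7 B L)^{17q} 10^36 T^{2/3} L^{1/6} ≤ X^{17 q + 9/2 + 2/3} ≤ X^{20 q} ≤
d^{κ/6}`. -/
def T_TNU : Prop := ∀ (d : ℕ) (p q T B : ℝ), 2 ≤ d → 4 / 3 < p → p ≤ 2 → 2 ≤ q → 1 ≤ T → 1 ≤ B →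
  (10 ^ 8 * T * B * Real.log (d + 1)) ^ (120 * q) ≤ (d : ℝ) ^ (3 - 4 / p) →
  1 ≤ 3 * 10 ^ 8 * T * (d * Real.log (d + 1)) ^ (1 / p - 1 / 2) ∧
  10 ^ 180 * (3 * 10 ^ 8 * T * (d * Real.log (d + 1)) ^ (1 / p - 1 / 2)) ^ 4 ≤ d ∧
  (10 ^ 7 * B * Real.log (d + 1)) ^ (17 * q) *
    (10 ^ 30 * (3 * 10 ^ 8 * T * (d * Real.log (d + 1)) ^ (1 / p - 1 / 2)) ^ ((2 : ℝ) / 3)) ≤
    (d : ℝ) ^ ((1 : ℝ) / 6)

/-- TYI. Type is invariant under linear images. Proof. `gauge (A '' P) (A u) = gauge P u`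
(`N555.RZ.gauge_img`); linearity. -/
def T_TYI : Prop := ∀ (d : ℕ) (P : Set (E d)) (A : E d ≃ₗ[ℝ] E d) (p T : ℝ), Bd P →
  TY p T (gauge P) → Bd (A '' P) ∧ TY p T (gauge (A '' P))

end Pool.Agent.T2h52.SP
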