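import Pool.Agent.T2h52.SP.Stm
import Pool.Agent.N555.RZ.MainB
import Pool.Agent.N555.RZ.Iso

/-!
# Task ZCV
-/

set_option autoImplicit false

namespace Pool.Agent.T2h52.SP

open MeasureTheory Set Filter Topology
open scoped ENNReal InnerProductSpace Pointwise
open Pool.Agent.N555.RZ (mP Spr)

namespace ZCV

theorem exists_d0 : ∃ d0 : ℕ, ∀ d : ℕ, d0 ≤ d → 2 ≤ d ∧ 10 ^ 180 * ((10 : ℝ) ^ 5) ^ 4 ≤ d ∧
    (10 ^ 7 * 2 * Real.log ((d : ℝ) + 1)) ^ ((17 : ℝ) * 2) ≤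
      (d : ℝ) ^ ((1 : ℝ) / 6) / (10 ^ 30 * ((10 : ℝ) ^ 5) ^ ((2 : ℝ) / 3)) := by
  set B : ℝ := 10 ^ 30 * ((10 : ℝ) ^ 5) ^ ((2 : ℝ) / 3) with hB
  have hB0 : 0 < B := by positivity
  set A : ℝ := ((10 : ℝ) ^ 7 * 2) ^ ((17 : ℝ) * 2) with hA
  have hA0 : 0 < A := by positivity
  have h1 := isLittleO_log_rpow_rpow_atTop ((17 : ℝ) * 2) (show (0 : ℝ) < 1 / 6 by norm_num)
  have h2 := h1.def (show 0 < (2 * A * B)⁻¹ by positivity)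
  have h3 : ∀ᶠ d : ℕ in atTop, ‖Real.log ((d : ℝ) + 1) ^ ((17 : ℝ) * 2)‖ ≤
      (2 * A * B)⁻¹ * ‖((d : ℝ) + 1) ^ ((1 : ℝ) / 6)‖ :=
    (tendsto_atTop_add_const_right _ 1 tendsto_natCast_atTop_atTop).eventually h2
  have h4 : ∀ᶠ d : ℕ in atTop, 10 ^ 180 * ((10 : ℝ) ^ 5) ^ 4 ≤ d :=
    tendsto_natCast_atTop_atTop.eventually (eventually_ge_atTop _)
  obtain ⟨d0, hd0⟩ := eventually_atTop.1 ((h3.and h4).and (eventually_ge_atTop 2))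
  refine ⟨d0, fun d hd => ?_⟩
  obtain ⟨⟨e1, e2⟩, e3⟩ := hd0 d hd
  refine ⟨e3, e2, ?_⟩
  have hd1 : (2 : ℝ) ≤ d := by exact_mod_cast e3
  have hlog : 0 ≤ Real.log ((d : ℝ) + 1) := Real.log_nonneg (by linarith)
  rw [Real.norm_of_nonneg (Real.rpow_nonneg hlog _),
    Real.norm_of_nonneg (Real.rpow_nonneg (by linarith) _)] at e1
  rw [Real.mul_rpow (by positivity) hlog, ← hA, le_div_iff₀ hB0]
  have e4 : ((d : ℝ) + 1) ^ ((1 : ℝ) / 6) ≤ 2 * (d : ℝ) ^ ((1 : ℝ) / 6) := by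
    have f1 : ((d : ℝ) + 1) ^ ((1 : ℝ) / 6) ≤ (2 * (d : ℝ)) ^ ((1 : ℝ) / 6) :=
      Real.rpow_le_rpow (by linarith) (by linarith) (by norm_num)
    have f2 : (2 : ℝ) ^ ((1 : ℝ) / 6) ≤ 2 ^ (1 : ℝ) :=
      Real.rpow_le_rpow_of_exponent_le (by norm_num) (by norm_num)
    rw [Real.rpow_one] at f2
    rw [Real.mul_rpow (by norm_num) (by linarith)] at f1
    exact f1.trans (mul_le_mul_of_nonneg_right f2 (Real.rpow_nonneg (by linarith) _))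
  calc A * Real.log ((d : ℝ) + 1) ^ ((17 : ℝ) * 2) * B
      ≤ A * ((2 * A * B)⁻¹ * (2 * (d : ℝ) ^ ((1 : ℝ) / 6))) * B := by
        gcongr
        exact e1.trans (by gcongr)
    _ = (d : ℝ) ^ ((1 : ℝ) / 6) := by field_simp

end ZCV

/-- Coverings of the unit balls of subspaces of `L_1`. -/
theorem zcv (hSPR : T_SPR) (hZIM : T_ZIM) (hZGM : T_ZGM) (hZCO : T_ZCO) : T_ZCV := by
  obtain ⟨d0, hd0⟩ := ZCV.exists_d0
  refine ⟨d0, fun d P hd hP hg => ?_⟩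
  obtain ⟨h2, h180, hlog⟩ := hd0 d hd
  have hP0 : P ∈ nhds (0 : E d) := mem_interior_iff_mem_nhds.mp hP.int
  obtain ⟨A, hA⟩ := Pool.Agent.N555.RZ.exists_iso hP.comp hP0
  obtain ⟨hAP, hAg⟩ := hZIM d P A hP hg
  have hspr1 := hSPR d (A '' P) (10 ^ 5) hAP hA (by norm_num) (hZGM d _ hAP hA hAg) h180
  have hspr := Pool.Agent.N555.RZ.spr_of_img hP.comp A _ hspr1
  refine Pool.Agent.N555.RZ.mainC _ h2 hP.conv hP.comp hP.int hP.sym hspr 2 2 le_rfl (by norm_num)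
    (fun m x => ?_) hlog
  have h3 := hZCO d (gauge P) hg m x
  set S : ℝ := (∑ δ : Fin m → Bool, gauge P (∑ i, (if δ i then (1 : ℝ) else -1) • x i) ^ 2) / 2 ^ m
    with hS
  have h4 : (∑ i, gauge P (x i) ^ (2 : ℝ)) = ∑ i, gauge P (x i) ^ 2 :=
    Finset.sum_congr rfl fun i _ => by rw [← Real.rpow_natCast]; norm_num
  rw [h4, ← Real.sqrt_eq_rpow]
  have h5 : Real.sqrt (∑ i, gauge P (x i) ^ 2) ≤ Real.sqrt (4 * S) := Real.sqrt_le_sqrt h3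
  rw [Real.sqrt_mul (by norm_num), show (4 : ℝ) = 2 ^ 2 by norm_num,
    Real.sqrt_sq (by norm_num)] at h5
  exact h5

end Pool.Agent.T2h52.SP
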