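import Pool.Agent.T2h52.SP.Stm

/-!
# Task ZIM
-/

set_option autoImplicit false

namespace Pool.Agent.T2h52.SP

open MeasureTheory Set Filter Topology
open scoped ENNReal InnerProductSpace Pointwise
open Pool.Agent.N555.RZ (mP Spr)

/-- Linear images. -/
theorem zim : T_ZIM := by
  intro d C P A hP hg
  have hAc : Continuous A := A.toContinuousLinearEquiv.continuous
  refine ⟨⟨?_, hP.comp.image hAc, ?_, ?_⟩, ?_⟩
  · exact hP.conv.linear_image A.toLinearMap
  · have hint : interior (A '' P) = A '' interior P :=
      (A.toContinuousLinearEquiv.toHomeomorph.image_interior P).symm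
    rw [hint]
    exact ⟨0, hP.int, map_zero A⟩
  · rintro _ ⟨x, hx, rfl⟩
    exact ⟨-x, hP.sym x hx, map_neg A x⟩
  · obtain ⟨n, ⟨μ, hμ, hi, hgu⟩, hb⟩ := hg
    refine ⟨fun u => n (A.symm u), ?_, fun u => ?_⟩
    swap
    · have h1 := Pool.Agent.N555.RZ.gauge_img (K := P) A (A.symm u)
      rw [A.apply_symm_apply] at h1
      rw [h1]
      exact hb (A.symm u)
    set B : E d →ₗ[ℝ] E d := LinearMap.adjoint (A.symm : E d →ₗ[ℝ] E d) with hB
    have hBc : Continuous B := B.continuous_of_finiteDimensional
    have hBm : Measurable B := hBc.measurable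
    refine ⟨μ.map B, ?_, ?_, fun u => ?_⟩
    · exact Measure.isFiniteMeasure_map μ B
    · rw [integrable_map_measure continuous_norm.aestronglyMeasurable hBm.aemeasurable]
      have hb : ∀ x, ‖B x‖ ≤ ‖B.toContinuousLinearMap‖ * ‖x‖ := fun x =>
        B.toContinuousLinearMap.le_opNorm x
      refine (hi.const_mul ‖B.toContinuousLinearMap‖).mono'
        (continuous_norm.comp hBc).aestronglyMeasurable ?_
      refine Eventually.of_forall fun x => ?_
      rw [Function.comp_apply, norm_norm]
      exact hb x
    · show n (A.symm u) = _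
      rw [hgu, integral_map hBm.aemeasurable (by
        have : Continuous fun x : E d => |⟪u, x⟫_ℝ| := by fun_prop
        exact this.aestronglyMeasurable)]
      congr 1
      funext x
      rw [hB, LinearMap.adjoint_inner_right]
      rfl

end Pool.Agent.T2h52.SP
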