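import Pool.Agent.T2h52.SP.Stm

/-!
# Task ZPO
-/

set_option autoImplicit false

namespace Pool.Agent.T2h52.SP

open MeasureTheory Set Filter Topology
open scoped ENNReal InnerProductSpace Pointwise
open Pool.Agent.TH591.Lie (polarAt polarAt_convex polarAt_compact)

/-- The polar body of a zonoid. -/
theorem zpo : T_ZPO := by
  intro d K o μ hK _ ho hμ hi hH
  set H : E d → ℝ := fun u => ∫ x, |⟪u, x⟫_ℝ| ∂μ with hHdef
  have hmem : ∀ v, v ∈ polarAt K o ↔ H v ≤ 1 := by
    intro v
    constructor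
    · intro hv
      obtain ⟨y, hy, hyv⟩ := (hH v).1
      show (∫ x, |⟪v, x⟫_ℝ| ∂μ) ≤ 1
      rw [← hyv]
      exact hv y hy
    · intro hv y hy
      exact ((hH v).2 ⟨y, hy, rfl⟩).trans hv
  have hneg : ∀ v, H (-v) = H v := by
    intro v
    simp only [hHdef, inner_neg_left, abs_neg]
  have hsm : ∀ (r : ℝ) (_ : 0 ≤ r) v, H (r • v) = r * H v := by
    intro r hr v
    simp only [hHdef, real_inner_smul_left, abs_mul, abs_of_nonneg hr]
    rw [integral_const_mul]
  have hnn : ∀ v, 0 ≤ H v := fun v => integral_nonneg fun x => abs_nonneg _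
  have hint : (0 : E d) ∈ interior (polarAt K o) := by
    obtain ⟨R, hR⟩ : ∃ R : ℝ, ∀ y ∈ K, ‖y - o‖ ≤ R := by
      obtain ⟨R, hR⟩ := hK.isBounded.subset_closedBall o
      exact ⟨R, fun y hy => by simpa [dist_eq_norm] using hR hy⟩
    have hR0 : 0 ≤ R := (norm_nonneg _).trans (hR o (interior_subset ho))
    rw [mem_interior]
    refine ⟨Metric.ball 0 (1 / (R + 1)), ?_, Metric.isOpen_ball, by simp; positivity⟩
    intro v hv y hy
    rw [mem_ball_zero_iff] at hv
    calc ⟪v, y - o⟫_ℝ ≤ ‖v‖ * ‖y - o‖ := real_inner_le_norm _ _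
      _ ≤ 1 / (R + 1) * R := by
          gcongr
          exact hR y hy
      _ ≤ 1 := by
          rw [div_mul_eq_mul_div, one_mul, div_le_one (by positivity)]
          linarith
  refine ⟨⟨polarAt_convex K o, polarAt_compact K o ho, hint, fun x hx => ?_⟩,
    μ, hμ, hi, fun u => ?_⟩
  · rw [hmem] at hx ⊢
    rw [hneg]
    exact hx
  · show gauge (polarAt K o) u = H u
    have hsc : ∀ b : ℝ, 0 < b → (u ∈ b • polarAt K o ↔ H u ≤ b) := by
      intro b hb
      rw [Set.mem_smul_set_iff_inv_smul_mem₀ hb.ne', hmem, hsm _ (inv_nonneg.2 hb.le),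
        inv_mul_le_iff₀ hb, mul_one]
    refine le_antisymm (le_of_forall_pos_le_add fun ε hε => ?_) ?_
    · have h1 : 0 < H u + ε := by linarith [hnn u]
      exact gauge_le_of_mem h1.le ((hsc _ h1).2 (by linarith))
    · by_contra hcon
      push Not at hcon
      have habs : Absorbent ℝ (polarAt K o) :=
        absorbent_nhds_zero (mem_interior_iff_mem_nhds.1 hint)
      obtain ⟨b, hb, hb1, hb2⟩ := exists_lt_of_gauge_lt habs hcon
      exact absurd ((hsc b hb).1 hb2) (not_le.2 hb1)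

end Pool.Agent.T2h52.SP
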